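import Pool.Agent.LibPtt90.Static

/-!
Counting the used blocks of a level.
-/

open Finset Function

namespace Pool.Agent.LibPtt90

open Classical in
theorem level_count {L : ℕ} (hL : 0 < L) (Wt : Finset (List Bool × List Bool))
    (B : List Bool → Prop)
    (h1 : ∀ q ∈ Wt, q.1 ∈ strs (2 ^ L) ∧ ∃ i ≤ 2 ^ L + 1, q.2 ∈ nb L i q.1)
    (h2 : ∀ q ∈ Wt, ∀ q' ∈ Wt, q.1 = q'.1 → ¬ B q.2 → ¬ B q'.2 → q.2 = q'.2)
    (h3 : ∀ q ∈ Wt, ∀ i i', q.2 ∈ nb L i q.1 → i < i' → i' ≤ 2 ^ L + 1 →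
      ∀ β ∈ nb L i' q.1, B β ∨ ∃ e, (e, β) ∈ Wt)
    (h4 : ∀ i ≤ 2 ^ L + 1, 32 * #{β ∈ strs (L * (2 * i + 1)) | B β} ≤ 2 ^ (L * (2 * i + 1))) :
    ∀ i ≤ 2 ^ L + 1,
      8 * #{β ∈ strs (L * (2 * i + 1)) | B β ∨ ∃ e, (e, β) ∈ Wt} ≤ 2 ^ (L * (2 * i + 1)) := by
  -- the entries of a level that are not burned
  let W : ℕ → Finset (List Bool × List Bool) := fun i =>
    Wt.filter fun q => q.2.length = L * (2 * i + 1) ∧ ¬ B q.2
  let E : ℕ → Finset (List Bool) := fun i => (W i).image Prod.fst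
  have hWE : ∀ i, #(W i) = #(E i) := by
    intro i
    refine (card_image_of_injOn ?_).symm
    intro q hq q' hq' h
    have hq := mem_filter.1 (mem_coe.1 hq)
    have hq' := mem_filter.1 (mem_coe.1 hq')
    exact Prod.ext h (h2 q hq.1 q' hq'.1 h hq.2.2 hq'.2.2)
  have hUB : ∀ i, #{β ∈ strs (L * (2 * i + 1)) | B β ∨ ∃ e, (e, β) ∈ Wt} ≤
      #{β ∈ strs (L * (2 * i + 1)) | B β} + #(E i) := by
    intro i
    have hsub : ({β ∈ strs (L * (2 * i + 1)) | B β ∨ ∃ e, (e, β) ∈ Wt} : Finset (List Bool)) ⊆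
        {β ∈ strs (L * (2 * i + 1)) | B β} ∪ (W i).image Prod.snd := by
      intro β hβ
      obtain ⟨hβ1, hβ2⟩ := mem_filter.1 hβ
      by_cases hB : B β
      · exact mem_union_left _ (mem_filter.2 ⟨hβ1, hB⟩)
      · rcases hβ2 with hβ2 | ⟨e, he⟩
        · exact absurd hβ2 hB
        · refine mem_union_right _ (mem_image.2 ⟨(e, β), mem_filter.2 ⟨he, ?_, hB⟩, rfl⟩)
          exact mem_strs.1 hβ1
    refine (card_le_card hsub).trans ((card_union_le _ _).trans ?_)
    refine Nat.add_le_add_left ?_ _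
    rw [← hWE i]
    exact card_image_le
  have hEs : ∀ i, E i ⊆ strs (2 ^ L) := by
    intro i e he
    obtain ⟨q, hq, rfl⟩ := mem_image.1 he
    exact (h1 q (mem_filter.1 hq).1).1
  -- the step
  have step : ∀ i ≤ 2 ^ L + 1, 16 * #(E i) ≤ 2 ^ (L * (2 * i + 1)) →
      8 * #{β ∈ strs (L * (2 * i + 1)) | B β ∨ ∃ e, (e, β) ∈ Wt} ≤ 2 ^ (L * (2 * i + 1)) := by
    intro i hi hE
    have ha := hUB i
    have hb := h4 i hi
    omega
  have main : ∀ k ≤ 2 ^ L + 1,
      8 * #{β ∈ strs (L * (2 * (2 ^ L + 1 - k) + 1)) | B β ∨ ∃ e, (e, β) ∈ Wt} ≤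
        2 ^ (L * (2 * (2 ^ L + 1 - k) + 1)) := by
    intro k
    induction k with
    | zero =>
      intro _
      rw [Nat.sub_zero]
      apply step _ le_rfl
      have hc : #(E (2 ^ L + 1)) ≤ 2 ^ 2 ^ L := by
        refine (card_le_card (hEs _)).trans ?_
        rw [card_strs]
      have hp : 2 ^ L + 4 ≤ L * (2 * (2 ^ L + 1) + 1) := by
        have : 1 ≤ 2 ^ L := Nat.one_le_two_pow
        nlinarith
      calc 16 * #(E (2 ^ L + 1)) ≤ 16 * 2 ^ 2 ^ L := Nat.mul_le_mul_left _ hc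
        _ = 2 ^ (2 ^ L + 4) := by rw [pow_add]; ring
        _ ≤ _ := Nat.pow_le_pow_right (by norm_num) hp
    | succ k ih =>
      intro hk
      have ih := ih (by omega)
      obtain ⟨i, hi⟩ : ∃ i, 2 ^ L + 1 - (k + 1) = i := ⟨_, rfl⟩
      have hi' : 2 ^ L + 1 - k = i + 1 := by omega
      rw [hi] at *
      rw [hi'] at ih
      apply step i (by omega)
      by_contra hcon
      have hcon : 2 ^ (L * (2 * i + 1)) < 16 * #(E i) := not_le.1 hcon
      have hexp := nb_expand hL (E i) (hEs i) hcon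
      have hsub : ((E i).biUnion fun e => (nb L (i + 1) e).toFinset) ⊆
          ({β ∈ strs (L * (2 * (i + 1) + 1)) | B β ∨ ∃ e, (e, β) ∈ Wt} : Finset (List Bool)) := by
        intro β hβ
        obtain ⟨e, he, hβ⟩ := mem_biUnion.1 hβ
        obtain ⟨q, hq, rfl⟩ := mem_image.1 he
        have hq := mem_filter.1 hq
        have hβ' := List.mem_toFinset.1 hβ
        refine mem_filter.2 ⟨mem_strs.2 (nb_length hβ'), ?_⟩
        obtain ⟨-, i', hi'1, hi'2⟩ := h1 q hq.1
        have hl := nb_length hi'2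
        rw [hq.2.1] at hl
        have : i' = i := by
          have := Nat.eq_of_mul_eq_mul_left hL hl
          omega
        subst this
        exact h3 q hq.1 i' (i' + 1) hi'2 (by omega) (by omega) β hβ'
      have hle := card_le_card hsub
      have hpos : 0 < 2 ^ (L * (2 * (i + 1) + 1)) := by positivity
      omega
  intro i hi
  have := main (2 ^ L + 1 - i) (by omega)
  rwa [show 2 ^ L + 1 - (2 ^ L + 1 - i) = i by omega] at this

theorem burned_count {a : List Bool → Bool}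
    (hc : ∀ m (S : Finset (List Bool)), (∀ y ∈ S, y.length = m ∧ a y = true) →
      256 * #S ≤ 2 ^ m) {e : List Bool} (he : ok e = true) (b : ℕ) :
    32 * #{β ∈ strs b | burned a e β = true} ≤ 2 ^ b := by
  classical
  set S := (strs b).filter fun β => burned a e β = true with hS
  let f : List Bool → Finset (List Bool) := fun β =>
    (((ofs e).filter fun o => a (β ++ o)).toFinset).image fun o => β ++ o
  have hf : ∀ β ∈ S, 2 ^ (10 * scale e) ≤ 8 * #(f β) := by
    intro β hβ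
    have h1 := (mem_filter.1 hβ).2
    unfold burned at h1
    rw [decide_eq_true_eq, ofs_length he] at h1
    have h2 : #(f β) = ((ofs e).filter fun o => a (β ++ o)).length := by
      rw [card_image_of_injective _ (fun x y h => List.append_cancel_left h)]
      exact List.toFinset_card_of_nodup ((ofs_nodup e).filter _)
    rw [h2]
    exact h1
  have hdis : (S : Set (List Bool)).PairwiseDisjoint f := by
    intro β hβ β' hβ' hne
    rw [Function.onFun, disjoint_left]
    intro y hy hy'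
    obtain ⟨o, -, rfl⟩ := mem_image.1 hy
    obtain ⟨o', -, h⟩ := mem_image.1 hy'
    have l1 := mem_strs.1 (mem_filter.1 (mem_coe.1 hβ)).1
    have l2 := mem_strs.1 (mem_filter.1 (mem_coe.1 hβ')).1
    exact hne (List.append_inj h.symm (by rw [l1, l2])).1
  have hcard : #(S.biUnion f) = ∑ β ∈ S, #(f β) := card_biUnion hdis
  have hle : #S * 2 ^ (10 * scale e) ≤ 8 * #(S.biUnion f) := by
    rw [hcard, mul_sum, ← smul_eq_mul, ← sum_const]
    exact sum_le_sum hf
  have hm := hc (b + 10 * scale e) (S.biUnion f) (by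
    intro y hy
    obtain ⟨β, hβ, hy⟩ := mem_biUnion.1 hy
    obtain ⟨o, ho, rfl⟩ := mem_image.1 hy
    have ho := List.mem_filter.1 (List.mem_toFinset.1 ho)
    rw [List.length_append, (mem_ofs he).1 ho.1, mem_strs.1 (mem_filter.1 hβ).1]
    exact ⟨rfl, ho.2⟩)
  rw [pow_add] at hm
  have hpos : 0 < 2 ^ (10 * scale e) := by positivity
  refine Nat.le_of_mul_le_mul_right (c := 2 ^ (10 * scale e)) ?_ hpos
  nlinarith

end Pool.Agent.LibPtt90
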