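import Pool.Agent.LibPtt90.TaskI
import Pool.Agent.LibPtt90.TaskC2

open Finset Function

namespace Pool.Agent.LibPtt90

namespace TaskF2

/-- if `p` holds at least at one eighth of the places of `l` and `q` at fewer, then some element
satisfies `p` and not `q` -/
theorem exists_of_eighth {α : Type*} {l : List α} {p q : α → Bool}
    (hp : l.length ≤ 8 * (l.filter p).length) (hq : 8 * (l.filter q).length < l.length) :
    ∃ x ∈ l, p x = true ∧ q x = false := by
  by_contra hcon
  have h : ∀ x ∈ l, p x = true → q x = true := by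
    intro x hx hpx
    by_contra hqx
    exact hcon ⟨x, hx, hpx, by simpa using hqx⟩
  have := List.countP_mono_left h
  rw [List.countP_eq_length_filter, List.countP_eq_length_filter] at this
  omega

/-- monotone stages: a finite list stabilizes -/
theorem exists_stage {α : Type*} (a : ℕ → α → Prop) (ha : ∀ s s' x, s ≤ s' → a s x → a s' x)
    (l : List α) : ∃ s0, ∀ x ∈ l, (∃ s, a s x) → a s0 x := by
  induction l with
  | nil => exact ⟨0, fun x hx => by simp at hx⟩
  | cons y l ih =>
    obtain ⟨s0, h0⟩ := ih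
    by_cases hy : ∃ s, a s y
    · obtain ⟨s1, h1⟩ := hy
      refine ⟨max s0 s1, fun x hx hs => ?_⟩
      rcases List.mem_cons.1 hx with rfl | hx
      · exact ha s1 _ _ (le_max_right _ _) h1
      · exact ha s0 _ _ (le_max_left _ _) (h0 x hx hs)
    · refine ⟨s0, fun x hx hs => ?_⟩
      rcases List.mem_cons.1 hx with rfl | hx
      · exact absurd hs hy
      · exact h0 x hx hs

theorem ok_of_mem_cnd {e β : List Bool} (h : β ∈ cnd e) : ok e = true := by
  by_contra hcon
  unfold cnd at h
  rw [if_neg hcon] at h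
  simp at h

theorem ok_of_mem_ofs {e o : List Bool} (h : o ∈ ofs e) : ok e = true := by
  by_contra hcon
  unfold ofs at h
  rw [if_neg hcon] at h
  simp at h

theorem mem_ofs_of_cwl {e o : List Bool} (h : o ∈ cwl e) : o ∈ ofs e := by
  unfold cwl at h
  exact (List.mem_filter.1 h).1

theorem adv_mono {adv : ℕ → List Bool → Bool}
    (hadv : ∀ s y, adv s y = true → adv (s + 1) y = true) (s s' : ℕ) (y : List Bool)
    (h : s ≤ s') (ha : adv s y = true) : adv s' y = true := by
  induction s', h using Nat.le_induction with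
  | base => exact ha
  | succ n _ ih => exact hadv n y ih

theorem inA_mono {inA : ℕ → List Bool → Bool}
    (hA : ∀ s e, inA s e = true → inA (s + 1) e = true) (s s' : ℕ) (e : List Bool)
    (h : s ≤ s') (ha : inA s e = true) : inA s' e = true := adv_mono hA s s' e h ha

section
variable {inA adv : ℕ → List Bool → Bool} {nm : ℕ → List Bool}

/-- the writer of a block has been in -/
theorem in_of_state {s : ℕ} {e β : List Bool} (h : (e, β) ∈ state inA adv nm s) :
    ∃ s', inA s' e = true := by
  induction s with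
  | zero => simp [state] at h
  | succ s ih =>
    rw [state] at h
    split_ifs at h with h1
    · unfold move at h
      split_ifs at h with h2
      · rcases List.mem_append.1 h with h3 | h3
        · have h4 := List.mem_of_mem_take h3
          obtain ⟨β', -, h5⟩ := List.mem_map.1 h4
          have : nm s = e := congrArg Prod.fst h5
          exact ⟨s, this ▸ h1⟩
        · exact ih h3
      · exact ih h
    · exact ih h

/-- the scale of the writer of a block -/
theorem same_scale {e e' β β' o o' : List Bool} (hβ : β ∈ cnd e) (hβ' : β' ∈ cnd e')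
    (ho : o ∈ ofs e) (ho' : o' ∈ ofs e') (h : β ++ o = β' ++ o') :
    scale e = scale e' ∧ β = β' ∧ o = o' := by
  have he := ok_of_mem_cnd hβ
  have he' := ok_of_mem_cnd hβ'
  obtain ⟨i, hi, hb⟩ := (mem_cnd he).1 hβ
  obtain ⟨i', hi', hb'⟩ := (mem_cnd he').1 hβ'
  have l1 := nb_length hb
  have l2 := nb_length hb'
  have l3 := (mem_ofs he).1 ho
  have l4 := (mem_ofs he').1 ho'
  have hlen := congrArg List.length h
  rw [List.length_append, List.length_append, l1, l2, l3, l4] at hlen
  have := scale_inj he he' (i := i + 5) (i' := i' + 5) (by linarith)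
  obtain ⟨hs, hii⟩ := this
  have hii' : i = i' := by omega
  subst hii'
  have hl : β.length = β'.length := by rw [l1, l2, hs]
  obtain ⟨h1, h2⟩ := List.append_inj h hl
  exact ⟨hs, h1, h2⟩

theorem same_scale_block {e e' β : List Bool} (hβ : β ∈ cnd e) (hβ' : β ∈ cnd e') :
    scale e = scale e' := by
  have he := ok_of_mem_cnd hβ
  have he' := ok_of_mem_cnd hβ'
  obtain ⟨i, hi, hb⟩ := (mem_cnd he).1 hβ
  obtain ⟨i', hi', hb'⟩ := (mem_cnd he').1 hβ'
  have l1 := nb_length hb
  have l2 := nb_length hb'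
  exact (scale_inj he he' (i := i) (i' := i') (by rw [← l1, ← l2])).1

theorem length_eq_of_scale {e e' : List Bool} (he : ok e = true) (he' : ok e' = true)
    (h : scale e = scale e') : e.length = e'.length := by
  rw [ok_length he, ok_length he', h]

/-- at every stage few blocks of a level are used -/
theorem used_count (hadv : ∀ s y, adv s y = true → adv (s + 1) y = true)
    (hc : ∀ s m (S : Finset (List Bool)), (∀ y ∈ S, y.length = m ∧ adv s y = true) →
      256 * #S ≤ 2 ^ m) (s : ℕ) {e : List Bool} (he : ok e = true) {i : ℕ}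
    (hi : i ≤ 2 ^ scale e + 1) (F : Finset (List Bool))
    (hF : ∀ β ∈ F, β.length = scale e * (2 * i + 1) ∧ used inA adv nm s e β) :
    8 * #F ≤ 2 ^ (scale e * (2 * i + 1)) := by
  classical
  set L := scale e with hL
  let Wt : Finset (List Bool × List Bool) :=
    (state inA adv nm s).toFinset.filter fun q => q.1.length = 2 ^ L
  have hWt : ∀ q, q ∈ Wt ↔ q ∈ state inA adv nm s ∧ q.1.length = 2 ^ L := by
    intro q; simp [Wt]
  have hsc : ∀ q ∈ Wt, ok q.1 = true ∧ scale q.1 = L ∧ q.2 ∈ cnd q.1 := by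
    intro q hq
    obtain ⟨h1, h2⟩ := (hWt q).1 hq
    have h3 : q.2 ∈ cnd q.1 := state_cnd (s := s) h1
    have h4 := ok_of_mem_cnd h3
    have h5 := ok_length h4
    rw [h2] at h5
    exact ⟨h4, (Nat.pow_right_injective le_rfl h5).symm, h3⟩
  have hlen : ∀ q ∈ Wt, q.1.length = e.length := by
    intro q hq
    rw [((hWt q).1 hq).2, ok_length he]
  have key := level_count (L := L) (scale_pos he) Wt (fun β => burned (adv s) e β = true)
    (by
      intro q hq
      obtain ⟨h1, h2, h3⟩ := hsc q hq
      refine ⟨mem_strs.2 ((hWt q).1 hq).2, ?_⟩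
      obtain ⟨i, hi, hb⟩ := (mem_cnd h1).1 h3
      rw [h2] at hi hb
      exact ⟨i, hi, hb⟩)
    (by
      intro q hq q' hq' hqq h1 h2
      have e1 : (q.1, q.2) ∈ state inA adv nm s := ((hWt q).1 hq).1
      have e2 : (q.1, q'.2) ∈ state inA adv nm s := by
        rw [hqq]; exact ((hWt q').1 hq').1
      apply state_alive hadv e1 e2
      · rw [burned_congr (hlen q hq)]; simpa using h1
      · rw [burned_congr (hlen q hq)]; simpa using h2)
    (by
      intro q hq i i' hqi hii hi' β hβ
      obtain ⟨h1, h2, h3⟩ := hsc q hq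
      have e1 : (q.1, q.2) ∈ state inA adv nm s := ((hWt q).1 hq).1
      have := state_above (inA := inA) (nm := nm) hadv e1 (i := i) (i' := i')
        (by rw [h2]; exact hqi) hii (by rw [h2]; exact hi') (β' := β) (by rw [h2]; exact hβ)
      rcases this with h4 | ⟨e', h4⟩
      · left
        rw [burned_congr (hlen q hq)] at h4
        exact h4
      · right
        refine ⟨e', (hWt _).2 ⟨h4, ?_⟩⟩
        have h5 : β ∈ cnd e' := state_cnd h4
        have h6 : β ∈ cnd q.1 := (mem_cnd h1).2 ⟨i', by rw [h2]; exact hi', by rw [h2]; exact hβ⟩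
        have h7 := same_scale_block h6 h5
        show e'.length = 2 ^ L
        rw [ok_length (ok_of_mem_cnd h5), ← h7, h2])
    (by
      intro i _
      have h0 := burned_count (hc s) he (L * (2 * i + 1))
      convert h0)
    i hi
  refine le_trans (Nat.mul_le_mul_left 8 (card_le_card ?_)) key
  intro β hβ
  obtain ⟨h1, h2⟩ := hF β hβ
  suffices hh : burned (adv s) e β = true ∨ ∃ e', (e', β) ∈ Wt by
    simp only [mem_filter]
    exact ⟨mem_strs.2 h1, hh⟩
  rcases h2 with h2 | ⟨e', h2⟩
  · exact Or.inl h2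
  · right
    refine ⟨e', (hWt _).2 ⟨h2, ?_⟩⟩
    have h5 : β ∈ cnd e' := state_cnd h2
    have he' := ok_of_mem_cnd h5
    obtain ⟨i', hi', hb'⟩ := (mem_cnd he').1 h5
    have l2 := nb_length hb'
    have := (scale_inj he he' (i := i) (i' := i') (by rw [← l2, h1])).1
    show e'.length = 2 ^ L
    rw [ok_length he', ← this]

/-- the marks come from used blocks -/
theorem Wr_iff {y : List Bool} : Wr inA adv nm y ↔
    ∃ s e β o, β ∈ cnd e ∧ o ∈ ofs e ∧ y = β ++ o ∧ (burned (adv s) e β = true ∨
      ((e, β) ∈ state inA adv nm s ∧ o ∈ cwl e)) := by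
  constructor
  · rintro ⟨s, e, β, o, h1, h2, h3 | h3⟩
    · exact ⟨s, e, β, o, h1, h3.2, h2, Or.inl h3.1⟩
    · exact ⟨s, e, β, o, h1, mem_ofs_of_cwl h3.2, h2, Or.inr h3⟩
  · rintro ⟨s, e, β, o, h1, h2, h3, h4 | h4⟩
    · exact ⟨s, e, β, o, h1, h3, Or.inl ⟨h4, h2⟩⟩
    · exact ⟨s, e, β, o, h1, h3, Or.inr h4⟩

end

end TaskF2

open TaskF2

section
variable {inA adv : ℕ → List Bool → Bool} {nm : ℕ → List Bool}

theorem Wr_count (hadv : ∀ s y, adv s y = true → adv (s + 1) y = true)
    (hc : ∀ s m (S : Finset (List Bool)), (∀ y ∈ S, y.length = m ∧ adv s y = true) →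
      256 * #S ≤ 2 ^ m)
    (m : ℕ) (S : Finset (List Bool)) (hS : ∀ y ∈ S, y.length = m ∧ Wr inA adv nm y) :
    8 * #S ≤ 2 ^ m := by
  classical
  rcases S.eq_empty_or_nonempty with rfl | ⟨y0, hy0⟩
  · simp
  obtain ⟨s0, e, β0, o0, h1, h2, h3, -⟩ := Wr_iff.1 (hS y0 hy0).2
  have he := ok_of_mem_cnd h1
  obtain ⟨i, hi, hb⟩ := (mem_cnd he).1 h1
  set L := scale e with hL
  have hm : m = L * (2 * i + 1) + 10 * L := by
    have := (hS y0 hy0).1
    rw [h3, List.length_append, nb_length hb, (mem_ofs he).1 h2] at this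
    exact this.symm
  -- the blocks
  have hblk : ∀ y ∈ S, ∃ s β o, y = β ++ o ∧ β.length = L * (2 * i + 1) ∧ o.length = 10 * L ∧
      used inA adv nm s e β := by
    intro y hy
    obtain ⟨s, e', β, o, g1, g2, g3, g4⟩ := Wr_iff.1 (hS y hy).2
    have he' := ok_of_mem_cnd g1
    obtain ⟨i', hi', hb'⟩ := (mem_cnd he').1 g1
    have l1 := nb_length hb'
    have l2 := (mem_ofs he').1 g2
    have l3 := (hS y hy).1
    rw [g3, List.length_append, l1, l2] at l3
    obtain ⟨hs, hii⟩ := scale_inj he' he (i := i' + 5) (i' := i + 5) (by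
      rw [← hL]; linarith)
    have hii' : i' = i := by omega
    rw [hs, ← hL] at l2
    rw [hs, hii', ← hL] at l1
    refine ⟨s, β, o, g3, l1, l2, ?_⟩
    rcases g4 with g4 | g4
    · left
      rw [burned_congr (length_eq_of_scale he he' hs.symm)]
      exact g4
    · exact Or.inr ⟨e', g4.1⟩
  have hmono : ∀ s s' β, s ≤ s' → used inA adv nm s e β → used inA adv nm s' e β := by
    intro s s' β hs hu
    rcases hu with hu | ⟨e', hu⟩
    · exact Or.inl (burned_mono hadv hs hu)
    · exact Or.inr ⟨e', state_mono hs hu⟩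
  obtain ⟨s, hs⟩ := exists_stage (α := List Bool)
    (fun s y => ∃ β o, y = β ++ o ∧ β.length = L * (2 * i + 1) ∧ o.length = 10 * L ∧
      used inA adv nm s e β) (by
        rintro s s' y hss ⟨β, o, g1, g2, g3, g4⟩
        exact ⟨β, o, g1, g2, g3, hmono s s' β hss g4⟩) S.toList
  let F : Finset (List Bool) := (strs (L * (2 * i + 1))).filter fun β => used inA adv nm s e β
  have hF : 8 * #F ≤ 2 ^ (L * (2 * i + 1)) := by
    apply used_count hadv hc s he hi F
    intro β hβ
    obtain ⟨g1, g2⟩ := mem_filter.1 hβ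
    exact ⟨mem_strs.1 g1, g2⟩
  have hsub : S ⊆ (F ×ˢ strs (10 * L)).image fun q => q.1 ++ q.2 := by
    intro y hy
    obtain ⟨s1, β, o, g1, g2, g3, g4⟩ := hblk y hy
    obtain ⟨β, o, g1, g2, g3, g4⟩ := hs y (mem_toList.2 hy) ⟨s1, β, o, g1, g2, g3, g4⟩
    rw [mem_image]
    exact ⟨(β, o), mem_product.2 ⟨mem_filter.2 ⟨mem_strs.2 g2, g4⟩, mem_strs.2 g3⟩, g1.symm⟩
  have hcard : #S ≤ #F * 2 ^ (10 * L) := by
    calc #S ≤ #((F ×ˢ strs (10 * L)).image fun q => q.1 ++ q.2) := card_le_card hsub
      _ ≤ #(F ×ˢ strs (10 * L)) := card_image_le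
      _ = #F * 2 ^ (10 * L) := by rw [card_product, card_strs]
  calc 8 * #S ≤ 8 * (#F * 2 ^ (10 * L)) := Nat.mul_le_mul_left _ hcard
    _ = (8 * #F) * 2 ^ (10 * L) := by ring
    _ ≤ 2 ^ (L * (2 * i + 1)) * 2 ^ (10 * L) := Nat.mul_le_mul_right _ hF
    _ = 2 ^ m := by rw [hm, pow_add]

theorem Wr_correct (hA : ∀ s e, inA s e = true → inA (s + 1) e = true)
    (hadv : ∀ s y, adv s y = true → adv (s + 1) y = true)
    (hnm : ∀ e s, ∃ s' ≥ s, nm s' = e)
    (hc : ∀ s m (S : Finset (List Bool)), (∀ y ∈ S, y.length = m ∧ adv s y = true) →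
      256 * #S ≤ 2 ^ m)
    {e : List Bool} (he : ok e = true) :
    (∃ β ∈ cnd e, (∀ o ∈ cwl e, Wr inA adv nm (β ++ o) ∨ ∃ s, adv s (β ++ o) = true) ∧
      ∃ o ∈ ofs e, ¬ (Wr inA adv nm (β ++ o) ∨ ∃ s, adv s (β ++ o) = true)) ↔
    ∃ s, inA s e = true := by
  classical
  -- the adversary marks fewer than one eighth of a block which never burns
  have hfew : ∀ β, (∀ s, burned (adv s) e β = false) →
      8 * ((ofs e).filter fun o => decide (∃ s, adv s (β ++ o) = true)).length
        < (ofs e).length := by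
    intro β hβ
    obtain ⟨s, hs⟩ := exists_stage (α := List Bool) (fun s o => adv s (β ++ o) = true)
      (fun s s' o h ha => adv_mono hadv s s' _ h ha) (ofs e)
    have h1 := hβ s
    unfold burned at h1
    rw [decide_eq_false_iff_not, not_le] at h1
    have h2 : (ofs e).filter (fun o => decide (∃ s, adv s (β ++ o) = true)) =
        (ofs e).filter fun o => adv s (β ++ o) := by
      apply List.filter_congr
      intro o ho
      by_cases h3 : ∃ s, adv s (β ++ o) = true
      · rw [decide_eq_true h3, hs o ho h3]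
      · rw [decide_eq_false h3]
        by_contra h4
        exact h3 ⟨s, by simpa using Ne.symm h4⟩
    rw [h2]
    exact h1
  -- marks in a block which never burns come from its writer
  have hwr : ∀ β o, β ∈ cnd e → o ∈ ofs e → (∀ s, burned (adv s) e β = false) →
      Wr inA adv nm (β ++ o) → ∃ s e', (e', β) ∈ state inA adv nm s ∧ o ∈ cwl e' := by
    intro β o hβ ho hnb hW
    obtain ⟨s, e', β', o', g1, g2, g3, g4⟩ := Wr_iff.1 hW
    obtain ⟨hsc, rfl, rfl⟩ := same_scale hβ g1 ho g2 g3
    rcases g4 with g4 | g4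
    · rw [← burned_congr (length_eq_of_scale he (ok_of_mem_cnd g1) hsc), hnb s] at g4
      exact absurd g4 (by simp)
    · exact ⟨s, e', g4⟩
  constructor
  · rintro ⟨β, hβ, hall, o, ho, hno⟩
    by_contra hin
    -- never burned
    have hnb : ∀ s, burned (adv s) e β = false := by
      intro s
      by_contra h
      have h' : burned (adv s) e β = true := by simpa using h
      exact hno (Or.inl (Wr_iff.2 ⟨s, e, β, o, hβ, ho, rfl, Or.inl h'⟩))
    by_cases hw : ∃ s e', (e', β) ∈ state inA adv nm s
    · obtain ⟨s, e', hs⟩ := hw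
      have hne : e ≠ e' := by
        rintro rfl
        exact hin (in_of_state hs)
      have hβ' : β ∈ cnd e' := state_cnd hs
      have hsc := same_scale_block hβ hβ'
      have hl : e'.length = e.length := (length_eq_of_scale he (ok_of_mem_cnd hβ') hsc).symm
      obtain ⟨o1, ho1, h1, h2⟩ := exists_of_eighth (cw_sep he hl hne) (hfew β hnb)
      rw [decide_eq_true_eq] at h1
      rw [decide_eq_false_iff_not] at h2
      rcases hall o1 h1.1 with h3 | h3
      · obtain ⟨s', e'', h4, h5⟩ := hwr β o1 hβ ho1 hnb h3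
        have : e'' = e' := state_unique (s := max s s') (state_mono (le_max_right _ _) h4)
          (state_mono (le_max_left _ _) hs)
        exact h1.2 (this ▸ h5)
      · exact h2 h3
    · obtain ⟨o1, ho1, h1, h2⟩ := exists_of_eighth (cw_many he) (hfew β hnb)
      rw [decide_eq_true_eq] at h1
      rw [decide_eq_false_iff_not] at h2
      rcases hall o1 h1 with h3 | h3
      · obtain ⟨s', e'', h4, h5⟩ := hwr β o1 hβ ho1 hnb h3
        exact hw ⟨s', e'', h4⟩
      · exact h2 h3
  · rintro ⟨s, hs⟩
    obtain ⟨s0, hs0⟩ := exists_stage (α := List Bool) (fun s β => burned (adv s) e β = true)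
      (fun s s' β h hb => burned_mono hadv h hb) (cnd e)
    obtain ⟨s1, hs1, hn1⟩ := hnm e (max s s0)
    have hin : inA s1 e = true := inA_mono hA s s1 e ((le_max_left _ _).trans hs1) hs
    have hfree : ∃ β ∈ cnd e, ¬ used inA adv nm s1 e β := by
      by_contra hcon
      push Not at hcon
      have h1 := nb_expand_zero (L := scale e) (scale_pos he) {e}
        (by
          rw [singleton_subset_iff, mem_strs]
          exact ok_length he) (singleton_nonempty e)
      rw [singleton_biUnion] at h1
      have h2 := used_count (inA := inA) (nm := nm) hadv hc s1 he (i := 0) (Nat.zero_le _)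
        (nb (scale e) 0 e).toFinset (by
          intro β hβ
          rw [List.mem_toFinset] at hβ
          exact ⟨nb_length hβ, hcon β ((mem_cnd he).2 ⟨0, Nat.zero_le _, hβ⟩)⟩)
      have h3 : 0 < 2 ^ (scale e * (2 * 0 + 1)) := by positivity
      omega
    obtain ⟨β, hβ1, hβ2⟩ := state_act hadv hn1 hin hfree
    have hβ : β ∈ cnd e := state_cnd hβ1
    have hnb : ∀ s, burned (adv s) e β = false := by
      intro s'
      by_contra h
      have h' : burned (adv s') e β = true := by simpa using h
      have h1 := hs0 β hβ ⟨s', h'⟩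
      have h2 := burned_mono hadv ((le_max_right s s0).trans hs1) h1
      rw [hβ2] at h2
      exact absurd h2 (by simp)
    refine ⟨β, hβ, ?_, ?_⟩
    · intro o ho
      exact Or.inl (Wr_iff.2 ⟨s1 + 1, e, β, o, hβ, mem_ofs_of_cwl ho, rfl, Or.inr ⟨hβ1, ho⟩⟩)
    · obtain ⟨o, ho, h1, h2⟩ := exists_of_eighth (cw_few he) (hfew β hnb)
      rw [decide_eq_true_eq] at h1
      rw [decide_eq_false_iff_not] at h2
      refine ⟨o, ho, ?_⟩
      rintro (h3 | h3)
      · obtain ⟨s', e', h4, h5⟩ := hwr β o hβ ho hnb h3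
        have : e' = e := state_unique (s := max (s1 + 1) s') (state_mono (le_max_right _ _) h4)
          (state_mono (le_max_left _ _) hβ1)
        exact h1 (this ▸ h5)
      · exact h2 h3

end

end Pool.Agent.LibPtt90
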