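import Pool.Agent.LibRandTT.Main

/-!
The universal machine with a gap of eight bits, stages of enumerations, names.
-/

open Finset Function

namespace Pool.Agent.LibPtt90

open Pool.Agent.LibRandTT Nat.Partrec Encodable Denumerable

/-- compressible strings of the universal machine `Vm`, with a gap of eight bits -/
def NV8 (y : List Bool) : Prop := ∃ p : List Bool, p.length + 8 < y.length ∧ y ∈ Vm p

theorem NV8_re : REPred NV8 := by
  have h : REPred fun y : List Bool => ∃ n : ℕ, (str n.unpair.1).length + 8 < y.length ∧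
      (Code.evaln n.unpair.2 (ofNat Code (ones (str n.unpair.1)))
        (encode ((str n.unpair.1).drop (ones (str n.unpair.1) + 1)))).bind
      (fun r => decode (α := List Bool) r) = some y := by
    apply rePred_of_exists
    have hp : Primrec fun a : List Bool × ℕ => str a.2.unpair.1 :=
      primrec_str.comp (Primrec.fst.comp (Primrec.unpair.comp Primrec.snd))
    refine (PP.lt (Primrec.nat_add.comp (Primrec.list_length.comp hp) (Primrec.const 8))
      (Primrec.list_length.comp Primrec.fst)).and (PP.eq ?_ (Primrec.option_some.comp Primrec.fst))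
    refine Primrec.option_bind (primrec_evaln' (Primrec.snd.comp (Primrec.unpair.comp Primrec.snd))
      ((Primrec.ofNat Code).comp (primrec_ones.comp hp)) (Primrec.encode.comp
      (Primrec.list_drop.comp (Primrec.succ.comp (primrec_ones.comp hp)) hp))) ?_
    exact (Primrec.decode.comp Primrec.snd)
  refine h.of_eq fun y => ?_
  unfold NV8
  constructor
  · rintro ⟨n, h1, h2⟩
    exact ⟨_, h1, mem_Vm_bounded.2 ⟨_, h2⟩⟩
  · rintro ⟨p, h1, h2⟩
    obtain ⟨s, hs⟩ := mem_Vm_bounded.1 h2
    refine ⟨Nat.pair (num p) s, ?_, ?_⟩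
    · simpa using h1
    · simpa using hs

theorem NV8_count (m : ℕ) (S : Finset (List Bool)) (hS : ∀ y ∈ S, y.length = m ∧ NV8 y) :
    256 * #S ≤ 2 ^ m := by
  classical
  rcases Nat.lt_or_ge 8 m with hm | hm
  · obtain ⟨k, rfl⟩ : ∃ k, m = k + 8 := ⟨m - 8, by omega⟩
    have h : ∀ y ∈ S, ∃ p : List Bool, p.length < k ∧ y ∈ Vm p := by
      intro y hy
      obtain ⟨h1, p, h2, h3⟩ := hS y hy
      exact ⟨p, by omega, h3⟩
    choose! f hf using h
    have hinj : Set.InjOn (fun y => num (f y)) S := by
      intro y hy z hz hyz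
      have h1 := num_injective hyz
      have h2 := (hf y hy).2
      have h3 := (hf z hz).2
      rw [h1] at h2
      exact Part.mem_unique h2 h3
    have hmaps : ∀ y ∈ S, num (f y) ∈ Finset.range (2 ^ k) := by
      intro y hy
      rw [Finset.mem_range]
      have h1 := (num_bounds (f y)).2
      have h2 : 2 ^ ((f y).length + 1) ≤ 2 ^ k :=
        Nat.pow_le_pow_right (by norm_num) (hf y hy).1
      omega
    have := Finset.card_le_card_of_injOn _ hmaps hinj
    rw [Finset.card_range] at this
    have e : 2 ^ (k + 8) = 256 * 2 ^ k := by ring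
    omega
  · have : S = ∅ := by
      rw [Finset.eq_empty_iff_forall_notMem]
      intro y hy
      obtain ⟨h1, p, h2, -⟩ := hS y hy
      omega
    rw [this]
    simp

namespace TaskM

/-- the machine: `00000000 p` runs `Vm`, `1 p` runs `Gm` -/
noncomputable def U8 (cw : Code) (w : List Bool) : Part (List Bool) :=
  cond (decide (w.take 8 = List.replicate 8 false)) (Vm (w.drop 8))
    (cond (decide (w.head? = some true)) (Gm cw w.tail) Part.none)

lemma partrec_U8 (cw : Code) : Partrec (U8 cw) := by
  unfold U8
  refine Partrec.cond ?_ (partrec_Vm.comp (Primrec.list_drop.comp (Primrec.const 8)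
    Primrec.id).to_comp) (Partrec.cond ?_ (partrec_Gm.comp Primrec.list_tail.to_comp) Partrec.none)
  · exact (PP.eq (Primrec.list_take.comp (Primrec.const 8) Primrec.id)
      (Primrec.const _)).decide.to_comp
  · exact (PP.eq Primrec.list_head? (Primrec.const _)).decide.to_comp

lemma U8_zeros (cw : Code) (p : List Bool) : U8 cw (List.replicate 8 false ++ p) = Vm p := by
  unfold U8
  have h1 : (List.replicate 8 false ++ p).take 8 = List.replicate 8 false := by
    rw [List.take_append]; simp
  have h2 : (List.replicate 8 false ++ p).drop 8 = p := by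
    rw [List.drop_append]; simp
  rw [h1, h2]
  simp

lemma U8_one (cw : Code) (p : List Bool) : U8 cw (true :: p) = Gm cw p := by
  unfold U8
  simp [List.replicate]

lemma mem_U8 {cw : Code} {w y : List Bool} (h : y ∈ U8 cw w) :
    (∃ p, w = List.replicate 8 false ++ p ∧ y ∈ Vm p) ∨ (∃ p, w = true :: p ∧ y ∈ Gm cw p) := by
  unfold U8 at h
  by_cases h1 : w.take 8 = List.replicate 8 false
  · left
    rw [h1] at h
    simp only [decide_true, cond_true] at h
    refine ⟨w.drop 8, ?_, h⟩
    rw [← h1, List.take_append_drop]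
  · simp only [h1, decide_false, cond_false] at h
    by_cases h2 : w.head? = some true
    · right
      simp only [h2, decide_true, cond_true] at h
      refine ⟨w.tail, ?_, h⟩
      cases w with
      | nil => simp at h2
      | cons b w => simp at h2; simp [h2]
    · simp only [h2, decide_false, cond_false] at h
      exact absurd h (Part.notMem_none y)

lemma U8_universal (cw : Code) : Universal (U8 cw) := by
  refine ⟨partrec_U8 cw, fun M hM => ?_⟩
  obtain ⟨c, hc⟩ := exists_code_str hM
  refine ⟨List.replicate 8 false ++ (List.replicate (encode c) true ++ [false]), fun p => ?_⟩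
  rw [List.append_assoc, U8_zeros, List.append_assoc, List.singleton_append, Vm_replicate,
    ofNat_encode, hc]

lemma nonrandom_U8 {cw : Code} (hW : ∀ m (S : Finset (List Bool)),
    (∀ y ∈ S, y.length = m ∧ NV cw y) → 4 * S.card ≤ 2 ^ m) (y : List Bool) :
    y ∈ RC (U8 cw) ↔ ¬ (NV8 y ∨ NV cw y) := by
  rw [mem_RC]
  apply not_congr
  constructor
  · rintro ⟨w, hw, hy⟩
    rcases mem_U8 hy with ⟨p, rfl, hp⟩ | ⟨p, rfl, hp⟩
    · left
      refine ⟨p, ?_, hp⟩
      simp only [List.length_append, List.length_replicate] at hw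
      omega
    · right
      exact (Gm_sound hp).1
  · rintro (⟨p, hp, hy⟩ | h)
    · refine ⟨List.replicate 8 false ++ p, ?_, by rw [U8_zeros]; exact hy⟩
      simp only [List.length_append, List.length_replicate]
      omega
    · obtain ⟨p, hp, hy⟩ := Gm_complete hW h
      refine ⟨true :: p, ?_, by rw [U8_one]; exact hy⟩
      simp only [List.length_cons]
      omega

end TaskM

theorem exists_machine {W : List Bool → Prop} (hW : REPred W)
    (hc : ∀ m (S : Finset (List Bool)), (∀ y ∈ S, y.length = m ∧ W y) → 4 * #S ≤ 2 ^ m) :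
    ∃ U : List Bool →. List Bool, Universal U ∧ ∀ y, y ∈ RC U ↔ ¬ (NV8 y ∨ W y) := by
  obtain ⟨cw, hcw⟩ := exists_code_re hW
  refine ⟨TaskM.U8 cw, TaskM.U8_universal cw, fun y => ?_⟩
  rw [TaskM.nonrandom_U8 (cw := cw) (fun m S hS => hc m S fun y hy =>
    ⟨(hS y hy).1, (hcw y).1 (hS y hy).2⟩), hcw]

/-- stages of an enumeration -/
theorem exists_stages {P : List Bool → Prop} (hP : REPred P) :
    ∃ a : ℕ → List Bool → Bool, Primrec₂ a ∧ (∀ s y, a s y = true → a (s + 1) y = true) ∧
      ∀ y, P y ↔ ∃ s, a s y = true := by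
  obtain ⟨c, hc⟩ := exists_code_re hP
  refine ⟨fun s y => (Code.evaln s c (encode y)).isSome, ?_, ?_, ?_⟩
  · exact Primrec.option_isSome.comp (primrec_evaln' Primrec.fst (Primrec.const c)
      (Primrec.encode.comp Primrec.snd))
  · intro s y h
    rw [Option.isSome_iff_exists] at h ⊢
    obtain ⟨r, hr⟩ := h
    exact ⟨r, Code.evaln_mono (Nat.le_succ s) hr⟩
  · intro y
    rw [← hc, NV_iff]

/-- a list of all strings with infinitely many repetitions -/
theorem exists_names : ∃ nm : ℕ → List Bool, Primrec nm ∧ ∀ e s, ∃ s' ≥ s, nm s' = e := by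
  refine ⟨fun s => str s.unpair.1, primrec_str.comp (Primrec.fst.comp Primrec.unpair),
    fun e s => ⟨Nat.pair (num e) s, Nat.right_le_pair _ _, ?_⟩⟩
  simp only [Nat.unpair_pair]
  exact str_num e

end Pool.Agent.LibPtt90
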