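import Pool.Agent.LibComplexity.Machine

/-!
Boolean formulas whose atoms are strings, and polynomial-time truth-table reductions.
-/

namespace Pool.Agent.LibPtt90

open Pool.Agent.LibComplexity

/-- Boolean formulas; the atom with the string `y` stands for the statement `y ∈ B`. -/
inductive BForm
  | atom (y : List Bool)
  | neg (φ : BForm)
  | and (φ ψ : BForm)
  | or (φ ψ : BForm)

/-- The truth value of a formula for the set `B`. -/
def BForm.holds (B : Set (List Bool)) : BForm → Prop
  | .atom y => y ∈ B
  | .neg φ => ¬ φ.holds B
  | .and φ ψ => φ.holds B ∧ ψ.holds B
  | .or φ ψ => φ.holds B ∨ ψ.holds B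

/-- The code of a formula, in postfix notation: an atom is written as its string, each bit `b`
as `1 b`, followed by `0 0 0`; the connectives are `0 0 1` (negation), `0 1 0` (conjunction) and
`0 1 1` (disjunction), written after their arguments. -/
def BForm.code : BForm → List Bool
  | .atom y => y.flatMap (fun b => [true, b]) ++ [false, false, false]
  | .neg φ => φ.code ++ [false, false, true]
  | .and φ ψ => φ.code ++ (ψ.code ++ [false, true, false])
  | .or φ ψ => φ.code ++ (ψ.code ++ [false, true, true])

/-- Polynomial-time truth-table reducibility: a polynomial-time Turing machine computes (the code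
of) a Boolean formula `f x` from `x`, and `x ∈ A` if and only if `f x` is true for the set `B`. -/
def PttRed (A B : Set (List Bool)) : Prop :=
  ∃ f : List Bool → BForm, InFP ∅ (fun x => (f x).code) ∧ ∀ x, x ∈ A ↔ (f x).holds B

end Pool.Agent.LibPtt90
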