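import Pool.Agent.LibPtt90.TaskG
import Pool.Agent.LibPtt90.Red
import Pool.Agent.LibComplexity.Sim
import Pool.Agent.LibRandTT.Main

/-!
Polynomial-time truth-table reductions are truth-table reductions with polynomially many queries.
-/

open Finset Function

namespace Pool.Agent.LibPtt90

open Pool.Agent.LibRandTT

namespace TaskN

/-! ### a stack machine reading codes of formulas -/

section mach

variable {σ : Type} (A : σ → List Bool → σ) (N C D : σ → σ)

/-- one step of the reading machine; the state consists of a mode, the bits of the current atom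
and the value -/
def mstep (t : ℕ × List Bool × σ) (b : Bool) : ℕ × List Bool × σ :=
  if t.1 = 0 then (if b = true then 1 else 2, t.2.1, t.2.2)
  else if t.1 = 1 then (0, t.2.1 ++ [b], t.2.2)
  else if t.1 = 2 then (if b = true then 4 else 3, t.2.1, t.2.2)
  else if t.1 = 3 then (if b = true then (0, t.2.1, N t.2.2) else (0, [], A t.2.2 t.2.1))
  else (if b = true then (0, t.2.1, D t.2.2) else (0, t.2.1, C t.2.2))

/-- the value computed by the machine -/
def run : BForm → σ → σ
  | .atom y, s => A s y
  | .neg φ, s => N (run φ s)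
  | .and φ ψ, s => C (run ψ (run φ s))
  | .or φ ψ, s => D (run ψ (run φ s))

lemma foldl_bits (y : List Bool) : ∀ (c : List Bool) (s : σ),
    (y.flatMap fun b => [true, b]).foldl (mstep A N C D) (0, c, s) = (0, c ++ y, s) := by
  induction y with
  | nil => intro c s; simp
  | cons b y ih =>
    intro c s
    have h1 : ((b :: y).flatMap fun b => [true, b]) = true :: b :: (y.flatMap fun b => [true, b]) :=
      rfl
    rw [h1, List.foldl_cons, List.foldl_cons]
    have h2 : mstep A N C D (mstep A N C D (0, c, s) true) b = (0, c ++ [b], s) := by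
      simp [mstep]
    rw [h2, ih]
    simp

lemma foldl_code (φ : BForm) : ∀ s : σ,
    φ.code.foldl (mstep A N C D) (0, [], s) = (0, [], run A N C D φ s) := by
  induction φ with
  | atom y =>
    intro s
    rw [BForm.code, List.foldl_append, foldl_bits]
    simp [mstep, run]
  | neg φ ih =>
    intro s
    rw [BForm.code, List.foldl_append, ih]
    simp [mstep, run]
  | and φ ψ ih ih' =>
    intro s
    rw [BForm.code, List.foldl_append, List.foldl_append, ih, ih']
    simp [mstep, run]
  | or φ ψ ih ih' =>
    intro s
    rw [BForm.code, List.foldl_append, List.foldl_append, ih, ih']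
    simp [mstep, run]

variable {A N C D}

lemma primrec_mstep [Primcodable σ] (hA : Primrec₂ A) (hN : Primrec N) (hC : Primrec C)
    (hD : Primrec D) : Primrec₂ (mstep A N C D) := by
  unfold mstep
  have h1 : Primrec fun p : (ℕ × List Bool × σ) × Bool => p.1.1 := Primrec.fst.comp Primrec.fst
  have h2 : Primrec fun p : (ℕ × List Bool × σ) × Bool => p.1.2.1 :=
    Primrec.fst.comp (Primrec.snd.comp Primrec.fst)
  have h3 : Primrec fun p : (ℕ × List Bool × σ) × Bool => p.1.2.2 :=
    Primrec.snd.comp (Primrec.snd.comp Primrec.fst)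
  have hb : PrimrecPred fun p : (ℕ × List Bool × σ) × Bool => p.2 = true :=
    PP.eq Primrec.snd (Primrec.const true)
  refine Primrec.ite (PP.eq h1 (Primrec.const 0)) ?_ (Primrec.ite (PP.eq h1 (Primrec.const 1)) ?_
    (Primrec.ite (PP.eq h1 (Primrec.const 2)) ?_ (Primrec.ite (PP.eq h1 (Primrec.const 3)) ?_ ?_)))
  · exact (Primrec.ite hb (Primrec.const 1) (Primrec.const 2)).pair (h2.pair h3)
  · exact (Primrec.const 0).pair ((Primrec.list_append.comp h2
      (Primrec.list_cons.comp Primrec.snd (Primrec.const []))).pair h3)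
  · exact (Primrec.ite hb (Primrec.const 4) (Primrec.const 3)).pair (h2.pair h3)
  · exact Primrec.ite hb ((Primrec.const 0).pair (h2.pair (hN.comp h3)))
      ((Primrec.const 0).pair ((Primrec.const []).pair (hA.comp h3 h2)))
  · exact Primrec.ite hb ((Primrec.const 0).pair (h2.pair (hD.comp h3)))
      ((Primrec.const 0).pair (h2.pair (hC.comp h3)))

end mach

/-! ### injectivity of the code -/

/-- parser: atom -/
def pA (s : List BForm) (y : List Bool) : List BForm := BForm.atom y :: s

/-- parser: negation -/
def pN : List BForm → List BForm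
  | φ :: s => BForm.neg φ :: s
  | [] => []

/-- parser: conjunction -/
def pC : List BForm → List BForm
  | ψ :: φ :: s => BForm.and φ ψ :: s
  | s => s

/-- parser: disjunction -/
def pD : List BForm → List BForm
  | ψ :: φ :: s => BForm.or φ ψ :: s
  | s => s

lemma prs_eq (φ : BForm) : ∀ s, run pA pN pC pD φ s = φ :: s := by
  induction φ with
  | atom y => intro s; rfl
  | neg φ ih => intro s; rw [run, ih]; rfl
  | and φ ψ ih ih' => intro s; rw [run, ih, ih']; rfl
  | or φ ψ ih ih' => intro s; rw [run, ih, ih']; rfl

end TaskN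

theorem code_injective : Injective BForm.code := by
  intro φ ψ h
  have h1 := TaskN.foldl_code TaskN.pA TaskN.pN TaskN.pC TaskN.pD φ []
  have h2 := TaskN.foldl_code TaskN.pA TaskN.pN TaskN.pC TaskN.pD ψ []
  rw [h, h2] at h1
  have h3 := congrArg (fun t : ℕ × List Bool × List BForm => t.2.2) h1
  simp only at h3
  rw [TaskN.prs_eq, TaskN.prs_eq] at h3
  exact ((List.cons.inj h3).1).symm

namespace TaskN

/-- the atoms of a formula, in order -/
def atoms : BForm → List (List Bool)
  | .atom y => [y]
  | .neg φ => atoms φ
  | .and φ ψ => atoms φ ++ atoms ψ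
  | .or φ ψ => atoms φ ++ atoms ψ

/-- collecting the atoms -/
def qA (s : List (List Bool)) (y : List Bool) : List (List Bool) := s ++ [y]

lemma primrec_qA : Primrec₂ qA :=
  Primrec.list_append.comp Primrec.fst (Primrec.list_cons.comp Primrec.snd (Primrec.const []))

lemma run_atoms (φ : BForm) : ∀ s, run qA id id id φ s = s ++ atoms φ := by
  induction φ with
  | atom y => intro s; rfl
  | neg φ ih => intro s; rw [run, ih]; rfl
  | and φ ψ ih ih' => intro s; rw [run, ih, ih', atoms, id, List.append_assoc]
  | or φ ψ ih ih' => intro s; rw [run, ih, ih', atoms, id, List.append_assoc]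

lemma length_atoms (φ : BForm) : (atoms φ).length ≤ φ.code.length := by
  induction φ with
  | atom y => simp [atoms, BForm.code]
  | neg φ ih => simp only [atoms, BForm.code, List.length_append]; omega
  | and φ ψ ih ih' => simp only [atoms, BForm.code, List.length_append]; omega
  | or φ ψ ih ih' => simp only [atoms, BForm.code, List.length_append]; omega

/-- operations of the evaluation: remaining answers, and a stack of truth values -/
def gA (s : List Bool × List Bool) (_ : List Bool) : List Bool × List Bool :=
  (s.1.tail, s.1.headD false :: s.2)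

/-- negation -/
def gN (s : List Bool × List Bool) : List Bool × List Bool :=
  (s.1, (!(s.2.headD false)) :: s.2.tail)

/-- conjunction -/
def gC (s : List Bool × List Bool) : List Bool × List Bool :=
  (s.1, (s.2.tail.headD false && s.2.headD false) :: s.2.tail.tail)

/-- disjunction -/
def gD (s : List Bool × List Bool) : List Bool × List Bool :=
  (s.1, (s.2.tail.headD false || s.2.headD false) :: s.2.tail.tail)

open Classical in
lemma run_eval (B : Set (List Bool)) (φ : BForm) : ∀ R S : List Bool,
    run gA gN gC gD φ ((atoms φ).map (fun y => decide (y ∈ B)) ++ R, S) =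
      (R, decide (φ.holds B) :: S) := by
  induction φ with
  | atom y => intro R S; rfl
  | neg φ ih =>
    intro R S
    rw [run, atoms, ih]
    simp [gN, BForm.holds]
  | and φ ψ ih ih' =>
    intro R S
    rw [run, atoms, List.map_append, List.append_assoc, ih, ih']
    simp [gC, BForm.holds]
  | or φ ψ ih ih' =>
    intro R S
    rw [run, atoms, List.map_append, List.append_assoc, ih, ih']
    simp [gD, BForm.holds]

lemma primrec_headD {α : Type} [Primcodable α] {f : α → List Bool} (hf : Primrec f) :
    Primrec fun a => (f a).headD false := by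
  have h : Primrec fun a => ((f a).head?).getD false :=
    Primrec.option_getD.comp (Primrec.list_head?.comp hf) (Primrec.const false)
  exact h.of_eq fun a => by cases f a <;> rfl

lemma primrec_gA : Primrec₂ gA := by
  have h1 : Primrec fun p : (List Bool × List Bool) × List Bool => p.1.1 :=
    Primrec.fst.comp Primrec.fst
  exact (Primrec.list_tail.comp h1).pair (Primrec.list_cons.comp (primrec_headD h1)
    (Primrec.snd.comp Primrec.fst))

lemma primrec_gN : Primrec gN :=
  Primrec.fst.pair (Primrec.list_cons.comp (Primrec.not.comp (primrec_headD Primrec.snd))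
    (Primrec.list_tail.comp Primrec.snd))

lemma primrec_gC : Primrec gC :=
  Primrec.fst.pair (Primrec.list_cons.comp (Primrec.and.comp
    (primrec_headD (Primrec.list_tail.comp Primrec.snd)) (primrec_headD Primrec.snd))
    (Primrec.list_tail.comp (Primrec.list_tail.comp Primrec.snd)))

lemma primrec_gD : Primrec gD :=
  Primrec.fst.pair (Primrec.list_cons.comp (Primrec.or.comp
    (primrec_headD (Primrec.list_tail.comp Primrec.snd)) (primrec_headD Primrec.snd))
    (Primrec.list_tail.comp (Primrec.list_tail.comp Primrec.snd)))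

/-- exponentials dominate polynomials -/
lemma poly_lt (P : Polynomial ℕ) : ∀ c : ℕ, ∃ n₀, ∀ n ≥ n₀, c * P.eval n < 2 ^ n := by
  induction P using Polynomial.induction_on' with
  | add p q hp hq =>
    intro c
    obtain ⟨n₁, h₁⟩ := hp (2 * c)
    obtain ⟨n₂, h₂⟩ := hq (2 * c)
    refine ⟨max n₁ n₂, fun n hn => ?_⟩
    have e1 := h₁ n (le_trans (le_max_left _ _) hn)
    have e2 := h₂ n (le_trans (le_max_right _ _) hn)
    rw [Polynomial.eval_add]
    nlinarith
  | monomial k a =>
    intro c
    have h := tendsto_pow_const_div_const_pow_of_one_lt k (r := (2 : ℝ)) (by norm_num)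
    have hpos : (0 : ℝ) < 1 / (c * a + 1) := by positivity
    have h2 := h.eventually (gt_mem_nhds hpos)
    rw [Filter.eventually_atTop] at h2
    obtain ⟨n₀, hn₀⟩ := h2
    refine ⟨n₀, fun n hn => ?_⟩
    have h3 := hn₀ n hn
    rw [div_lt_div_iff₀ (by positivity) (by positivity), one_mul] at h3
    rw [Polynomial.eval_monomial]
    have h4 : ((c * (a * n ^ k) : ℕ) : ℝ) < ((2 ^ n : ℕ) : ℝ) := by
      push_cast
      have h5 : (0 : ℝ) ≤ (n : ℝ) ^ k := by positivity
      nlinarith
    exact_mod_cast h4

end TaskN

open Pool.Agent.LibComplexity in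
theorem ptt_tt {A B : Set (List Bool)} (h : PttRed A B) :
    ∃ (q : List Bool → List (List Bool)) (g : List Bool → List Bool → Bool),
      TTReduction q g A B ∧ ∃ P : Polynomial ℕ, ∀ x, (q x).length ≤ P.eval x.length := by
  classical
  obtain ⟨f, hf, hfAB⟩ := h
  have hF : Primrec fun x => (f x).code := primrec_of_inFP hf
  refine ⟨fun x => ((f x).code.foldl (TaskN.mstep TaskN.qA id id id) (0, [], [])).2.2,
    fun x ans => (((f x).code.foldl (TaskN.mstep TaskN.gA TaskN.gN TaskN.gC TaskN.gD)
      (0, [], (ans, []))).2.2.2).headD false, ⟨?_, ?_, ?_⟩, ?_⟩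
  · refine Primrec.to_comp ?_
    refine Primrec.snd.comp (Primrec.snd.comp (Primrec.list_foldl
      (h := fun (_ : List Bool) (p : (ℕ × List Bool × List (List Bool)) × Bool) =>
        TaskN.mstep TaskN.qA id id id p.1 p.2) hF
        (Primrec.const ((0, [], []) : ℕ × List Bool × List (List Bool))) ?_))
    exact (TaskN.primrec_mstep TaskN.primrec_qA Primrec.id Primrec.id Primrec.id).comp
      (Primrec.fst.comp Primrec.snd) (Primrec.snd.comp Primrec.snd)
  · refine Primrec₂.to_comp ?_
    refine TaskN.primrec_headD (Primrec.snd.comp (Primrec.snd.comp (Primrec.snd.comp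
      (Primrec.list_foldl
      (h := fun (_ : List Bool × List Bool)
        (p : (ℕ × List Bool × (List Bool × List Bool)) × Bool) =>
        TaskN.mstep TaskN.gA TaskN.gN TaskN.gC TaskN.gD p.1 p.2)
      (hF.comp Primrec.fst) ((Primrec.const 0).pair ((Primrec.const []).pair
        (Primrec.snd.pair (Primrec.const [])))) ?_))))
    exact (TaskN.primrec_mstep TaskN.primrec_gA TaskN.primrec_gN TaskN.primrec_gC
      TaskN.primrec_gD).comp (Primrec.fst.comp Primrec.snd) (Primrec.snd.comp Primrec.snd)
  · intro x
    simp only
    rw [TaskN.foldl_code, TaskN.foldl_code]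
    simp only
    rw [TaskN.run_atoms, List.nil_append]
    have h1 := TaskN.run_eval B (f x) [] []
    rw [List.append_nil] at h1
    rw [h1, hfAB x]
    simp
  · rw [inFP_iff] at hf
    obtain ⟨Q, hQ⟩ := hf.size_le
    refine ⟨Q.comp (4 * Polynomial.X + 1), fun x => ?_⟩
    simp only
    rw [TaskN.foldl_code]
    simp only
    rw [TaskN.run_atoms, List.nil_append]
    have h1 := TaskN.length_atoms (f x)
    have h2 := length_le_sz (f x).code
    have h3 := hQ ∅ (Set.mem_singleton _) x
    have h4 := peval_mono Q (sz_word_le x)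
    rw [Polynomial.eval_comp]
    have h5 : (4 * Polynomial.X + 1 : Polynomial ℕ).eval x.length = 4 * x.length + 1 := by
      simp
    rw [h5]
    exact h1.trans (h2.trans (h3.trans h4))

open Pool.Agent.LibComplexity in
theorem exists_not_ptt :
    ∃ U : List Bool →. List Bool, Universal U ∧ ¬ PttRed Halt (RC U) := by
  obtain ⟨U, hU, h⟩ := main
  refine ⟨U, hU, fun hred => ?_⟩
  obtain ⟨q, g, hqg, P, hP⟩ := ptt_tt hred
  obtain ⟨C, hC⟩ := h q g hqg
  obtain ⟨n₀, hn₀⟩ := TaskN.poly_lt (P ^ 2) C
  obtain ⟨x, hx, hx'⟩ := hC n₀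
  have h1 := hn₀ x.length hx
  rw [Polynomial.eval_pow] at h1
  have h2 : C * (q x).length ^ 2 ≤ C * (P.eval x.length) ^ 2 :=
    Nat.mul_le_mul_left _ (Nat.pow_le_pow_left (hP x) 2)
  omega

end Pool.Agent.LibPtt90
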