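import Pool.Agent.LibPtt90.Game
import Pool.Agent.LibRandTT.Comp

/-!
The set of marks of the strategy is recursively enumerable.
-/

open Finset Function

namespace Pool.Agent.LibPtt90

namespace TaskR

open Pool.Agent.LibRandTT Encodable

variable {α : Type} [Primcodable α]

lemma filterB {β : Type} [Primcodable β] {L : α → List β} {p : α → β → Bool}
    (hL : Primrec L) (hp : Primrec₂ p) : Primrec fun a => (L a).filter (p a) := by
  have h : PrimrecRel fun a b => p a b = true := PP.eq hp (Primrec.const true)
  refine (PP.filter hL h).of_eq fun a => ?_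
  congr 1
  funext b
  simp

lemma allB {β : Type} [Primcodable β] {L : α → List β} {p : α → β → Bool}
    (hL : Primrec L) (hp : Primrec₂ p) : Primrec fun a => (L a).all (p a) := by
  classical
  have h : PrimrecPred fun a => ∀ b ∈ L a, p a b = true :=
    PP.forall_mem (p := fun a b => p a b = true) hL (PP.eq hp (Primrec.const true))
  refine h.decide.of_eq fun a => ?_
  rw [Bool.eq_iff_iff]
  simp [List.all_eq_true]

variable {inA adv : ℕ → List Bool → Bool} {nm : ℕ → List Bool}

lemma primrec_burned (hofs : Primrec ofs) (hadv : Primrec₂ adv) {s : α → ℕ} {e β : α → List Bool}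
    (hs : Primrec s) (he : Primrec e) (hβ : Primrec β) :
    Primrec fun a => burned (adv (s a)) (e a) (β a) := by
  unfold burned
  refine PrimrecPred.decide (PP.le (Primrec.list_length.comp (hofs.comp he)) ?_)
  refine Primrec.nat_mul.comp (Primrec.const 8) (Primrec.list_length.comp ?_)
  refine filterB (p := fun a o => adv (s a) (β a ++ o)) (hofs.comp he) ?_
  exact hadv.comp (hs.comp Primrec.fst)
    (Primrec.list_append.comp (hβ.comp Primrec.fst) Primrec.snd)

lemma primrec_needs (hofs : Primrec ofs) (hadv : Primrec₂ adv) {s : α → ℕ} {e : α → List Bool}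
    {σ : α → List (List Bool × List Bool)}
    (hs : Primrec s) (he : Primrec e) (hσ : Primrec σ) :
    Primrec fun a => needs (adv (s a)) (σ a) (e a) := by
  unfold needs
  refine allB (p := fun a q => !(decide (q.1 = e a)) || burned (adv (s a)) (e a) q.2) hσ ?_
  refine Primrec.or.comp (Primrec.not.comp ?_) ?_
  · exact PrimrecPred.decide (PP.eq (Primrec.fst.comp Primrec.snd) (he.comp Primrec.fst))
  · exact primrec_burned hofs hadv (hs.comp Primrec.fst) (he.comp Primrec.fst)
      (Primrec.snd.comp Primrec.snd)

lemma primrec_free (hofs : Primrec ofs) (hadv : Primrec₂ adv) {s : α → ℕ} {e β : α → List Bool}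
    {σ : α → List (List Bool × List Bool)}
    (hs : Primrec s) (he : Primrec e) (hβ : Primrec β) (hσ : Primrec σ) :
    Primrec fun a => free (adv (s a)) (σ a) (e a) (β a) := by
  unfold free
  refine Primrec.and.comp (Primrec.not.comp (primrec_burned hofs hadv hs he hβ)) ?_
  refine allB (p := fun a q => !(decide (q.2 = β a))) hσ ?_
  exact Primrec.not.comp
    (PrimrecPred.decide (PP.eq (Primrec.snd.comp Primrec.snd) (hβ.comp Primrec.fst)))

lemma take_one {β : Type} (l : List β) : l.take 1 = l.head?.toList := by
  cases l <;> rfl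

lemma primrec_move (hcnd : Primrec cnd) (hofs : Primrec ofs) (hadv : Primrec₂ adv)
    {s : α → ℕ} {e : α → List Bool} {σ : α → List (List Bool × List Bool)}
    (hs : Primrec s) (he : Primrec e) (hσ : Primrec σ) :
    Primrec fun a => move (adv (s a)) (e a) (σ a) := by
  unfold move
  refine Primrec.ite (PP.eq (primrec_needs hofs hadv hs he hσ) (Primrec.const true)) ?_ hσ
  refine Primrec.list_append.comp ?_ hσ
  have h1 : Primrec fun a : α => (((cnd (e a)).filter (free (adv (s a)) (σ a) (e a))).map
      fun β => (e a, β)) := by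
    refine Primrec.list_map (filterB (hcnd.comp he) ?_) ?_
    · exact primrec_free hofs hadv (hs.comp Primrec.fst) (he.comp Primrec.fst) Primrec.snd
        (hσ.comp Primrec.fst)
    · exact Primrec.pair (he.comp Primrec.fst) Primrec.snd
  have h2 : Primrec fun l : List (List Bool × List Bool) => l.take 1 := by
    have h3 : Primrec fun l : List (List Bool × List Bool) => (Option.casesOn l.head? []
        (fun b => [b]) : List (List Bool × List Bool)) :=
      Primrec.option_casesOn Primrec.list_head? (Primrec.const [])
        (Primrec.list_cons.comp Primrec.snd (Primrec.const []))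
    refine h3.of_eq fun l => ?_
    cases l <;> rfl
  exact h2.comp h1

lemma primrec_state (hcnd : Primrec cnd) (hofs : Primrec ofs) (hA : Primrec₂ inA)
    (hadv : Primrec₂ adv) (hnm : Primrec nm) : Primrec (state inA adv nm) := by
  have h : Primrec fun n : ℕ => (Nat.rec [] (fun s σ =>
      if inA s (nm s) = true then move (adv s) (nm s) σ else σ) n :
      List (List Bool × List Bool)) := by
    refine Primrec.nat_rec' (f := fun n : ℕ => n) (g := fun _ => [])
      (h := fun (_ : ℕ) (p : ℕ × List (List Bool × List Bool)) =>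
        if inA p.1 (nm p.1) = true then move (adv p.1) (nm p.1) p.2 else p.2) Primrec.id
      (Primrec.const []) ?_
    have hs : Primrec fun q : ℕ × (ℕ × List (List Bool × List Bool)) => q.2.1 :=
      Primrec.fst.comp Primrec.snd
    have hσ : Primrec fun q : ℕ × (ℕ × List (List Bool × List Bool)) => q.2.2 :=
      Primrec.snd.comp Primrec.snd
    exact Primrec.ite (PP.eq (hA.comp hs (hnm.comp hs)) (Primrec.const true))
      (primrec_move hcnd hofs hadv hs (hnm.comp hs) hσ) hσ
  refine h.of_eq fun n => ?_
  induction n with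
  | zero => rfl
  | succ n ih => rw [state, ← ih]

/-- the data of a mark -/
def dat (n : ℕ) : ℕ × List Bool × List Bool × List Bool :=
  ((decode n : Option (ℕ × List Bool × List Bool × List Bool)).getD (0, [], [], []))

lemma primrec_dat : Primrec dat :=
  Primrec.option_getD.comp Primrec.decode (Primrec.const _)

lemma dat_encode (x : ℕ × List Bool × List Bool × List Bool) : dat (encode x) = x := by
  unfold dat
  rw [encodek]
  rfl

end TaskR

open TaskR Pool.Agent.LibRandTT Encodable in
theorem Wr_re {inA adv : ℕ → List Bool → Bool} {nm : ℕ → List Bool} (hcnd : Primrec cnd)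
    (hofs : Primrec ofs) (hcwl : Primrec cwl) (hA : Primrec₂ inA) (hadv : Primrec₂ adv)
    (hnm : Primrec nm) : REPred (Wr inA adv nm) := by
  have h : REPred fun y : List Bool => ∃ n : ℕ, (dat n).2.2.1 ∈ cnd (dat n).2.1 ∧
      y = (dat n).2.2.1 ++ (dat n).2.2.2 ∧
      ((burned (adv (dat n).1) (dat n).2.1 (dat n).2.2.1 = true ∧
        (dat n).2.2.2 ∈ ofs (dat n).2.1) ∨
      (((dat n).2.1, (dat n).2.2.1) ∈ state inA adv nm (dat n).1 ∧
        (dat n).2.2.2 ∈ cwl (dat n).2.1)) := by
    apply rePred_of_exists
    have h1 : Primrec fun p : List Bool × ℕ => (dat p.2).1 :=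
      Primrec.fst.comp (primrec_dat.comp Primrec.snd)
    have h2 : Primrec fun p : List Bool × ℕ => (dat p.2).2.1 :=
      Primrec.fst.comp (Primrec.snd.comp (primrec_dat.comp Primrec.snd))
    have h3 : Primrec fun p : List Bool × ℕ => (dat p.2).2.2.1 :=
      Primrec.fst.comp (Primrec.snd.comp (Primrec.snd.comp (primrec_dat.comp Primrec.snd)))
    have h4 : Primrec fun p : List Bool × ℕ => (dat p.2).2.2.2 :=
      Primrec.snd.comp (Primrec.snd.comp (Primrec.snd.comp (primrec_dat.comp Primrec.snd)))
    have mem {β : Type} [Primcodable β] {L : List Bool × ℕ → List β} {x : List Bool × ℕ → β}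
        (hL : Primrec L) (hx : Primrec x) : PrimrecPred fun a => x a ∈ L a := by
      refine (PP.exists_mem (p := fun a b => b = x a) hL
        (PP.eq Primrec.snd (hx.comp Primrec.fst))).of_eq fun a => ?_
      simp
    refine (mem (hcnd.comp h2) h3).and ((PP.eq Primrec.fst (Primrec.list_append.comp h3 h4)).and
      (PrimrecPred.or ((PP.eq (primrec_burned hofs hadv h1 h2 h3) (Primrec.const true)).and
        (mem (hofs.comp h2) h4)) ((mem ((primrec_state hcnd hofs hA hadv hnm).comp h1)
          (Primrec.pair h2 h3)).and (mem (hcwl.comp h2) h4))))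
  refine h.of_eq fun y => ?_
  unfold Wr
  constructor
  · rintro ⟨n, h1, h2, h3⟩; exact ⟨_, _, _, _, h1, h2, h3⟩
  · rintro ⟨s, e, β, o, h1, h2, h3⟩
    refine ⟨encode (s, e, β, o), ?_⟩
    rw [dat_encode]
    exact ⟨h1, h2, h3⟩

end Pool.Agent.LibPtt90
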