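import Pool.Agent.LibPtt90.Ptf2
import Pool.Agent.LibPtt90.TaskF2
import Pool.Agent.LibPtt90.TaskR
import Pool.Agent.LibPtt90.TaskM
import Pool.Agent.LibPtt90.TaskN

/-!
The formula computed by the reduction, and the main theorem: for some universal machine every
recursively enumerable set is polynomial-time truth-table reducible to the set of random strings.
-/

namespace Pool.Agent.LibPtt90

open Pool.Agent.LibComplexity Function Enc

section

variable {𝒜 : Set Orc} {α β γ : Type} [Enc α] [Enc β] [Enc γ]

theorem two_pow_pred_size (n : ℕ) : 2 ^ (Nat.size n - 1) ≤ n + 1 := by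
  rcases Nat.eq_zero_or_pos n with rfl | hn
  · simp
  · have h : 0 < Nat.size n := Nat.size_pos.2 hn
    have h1 : 2 ^ (Nat.size n - 1) ≤ n := Nat.lt_size.1 (by omega)
    omega

theorem ptf_scale {e : Orc → α → List Bool} (he : PTf 𝒜 e) :
    PTf 𝒜 (fun A x => scale (e A x)) := by
  unfold scale
  with_reducible
    apply PTf.sub; apply ptf_size; apply PTf.length; assumption; apply PTf.const

theorem ptf_two_scale {e : Orc → α → List Bool} (he : PTf 𝒜 e) :
    PTf 𝒜 (fun A x => 2 ^ scale (e A x)) :=
  ptf_pow_le (B := fun A x => (e A x).length + 1) he.length.succ (PTf.const 2) (ptf_scale he)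
    fun A _ x => two_pow_pred_size _

theorem ptf_ok {e : Orc → α → List Bool} (he : PTf 𝒜 e) : PTf 𝒜 (fun A x => ok (e A x)) := by
  unfold ok
  have h1 := ptf_two_scale he
  have h2 : PTf 𝒜 (fun A x => 2 ^ (Nat.size (scale (e A x)) - 1)) :=
    ptf_pow_le (B := fun A x => scale (e A x) + 1) (ptf_scale he).succ (PTf.const 2)
      (ptf_size (ptf_scale he)).pred fun A _ x => two_pow_pred_size _
  refine PTf.band ?_ ?_
  · exact PTf.decide_eq he.length h1
  · exact PTf.decide_eq (ptf_scale he) h2

theorem ptf_nb {N L i : Orc → α → ℕ} {e : Orc → α → List Bool} (hN : PTf 𝒜 N) (hL : PTf 𝒜 L)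
    (h : ∀ A ∈ 𝒜, ∀ x, N A x = 2 ^ L A x) (hi : PTf 𝒜 i) (he : PTf 𝒜 e) :
    PTf 𝒜 (fun A x => nb (L A x) (i A x) (e A x)) := by
  have hb : PTf 𝒜 (fun A x => L A x * (2 * i A x + 1)) := hL.mul ((PTf.const 2).mul hi).succ
  have ht : PTf 𝒜 (fun A x => 1536 * (L A x + 1)) := (PTf.const 1536).mul hL.succ
  have key : PTf 𝒜 (fun A x => if L A x * (2 * i A x + 1) < 1536 * (L A x + 1) then
      allS (2 ^ ((L A x + 1) * 1536)) (L A x * (2 * i A x + 1))
      else (disp 1442 (2 ^ 39) (L A x) (L A x * (2 * i A x + 1) - 1536 * (L A x + 1))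
        (e A x)).flatMap fun z =>
        (allS (2 ^ ((L A x + 1) * 1536)) (1536 * (L A x + 1))).map fun u => z ++ u) := by
    refine PTf.ifP (PTf.decide_lt hb ht) (ptf_capped 1536 hN h hb) ?_
    refine PTf.flatMap (ptf_disp 1442 (2 ^ 39) hN hL h (hb.sub ht) he) ?_
    refine PTf.map ?_ (PTf.id.fst.snd.append PTf.id.snd)
    exact ptf_capped (N := fun A (p : α × List Bool) => N A p.1)
      (L := fun A (p : α × List Bool) => L A p.1) 1536 (hN.comp PTf.id.fst)
      (fun A hA p => h A hA p.1) (ht.comp PTf.id.fst)
  refine key.congr fun A _ x => ?_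
  unfold nb
  rw [mul_comm (L A x + 1) 1536]

theorem ptf_cnd {e : Orc → α → List Bool} (he : PTf 𝒜 e) : PTf 𝒜 (fun A x => cnd (e A x)) := by
  unfold cnd cand
  refine PTf.ifP (ptf_ok he).decide_eq_true' ?_ (PTf.const [])
  have hN := ptf_two_scale he
  refine PTf.flatMap (hN.add (PTf.const 2)).range ?_
  exact ptf_nb (N := fun A (p : α × ℕ) => 2 ^ scale (e A p.1))
    (L := fun A (p : α × ℕ) => scale (e A p.1)) (hN.comp PTf.id.fst)
    ((ptf_scale he).comp PTf.id.fst) (fun A _ p => rfl)
    (((hN.comp PTf.id.fst).succ).sub PTf.id.snd) (he.comp PTf.id.fst)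

theorem ptf_ofs {e : Orc → α → List Bool} (he : PTf 𝒜 e) : PTf 𝒜 (fun A x => ofs (e A x)) := by
  have hN := ptf_two_scale he
  have hL := ptf_scale he
  have key : PTf 𝒜 (fun A x => if ok (e A x) = true then
      allS ((2 ^ scale (e A x)) ^ 10) (10 * scale (e A x)) else []) :=
    PTf.ifP (ptf_ok he).decide_eq_true' (ptf_allS (hN.pow 10) ((PTf.const 10).mul hL))
      (PTf.const [])
  refine key.congr fun A _ x => ?_
  unfold ofs offs
  rw [← pow_mul, mul_comm (scale (e A x)) 10]

theorem nextP_pos {B : ℕ} (hB : 0 < B) : 0 < nextP B := (nextP_spec hB).1.pos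

theorem ptf_cw {e o : Orc → α → List Bool} (he : PTf 𝒜 e) (ho : PTf 𝒜 o) :
    PTf 𝒜 (fun A x => cw (scale (e A x)) (e A x) (o A x)) := by
  have hN := ptf_two_scale he
  have hL := ptf_scale he
  have key : PTf 𝒜 (fun A x => cbit (nextP (2 ^ scale (e A x) * 2 ^ 3)) (scale (e A x) + 3)
      (true :: e A x) ((o A x).take (2 * scale (e A x) + 7))) := by
    refine ptf_cbit (ptf_nextP (hN.mul (PTf.const (2 ^ 3)))) (hL.add (PTf.const 3))
      ((PTf.const true).cons he) (ho.take (((PTf.const 2).mul hL).add (PTf.const 7))) ?_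
    intro A _ x
    exact nextP_pos (by positivity)
  refine key.congr fun A _ x => ?_
  unfold cw
  rw [pow_add]

theorem ptf_cwl {e : Orc → α → List Bool} (he : PTf 𝒜 e) : PTf 𝒜 (fun A x => cwl (e A x)) := by
  unfold cwl
  exact (ptf_ofs he).filter (ptf_cw (he.comp PTf.id.fst) PTf.id.snd)

/-! ### names -/

/-- squaring as long as the first number is at most `n` -/
def grow (n : ℕ) (q : ℕ) : ℕ := if q ≤ n then q * q else q

/-- the length of the names of the strings of length `n` -/
def nml (n : ℕ) : ℕ := (grow n)^[n] 2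

/-- the name of a string -/
def nam (x : List Bool) : List Bool := padr (nml x.length) (x ++ [true])

theorem grow_iter (n i : ℕ) : ∃ j, (grow n)^[i] 2 = 2 ^ 2 ^ j ∧ (j = i ∨ n < 2 ^ 2 ^ j) := by
  induction i with
  | zero => exact ⟨0, by simp, Or.inl rfl⟩
  | succ i ih =>
    obtain ⟨j, hj, h⟩ := ih
    rw [iterate_succ_apply', hj]
    unfold grow
    by_cases h1 : 2 ^ 2 ^ j ≤ n
    · rw [if_pos h1]
      refine ⟨j + 1, ?_, Or.inl ?_⟩
      · rw [← pow_add]
        congr 1
        rw [pow_succ]
        ring
      · rcases h with h | h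
        · rw [h]
        · omega
    · rw [if_neg h1]
      exact ⟨j, rfl, Or.inr (not_le.1 h1)⟩

theorem nml_spec (n : ℕ) : ∃ j, nml n = 2 ^ 2 ^ j ∧ n < 2 ^ 2 ^ j := by
  obtain ⟨j, hj, h⟩ := grow_iter n n
  refine ⟨j, hj, ?_⟩
  rcases h with rfl | h
  · exact (Nat.lt_two_pow_self).trans_le (Nat.pow_le_pow_right (by norm_num)
      Nat.lt_two_pow_self.le)
  · exact h

theorem grow_le (n i : ℕ) : (grow n)^[i] 2 ≤ n * n + 2 := by
  induction i with
  | zero => simp
  | succ i ih =>
    rw [iterate_succ_apply']
    unfold grow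
    split_ifs with h
    · exact (Nat.mul_le_mul h h).trans (Nat.le_add_right _ _)
    · exact ih

theorem nam_length (x : List Bool) : (nam x).length = nml x.length := by
  obtain ⟨j, hj, h⟩ := nml_spec x.length
  unfold nam
  apply padr_length
  rw [List.length_append, List.length_singleton, hj]
  exact h

theorem ok_nam (x : List Bool) : ok (nam x) = true := by
  obtain ⟨j, hj, h⟩ := nml_spec x.length
  have h1 : scale (nam x) = 2 ^ j := by
    unfold scale
    rw [nam_length, hj, Nat.size_pow]
    rfl
  unfold ok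
  rw [h1, nam_length, hj, Nat.size_pow, Bool.and_eq_true, decide_eq_true_eq, decide_eq_true_eq]
  exact ⟨rfl, rfl⟩

theorem nam_injective : Injective nam := by
  have key : ∀ x : List Bool, ((nam x).reverse.dropWhile (fun b => !b)).tail.reverse = x := by
    intro x
    unfold nam padr
    rw [List.reverse_append, List.reverse_append, List.reverse_replicate, List.reverse_singleton]
    generalize nml x.length - (x ++ [true]).length = k
    have : (List.replicate k false ++ ([true] ++ x.reverse)).dropWhile (fun b => !b) =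
        true :: x.reverse := by
      induction k with
      | zero => simp
      | succ k ih => rw [List.replicate_succ, List.cons_append, List.dropWhile_cons]; simpa using ih
    rw [this, List.tail_cons, List.reverse_reverse]
  intro x y h
  rw [← key x, h, key y]

theorem ptf_nam {x : Orc → α → List Bool} (hx : PTf 𝒜 x) : PTf 𝒜 (fun A z => nam (x A z)) := by
  unfold nam
  refine ptf_padr ?_ (hx.append (PTf.const [true]))
  unfold nml
  have key : ∀ (n i q : ℕ), (fun p : ℕ × ℕ => (p.1, grow p.1 p.2))^[i] (n, q) =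
      (n, (grow n)^[i] q) := by
    intro n i q
    induction i generalizing q with
    | zero => rfl
    | succ i ih => rw [iterate_succ_apply, ih, iterate_succ_apply]
  have hstep : PTf 𝒜 (fun _ (p : ℕ × ℕ) => (p.1, grow p.1 p.2)) := by
    unfold grow
    with_reducible
      apply PTf.pair; apply PTf.fst; apply PTf.id; apply PTf.ifP; apply PTf.decide_le
      apply PTf.snd; apply PTf.id; apply PTf.fst; apply PTf.id; apply PTf.mul; apply PTf.snd
      apply PTf.id; apply PTf.snd; apply PTf.id; apply PTf.snd; apply PTf.id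
  have hl := hx.length
  have h1 : PB 𝒜 fun A z => (x A z).length := PB.nat hl
  have c2 : PB 𝒜 (fun _ (_ : α) => 2) := PB.const 2
  have c1 : PB 𝒜 (fun _ (_ : α) => 1) := PB.const 1
  have := PTf.iter' (g := fun _ (p : ℕ × ℕ) => (p.1, grow p.1 p.2)) hl
    (hl.pair (PTf.const 2)) hstep
    (b := fun A z => (2 * (x A z).length + 1) + (2 * ((x A z).length * (x A z).length + 2) + 1) + 1)
    (((c2.mul h1).add c1).add ((c2.mul ((h1.mul h1).add c2)).add c1) |>.add c1) (by
      intro A _ z i _
      rw [key, sz_pair, sz_nat, sz_nat]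
      have := grow_le (x A z).length i
      omega)
  exact this.snd.congr fun A _ z => by rw [key]

/-! ### the formula -/

/-- a false formula -/
def ffF : BForm := .and (.atom []) (.neg (.atom []))

/-- a true formula -/
def ttF : BForm := .neg ffF

/-- disjunction of a list -/
def bigOr (l : List BForm) : BForm := l.foldl BForm.or ffF

/-- conjunction of a list -/
def bigAnd (l : List BForm) : BForm := l.foldl BForm.and ttF

theorem holds_bigOr (B : Set (List Bool)) (l : List BForm) :
    (bigOr l).holds B ↔ ∃ φ ∈ l, φ.holds B := by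
  have key : ∀ (l : List BForm) (ψ : BForm), (l.foldl BForm.or ψ).holds B ↔
      ψ.holds B ∨ ∃ φ ∈ l, φ.holds B := by
    intro l
    induction l with
    | nil => intro ψ; simp
    | cons φ l ih =>
      intro ψ
      rw [List.foldl_cons, ih]
      simp only [BForm.holds, List.mem_cons, exists_eq_or_imp]
      tauto
  unfold bigOr
  rw [key]
  simp [ffF, BForm.holds]

theorem holds_bigAnd (B : Set (List Bool)) (l : List BForm) :
    (bigAnd l).holds B ↔ ∀ φ ∈ l, φ.holds B := by
  have key : ∀ (l : List BForm) (ψ : BForm), (l.foldl BForm.and ψ).holds B ↔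
      ψ.holds B ∧ ∀ φ ∈ l, φ.holds B := by
    intro l
    induction l with
    | nil => intro ψ; simp
    | cons φ l ih =>
      intro ψ
      rw [List.foldl_cons, ih]
      simp only [BForm.holds, List.mem_cons, forall_eq_or_imp]
      tauto
  unfold bigAnd
  rw [key]
  simp [ttF, ffF, BForm.holds]

theorem code_bigOr (l : List BForm) :
    (bigOr l).code = ffF.code ++ l.flatMap fun φ => φ.code ++ [false, true, true] := by
  have key : ∀ (l : List BForm) (ψ : BForm), (l.foldl BForm.or ψ).code =
      ψ.code ++ l.flatMap fun φ => φ.code ++ [false, true, true] := by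
    intro l
    induction l with
    | nil => intro ψ; simp
    | cons φ l ih =>
      intro ψ
      rw [List.foldl_cons, ih, BForm.code, List.flatMap_cons]
      simp
  exact key l ffF

theorem code_bigAnd (l : List BForm) :
    (bigAnd l).code = ttF.code ++ l.flatMap fun φ => φ.code ++ [false, true, false] := by
  have key : ∀ (l : List BForm) (ψ : BForm), (l.foldl BForm.and ψ).code =
      ψ.code ++ l.flatMap fun φ => φ.code ++ [false, true, false] := by
    intro l
    induction l with
    | nil => intro ψ; simp
    | cons φ l ih =>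
      intro ψ
      rw [List.foldl_cons, ih, BForm.code, List.flatMap_cons]
      simp
  exact key l ttF

/-- the formula for the name `e` -/
def frm (e : List Bool) : BForm :=
  bigOr ((cnd e).map fun β => .and (bigAnd ((cwl e).map fun o => .neg (.atom (β ++ o))))
    (bigOr ((ofs e).map fun o => .atom (β ++ o))))

theorem holds_frm (B : Set (List Bool)) (e : List Bool) : (frm e).holds B ↔
    ∃ β ∈ cnd e, (∀ o ∈ cwl e, β ++ o ∉ B) ∧ ∃ o ∈ ofs e, β ++ o ∈ B := by
  unfold frm
  rw [holds_bigOr]
  simp only [List.mem_map, exists_exists_and_eq_and, BForm.holds, holds_bigOr, holds_bigAnd,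
    forall_exists_index, and_imp, forall_apply_eq_imp_iff₂]

/-- the code of an atom -/
def atc (y : List Bool) : List Bool := y.flatMap (fun b => [true, b]) ++ [false, false, false]

/-- the code of the formula for the name `e` -/
def frc (c₁ c₂ : List Bool) (l₀ l₁ l₂ : List (List Bool)) : List Bool :=
  c₁ ++ l₀.flatMap fun β => (c₂ ++ l₁.flatMap fun o => (atc (β ++ o) ++ [false, false, true]) ++
    [false, true, false]) ++ ((c₁ ++ l₂.flatMap fun o => atc (β ++ o) ++ [false, true, true]) ++
    [false, true, false]) ++ [false, true, true]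

theorem code_frm (e : List Bool) :
    (frm e).code = frc ffF.code ttF.code (cnd e) (cwl e) (ofs e) := by
  unfold frm frc
  rw [code_bigOr, List.flatMap_map]
  congr 1
  apply List.flatMap_congr
  intro β _
  simp only [BForm.code, code_bigAnd, code_bigOr, List.flatMap_map, atc, List.append_assoc]

theorem ptf_atc {y : Orc → α → List Bool} (hy : PTf 𝒜 y) : PTf 𝒜 (fun A x => atc (y A x)) := by
  unfold atc
  with_reducible
    apply PTf.append; apply PTf.flatMap; assumption; apply PTf.cons; apply PTf.const
    apply PTf.cons; apply PTf.snd; apply PTf.id; apply PTf.const; apply PTf.const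

theorem ptf_frm {e : Orc → α → List Bool} (he : PTf 𝒜 e) :
    PTf 𝒜 (fun A x => (frm (e A x)).code) := by
  have h0 : PTf 𝒜 (fun _ (q : List (List Bool) × List (List Bool) × List (List Bool)) =>
      frc ffF.code ttF.code q.1 q.2.1 q.2.2) := by
    generalize ffF.code = c₁
    generalize ttF.code = c₂
    unfold frc
    with_reducible
      apply PTf.append; apply PTf.const; apply PTf.flatMap; apply PTf.fst; apply PTf.id
      apply PTf.append; apply PTf.append; apply PTf.append; apply PTf.const; apply PTf.flatMap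
      apply PTf.fst; apply PTf.snd; apply PTf.fst; apply PTf.id; apply PTf.append
      apply PTf.append; apply ptf_atc; apply PTf.append; apply PTf.snd; apply PTf.fst
      apply PTf.id; apply PTf.snd; apply PTf.id; apply PTf.const; apply PTf.const
      apply PTf.append; apply PTf.append; apply PTf.const; apply PTf.flatMap; apply PTf.snd
      apply PTf.snd; apply PTf.fst; apply PTf.id; apply PTf.append; apply ptf_atc
      apply PTf.append; apply PTf.snd; apply PTf.fst; apply PTf.id; apply PTf.snd; apply PTf.id
      apply PTf.const; apply PTf.const; apply PTf.const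
  exact (h0.comp ((ptf_cnd he).pair ((ptf_cwl he).pair (ptf_ofs he)))).congr fun A _ x =>
    (code_frm _).symm

end

/-! ### the main theorem -/

section

open Pool.Agent.LibRandTT Nat.Partrec Encodable Denumerable

/-- a universal recursively enumerable set -/
def KU (w : List Bool) : Prop :=
  ((ofNat Code (ones w)).eval (encode (w.drop (ones w + 1)))).Dom

theorem KU_re : REPred KU := by
  have h : Partrec fun w : List Bool =>
      (ofNat Code (ones w)).eval (encode (w.drop (ones w + 1))) :=
    Code.eval_part.comp ((Primrec.ofNat Code).comp primrec_ones).to_comp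
      (Primrec.encode.comp (Primrec.list_drop.comp (Primrec.succ.comp primrec_ones)
        Primrec.id)).to_comp
  exact Partrec.dom_re h

theorem KU_complete {A : Set (List Bool)} (hA : REPred fun x => x ∈ A) :
    ∃ k : ℕ, ∀ x, x ∈ A ↔ KU (List.replicate k true ++ false :: x) := by
  obtain ⟨c, hc⟩ := exists_code_re hA
  refine ⟨encode c, fun x => ?_⟩
  unfold KU
  rw [ones_replicate, drop_replicate, ofNat_encode]
  exact (hc x).symm

theorem primrec_nam : Primrec nam :=
  primrec_of_inFP (inFP_of_PTf (ptf_nam PTf.id))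

theorem named_re : REPred fun e => ∃ x, KU x ∧ nam x = e := by
  obtain ⟨a, ha, -, ha2⟩ := exists_stages KU_re
  have h : REPred fun e => ∃ n : ℕ, a n.unpair.2 (str n.unpair.1) = true ∧
      nam (str n.unpair.1) = e := by
    apply rePred_of_exists
    have hx : Primrec fun p : List Bool × ℕ => str p.2.unpair.1 :=
      primrec_str.comp (Primrec.fst.comp (Primrec.unpair.comp Primrec.snd))
    refine PrimrecPred.and ?_ ?_
    · exact Primrec.eq.comp (ha.comp (Primrec.snd.comp (Primrec.unpair.comp Primrec.snd)) hx)
        (Primrec.const true)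
    · exact Primrec.eq.comp (primrec_nam.comp hx) Primrec.fst
  refine h.of_eq fun e => ?_
  constructor
  · rintro ⟨n, h1, h2⟩
    exact ⟨_, (ha2 _).2 ⟨_, h1⟩, h2⟩
  · rintro ⟨x, h1, h2⟩
    obtain ⟨s, hs⟩ := (ha2 _).1 h1
    refine ⟨Nat.pair (Pool.Agent.LibRandTT.num x) s, ?_, ?_⟩
    · simpa using hs
    · simpa using h2

/-- For some universal machine, every recursively enumerable set is polynomial-time truth-table
reducible to the set of random strings. -/
theorem exists_ptt_all : ∃ U : List Bool →. List Bool, Universal U ∧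
    ∀ A : Set (List Bool), (REPred fun x => x ∈ A) → PttRed A (RC U) := by
  obtain ⟨inA, h1, h2, h3⟩ := exists_stages named_re
  obtain ⟨adv, a1, a2, a3⟩ := exists_stages NV8_re
  obtain ⟨nm, n1, n2⟩ := exists_names
  have hcount : ∀ s m (S : Finset (List Bool)), (∀ y ∈ S, y.length = m ∧ adv s y = true) →
      256 * S.card ≤ 2 ^ m := fun s m S hS =>
    NV8_count m S fun y hy => ⟨(hS y hy).1, (a3 y).2 ⟨s, (hS y hy).2⟩⟩
  have hre : REPred (Wr inA adv nm) :=
    Wr_re (primrec_of_PTf_lists (ptf_cnd PTf.id)) (primrec_of_PTf_lists (ptf_ofs PTf.id))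
      (primrec_of_PTf_lists (ptf_cwl PTf.id)) h1 a1 n1
  obtain ⟨U, hU, hR⟩ := exists_machine hre fun m S hS => by
    have := Wr_count a2 hcount m S hS
    omega
  refine ⟨U, hU, fun A hA => ?_⟩
  obtain ⟨k, hk⟩ := KU_complete hA
  refine ⟨fun x => frm (nam (List.replicate k true ++ false :: x)), ?_, fun x => ?_⟩
  · exact inFP_of_PTf (A := ∅)
      (f := fun _ x => (frm (nam (List.replicate k true ++ false :: x))).code) <| ptf_frm (ptf_nam ((PTf.const (List.replicate k true)).append
      ((PTf.const false).cons PTf.id)))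
  · show x ∈ A ↔ (frm (nam (List.replicate k true ++ false :: x))).holds (RC U)
    rw [hk]
    generalize List.replicate k true ++ false :: x = w
    rw [holds_frm]
    have h4 := Wr_correct (nm := nm) h2 a2 n2 hcount (ok_nam w)
    have h5 : (∃ s, inA s (nam w) = true) ↔ KU w := by
      rw [← h3]
      constructor
      · rintro ⟨x, hx, hxw⟩
        rw [← nam_injective hxw]
        exact hx
      · intro h
        exact ⟨w, h, rfl⟩
    rw [← h5, ← h4]
    have h6 : ∀ y, y ∈ RC U ↔ ¬ (Wr inA adv nm y ∨ ∃ s, adv s y = true) := by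
      intro y
      rw [hR, or_comm, a3]
    simp only [h6, not_not]

open Pool.Agent.LibComplexity in
theorem PttRed.of_polyRed {A A' B : Set (List Bool)} (h : PolyRed A A') (h' : PttRed A' B) :
    PttRed A B := by
  obtain ⟨g, hg, hg2⟩ := h
  obtain ⟨f, hf, hf2⟩ := h'
  refine ⟨fun x => f (g x), ?_, fun x => (hg2 x).trans (hf2 (g x))⟩
  exact inFP_of_PTf (A := ∅) (f := fun _ x => (f (g x)).code)
    ((ptf_of_inFP hf).comp (ptf_of_inFP hg))

end

end Pool.Agent.LibPtt90
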