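import Mathlib

/-!
Explicit functions on bit strings: a Reed-Solomon/Hadamard code, block designs, and the seeded
function built from them (in the style of Trevisan), powers of polynomials modulo a trinomial.
-/

namespace Pool.Agent.LibPtt90

/-- the number with the given binary digits (lowest digit first) -/
def num : List Bool → ℕ
  | [] => 0
  | b :: l => b.toNat + 2 * num l

/-- `min B (num l)` -/
def numc (B : ℕ) : List Bool → ℕ
  | [] => 0
  | b :: l => min B (b.toNat + 2 * numc B l)

/-- the `k` lowest binary digits of a number -/
def bits : ℕ → ℕ → List Bool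
  | 0, _ => []
  | k + 1, a => decide (a % 2 = 1) :: bits k (a / 2)

/-- the value of a polynomial (list of coefficients) at `z` modulo `p` -/
def pev (p : ℕ) : List ℕ → ℕ → ℕ
  | [], _ => 0
  | c :: l, z => (c + z * pev p l z) % p

/-- the inner product modulo `2` -/
def ip : List Bool → List Bool → Bool
  | a :: l, b :: l' => xor (a && b) (ip l l')
  | _, _ => false

/-- the bit with number `v` of the codeword of `x` -/
def cbit (p κ : ℕ) (x v : List Bool) : Bool :=
  ip (bits (κ + 1) (pev p (x.map Bool.toNat) (numc p (v.take κ)))) (v.drop κ)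

/-- the `t` lowest digits of a number in base `w` -/
def digs (w : ℕ) : ℕ → ℕ → List ℕ
  | 0, _ => []
  | t + 1, v => (v % w) :: digs w t (v / w)

/-- the exponents of the blocks of the design -/
def blk (w : ℕ) : ℕ → ℕ → ℕ → List ℕ
  | 0, k, t => List.replicate k t
  | f + 1, k, t => if k < 2 * w then List.replicate k t
      else blk w f (k / w - 1) (t + 1) ++ List.replicate (w + k % w) t

/-- the sets of the design: pairs of the number of a block and a polynomial -/
def dix (B w : ℕ) (bs : List ℕ) : List (ℕ × List ℕ) :=
  bs.zipIdx.flatMap fun q => (List.range (min B (w ^ q.1))).map fun v => (q.2, digs w q.1 v)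

/-- the element with number `a` of a set of the design -/
def dpos (l w : ℕ) (i : ℕ × List ℕ) (a : ℕ) : ℕ := i.1 * (l * w) + a * w + pev w i.2 a

/-- the seeded function: `x` is the input and `y` is the seed -/
def trev (B p κ w : ℕ) (bs : List ℕ) (x y : List Bool) : List Bool :=
  (dix B w bs).map fun i =>
    cbit p κ x ((List.range (2 * κ + 1)).map fun a => y.getD (dpos (2 * κ + 1) w i a) false)

/-- a coefficient of the product of two polynomials modulo `p` -/
def conv (p : ℕ) (a b : List ℕ) (k : ℕ) : ℕ :=
  ((List.range (k + 1)).map fun i => a.getD i 0 * b.getD (k - i) 0).sum % p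

/-- the product modulo `X ^ (2 * r) - τ * X ^ r - ν` and modulo `p` -/
def mulm (p r τ ν : ℕ) (a b : List ℕ) : List ℕ :=
  ((List.range r).map fun k => (conv p a b k + ν * conv p a b (k + 2 * r) +
    τ * ν * conv p a b (k + 3 * r)) % p) ++
  ((List.range r).map fun k => (conv p a b (k + r) + τ * conv p a b (k + 2 * r) +
    (τ * τ + ν) * conv p a b (k + 3 * r)) % p)

/-- the condenser: `μ` values (with `β` bits each) at the point `y` of the powers
`x ^ (2 ^ (e * i))` modulo `X ^ (2 * r) - τ * X ^ r - ν` -/
def guv (p r τ ν e β μ : ℕ) (x : List Bool) (y : ℕ) : List Bool :=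
  (List.range μ).flatMap fun i => bits β (pev p ((fun a => mulm p r τ ν a a)^[e * i]
    (x.map Bool.toNat)) y)

end Pool.Agent.LibPtt90
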