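import Mathlib

/-!
Irreducible trinomials `X ^ (2 * 3 ^ a) - τ X ^ (3 ^ a) - ν` over `ZMod p`.
-/

open Finset Function Polynomial

namespace Pool.Agent.LibPtt90

/-- `Y ^ 2 - τ * Y - ν` has no root, and its root in the quadratic extension is not a cube -/
def GoodPair {p : ℕ} (τ ν : ZMod p) : Prop :=
  (∀ y : ZMod p, y ^ 2 ≠ τ * y + ν) ∧
  ∀ a b : ZMod p, ¬ (a ^ 3 + 3 * a * b ^ 2 * ν + b ^ 3 * τ * ν = 0 ∧
    3 * a ^ 2 * b + 3 * a * b ^ 2 * τ + b ^ 3 * (τ ^ 2 + ν) = 1)

open IntermediateField in
theorem e_no_cube {K : Type} [Field K] (τ ν : K) (h1 : ∀ y : K, y ^ 2 ≠ τ * y + ν)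
    (h2 : ∀ a b : K, ¬ (a ^ 3 + 3 * a * b ^ 2 * ν + b ^ 3 * τ * ν = 0 ∧
      3 * a ^ 2 * b + 3 * a * b ^ 2 * τ + b ^ 3 * (τ ^ 2 + ν) = 1))
    (E : Type) [Field E] [Algebra K E] (x : E) (hx : x ^ 2 = algebraMap K E τ * x + algebraMap K E ν)
    (b : K⟮x⟯) : b ^ 3 ≠ AdjoinSimple.gen K x := by
  intro hb
  have hint : IsIntegral K x := by
    refine ⟨X ^ 2 - (C τ * X + C ν), ?_, ?_⟩
    · apply monic_X_pow_sub
      exact lt_of_le_of_lt degree_linear_le (by norm_num)
    · simp [hx]
  have hmem : (b : E) ∈ Algebra.adjoin K {x} := by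
    rw [← adjoin_simple_toSubalgebra_of_isAlgebraic hint.isAlgebraic]
    exact b.2
  rw [Algebra.adjoin_singleton_eq_range_aeval] at hmem
  obtain ⟨P, hP⟩ := hmem
  have hmon : (X ^ 2 - (C τ * X + C ν) : K[X]).Monic := by
    apply monic_X_pow_sub
    exact lt_of_le_of_lt degree_linear_le (by norm_num)
  have hroot : aeval x (X ^ 2 - (C τ * X + C ν) : K[X]) = 0 := by
    simp [hx]
  have hdeg : (X ^ 2 - (C τ * X + C ν) : K[X]).natDegree = 2 := by
    have : (C τ * X + C ν : K[X]).natDegree < (X ^ 2 : K[X]).natDegree := by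
      rw [natDegree_X_pow]
      exact lt_of_le_of_lt natDegree_linear_le (by norm_num)
    rw [natDegree_sub_eq_left_of_natDegree_lt this, natDegree_X_pow]
  have hlt : (P %ₘ (X ^ 2 - (C τ * X + C ν))).natDegree < 2 := by
    have := natDegree_modByMonic_lt P hmon (by
      intro h
      rw [h] at hdeg
      simp at hdeg)
    omega
  obtain ⟨v, u, huv⟩ := exists_eq_X_add_C_of_natDegree_le_one (Nat.lt_succ_iff.1 hlt)
  have hbE : (b : E) = algebraMap K E u + algebraMap K E v * x := by
    have h3 : aeval x P = aeval x (P %ₘ (X ^ 2 - (C τ * X + C ν))) := by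
      rw [modByMonic_eq_sub_mul_div P (X ^ 2 - (C τ * X + C ν)), map_sub, map_mul, hroot, zero_mul, sub_zero]
    rw [← hP]
    change aeval x P = _
    rw [h3, huv]
    simp
    ring
  have hb3 : (b : E) ^ 3 = x := by
    have := congrArg (fun t : K⟮x⟯ => (t : E)) hb
    simpa using this
  rw [hbE] at hb3
  have hx3 : x ^ 3 = algebraMap K E (τ ^ 2 + ν) * x + algebraMap K E (τ * ν) := by
    rw [map_add, map_pow, map_mul]
    linear_combination (x + algebraMap K E τ) * hx
  have hexp : algebraMap K E (u ^ 3 + 3 * u * v ^ 2 * ν + v ^ 3 * τ * ν) +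
      algebraMap K E (3 * u ^ 2 * v + 3 * u * v ^ 2 * τ + v ^ 3 * (τ ^ 2 + ν)) * x = x := by
    conv_rhs => rw [← hb3]
    simp only [map_add, map_mul, map_pow, map_ofNat]
    rw [map_add, map_pow, map_mul] at hx3
    linear_combination (-3 * algebraMap K E u * algebraMap K E v ^ 2) * hx -
      algebraMap K E v ^ 3 * hx3
  set c0 := u ^ 3 + 3 * u * v ^ 2 * ν + v ^ 3 * τ * ν with hc0
  set c1 := 3 * u ^ 2 * v + 3 * u * v ^ 2 * τ + v ^ 3 * (τ ^ 2 + ν) with hc1
  have h4 : algebraMap K E (c1 - 1) * x = algebraMap K E (-c0) := by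
    rw [map_sub, map_one, map_neg]
    linear_combination hexp
  have h5 : c1 = 1 := by
    by_contra hne
    have hne' : c1 - 1 ≠ 0 := sub_ne_zero.2 hne
    have h6 : x = algebraMap K E (-c0 / (c1 - 1)) := by
      rw [map_div₀, ← h4, mul_comm, mul_div_assoc, div_self, mul_one]
      exact (_root_.map_ne_zero _).2 hne'
    rw [h6] at hx
    apply h1 (-c0 / (c1 - 1))
    apply (algebraMap K E).injective
    rw [map_pow, map_add, map_mul]
    exact hx
  have h7 : c0 = 0 := by
    rw [h5, sub_self, map_zero, zero_mul] at h4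
    have := (map_eq_zero _).1 h4.symm
    exact neg_eq_zero.1 this
  exact h2 u v ⟨h7, h5⟩

theorem goodPair_irreducible {p : ℕ} [Fact p.Prime] (τ ν : ZMod p) (h : GoodPair τ ν) (a : ℕ) :
    Irreducible (X ^ (2 * 3 ^ a) - C τ * X ^ (3 ^ a) - C ν : (ZMod p)[X]) := by
  obtain ⟨h1, h2⟩ := h
  have hmon : (X ^ 2 - (C τ * X + C ν) : (ZMod p)[X]).Monic := by
    apply monic_X_pow_sub
    exact lt_of_le_of_lt degree_linear_le (by norm_num)
  have hdeg : (X ^ 2 - (C τ * X + C ν) : (ZMod p)[X]).natDegree = 2 := by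
    have : (C τ * X + C ν : (ZMod p)[X]).natDegree < (X ^ 2 : (ZMod p)[X]).natDegree := by
      rw [natDegree_X_pow]
      exact lt_of_le_of_lt natDegree_linear_le (by norm_num)
    rw [natDegree_sub_eq_left_of_natDegree_lt this, natDegree_X_pow]
  have hirr : Irreducible (X ^ 2 - (C τ * X + C ν) : (ZMod p)[X]) := by
    apply irreducible_of_degree_le_three_of_not_isRoot
    · rw [hdeg]
      simp
    · intro y hy
      apply h1 y
      simp only [IsRoot.def, eval_sub, eval_pow, eval_X, eval_add, eval_mul, eval_C] at hy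
      linear_combination hy
  have key := irreducible_comp (f := X ^ 2 - (C τ * X + C ν)) (g := X ^ (3 ^ a)) hmon
    (monic_X_pow _) hirr (by
      intro E _ _ x hx
      have hroot : x ^ 2 = algebraMap (ZMod p) E τ * x + algebraMap (ZMod p) E ν := by
        have := minpoly.aeval (ZMod p) x
        rw [hx] at this
        simp only [map_sub, map_pow, aeval_X, map_add, map_mul, aeval_C] at this
        linear_combination this
      rw [Polynomial.map_pow, map_X]
      apply X_pow_sub_C_irreducible_of_prime_pow Nat.prime_three (by norm_num)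
      intro b
      exact e_no_cube τ ν h1 h2 E x hroot b)
  have e : (X ^ 2 - (C τ * X + C ν) : (ZMod p)[X]).comp (X ^ (3 ^ a)) =
      X ^ (2 * 3 ^ a) - C τ * X ^ (3 ^ a) - C ν := by
    simp only [sub_comp, pow_comp, X_comp, add_comp, mul_comp, C_comp]
    rw [← pow_mul, mul_comm (3 ^ a) 2]
    ring
  rw [← e]
  exact key

theorem exists_goodPair {p : ℕ} [Fact p.Prime] (hp : 5 ≤ p) : ∃ τ ν : ZMod p, GoodPair τ ν := by
  classical
  have hpp : p.Prime := Fact.out
  let F := GaloisField p 2
  have : Fintype F := Fintype.ofFinite F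
  have hcard : Fintype.card F = p ^ 2 := by
    rw [← Nat.card_eq_fintype_card]
    exact GaloisField.card p 2 (by norm_num)
  have hcardU : Fintype.card Fˣ = p ^ 2 - 1 := by
    rw [Fintype.card_units, hcard]
  -- the cubes
  have h3 : 3 ∣ Fintype.card Fˣ := by
    rw [hcardU]
    have h31 : p % 3 = 1 ∨ p % 3 = 2 := by
      have : p % 3 ≠ 0 := by
        intro h
        have := (Nat.prime_dvd_prime_iff_eq Nat.prime_three hpp).1 (Nat.dvd_of_mod_eq_zero h)
        omega
      omega
    have h32 : p ^ 2 % 3 = 1 := by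
      rcases h31 with h | h <;> rw [Nat.pow_mod, h]
    have : 1 ≤ p ^ 2 := Nat.one_le_pow _ _ hpp.pos
    omega
  let c : Fˣ →* Fˣ := powMonoidHom 3
  have hker : 2 ≤ Nat.card c.ker := by
    obtain ⟨g, hg⟩ := exists_prime_orderOf_dvd_card 3 h3
    have hg1 : g ∈ c.ker := by
      rw [MonoidHom.mem_ker]
      change g ^ 3 = 1
      rw [← hg]
      exact pow_orderOf_eq_one g
    have hne : g ≠ 1 := by
      intro h
      rw [h, orderOf_one] at hg
      norm_num at hg
    rw [Nat.succ_le_iff, Nat.card_eq_fintype_card, Fintype.one_lt_card_iff]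
    refine ⟨⟨g, hg1⟩, 1, ?_⟩
    intro h
    apply hne
    exact congrArg Subtype.val h
  have hrange : 2 * Nat.card c.range ≤ p ^ 2 - 1 := by
    have h4 := c.ker.index_mul_card
    rw [Subgroup.index_ker, Nat.card_eq_fintype_card (α := Fˣ), hcardU] at h4
    rw [← h4, mul_comm]
    exact Nat.mul_le_mul_left _ hker
  let S1 : Finset F := univ.image (fun x : F => x ^ 3)
  let S2 : Finset F := univ.image (algebraMap (ZMod p) F)
  have hS1 : #S1 ≤ 1 + Nat.card c.range := by
    have hsub : S1 ⊆ insert 0 (univ.image (fun u : c.range => ((u : Fˣ) : F))) := by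
      intro y hy
      obtain ⟨x, -, rfl⟩ := mem_image.1 hy
      by_cases hx : x = 0
      · simp [hx]
      · apply mem_insert_of_mem
        rw [mem_image]
        refine ⟨⟨c (Units.mk0 x hx), ⟨_, rfl⟩⟩, mem_univ _, ?_⟩
        change (((Units.mk0 x hx) ^ 3 : Fˣ) : F) = x ^ 3
        simp
    refine (card_le_card hsub).trans ((card_insert_le _ _).trans ?_)
    have := card_image_le (s := (univ : Finset c.range)) (f := fun u : c.range => ((u : Fˣ) : F))
    rw [card_univ, ← Nat.card_eq_fintype_card] at this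
    omega
  have hS2 : #S2 ≤ p := by
    refine card_image_le.trans ?_
    rw [card_univ, ZMod.card]
  have hex : ∃ g : F, g ∉ S1 ∪ S2 := by
    by_contra hcon
    push Not at hcon
    have h5 : (univ : Finset F) ⊆ S1 ∪ S2 := fun x _ => hcon x
    have h6 := (card_le_card h5).trans (card_union_le _ _)
    rw [card_univ, hcard] at h6
    have h7 : 5 * p ≤ p ^ 2 := by nlinarith
    omega
  obtain ⟨g, hg⟩ := hex
  rw [mem_union, not_or] at hg
  have hg1 : ∀ x : F, x ^ 3 ≠ g := by
    intro x hx
    exact hg.1 (mem_image.2 ⟨x, mem_univ _, hx⟩)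
  have hg2 : ∀ y : ZMod p, algebraMap (ZMod p) F y ≠ g := by
    intro y hy
    exact hg.2 (mem_image.2 ⟨y, mem_univ _, hy⟩)
  -- the minimal polynomial
  have hint : IsIntegral (ZMod p) g := IsIntegral.of_finite _ _
  have hfin : Module.finrank (ZMod p) F = 2 := GaloisField.finrank p (by norm_num)
  have hdle : (minpoly (ZMod p) g).natDegree ≤ 2 := (minpoly.natDegree_le g).trans hfin.le
  have hmon := minpoly.monic hint
  have haev := minpoly.aeval (ZMod p) g
  have hd2 : (minpoly (ZMod p) g).natDegree = 2 := by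
    by_contra hne
    have hlt : (minpoly (ZMod p) g).natDegree ≤ 1 := by omega
    obtain ⟨u, v, huv⟩ := exists_eq_X_add_C_of_natDegree_le_one hlt
    have hpos := minpoly.natDegree_pos hint
    have hd1 : (minpoly (ZMod p) g).natDegree = 1 := by omega
    have hu1 : u = 1 := by
      have h8 : (minpoly (ZMod p) g).coeff 1 = 1 := by
        have := hmon.coeff_natDegree
        rwa [hd1] at this
      rw [huv] at h8
      simpa using h8
    rw [huv, hu1] at haev
    simp only [map_one, one_mul, map_add, aeval_X, aeval_C] at haev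
    apply hg2 (-v)
    rw [map_neg]
    linear_combination -haev
  have hquad : g ^ 2 + algebraMap (ZMod p) F ((minpoly (ZMod p) g).coeff 1) * g +
      algebraMap (ZMod p) F ((minpoly (ZMod p) g).coeff 0) = 0 := by
    have h9 : (minpoly (ZMod p) g).coeff 2 = 1 := by
      have := hmon.coeff_natDegree
      rwa [hd2] at this
    rw [aeval_eq_sum_range, hd2, sum_range_succ, sum_range_succ, sum_range_succ, sum_range_zero,
      h9] at haev
    simp only [Algebra.smul_def, map_one] at haev
    linear_combination haev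
  set t1 := (minpoly (ZMod p) g).coeff 1
  set t0 := (minpoly (ZMod p) g).coeff 0
  refine ⟨-t1, -t0, ?_, ?_⟩
  · intro y hy
    have h10 : (g - algebraMap (ZMod p) F y) * (g + algebraMap (ZMod p) F (y + t1)) = 0 := by
      have h11 : algebraMap (ZMod p) F y ^ 2 =
          -(algebraMap (ZMod p) F t1) * algebraMap (ZMod p) F y - algebraMap (ZMod p) F t0 := by
        rw [← map_pow, hy, map_add, map_mul, map_neg, map_neg]
        ring
      rw [map_add]
      linear_combination hquad - h11
    rcases mul_eq_zero.1 h10 with h | h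
    · exact hg2 y (sub_eq_zero.1 h).symm
    · apply hg2 (-(y + t1))
      rw [map_neg]
      linear_combination -h
  · rintro a b ⟨h12, h13⟩
    apply hg1 (algebraMap (ZMod p) F a + algebraMap (ZMod p) F b * g)
    have h14 := congrArg (algebraMap (ZMod p) F) h12
    have h15 := congrArg (algebraMap (ZMod p) F) h13
    simp only [map_add, map_mul, map_pow, map_ofNat, map_neg, map_zero, map_one] at h14 h15
    have hg3 : g ^ 3 = ((algebraMap (ZMod p) F t1) ^ 2 - algebraMap (ZMod p) F t0) * g +
        algebraMap (ZMod p) F t1 * algebraMap (ZMod p) F t0 := by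
      linear_combination (g - algebraMap (ZMod p) F t1) * hquad
    linear_combination (3 * algebraMap (ZMod p) F a * algebraMap (ZMod p) F b ^ 2) * hquad +
      algebraMap (ZMod p) F b ^ 3 * hg3 + h14 + g * h15

end Pool.Agent.LibPtt90
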