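import Pool.Agent.LibPtt90.TaskD

open Finset Function Polynomial

namespace Pool.Agent.LibPtt90

/-! ### bits -/

theorem f_bits_length (k a : ℕ) : (bits k a).length = k := by
  induction k generalizing a with
  | zero => rfl
  | succ k ih => simp [bits, ih]

theorem f_bits_inj {k a b : ℕ} (ha : a < 2 ^ k) (hb : b < 2 ^ k) (h : bits k a = bits k b) :
    a = b := by
  induction k generalizing a b with
  | zero => simp at ha hb; omega
  | succ k ih =>
    simp only [bits, List.cons.injEq, decide_eq_decide] at h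
    rw [pow_succ] at ha hb
    have := ih (a := a / 2) (b := b / 2) (by omega) (by omega) h.2
    have h1 := h.1
    omega

theorem guv_length (p r τ ν e β μ : ℕ) (x : List Bool) (y : ℕ) :
    (guv p r τ ν e β μ x y).length = μ * β := by
  simp [guv, List.length_flatMap, f_bits_length]

theorem f_flatMap_inj {l : List ℕ} {f g : ℕ → List Bool}
    (hlen : ∀ i ∈ l, (f i).length = (g i).length) (h : l.flatMap f = l.flatMap g) :
    ∀ i ∈ l, f i = g i := by
  induction l with
  | nil => intro i hi; simp at hi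
  | cons a l ih =>
    rw [List.flatMap_cons, List.flatMap_cons] at h
    obtain ⟨h1, h2⟩ := List.append_inj h (hlen a (by simp))
    intro i hi
    rcases List.mem_cons.mp hi with rfl | hi
    · exact h1
    · exact ih (fun i hi => hlen i (by simp [hi])) h2 i hi

/-! ### the polynomial of a list -/

/-- the polynomial with the given coefficients -/
noncomputable def fpoly (p : ℕ) : List ℕ → (ZMod p)[X]
  | [] => 0
  | c :: l => C (c : ZMod p) + X * fpoly p l

theorem fpoly_coeff (p : ℕ) (l : List ℕ) (k : ℕ) :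
    (fpoly p l).coeff k = ((l.getD k 0 : ℕ) : ZMod p) := by
  induction l generalizing k with
  | nil => simp [fpoly]
  | cons c l ih =>
    cases k with
    | zero => simp [fpoly]
    | succ k => simp [fpoly, ih, coeff_X_mul]

theorem fpoly_pev (p : ℕ) (l : List ℕ) (z : ℕ) :
    ((pev p l z : ℕ) : ZMod p) = (fpoly p l).eval (z : ZMod p) := by
  induction l with
  | nil => simp [fpoly, pev]
  | cons c l ih => simp [fpoly, pev, ih]

theorem f_pev_lt (p : ℕ) (hp : 0 < p) (l : List ℕ) (z : ℕ) : pev p l z < p := by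
  cases l with
  | nil => simpa [pev] using hp
  | cons c l => exact Nat.mod_lt _ hp

theorem fpoly_degree (p : ℕ) (l : List ℕ) {n : ℕ} (h : l.length ≤ n) :
    (fpoly p l).degree < n := by
  rw [degree_lt_iff_coeff_zero]
  intro m hm
  rw [fpoly_coeff, List.getD_eq_default _ _ (by omega)]
  simp

theorem fpoly_append (p : ℕ) (l l' : List ℕ) :
    fpoly p (l ++ l') = fpoly p l + X ^ l.length * fpoly p l' := by
  induction l with
  | nil => simp [fpoly]
  | cons c l ih =>
    simp only [List.cons_append, fpoly, ih, List.length_cons]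
    ring

theorem fpoly_range (p : ℕ) (f : ℕ → ℕ) (n : ℕ) :
    fpoly p ((List.range n).map f) = ∑ k ∈ range n, C ((f k : ℕ) : ZMod p) * X ^ k := by
  induction n with
  | zero => simp [fpoly]
  | succ n ih =>
    rw [List.range_succ, List.map_append, fpoly_append, ih, sum_range_succ]
    simp [fpoly]
    ring

theorem fpoly_mul_coeff (p : ℕ) (a b : List ℕ) (k : ℕ) :
    (fpoly p a * fpoly p b).coeff k = ((conv p a b k : ℕ) : ZMod p) := by
  rw [coeff_mul, Finset.Nat.sum_antidiagonal_eq_sum_range_succ_mk]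
  simp only [fpoly_coeff, conv, ZMod.natCast_mod]
  have : ((List.range (k + 1)).map fun i => a.getD i 0 * b.getD (k - i) 0).sum
      = ∑ i ∈ range (k + 1), a.getD i 0 * b.getD (k - i) 0 := by
    rw [← Finset.sum_map_toList]
    simp [Finset.sum, Multiset.range]
  rw [this]
  push_cast
  rfl

/-! ### multiplication modulo the trinomial -/

/-- the trinomial -/
noncomputable def ftri (p r τ ν : ℕ) : (ZMod p)[X] :=
  X ^ (2 * r) - C (τ : ZMod p) * X ^ r - C (ν : ZMod p)

theorem ftri_degree (p r τ ν : ℕ) (hp : p.Prime) (hr : 0 < r) :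
    (ftri p r τ ν).degree = (2 * r : ℕ) := by
  have := Fact.mk hp
  have h1 : (C (τ : ZMod p) * X ^ r).degree < (X ^ (2 * r) : (ZMod p)[X]).degree := by
    rw [degree_X_pow]
    refine (degree_C_mul_X_pow_le _ _).trans_lt ?_
    exact_mod_cast (by omega : r < 2 * r)
  have h2 : (X ^ (2 * r) - C (τ : ZMod p) * X ^ r : (ZMod p)[X]).degree = (2 * r : ℕ) := by
    rw [degree_sub_eq_left_of_degree_lt h1, degree_X_pow]
  rw [ftri, degree_sub_eq_left_of_degree_lt, h2]
  rw [h2]
  refine degree_C_le.trans_lt ?_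
  exact_mod_cast (by omega : 0 < 2 * r)

theorem f_mod_congr {K : Type} [Field K] {A B E : K[X]} (h : E ∣ A - B) : A % E = B % E := by
  have e : A = B + (A - B) := by ring
  rw [e, Polynomial.add_mod, (EuclideanDomain.mod_eq_zero).2 h, add_zero]

theorem f_mulm_length (p r τ ν : ℕ) (a b : List ℕ) : (mulm p r τ ν a b).length = 2 * r := by
  simp [mulm]; ring

theorem f_mulm (p r τ ν : ℕ) (hp : p.Prime) (hr : 0 < r) (a b : List ℕ) (ha : a.length ≤ 2 * r)
    (hb : b.length ≤ 2 * r) :
    haveI := Fact.mk hp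
    fpoly p (mulm p r τ ν a b) = (fpoly p a * fpoly p b) % ftri p r τ ν := by
  have := Fact.mk hp
  have hdeg : (fpoly p a * fpoly p b).degree < (4 * r : ℕ) := by
    by_cases h0 : fpoly p a * fpoly p b = 0
    · rw [h0, degree_zero]; exact WithBot.bot_lt_coe _
    have h0a : fpoly p a ≠ 0 := left_ne_zero_of_mul h0
    have h0b : fpoly p b ≠ 0 := right_ne_zero_of_mul h0
    have h1 := fpoly_degree p a ha
    have h2 := fpoly_degree p b hb
    rw [degree_eq_natDegree h0a] at h1
    rw [degree_eq_natDegree h0b] at h2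
    rw [degree_mul, degree_eq_natDegree h0a, degree_eq_natDegree h0b]
    have h1' : (fpoly p a).natDegree < 2 * r := by exact_mod_cast h1
    have h2' : (fpoly p b).natDegree < 2 * r := by exact_mod_cast h2
    exact_mod_cast (by omega : (fpoly p a).natDegree + (fpoly p b).natDegree < 4 * r)
  have hsum : fpoly p a * fpoly p b
      = ∑ k ∈ range (r + r + r + r), C ((conv p a b k : ℕ) : ZMod p) * X ^ k := by
    ext m
    rw [fpoly_mul_coeff, finsetSum_coeff]
    simp only [coeff_C_mul_X_pow]
    rw [Finset.sum_ite_eq]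
    split_ifs with hm
    · rfl
    · rw [mem_range, not_lt] at hm
      rw [← fpoly_mul_coeff]
      rw [degree_lt_iff_coeff_zero] at hdeg
      exact hdeg m (by omega)
  have hmul : fpoly p (mulm p r τ ν a b)
      = ∑ k ∈ range r, (C (((conv p a b k + ν * conv p a b (k + 2 * r) +
          τ * ν * conv p a b (k + 3 * r)) : ℕ) : ZMod p) * X ^ k
        + X ^ r * (C (((conv p a b (k + r) + τ * conv p a b (k + 2 * r) +
          (τ * τ + ν) * conv p a b (k + 3 * r)) : ℕ) : ZMod p) * X ^ k)) := by
    rw [mulm, fpoly_append, fpoly_range, fpoly_range, List.length_map, List.length_range,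
      mul_sum, ← sum_add_distrib]
    simp only [ZMod.natCast_mod]
  have hdvd : ftri p r τ ν ∣ fpoly p a * fpoly p b - fpoly p (mulm p r τ ν a b) := by
    refine ⟨∑ k ∈ range r, (C ((conv p a b (k + 2 * r) : ℕ) : ZMod p) * X ^ k
      + C ((conv p a b (k + 3 * r) : ℕ) : ZMod p) * (X ^ (k + r) + C (τ : ZMod p) * X ^ k)), ?_⟩
    rw [hsum, hmul, Finset.sum_range_add, Finset.sum_range_add, Finset.sum_range_add,
      ← sum_add_distrib, ← sum_add_distrib, ← sum_add_distrib, ← sum_sub_distrib, mul_sum]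
    refine sum_congr rfl fun k _ => ?_
    have e1 : r + k = k + r := by ring
    have e2 : r + r + k = k + 2 * r := by ring
    have e3 : r + r + r + k = k + 3 * r := by ring
    rw [e1, e2, e3]
    simp only [ftri, Nat.cast_add, Nat.cast_mul, map_add, map_mul]
    ring
  have hlt : (fpoly p (mulm p r τ ν a b)).degree < (ftri p r τ ν).degree := by
    rw [ftri_degree p r τ ν hp hr]
    exact fpoly_degree p _ (f_mulm_length p r τ ν a b).le
  have hne : ftri p r τ ν ≠ 0 := by
    intro h
    have := ftri_degree p r τ ν hp hr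
    rw [h, degree_zero] at this
    exact absurd this (WithBot.bot_ne_coe)
  rw [f_mod_congr hdvd, (Polynomial.mod_eq_self_iff hne).2 hlt]

/-- squaring iterated -/
theorem f_iter (p r τ ν : ℕ) (hp : p.Prime) (hr : 0 < r) (a : List ℕ) (ha : a.length ≤ 2 * r)
    (k : ℕ) : ((fun a => mulm p r τ ν a a)^[k] a).length ≤ 2 * r ∧
    haveI := Fact.mk hp
    fpoly p ((fun a => mulm p r τ ν a a)^[k] a) = (fpoly p a) ^ (2 ^ k) % ftri p r τ ν := by
  haveI := Fact.mk hp
  have hne : ftri p r τ ν ≠ 0 := by
    intro h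
    have := ftri_degree p r τ ν hp hr
    rw [h, degree_zero] at this
    exact absurd this (WithBot.bot_ne_coe)
  induction k with
  | zero =>
    refine ⟨ha, ?_⟩
    simp only [iterate_zero, id_eq, pow_zero, pow_one]
    rw [(Polynomial.mod_eq_self_iff hne).2]
    rw [ftri_degree p r τ ν hp hr]
    exact fpoly_degree p _ ha
  | succ k ih =>
    rw [iterate_succ_apply']
    obtain ⟨ih1, ih2⟩ := ih
    refine ⟨(f_mulm_length p r τ ν _ _).le, ?_⟩
    rw [f_mulm p r τ ν hp hr _ _ ih1 ih1, ih2]
    apply f_mod_congr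
    set A := fpoly p a ^ 2 ^ k
    have e : fpoly p a ^ 2 ^ (k + 1) = A * A := by rw [pow_succ, pow_mul, pow_two]
    rw [e]
    have h1 : A % ftri p r τ ν = A - ftri p r τ ν * (A / ftri p r τ ν) := by
      have := EuclideanDomain.div_add_mod A (ftri p r τ ν)
      linear_combination this
    rw [h1]
    refine ⟨- (A / ftri p r τ ν) * (2 * A - ftri p r τ ν * (A / ftri p r τ ν)), ?_⟩
    ring

theorem f_inj {p : ℕ} (hp : p.Prime) {x x' : List Bool} (hl : x.length = x'.length)
    (h : fpoly p (x.map Bool.toNat) = fpoly p (x'.map Bool.toNat)) : x = x' := by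
  haveI := Fact.mk hp
  apply List.ext_getElem hl
  intro i h1 h2
  have h3 := congrArg (fun f => Polynomial.coeff f i) h
  simp only [fpoly_coeff] at h3
  rw [List.getD_eq_getElem _ _ (by simpa using h1), List.getD_eq_getElem _ _ (by simpa using h2),
    List.getElem_map, List.getElem_map] at h3
  revert h3
  cases x[i] <;> cases x'[i] <;> simp

theorem guv_spec {N p r τ ν e β μ : ℕ} (hp : p.Prime) (hr : 0 < r)
    (hE : Irreducible (X ^ (2 * r) - C (τ : ZMod p) * X ^ r - C (ν : ZMod p) : (ZMod p)[X]))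
    (he : 0 < e) (hN : N ≤ 2 * r) (hβ : p ≤ 2 ^ β) (hq : (2 ^ e - 1) * (2 * r - 1) * μ < p)
    (F : Finset (List Bool)) (hF : ∀ x ∈ F, x.length = N) (hc : 2 ^ (e * μ) ≤ #F) :
    ∃ y < p, 2 ^ (e * μ) ≤ p * #(F.image fun x => guv p r τ ν e β μ x y) := by
  haveI := Fact.mk hp
  set Q : List Bool → (ZMod p)[X] := fun x => fpoly p (x.map Bool.toNat) with hQ
  have hinj : Set.InjOn Q F := by
    intro x hx x' hx' h
    exact f_inj hp ((hF x hx).trans (hF x' hx').symm) h
  have hd := ftri_degree p r τ ν hp hr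
  have hnd : (ftri p r τ ν).natDegree = 2 * r := natDegree_eq_of_degree_eq_some hd
  have h2 : 2 ≤ 2 ^ e := by
    calc 2 = 2 ^ 1 := rfl
      _ ≤ 2 ^ e := Nat.pow_le_pow_right (by norm_num) he
  obtain ⟨y, hy⟩ := guv_lite (ftri p r τ ν) hE (2 ^ e) μ h2
    (by rw [hnd, ZMod.card]; exact hq) (F.image Q)
    (by
      intro f hf
      obtain ⟨x, hx, rfl⟩ := Finset.mem_image.mp hf
      rw [hd]
      exact fpoly_degree p _ (by rw [List.length_map, hF x hx]; exact hN))
    (by rw [Finset.card_image_of_injOn hinj, ← pow_mul]; exact hc)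
  rw [ZMod.card, ← pow_mul] at hy
  refine ⟨y.val, ZMod.val_lt y, hy.trans (Nat.mul_le_mul_left _ ?_)⟩
  rw [Finset.image_image]
  set t : List Bool → (Fin μ → ZMod p) :=
    (fun f : (ZMod p)[X] => fun i : Fin μ => ((f ^ (2 ^ e) ^ (i : ℕ)) % ftri p r τ ν).eval y) ∘ Q
    with ht
  set g : List Bool → List Bool := fun x => guv p r τ ν e β μ x y.val with hg
  have key : ∀ x ∈ F, ∀ x' ∈ F, g x = g x' → t x = t x' := by
    intro x hx x' hx' h
    funext i
    have hpev : ∀ x ∈ F, ((pev p ((fun a => mulm p r τ ν a a)^[e * i]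
        (x.map Bool.toNat)) y.val : ℕ) : ZMod p) = t x i := by
      intro x hx
      rw [fpoly_pev, ZMod.natCast_zmod_val]
      have := (f_iter p r τ ν hp hr (x.map Bool.toNat)
        (by rw [List.length_map, hF x hx]; exact hN) (e * i)).2
      rw [this, pow_mul]
      rfl
    rw [← hpev x hx, ← hpev x' hx']
    congr 1
    refine f_bits_inj (k := β) ((f_pev_lt p hp.pos _ _).trans_le hβ)
      ((f_pev_lt p hp.pos _ _).trans_le hβ) ?_
    exact f_flatMap_inj (fun j _ => by simp [f_bits_length]) h i (List.mem_range.mpr i.2)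
  have h1 : ∀ c ∈ F.image t, ∃ x ∈ F, t x = c := fun c hc => Finset.mem_image.mp hc
  choose! s hs using h1
  apply Finset.card_le_card_of_injOn (fun c => g (s c))
  · intro c hc
    exact Finset.mem_coe.mpr (Finset.mem_image_of_mem g (hs c hc).1)
  · intro c hc c' hc' h
    rw [← (hs c hc).2, ← (hs c' hc').2]
    exact key _ (hs c hc).1 _ (hs c' hc').1 h

end Pool.Agent.LibPtt90
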