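import Pool.Agent.LibPtt90.Ext
import Pool.Agent.LibPtt90.TaskE
import Pool.Agent.LibPtt90.TaskF

/-!
Explicit dispersers for all numbers `m` of output bits.
-/

open Finset Function Polynomial

namespace Pool.Agent.LibPtt90

theorem isPrime_iff (a : ℕ) : isPrime a = true ↔ a.Prime := by
  unfold isPrime
  rw [Nat.prime_def_lt', Bool.and_eq_true, decide_eq_true_eq, List.all_eq_true]
  refine and_congr_right fun _ => ⟨fun h m h1 h2 h3 => ?_, fun h d hd => ?_⟩
  · have := h m (List.mem_range.2 h2)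
    rw [Bool.or_eq_true, decide_eq_true_eq, decide_eq_true_eq] at this
    rcases this with h4 | h4
    · omega
    · exact h4 (Nat.mod_eq_zero_of_dvd h3)
  · rw [Bool.or_eq_true, decide_eq_true_eq, decide_eq_true_eq]
    by_cases h1 : d < 2
    · exact Or.inl h1
    · right
      intro h2
      exact h d (by omega) (List.mem_range.1 hd) (Nat.dvd_of_mod_eq_zero h2)

theorem headD_filter_range (q : ℕ → Bool) (B N d i : ℕ) (hi : i < N) (hq : q (B + i) = true) :
    q ((((List.range N).map fun i => B + i).filter q).headD d) = true ∧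
    B ≤ (((List.range N).map fun i => B + i).filter q).headD d ∧
    (((List.range N).map fun i => B + i).filter q).headD d ≤ B + i := by
  have h1 : ((((List.range N).map fun i => B + i).filter q)).Pairwise (· ≤ ·) := by
    apply List.Pairwise.filter
    rw [List.pairwise_map]
    exact List.pairwise_lt_range.imp fun h => by omega
  have h2 : B + i ∈ ((List.range N).map fun i => B + i).filter q := by
    rw [List.mem_filter, List.mem_map]
    exact ⟨⟨i, List.mem_range.2 hi, rfl⟩, hq⟩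
  have h3 : ∀ a ∈ ((List.range N).map fun i => B + i).filter q, q a = true ∧ B ≤ a := by
    intro a ha
    rw [List.mem_filter, List.mem_map] at ha
    obtain ⟨⟨j, -, rfl⟩, h⟩ := ha
    exact ⟨h, Nat.le_add_right _ _⟩
  generalize ((List.range N).map fun i => B + i).filter q = l at h1 h2 h3
  cases l with
  | nil => simp at h2
  | cons a l =>
    rw [List.headD_cons]
    refine ⟨(h3 a List.mem_cons_self).1, (h3 a List.mem_cons_self).2, ?_⟩
    rcases List.mem_cons.1 h2 with h | h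
    · exact h ▸ le_rfl
    · exact (List.pairwise_cons.1 h1).1 _ h

theorem nextP_spec {B : ℕ} (hB : 0 < B) : (nextP B).Prime ∧ B < nextP B ∧ nextP B ≤ 2 * B := by
  obtain ⟨p, hp, h1, h2⟩ := Nat.exists_prime_lt_and_le_two_mul B (by omega)
  have := headD_filter_range isPrime (B + 1) (B + 1) 2 (p - (B + 1)) (by omega)
    (by rw [isPrime_iff, show B + 1 + (p - (B + 1)) = p by omega]; exact hp)
  unfold nextP
  rw [isPrime_iff] at this
  exact ⟨this.1, by omega, by omega⟩

theorem kap_pos (n : ℕ) : 0 < kap n := by unfold kap; omega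

theorem pt_spec (n : ℕ) : (pt n).Prime ∧ 2 ^ kap n < pt n ∧ pt n ≤ 2 ^ (kap n + 1) := by
  have := nextP_spec (B := 2 ^ kap n) (by positivity)
  unfold pt
  refine ⟨this.1, this.2.1, this.2.2.trans (by rw [pow_succ]; omega)⟩

theorem wt_spec (n : ℕ) : (wt n).Prime ∧ 2 * lt n ≤ wt n ∧ wt n ≤ 4 * lt n := by
  have := nextP_spec (B := 2 * lt n - 1) (by unfold lt; omega)
  unfold wt
  exact ⟨this.1, by omega, by omega⟩

theorem lt_size (n : ℕ) : n < 2 ^ Nat.size n := Nat.lt_size_self n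

theorem ext_length {n k : ℕ} (x y : List Bool) : (ext n k x y).length = wt n * k := by
  unfold ext
  rw [trev_length]
  exact (design_bound (wt_spec n).1 (wt_spec n).2.1 le_rfl).1

theorem sd_le {n k : ℕ} (h : k ≤ n) : sd n k ≤ 2 * wt n * (Nat.size n + 1) * (lt n * wt n) := by
  unfold sd bt
  apply Nat.mul_le_mul_right
  refine (blk_length (wt_spec n).1.two_le (Nat.lt_size_self k).le).trans ?_
  apply Nat.mul_le_mul_left
  have := Nat.size_le_size h
  omega

theorem ext_spec {n k : ℕ} (hk : 0 < k) (hn : wt n * k ≤ n) {d : ℕ}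
    (hd : sd n k ≤ d)
    (Z : Finset (List Bool × List Bool)) (P : Finset (List Bool))
    (hP : ∀ x ∈ P, x.length = n ∧ 2 ^ d * 2 ^ (wt n * k) + 4 * #Z ≤
      4 * 2 ^ (wt n * k) * #{y ∈ strs d | (y, ext n k x y) ∈ Z}) :
    #P ≤ 2 ^ (wt n * k + wt n + kap n + 1) := by
  obtain ⟨p1, p2, p3⟩ := pt_spec n
  obtain ⟨w1, w2, w3⟩ := wt_spec n
  have hs := Nat.lt_size_self n
  have h3 : 64 * (wt n * k) ^ 2 * n ≤ 2 ^ kap n := by
    have e : 2 ^ kap n = 64 * (2 ^ Nat.size n * 2 ^ Nat.size n * 2 ^ Nat.size n) := by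
      unfold kap
      rw [← pow_add, ← pow_add, show (64 : ℕ) = 2 ^ 6 by norm_num, ← pow_add]
      congr 1
      ring
    rw [e, mul_assoc, pow_two]
    apply Nat.mul_le_mul_left
    exact Nat.mul_le_mul (Nat.mul_le_mul (hn.trans hs.le) (hn.trans hs.le)) hs.le
  refine (trev_spec (n := n) (κ := kap n) (p := pt n) (w := wt n) (l := lt n) (f := Nat.size k)
    (k := k) (B := wt n * k) (m := wt n * k) p1 p2 p3 rfl w1 w2 hk rfl le_rfl h3
    (d := d) hd Z P hP).trans ?_
  have e : 2 ^ (wt n * k + wt n + kap n + 1) = 2 ^ (wt n * k + wt n) *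
      (128 * (2 ^ Nat.size n * 2 ^ Nat.size n * 2 ^ Nat.size n)) := by
    unfold kap
    rw [← pow_add, ← pow_add, show (128 : ℕ) = 2 ^ 7 by norm_num, ← pow_add, ← pow_add]
    congr 1
    ring
  rw [e]
  calc 4 * (wt n * k) * 2 ^ (wt n * k + wt n) * (32 * (wt n * k) ^ 2)
      = 2 ^ (wt n * k + wt n) * (128 * ((wt n * k) * (wt n * k) * (wt n * k))) := by ring
    _ ≤ _ := by
      apply Nat.mul_le_mul_left
      apply Nat.mul_le_mul_left
      have := hn.trans hs.le
      exact Nat.mul_le_mul (Nat.mul_le_mul this this) this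

theorem goodB_iff {p : ℕ} (hp : p.Prime) (τ ν : ℕ) :
    goodB p τ ν = true ↔ GoodPair (τ : ZMod p) (ν : ZMod p) := by
  have : Fact p.Prime := ⟨hp⟩
  unfold goodB GoodPair
  rw [Bool.and_eq_true, List.all_eq_true, List.all_eq_true]
  refine and_congr ⟨fun h y => ?_, fun h y hy => ?_⟩ ⟨fun h a b => ?_, fun h a ha => ?_⟩
  · have := h y.val (List.mem_range.2 (ZMod.val_lt y))
    rw [decide_eq_true_eq] at this
    intro h1
    apply this
    rw [← ZMod.natCast_eq_natCast_iff']
    push_cast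
    rw [ZMod.natCast_zmod_val, ← pow_two]
    exact h1
  · rw [decide_eq_true_eq]
    intro h1
    rw [← ZMod.natCast_eq_natCast_iff'] at h1
    push_cast at h1
    exact h y (by rw [pow_two]; exact h1)
  · have := h a.val (List.mem_range.2 (ZMod.val_lt a))
    rw [List.all_eq_true] at this
    have := this b.val (List.mem_range.2 (ZMod.val_lt b))
    rw [Bool.or_eq_true, decide_eq_true_eq, decide_eq_true_eq] at this
    rintro ⟨h1, h2⟩
    rcases this with h3 | h3
    · apply h3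
      rw [← Nat.zero_mod p, ← ZMod.natCast_eq_natCast_iff']
      push_cast
      rw [ZMod.natCast_zmod_val, ZMod.natCast_zmod_val]
      exact h1
    · apply h3
      rw [← Nat.mod_eq_of_lt hp.one_lt, ← ZMod.natCast_eq_natCast_iff']
      push_cast
      rw [ZMod.natCast_zmod_val, ZMod.natCast_zmod_val]
      exact h2
  · rw [List.all_eq_true]
    intro b hb
    rw [Bool.or_eq_true, decide_eq_true_eq, decide_eq_true_eq]
    by_contra hcon
    push Not at hcon
    obtain ⟨h1, h2⟩ := hcon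
    apply h a b
    constructor
    · rw [← Nat.zero_mod p, ← ZMod.natCast_eq_natCast_iff'] at h1
      push_cast at h1
      exact h1
    · rw [← Nat.mod_eq_of_lt hp.one_lt, ← ZMod.natCast_eq_natCast_iff'] at h2
      push_cast at h2
      exact h2

theorem pair_spec {p : ℕ} (hp : p.Prime) (h5 : 5 ≤ p) :
    GoodPair ((pair p).1 : ZMod p) ((pair p).2 : ZMod p) := by
  have : Fact p.Prime := ⟨hp⟩
  obtain ⟨τ, ν, h⟩ := exists_goodPair h5
  have h1 : goodB p τ.val ν.val = true := by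
    rw [goodB_iff hp, ZMod.natCast_zmod_val, ZMod.natCast_zmod_val]
    exact h
  rw [← goodB_iff hp]
  unfold pair
  have h2 : (τ.val, ν.val) ∈ (((List.range p).flatMap fun τ => (List.range p).map
      fun ν => (τ, ν)).filter fun q => goodB p q.1 q.2) := by
    rw [List.mem_filter, List.mem_flatMap]
    exact ⟨⟨τ.val, List.mem_range.2 (ZMod.val_lt τ), List.mem_map.2
      ⟨ν.val, List.mem_range.2 (ZMod.val_lt ν), rfl⟩⟩, h1⟩
  have h3 : ∀ q ∈ (((List.range p).flatMap fun τ => (List.range p).map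
      fun ν => (τ, ν)).filter fun q => goodB p q.1 q.2), goodB p q.1 q.2 = true := by
    intro q hq
    exact (List.mem_filter.1 hq).2
  generalize (((List.range p).flatMap fun τ => (List.range p).map
      fun ν => (τ, ν)).filter fun q => goodB p q.1 q.2) = l at h2 h3
  cases l with
  | nil => simp at h2
  | cons a l => exact h3 a List.mem_cons_self

theorem mem_allS {cap n : ℕ} (h : 2 ^ n ≤ cap) {s : List Bool} (hs : s.length = n) :
    s ∈ allS cap n := by
  unfold allS
  rw [Nat.min_eq_right h, List.mem_map]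
  refine ⟨num s, List.mem_range.2 ?_, ?_⟩
  · rw [← hs]
    clear hs
    induction s with
    | nil => simp [num]
    | cons b l ih =>
      rw [num, List.length_cons, pow_succ]
      cases b <;> simp only [Bool.toNat_false, Bool.toNat_true] <;> omega
  · rw [← hs]
    clear hs h
    induction s with
    | nil => rfl
    | cons b l ih =>
      rw [List.length_cons, bits, num]
      congr 1
      · cases b <;> simp
      · rw [show (b.toNat + 2 * num l) / 2 = num l by cases b <;> simp <;> omega]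
        exact ih

theorem bits_length (n a : ℕ) : (bits n a).length = n := by
  induction n generalizing a with
  | zero => rfl
  | succ n ih => rw [bits, List.length_cons, ih]

theorem length_of_mem_allS {cap n : ℕ} {s : List Bool} (hs : s ∈ allS cap n) : s.length = n := by
  unfold allS at hs
  obtain ⟨a, -, rfl⟩ := List.mem_map.1 hs
  exact bits_length n a

theorem small_length {A C L m : ℕ} {x z : List Bool} (hz : z ∈ small A C L m x) :
    z.length = m := by
  unfold small at hz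
  obtain ⟨y, -, hz⟩ := List.mem_flatMap.1 hz
  obtain ⟨s, -, rfl⟩ := List.mem_map.1 hz
  rw [List.length_take, ext_length, Nat.min_eq_left]
  have := Nat.lt_mul_div_succ m (wt_spec (gm A L m * gb L)).1.pos
  exact this.le

theorem card_take_le {m M : ℕ} (h : m ≤ M) (D : ℕ) (S : Finset (List Bool)) :
    #{q ∈ strs D ×ˢ strs M | q.2.take m ∈ S} ≤ 2 ^ D * (#S * 2 ^ (M - m)) := by
  rw [← card_strs D, ← card_strs (M - m), ← card_product, ← card_product]
  apply card_le_card_of_injOn fun q => (q.1, (q.2.take m, q.2.drop m))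
  · rintro ⟨a, b⟩ hq
    rw [mem_coe, mem_filter, mem_product] at hq
    rw [mem_coe, mem_product, mem_product]
    refine ⟨hq.1.1, hq.2, ?_⟩
    have := mem_strs.1 hq.1.2
    simp only at this ⊢
    rw [mem_strs, List.length_drop, this]
  · rintro ⟨a, b⟩ - ⟨a', b'⟩ - h
    simp only [Prod.mk.injEq] at h
    rw [h.1, ← List.take_append_drop m b, h.2.1, h.2.2, List.take_append_drop]

theorem size_le_of_lt_pow {a k : ℕ} (h : a < 2 ^ k) : Nat.size a ≤ k := Nat.size_le.2 h

theorem pow_four_le (s : ℕ) : s ^ 4 ≤ 32 * 2 ^ s := by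
  by_cases h : s < 8
  · interval_cases s <;> norm_num
  · obtain ⟨d, rfl⟩ := Nat.exists_eq_add_of_le (Nat.not_lt.1 h)
    clear h
    induction d with
    | zero => norm_num
    | succ d ih =>
      rw [show 8 + (d + 1) = 8 + d + 1 by ring, pow_succ 2 (8 + d)]
      have h1 : (8 + d + 1) ^ 4 ≤ 2 * (8 + d) ^ 4 := by
        have : (9 + d) ^ 4 + (d ^ 4 + 28 * d ^ 3 + 282 * d ^ 2 + 1180 * d + 1631) =
            2 * (8 + d) ^ 4 := by ring
        rw [show 8 + d + 1 = 9 + d by ring]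
        omega
      omega

theorem gp_spec (L : ℕ) : (gp L).Prime ∧ 4 * 2 ^ L * 3 ^ L * 2 ^ L < gp L ∧
    gp L < 2 ^ (4 * (L + 1)) := by
  have h0 : 0 < 4 * 2 ^ L * 3 ^ L * 2 ^ L := by positivity
  obtain ⟨h1, h2, h3⟩ := nextP_spec h0
  unfold gp
  refine ⟨h1, h2, lt_of_le_of_lt h3 ?_⟩
  have h4 : 3 ^ L ≤ 4 ^ L := Nat.pow_le_pow_left (by norm_num) L
  calc 2 * (4 * 2 ^ L * 3 ^ L * 2 ^ L) = 8 * (2 ^ L * 2 ^ L * 3 ^ L) := by ring
    _ ≤ 8 * (2 ^ L * 2 ^ L * 4 ^ L) := by
      apply Nat.mul_le_mul_left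
      exact Nat.mul_le_mul_left _ h4
    _ = 8 * 2 ^ (4 * L) := by
      rw [show (4 : ℕ) ^ L = 2 ^ L * 2 ^ L by rw [← mul_pow]; norm_num]
      rw [show 2 ^ (4 * L) = 2 ^ L * 2 ^ L * (2 ^ L * 2 ^ L) by
        rw [← pow_add, ← pow_add]; ring_nf]
    _ < 16 * 2 ^ (4 * L) := by
      apply Nat.mul_lt_mul_of_pos_right (by norm_num) (by positivity)
    _ = 2 ^ (4 * (L + 1)) := by rw [mul_add, pow_add]; ring

theorem gb_spec (L : ℕ) : gp L ≤ 2 ^ gb L ∧ gb L ≤ 4 * (L + 1) ∧ L + 1 ≤ gb L := by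
  obtain ⟨-, h2, h3⟩ := gp_spec L
  unfold gb
  refine ⟨(Nat.lt_size_self _).le, size_le_of_lt_pow h3, ?_⟩
  have h4 : 2 ^ L < gp L := by
    refine lt_of_le_of_lt ?_ h2
    calc 2 ^ L = 1 * 1 * 1 * 2 ^ L := by ring
      _ ≤ 4 * 2 ^ L * 3 ^ L * 2 ^ L := by
        gcongr
        · norm_num
        · exact Nat.one_le_two_pow
        · exact Nat.one_le_pow _ _ (by norm_num)
  have h5 := Nat.lt_size_self (gp L)
  exact (Nat.pow_lt_pow_iff_right (by norm_num)).1 (h4.trans h5)

theorem cond_spec {A L m : ℕ} (F : Finset (List Bool)) (hF : F ⊆ strs (2 ^ L))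
    (hc : 2 ^ (m + A * (L + 1)) ≤ #F) :
    ∃ y < gp L, 2 ^ ((L + 1) * gm A L m) ≤ gp L * #(F.image fun x => cond A L m x y) := by
  obtain ⟨h1, h2, h3⟩ := gp_spec L
  have : Fact (gp L).Prime := ⟨h1⟩
  have h5 : 5 ≤ gp L := by
    have : 0 < 2 ^ L * 3 ^ L * 2 ^ L := by positivity
    have e : 4 * 2 ^ L * 3 ^ L * 2 ^ L = 4 * (2 ^ L * 3 ^ L * 2 ^ L) := by ring
    omega
  have hN : m + A * (L + 1) ≤ 2 ^ L := by
    have := hc.trans (card_le_card hF)
    rw [card_strs] at this
    exact (Nat.pow_le_pow_iff_right (by norm_num)).1 this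
  have hμ : gm A L m ≤ 2 ^ L := (Nat.div_le_self _ _).trans hN
  unfold cond
  refine guv_spec (N := 2 ^ L) h1 (by positivity)
    (goodPair_irreducible _ _ (pair_spec h1 h5) L) (Nat.succ_pos L) ?_ (gb_spec L).1 ?_ F
    (fun x hx => mem_strs.1 (hF hx)) ?_
  · have := Nat.pow_le_pow_left (show 2 ≤ 3 by norm_num) L
    omega
  · refine lt_of_le_of_lt ?_ h2
    calc (2 ^ (L + 1) - 1) * (2 * 3 ^ L - 1) * gm A L m ≤ 2 ^ (L + 1) * (2 * 3 ^ L) * 2 ^ L := by
          gcongr
          · exact Nat.sub_le _ _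
          · exact Nat.sub_le _ _
      _ = 4 * 2 ^ L * 3 ^ L * 2 ^ L := by ring
  · refine le_trans (Nat.pow_le_pow_right (by norm_num) ?_) hc
    unfold gm
    exact Nat.mul_div_le _ _

theorem two_pow_size_le {a : ℕ} (ha : 0 < a) : 2 ^ Nat.size a ≤ 2 * a := by
  have h : 0 < Nat.size a := Nat.size_pos.2 ha
  have h1 : 2 ^ (Nat.size a - 1) ≤ a := Nat.lt_size.1 (by omega)
  calc 2 ^ Nat.size a = 2 ^ (Nat.size a - 1) * 2 := by rw [← pow_succ]; congr 1; omega
    _ ≤ 2 * a := by omega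

theorem size_le_self (a : ℕ) : Nat.size a ≤ a := by
  rw [Nat.size_le]
  exact Nat.lt_two_pow_self

/-- the estimates for the parameters of the small dispersers -/
theorem small_params {A L m : ℕ} (hA : 1442 ≤ A) (hA' : A ≤ 2 ^ 19)
    (hm : m ≤ 2 ^ 19 * (L + 1) ^ 4) :
    gb L + 2 * wt (gm A L m * gb L) + kap (gm A L m * gb L) + 1 ≤ (A - 1) * (L + 1) ∧
    m + (A - 1) * (L + 1) < (L + 1) * gm A L m ∧
    m + wt (gm A L m * gb L) ≤ gm A L m * gb L ∧
    2 * wt (gm A L m * gb L) * (Nat.size (gm A L m * gb L) + 1) *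
      (lt (gm A L m * gb L) * wt (gm A L m * gb L)) ≤ (L + 1) * 2 ^ 39 := by
  obtain ⟨g1, g2, g3⟩ := gb_spec L
  have hμ1 : (L + 1) * gm A L m ≤ m + A * (L + 1) := Nat.mul_div_le _ _
  have hμ2 : m + A * (L + 1) < (L + 1) * (gm A L m + 1) := Nat.lt_mul_div_succ _ (Nat.succ_pos L)
  have hμ3 : m + (A - 1) * (L + 1) < (L + 1) * gm A L m := by
    obtain ⟨a, rfl⟩ := Nat.exists_eq_add_of_le (show 1 ≤ A by omega)
    rw [Nat.add_sub_cancel_left]
    nlinarith
  set n := gm A L m * gb L with hn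
  set s := Nat.size (L + 1) with hs
  have s1 : L + 1 < 2 ^ s := Nat.lt_size_self _
  have s2 : 2 ^ s ≤ 2 * (L + 1) := two_pow_size_le (Nat.succ_pos L)
  have s3 : s ≤ L + 1 := size_le_self _
  have s4 : 1 ≤ s := Nat.size_pos.2 (Nat.succ_pos L)
  have n1 : n ≤ 4 * (m + A * (L + 1)) := by
    calc n ≤ gm A L m * (4 * (L + 1)) := Nat.mul_le_mul_left _ g2
      _ = 4 * ((L + 1) * gm A L m) := by ring
      _ ≤ _ := Nat.mul_le_mul_left 4 hμ1
  have n2 : n < 2 ^ (22 + 4 * s) := by
    have e1 : A * (L + 1) ≤ 2 ^ 19 * (L + 1) ^ 4 := by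
      apply Nat.mul_le_mul hA'
      calc L + 1 = (L + 1) ^ 1 := (pow_one _).symm
        _ ≤ (L + 1) ^ 4 := Nat.pow_le_pow_right (Nat.succ_pos L) (by norm_num)
    have e2 : (L + 1) ^ 4 < (2 ^ s) ^ 4 := Nat.pow_lt_pow_left s1 (by norm_num)
    calc n ≤ 4 * (m + A * (L + 1)) := n1
      _ ≤ 4 * (2 ^ 19 * (L + 1) ^ 4 + 2 ^ 19 * (L + 1) ^ 4) := by
        apply Nat.mul_le_mul_left
        exact Nat.add_le_add hm e1
      _ = 2 ^ 22 * (L + 1) ^ 4 := by ring
      _ < 2 ^ 22 * (2 ^ s) ^ 4 := Nat.mul_lt_mul_of_pos_left e2 (by norm_num)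
      _ = 2 ^ (22 + 4 * s) := by rw [pow_add, ← pow_mul]; congr 2; ring
  have n3 : Nat.size n ≤ 22 + 4 * s := size_le_of_lt_pow n2
  have n4 : kap n ≤ 72 + 12 * s := by unfold kap; omega
  have n5 : lt n ≤ 145 + 24 * s := by unfold lt; omega
  have n6 : wt n ≤ 580 + 96 * s := by have := (wt_spec n).2.2; omega
  have n7 : gb L + 2 * wt n + kap n + 1 ≤ 1441 * (L + 1) := by omega
  have n8 : gb L + 2 * wt n + kap n + 1 ≤ (A - 1) * (L + 1) :=
    n7.trans (Nat.mul_le_mul_right _ (by omega))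
  refine ⟨n8, hμ3, ?_, ?_⟩
  · have e : (L + 1) * gm A L m ≤ n := by
      rw [hn, mul_comm (gm A L m)]
      exact Nat.mul_le_mul_right _ g3
    omega
  · calc 2 * wt n * (Nat.size n + 1) * (lt n * wt n)
        ≤ 2 * (580 * s + 96 * s) * (22 * s + 4 * s + s) * ((145 * s + 24 * s) *
          (580 * s + 96 * s)) := by
          gcongr
          · omega
          · omega
          · omega
          · omega
      _ = 4170362976 * s ^ 4 := by ring
      _ ≤ 4170362976 * (32 * 2 ^ s) := Nat.mul_le_mul_left _ (pow_four_le s)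
      _ ≤ 4170362976 * (32 * (2 * (L + 1))) := by
        apply Nat.mul_le_mul_left
        exact Nat.mul_le_mul_left _ s2
      _ ≤ (L + 1) * 2 ^ 39 := by omega

theorem ext_cover {n k m : ℕ} (hk : 0 < k) (hm : m ≤ wt n * k) (hn : wt n * k ≤ n)
    (S F : Finset (List Bool)) (hF : ∀ x ∈ F, x.length = n)
    (hS : ∀ x ∈ F, ∀ s ∈ strs (sd n k), (ext n k x s).take m ∈ S) (hc : 4 * #S < 3 * 2 ^ m) :
    #F ≤ 2 ^ (wt n * k + wt n + kap n + 1) := by
  classical
  have hZ := card_take_le hm (sd n k) S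
  refine ext_spec hk hn (d := sd n k) le_rfl
    {q ∈ strs (sd n k) ×ˢ strs (wt n * k) | q.2.take m ∈ S} F fun x hx => ⟨hF x hx, ?_⟩
  have h1 : ∀ s ∈ strs (sd n k), (s, ext n k x s) ∈
      (strs (sd n k) ×ˢ strs (wt n * k)).filter fun q => q.2.take m ∈ S := by
    intro s hs
    have hl : ext n k x s ∈ strs (wt n * k) := mem_strs.2 (ext_length x s)
    rw [mem_filter, mem_product]
    exact ⟨⟨hs, hl⟩, hS x hx s hs⟩
  rw [filter_true_of_mem h1, card_strs]
  generalize (strs (sd n k) ×ˢ strs (wt n * k)).filter (fun q => q.2.take m ∈ S) = Z at hZ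
  generalize sd n k = d at hZ
  generalize wt n * k = M at hZ hm
  have e : 2 ^ M = 2 ^ m * 2 ^ (M - m) := by
    rw [← pow_add]; congr 1; omega
  calc 2 ^ d * 2 ^ M + 4 * #Z
      ≤ 2 ^ d * 2 ^ M + 4 * (2 ^ d * (#S * 2 ^ (M - m))) := by
        apply Nat.add_le_add_left
        exact Nat.mul_le_mul_left _ hZ
    _ = 2 ^ d * 2 ^ M + 4 * #S * (2 ^ d * 2 ^ (M - m)) := by ring
    _ ≤ 2 ^ d * 2 ^ M + 3 * 2 ^ m * (2 ^ d * 2 ^ (M - m)) := by
        apply Nat.add_le_add_left
        exact Nat.mul_le_mul_right _ hc.le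
    _ = 4 * 2 ^ M * 2 ^ d := by rw [e]; ring

theorem mem_small {A C L m y n k : ℕ} {x s : List Bool} (hn : n = gm A L m * gb L)
    (hk : k = m / wt n + 1) (hy : y < gp L) (hs : s.length = sd n k)
    (hsd : sd n k ≤ (L + 1) * C) :
    (ext n k (cond A L m x y) s).take m ∈ small A C L m x := by
  subst hk
  subst hn
  unfold small
  rw [List.mem_flatMap]
  refine ⟨y, List.mem_range.2 hy, List.mem_map.2 ⟨s, ?_, rfl⟩⟩
  exact mem_allS (Nat.pow_le_pow_right (by norm_num) hsd) hs

theorem small_aux {A L m C n w k κ β : ℕ} (hn : n = gm A L m * gb L) (hw : w = wt n)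
    (hk : k = m / w + 1) (hκ : κ = kap n) (hβ : β = gb L)
    (q1 : β + 2 * w + κ + 1 ≤ (A - 1) * (L + 1))
    (q2 : m + (A - 1) * (L + 1) < (L + 1) * gm A L m)
    (q3 : m + w ≤ n) (q4 : 2 * w * (Nat.size n + 1) * (lt n * w) ≤ (L + 1) * C)
    (F : Finset (List Bool)) (hF : F ⊆ strs (2 ^ L)) (hc : 2 ^ (m + A * (L + 1)) ≤ #F) :
    3 * 2 ^ m ≤ 4 * #(F.biUnion fun x => (small A C L m x).toFinset) := by
  classical
  obtain ⟨y, hy, hy2⟩ := cond_spec F hF hc
  obtain ⟨g1, g2, g3⟩ := gb_spec L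
  rw [← hβ] at g1 g2 g3
  by_contra hcon
  push Not at hcon
  have w0 : 0 < w := hw ▸ (wt_spec n).1.pos
  have k1 : m < w * k := hk ▸ Nat.lt_mul_div_succ m w0
  have k2 : w * k ≤ m + w := by
    rw [hk, mul_add, mul_one]
    exact Nat.add_le_add_right (Nat.mul_div_le m w) w
  have k3 : w * k ≤ n := k2.trans q3
  have k4 : k ≤ n := (Nat.le_mul_of_pos_left k w0).trans k3
  have hsd : sd n k ≤ (L + 1) * C := by
    refine (sd_le k4).trans ?_
    rw [← hw]
    exact q4
  have hk' : k = m / wt n + 1 := by rw [← hw]; exact hk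
  have k0 : 0 < k := hk ▸ Nat.succ_pos (m / w)
  rw [hw] at k1 k3
  have hP := ext_cover (n := n) (k := k) (m := m) k0 k1.le k3
    (F.biUnion fun x => (small A C L m x).toFinset) (F.image fun x => cond A L m x y)
    (fun x' hx' => by
      obtain ⟨x, hx, rfl⟩ := mem_image.1 hx'
      rw [hn]
      exact guv_length _ _ _ _ _ _ _ _ _)
    (fun x' hx' s hs => by
      obtain ⟨x, hx, rfl⟩ := mem_image.1 hx'
      rw [mem_biUnion]
      refine ⟨x, hx, ?_⟩
      rw [List.mem_toFinset]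
      exact mem_small hn hk' hy (mem_strs.1 hs) hsd) hcon
  rw [← hw, ← hκ] at hP
  have h1 := hy2.trans (Nat.mul_le_mul g1 hP)
  rw [← pow_add] at h1
  have h2 := (Nat.pow_le_pow_iff_right (by norm_num)).1 h1
  omega

theorem small_spec {A L m C : ℕ} (hA : 1442 ≤ A) (hA' : A ≤ 2 ^ 19)
    (hm : m ≤ 2 ^ 19 * (L + 1) ^ 4) (hC : 2 ^ 39 ≤ C) (F : Finset (List Bool))
    (hF : F ⊆ strs (2 ^ L)) (hc : 2 ^ (m + A * (L + 1)) ≤ #F) :
    3 * 2 ^ m ≤ 4 * #(F.biUnion fun x => (small A C L m x).toFinset) := by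
  obtain ⟨q1, q2, q3, q4⟩ := small_params hA hA' hm
  exact small_aux rfl rfl rfl rfl rfl q1 q2 q3 (q4.trans (Nat.mul_le_mul_left _ hC)) F hF hc

theorem split_lemma {N K1 K2 : ℕ} (hK1 : 0 < K1) (hK2 : 0 < K2) (F : Finset (List Bool))
    (hF : F ⊆ strs N) (hc : 2 * (N + 1) * K1 * K2 ≤ #F) :
    ∃ i ≤ N, ∃ P : Finset (List Bool), K1 ≤ #P ∧
      ∀ p ∈ P, p.length = i ∧ K2 ≤ #{x ∈ F | x.take i = p} := by
  classical
  set G : ℕ → Finset (List Bool) := fun i =>
    {x ∈ F | K2 ≤ #{x' ∈ F | x'.take i = x.take i}} with hG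
  set P : ℕ → Finset (List Bool) := fun i => (G i).image (List.take i) with hP
  have hlen : ∀ x ∈ F, x.length = N := fun x hx => mem_strs.1 (hF hx)
  have h0 : G 0 = F := by
    simp only [hG]
    apply filter_true_of_mem
    intro x hx
    have h1 : F.filter (fun x' => x'.take 0 = x.take 0) = F := by
      apply filter_true_of_mem
      intro x' hx'
      simp
    rw [h1]
    refine le_trans ?_ hc
    calc K2 = 1 * 1 * K2 := by ring
      _ ≤ 2 * (N + 1) * K1 * K2 := by
        apply Nat.mul_le_mul_right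
        exact Nat.mul_le_mul (by omega) hK1
  have h1 : ∀ j < N, #(G j) ≤ #(G (j + 1)) + 2 * K2 * #(P j) := by
    intro j hj
    have e1 : #(G j) ≤ #(G (j + 1)) + #(G j \ G (j + 1)) := by
      rw [← card_union_of_disjoint disjoint_sdiff]
      apply card_le_card
      intro x hx
      by_cases h : x ∈ G (j + 1)
      · exact mem_union_left _ h
      · exact mem_union_right _ (mem_sdiff.2 ⟨hx, h⟩)
    refine e1.trans (Nat.add_le_add_left ?_ _)
    have e4 : ∀ q : List Bool, #{x ∈ F \ G (j + 1) | x.take (j + 1) = q} ≤ K2 := by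
      intro q
      rcases eq_empty_or_nonempty {x ∈ F \ G (j + 1) | x.take (j + 1) = q} with h | ⟨x, hx⟩
      · rw [h]; simp
      · rw [mem_filter, mem_sdiff] at hx
        obtain ⟨⟨hx1, hx2⟩, hx3⟩ := hx
        have h2 : #{x' ∈ F | x'.take (j + 1) = x.take (j + 1)} < K2 := by
          by_contra h3
          exact hx2 (mem_filter.2 ⟨hx1, not_lt.1 h3⟩)
        rw [hx3] at h2
        refine le_trans (card_le_card ?_) h2.le
        exact filter_subset_filter _ sdiff_subset
    have e2 : #(G j \ G (j + 1)) ≤ 2 * K2 * #((G j \ G (j + 1)).image (List.take j)) := by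
      apply card_le_mul_card_image
      intro p _
      have e3 : ((G j \ G (j + 1)).filter fun x => x.take j = p) ⊆
          ({x ∈ F \ G (j + 1) | x.take (j + 1) = p ++ [false]} ∪
          {x ∈ F \ G (j + 1) | x.take (j + 1) = p ++ [true]}) := by
        intro x hx
        rw [mem_filter, mem_sdiff] at hx
        obtain ⟨⟨hx1, hx2⟩, hx3⟩ := hx
        have hx4 : x ∈ F := (mem_filter.1 hx1).1
        rw [mem_union, mem_filter, mem_filter, mem_sdiff]
        rw [List.take_add_one, hx3]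
        have hj' : j < x.length := by rw [hlen x hx4]; exact hj
        rw [List.getElem?_eq_getElem hj']
        rcases x[j] with _ | _
        · left
          exact ⟨⟨hx4, hx2⟩, by simp⟩
        · right
          exact ⟨⟨hx4, hx2⟩, by simp⟩
      refine (card_le_card e3).trans ((card_union_le _ _).trans ?_)
      have := e4 (p ++ [false])
      have := e4 (p ++ [true])
      omega
    refine e2.trans (Nat.mul_le_mul_left _ (card_le_card ?_))
    simp only [hP]
    exact image_subset_image sdiff_subset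
  have h2 : ∀ j ≤ N, #F ≤ #(G j) + ∑ i ∈ range j, 2 * K2 * #(P i) := by
    intro j
    induction j with
    | zero => intro _; rw [h0]; simp
    | succ j ih =>
      intro hj
      rw [sum_range_succ]
      have := ih (by omega)
      have := h1 j (by omega)
      omega
  have h3 : #(G N) ≤ #(P N) := by
    simp only [hP]
    rw [card_image_of_injOn]
    intro x hx x' hx' h
    have h4 := hlen x (mem_filter.1 hx).1
    have h5 := hlen x' (mem_filter.1 hx').1
    rwa [List.take_of_length_le h4.le, List.take_of_length_le h5.le] at h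
  by_contra hcon
  push Not at hcon
  have h4 : ∀ i ≤ N, #(P i) < K1 := by
    intro i hi
    by_contra h5
    obtain ⟨p, hp, hp2⟩ := hcon i hi (P i) (not_lt.1 h5)
    obtain ⟨x, hx, rfl⟩ := mem_image.1 hp
    obtain ⟨hx1, hx2⟩ := mem_filter.1 hx
    refine absurd (hp2 ?_) (not_lt.2 hx2)
    rw [List.length_take, hlen x hx1]
    exact min_eq_left hi
  have h5 : #F ≤ (N + 1) * (2 * K2 * (K1 - 1)) := by
    refine (h2 N le_rfl).trans ?_
    have e1 : #(G N) ≤ 2 * K2 * #(P N) := h3.trans (Nat.le_mul_of_pos_left _ (by omega))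
    refine (Nat.add_le_add_right e1 _).trans ?_
    rw [add_comm, ← sum_range_succ (fun i => 2 * K2 * #(P i))]
    refine (sum_le_sum (fun i hi => Nat.mul_le_mul_left (2 * K2)
      (Nat.le_sub_one_of_lt (h4 i (by rw [mem_range] at hi; omega))))).trans ?_
    rw [sum_const, card_range, smul_eq_mul]
  have h6 : (N + 1) * (2 * K2 * (K1 - 1)) < 2 * (N + 1) * K1 * K2 := by
    obtain ⟨a, rfl⟩ := Nat.exists_eq_add_of_lt hK1
    have : 0 < (N + 1) * K2 := by positivity
    rw [Nat.zero_add, Nat.add_sub_cancel]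
    calc (N + 1) * (2 * K2 * a) = 2 * a * ((N + 1) * K2) := by ring
      _ < 2 * a * ((N + 1) * K2) + 2 * ((N + 1) * K2) := by omega
      _ = 2 * (N + 1) * (a + 1) * K2 := by ring
  omega

theorem padr_length {N : ℕ} {z : List Bool} (h : z.length ≤ N) : (padr N z).length = N := by
  unfold padr
  rw [List.length_append, List.length_replicate]
  omega

theorem padr_inj {N : ℕ} {z z' : List Bool} (h : z.length = z'.length)
    (he : padr N z = padr N z') : z = z' := by
  unfold padr at he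
  exact (List.append_inj he h).1

theorem N_params (L : ℕ) : kap (2 ^ L) ≤ 9 * (L + 1) ∧ wt (2 ^ L) ≤ 76 * (L + 1) ∧
    D1 (2 ^ L) + wt (2 ^ L) ≤ 2 ^ 19 * (L + 1) ^ 4 := by
  have h0 : Nat.size (2 ^ L) = L + 1 := Nat.size_pow
  have h1 : kap (2 ^ L) ≤ 9 * (L + 1) := by
    unfold kap
    rw [h0]
    omega
  have h1' : kap (2 ^ L) = 3 * (L + 1) + 6 := by
    unfold kap
    rw [h0]
  have h2 : lt (2 ^ L) ≤ 19 * (L + 1) := by
    unfold lt
    rw [h1']
    omega
  have h3 : wt (2 ^ L) ≤ 76 * (L + 1) := by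
    have := (wt_spec (2 ^ L)).2.2
    omega
  refine ⟨h1, h3, ?_⟩
  have h4 : L + 1 ≤ (L + 1) ^ 4 := by
    calc L + 1 = (L + 1) ^ 1 := (pow_one _).symm
      _ ≤ (L + 1) ^ 4 := Nat.pow_le_pow_right (Nat.succ_pos L) (by norm_num)
  unfold D1
  rw [h0]
  calc 2 * wt (2 ^ L) * (L + 1 + 1) * (lt (2 ^ L) * wt (2 ^ L)) + wt (2 ^ L)
      ≤ 2 * (76 * (L + 1)) * (2 * (L + 1)) * ((19 * (L + 1)) * (76 * (L + 1))) +
        76 * (L + 1) ^ 4 := by
        gcongr
        · omega
        · exact h3.trans (Nat.mul_le_mul_left _ h4)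
    _ ≤ 2 ^ 19 * (L + 1) ^ 4 := by
      ring_nf
      omega

theorem mem_big {A C L m N D w k r i : ℕ} {x y u : List Bool} (hN : N = 2 ^ L)
    (hD : D = D1 N) (hw : w = wt N) (hk : k = (m - D) / w) (hr : r = (m - D) % w) (hi : i ≤ N)
    (hy : y ∈ small A C L D (padr N (x.drop i))) (hu : u.length = r) (hrC : r ≤ (L + 1) * C) :
    y ++ (ext N k (padr N (x.take i)) y ++ u) ∈ big A C L m x := by
  subst hN hD hw hk hr
  unfold big
  rw [List.mem_flatMap]
  refine ⟨i, List.mem_range.2 (Nat.lt_succ_of_le hi), ?_⟩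
  rw [List.mem_flatMap]
  refine ⟨y, hy, List.mem_map.2 ⟨u, ?_, rfl⟩⟩
  exact mem_allS (Nat.pow_le_pow_right (by norm_num) hrC) hu

theorem big_length {A C L m : ℕ} {x z : List Bool} (hm : D1 (2 ^ L) ≤ m)
    (hz : z ∈ big A C L m x) : z.length = m := by
  unfold big at hz
  obtain ⟨i, -, hz⟩ := List.mem_flatMap.1 hz
  obtain ⟨y, hy, hz⟩ := List.mem_flatMap.1 hz
  obtain ⟨u, hu, rfl⟩ := List.mem_map.1 hz
  rw [List.length_append, List.length_append, small_length hy, ext_length,
    length_of_mem_allS hu, Nat.div_add_mod]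
  omega

theorem big_aux {A C L m N D w k r M κ : ℕ} (hN : N = 2 ^ L) (hD : D = D1 N) (hw : w = wt N)
    (hk : k = (m - D) / w) (hr : r = (m - D) % w) (hM : M = wt N * k) (hκ : κ = kap N)
    (hA : 1442 ≤ A) (hA' : A ≤ 2 ^ 19) (hC : 2 ^ 39 ≤ C) (hm : D + w ≤ m)
    (F : Finset (List Bool)) (hF : F ⊆ strs N) (hc : 2 ^ (m + (A + 90) * (L + 1)) ≤ #F) :
    2 ^ m ≤ 2 * #(F.biUnion fun x => (big A C L m x).toFinset) := by
  classical
  obtain ⟨a1, a2, a3⟩ := N_params L
  rw [← hN, ← hκ] at a1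
  rw [← hN, ← hw] at a2
  rw [← hN, ← hw, ← hD] at a3
  have w0 : 0 < w := hw ▸ (wt_spec N).1.pos
  have hrw : r < w := hr ▸ Nat.mod_lt _ w0
  have hMr : w * k + r = m - D := by rw [hk, hr]; exact Nat.div_add_mod _ _
  have hMw : M = w * k := by rw [hM, hw]
  have hk0 : 0 < k := by
    rw [hk]
    exact Nat.div_pos (by omega) w0
  have hmN : m + (A + 90) * (L + 1) ≤ N := by
    have := hc.trans (card_le_card hF)
    rw [card_strs] at this
    exact (Nat.pow_le_pow_iff_right (by norm_num)).1 this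
  have hMN : M ≤ N := by omega
  have hkN : k ≤ N := (Nat.le_mul_of_pos_left k w0).trans (hMw ▸ hMN)
  have hsd : sd N k ≤ D := by
    refine (sd_le hkN).trans ?_
    rw [hD]
    exact le_rfl
  have hrC : r ≤ (L + 1) * C := by
    have h76 : 76 ≤ C := le_trans (by norm_num) hC
    calc r ≤ 76 * (L + 1) := hrw.le.trans a2
      _ = (L + 1) * 76 := mul_comm _ _
      _ ≤ (L + 1) * C := Nat.mul_le_mul_left _ h76
  by_contra hcon
  push Not at hcon
  set S := F.biUnion fun x => (big A C L m x).toFinset with hS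
  obtain ⟨i, hi, P, hP1, hP2⟩ := split_lemma (N := N) (K1 := 2 ^ (M + w + κ + 2))
    (K2 := 2 ^ (D + A * (L + 1))) (by positivity) (by positivity) F hF (by
      refine le_trans ?_ hc
      have e1 : 2 * (N + 1) ≤ 2 ^ (L + 2) := by
        have : 0 < 2 ^ L := by positivity
        rw [hN, pow_add]
        omega
      calc 2 * (N + 1) * 2 ^ (M + w + κ + 2) * 2 ^ (D + A * (L + 1))
          ≤ 2 ^ (L + 2) * 2 ^ (M + w + κ + 2) * 2 ^ (D + A * (L + 1)) := by gcongr
        _ = 2 ^ (L + 2 + (M + w + κ + 2) + (D + A * (L + 1))) := by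
          rw [pow_add 2 (L + 2 + (M + w + κ + 2)), pow_add 2 (L + 2)]
        _ ≤ 2 ^ (m + (A + 90) * (L + 1)) := by
          apply Nat.pow_le_pow_right (by norm_num)
          have e2 : (A + 90) * (L + 1) = A * (L + 1) + 90 * (L + 1) := by ring
          omega)
  let Z : Finset (List Bool × List Bool) :=
    {q ∈ strs D ×ˢ strs M | ∀ u ∈ strs r, q.1 ++ (q.2 ++ u) ∈ S}
  have hZ : #Z * 2 ^ r ≤ #S := by
    rw [← card_strs r, ← card_product]
    apply card_le_card_of_injOn fun q => q.1.1 ++ (q.1.2 ++ q.2)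
    · rintro ⟨q, u⟩ hq
      rw [mem_coe, mem_product] at hq
      rw [mem_coe]
      exact (mem_filter.1 hq.1).2 u hq.2
    · rintro ⟨⟨a, b⟩, u⟩ hq ⟨⟨a', b'⟩, u'⟩ hq' h
      rw [mem_coe, mem_product] at hq hq'
      obtain ⟨hq1, -⟩ := mem_filter.1 hq.1
      obtain ⟨hq1', -⟩ := mem_filter.1 hq'.1
      rw [mem_product] at hq1 hq1'
      have l1 := mem_strs.1 hq1.1
      have l1' := mem_strs.1 hq1'.1
      have l2 := mem_strs.1 hq1.2
      have l2' := mem_strs.1 hq1'.2
      simp only at h l1 l1' l2 l2'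
      obtain ⟨h1, h2⟩ := List.append_inj h (l1.trans l1'.symm)
      obtain ⟨h3, h4⟩ := List.append_inj h2 (l2.trans l2'.symm)
      rw [h1, h3, h4]
  have hPlen : ∀ p ∈ P, p.length = i := fun p hp => (hP2 p hp).1
  have hcard : #(P.image (padr N)) = #P := by
    apply card_image_of_injOn
    intro p hp p' hp' h
    exact padr_inj ((hPlen p hp).trans (hPlen p' hp').symm) h
  have hPle := ext_spec (n := N) (k := k) hk0 (hM ▸ hMN) (d := D) hsd Z (P.image (padr N)) (by
    intro x' hx'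
    obtain ⟨p, hp, rfl⟩ := mem_image.1 hx'
    obtain ⟨hp1, hp2⟩ := hP2 p hp
    refine ⟨padr_length (hp1 ▸ hi), ?_⟩
    rw [← hM]
    set Gp := ({x ∈ F | x.take i = p}).image fun x => padr N (x.drop i) with hGp
    have g1 : #Gp = #{x ∈ F | x.take i = p} := by
      apply card_image_of_injOn
      intro x hx x' hx' h
      rw [mem_coe, mem_filter] at hx hx'
      have l1 := mem_strs.1 (hF hx.1)
      have l1' := mem_strs.1 (hF hx'.1)
      have := padr_inj (by rw [List.length_drop, List.length_drop, l1, l1']) h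
      rw [← List.take_append_drop i x, ← List.take_append_drop i x', this, hx.2, hx'.2]
    have g2 := small_spec (A := A) (L := L) (m := D) (C := C) hA hA' (by omega) hC Gp (by
      intro z hz
      obtain ⟨x, hx, rfl⟩ := mem_image.1 hz
      rw [mem_strs, ← hN]
      apply padr_length
      rw [List.length_drop, mem_strs.1 (hF (mem_filter.1 hx).1)]
      exact Nat.sub_le _ _) (by rw [g1]; exact hp2)
    have g3 : (Gp.biUnion fun x => (small A C L D x).toFinset) ⊆
        {y ∈ strs D | (y, ext N k (padr N p) y) ∈ Z} := by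
      intro y hy
      obtain ⟨z, hz, hy⟩ := mem_biUnion.1 hy
      obtain ⟨x, hx, rfl⟩ := mem_image.1 hz
      rw [List.mem_toFinset] at hy
      obtain ⟨hx1, hx2⟩ := mem_filter.1 hx
      have ly : y ∈ strs D := mem_strs.2 (small_length hy)
      have le : ext N k (padr N p) y ∈ strs M := by
        rw [hM]
        exact mem_strs.2 (ext_length _ _)
      rw [mem_filter]
      refine ⟨ly, ?_⟩
      apply mem_filter.2
      refine ⟨mem_product.2 ⟨ly, le⟩, ?_⟩
      intro u hu
      simp only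
      rw [hS, mem_biUnion]
      refine ⟨x, hx1, ?_⟩
      rw [List.mem_toFinset, ← hx2]
      exact mem_big hN hD hw hk hr hi hy (mem_strs.1 hu) hrC
    have g4 := card_le_card g3
    generalize #{y ∈ strs D | (y, ext N k (padr N p) y) ∈ Z} = t at g4
    generalize #(Gp.biUnion fun x => (small A C L D x).toFinset) = t' at g4 g2
    have e1 : 2 ^ m = 2 ^ D * 2 ^ M * 2 ^ r := by
      rw [← pow_add, ← pow_add]
      congr 1
      omega
    have e2 : 2 * #Z ≤ 2 ^ D * 2 ^ M := by
      have h1 : 2 * #Z * 2 ^ r ≤ 2 ^ D * 2 ^ M * 2 ^ r := by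
        rw [← e1]
        calc 2 * #Z * 2 ^ r = 2 * (#Z * 2 ^ r) := by ring
          _ ≤ 2 * #S := Nat.mul_le_mul_left 2 hZ
          _ ≤ 2 ^ m := hcon.le
      exact Nat.le_of_mul_le_mul_right h1 (by positivity)
    calc 2 ^ D * 2 ^ M + 4 * #Z = 2 ^ D * 2 ^ M + 2 * (2 * #Z) := by ring
      _ ≤ 2 ^ D * 2 ^ M + 2 * (2 ^ D * 2 ^ M) := by omega
      _ = (3 * 2 ^ D) * 2 ^ M := by ring
      _ ≤ (4 * t) * 2 ^ M := by
        apply Nat.mul_le_mul_right
        omega
      _ = 4 * 2 ^ M * t := by ring)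
  rw [hcard, ← hM, ← hw, ← hκ] at hPle
  have h1 := hP1.trans hPle
  have h2 := (Nat.pow_le_pow_iff_right (by norm_num)).1 h1
  omega

/-- the dispersers -/
theorem disp_spec {A C L m : ℕ} (hA : 1442 ≤ A) (hA' : A ≤ 2 ^ 19) (hC : 2 ^ 39 ≤ C)
    (F : Finset (List Bool)) (hF : F ⊆ strs (2 ^ L))
    (hc : 2 ^ (m + (A + 90) * (L + 1)) ≤ #F) :
    2 ^ m ≤ 2 * #(F.biUnion fun x => (disp A C L m x).toFinset) := by
  by_cases h : m < D1 (2 ^ L) + wt (2 ^ L)
  · have e : ∀ x, disp A C L m x = small A C L m x := fun x => if_pos h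
    simp only [e]
    have h1 := small_spec hA hA' (h.le.trans (N_params L).2.2) hC F hF
      (le_trans (Nat.pow_le_pow_right (by norm_num) (by
        apply Nat.add_le_add_left
        exact Nat.mul_le_mul_right _ (Nat.le_add_right A 90))) hc)
    omega
  · have e : ∀ x, disp A C L m x = big A C L m x := fun x => if_neg h
    simp only [e]
    exact big_aux rfl rfl rfl rfl rfl rfl rfl hA hA' hC (not_lt.1 h) F hF hc

theorem disp_length {A C L m : ℕ} {x z : List Bool} (hz : z ∈ disp A C L m x) :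
    z.length = m := by
  unfold disp at hz
  split_ifs at hz with h
  · exact small_length hz
  · exact big_length (by omega) hz

end Pool.Agent.LibPtt90
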