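import Pool.Agent.LibPtt90.Defs

/-!
The parameters of the dispersers, and the functions that compute the lists of neighbours.
-/

namespace Pool.Agent.LibPtt90

/-- primality by trial division -/
def isPrime (a : ℕ) : Bool :=
  decide (2 ≤ a) && (List.range a).all fun d => decide (d < 2) || decide (a % d ≠ 0)

/-- the least prime greater than `B` -/
def nextP (B : ℕ) : ℕ := (((List.range (B + 1)).map fun i => B + 1 + i).filter isPrime).headD 2

/-- test for the pairs that yield irreducible trinomials -/
def goodB (p τ ν : ℕ) : Bool :=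
  ((List.range p).all fun y => decide ((y * y) % p ≠ (τ * y + ν) % p)) &&
  ((List.range p).all fun a => (List.range p).all fun b =>
    decide ((a ^ 3 + 3 * a * b ^ 2 * ν + b ^ 3 * τ * ν) % p ≠ 0) ||
    decide ((3 * a ^ 2 * b + 3 * a * b ^ 2 * τ + b ^ 3 * (τ ^ 2 + ν)) % p ≠ 1))

/-- the first good pair -/
def pair (p : ℕ) : ℕ × ℕ :=
  (((List.range p).flatMap fun τ => (List.range p).map fun ν => (τ, ν)).filter
    fun q => goodB p q.1 q.2).headD (0, 0)

/-- number of bits of the evaluation points for inputs of length `n` -/
def kap (n : ℕ) : ℕ := 3 * Nat.size n + 6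

/-- the prime for the code -/
def pt (n : ℕ) : ℕ := nextP (2 ^ kap n)

/-- the size of the sets of the design -/
def lt (n : ℕ) : ℕ := 2 * kap n + 1

/-- the prime for the design -/
def wt (n : ℕ) : ℕ := nextP (2 * lt n - 1)

/-- the blocks of the design -/
def bt (n k : ℕ) : List ℕ := blk (wt n) (Nat.size k) k 1

/-- the length of the seed -/
def sd (n k : ℕ) : ℕ := (bt n k).length * (lt n * wt n)

/-- the seeded function -/
def ext (n k : ℕ) (x y : List Bool) : List Bool :=
  trev (wt n * k) (pt n) (kap n) (wt n) (bt n k) x y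

/-- the first `min cap (2 ^ n)` words of length `n` -/
def allS (cap n : ℕ) : List (List Bool) := (List.range (min cap (2 ^ n))).map (bits n)

/-- pad by zeros to the length `N` -/
def padr (N : ℕ) (z : List Bool) : List Bool := z ++ List.replicate (N - z.length) false

/-- the prime for the condenser -/
def gp (L : ℕ) : ℕ := nextP (4 * 2 ^ L * 3 ^ L * 2 ^ L)

/-- the number of bits of the prime for the condenser -/
def gb (L : ℕ) : ℕ := Nat.size (gp L)

/-- the number of components of the condenser -/
def gm (A L m : ℕ) : ℕ := (m + A * (L + 1)) / (L + 1)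

/-- the condenser -/
def cond (A L m : ℕ) (x : List Bool) (y : ℕ) : List Bool :=
  guv (gp L) (3 ^ L) (pair (gp L)).1 (pair (gp L)).2 (L + 1) (gb L) (gm A L m) x y

/-- the neighbours of `x` in the disperser with few right vertices -/
def small (A C L m : ℕ) (x : List Bool) : List (List Bool) :=
  (List.range (gp L)).flatMap fun y =>
    (allS (2 ^ ((L + 1) * C)) (sd (gm A L m * gb L) (m / wt (gm A L m * gb L) + 1))).map fun s =>
      (ext (gm A L m * gb L) (m / wt (gm A L m * gb L) + 1) (cond A L m x y) s).take m

/-- the length of the seed for the prefixes -/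
def D1 (N : ℕ) : ℕ := 2 * wt N * (Nat.size N + 1) * (lt N * wt N)

/-- the neighbours of `x` in the disperser with many right vertices -/
def big (A C L m : ℕ) (x : List Bool) : List (List Bool) :=
  (List.range (2 ^ L + 1)).flatMap fun i =>
    (small A C L (D1 (2 ^ L)) (padr (2 ^ L) (x.drop i))).flatMap fun y =>
      (allS (2 ^ ((L + 1) * C)) ((m - D1 (2 ^ L)) % wt (2 ^ L))).map fun u =>
        y ++ (ext (2 ^ L) ((m - D1 (2 ^ L)) / wt (2 ^ L)) (padr (2 ^ L) (x.take i)) y ++ u)

/-- the neighbours of `x` -/
def disp (A C L m : ℕ) (x : List Bool) : List (List Bool) :=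
  if m < D1 (2 ^ L) + wt (2 ^ L) then small A C L m x else big A C L m x

end Pool.Agent.LibPtt90
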