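import Pool.Agent.LibPtt90.Defs

/-!
The Reed-Solomon/Hadamard code: list decoding bound and the code of the names
-/

open Finset Function Polynomial

namespace Pool.Agent.LibPtt90

/-! ### sums over words -/

theorem tb_sum_cons {k : ℕ} (F : List Bool → ℤ) :
    ∑ v : Fin (k + 1) → Bool, F (List.ofFn v)
      = ∑ a : Bool, ∑ v : Fin k → Bool, F (a :: List.ofFn v) := by
  rw [← (Fin.consEquiv fun _ : Fin (k + 1) => Bool).sum_comp, Fintype.sum_prod_type]
  apply Finset.sum_congr rfl
  intro a _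
  apply Finset.sum_congr rfl
  intro v _
  change F (List.ofFn (Fin.cons a v : Fin (k + 1) → Bool)) = F (a :: List.ofFn v)
  rw [List.ofFn_succ]
  simp

theorem tb_sum_append {n k l : ℕ} (h : n = k + l) (F : List Bool → ℤ) :
    ∑ v : Fin n → Bool, F (List.ofFn v)
      = ∑ a : Fin k → Bool, ∑ b : Fin l → Bool, F (List.ofFn a ++ List.ofFn b) := by
  subst h
  rw [← (Fin.appendEquiv k l).sum_comp, Fintype.sum_prod_type]
  apply Finset.sum_congr rfl
  intro a _
  apply Finset.sum_congr rfl
  intro b _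
  rw [← List.ofFn_fin_append]
  rfl

/-! ### numbers and digits -/

theorem tb_num_lt (l : List Bool) : num l < 2 ^ l.length := by
  induction l with
  | nil => simp [num]
  | cons b l ih =>
    rw [num, List.length_cons, pow_succ]
    have := b.toNat_le
    omega

theorem tb_num_inj : ∀ (l l' : List Bool), l.length = l'.length → num l = num l' → l = l' := by
  intro l
  induction l with
  | nil => intro l' h _; exact (List.eq_nil_of_length_eq_zero h.symm).symm
  | cons b l ih =>
    intro l' h h'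
    cases l' with
    | nil => simp at h
    | cons b' l' =>
      rw [num, num] at h'
      have h1 := b.toNat_le
      have h2 := b'.toNat_le
      have h3 : b.toNat = b'.toNat := by omega
      have h4 : num l = num l' := by omega
      rw [ih l' (by simpa using h) h4]
      have : b = b' := by cases b <;> cases b' <;> simp_all
      rw [this]

theorem tb_numc_eq (B : ℕ) (l : List Bool) : numc B l = min B (num l) := by
  induction l with
  | nil => simp [numc, num]
  | cons b l ih => rw [numc, num, ih]; omega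

theorem tb_bits_length (k a : ℕ) : (bits k a).length = k := by
  induction k generalizing a with
  | zero => rfl
  | succ k ih => rw [bits, List.length_cons, ih]

theorem tb_num_bits (k a : ℕ) (h : a < 2 ^ k) : num (bits k a) = a := by
  induction k generalizing a with
  | zero => simp at h; subst h; rfl
  | succ k ih =>
    rw [bits, num, ih (a / 2) (by rw [pow_succ] at h; omega)]
    rcases Nat.mod_two_eq_zero_or_one a with h1 | h1 <;> simp [h1] <;> omega

/-! ### characters -/

/-- the sign of a bit -/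
def tbs (b : Bool) : ℤ := bif b then -1 else 1

theorem tbs_xor (a b : Bool) : tbs (xor a b) = tbs a * tbs b := by
  cases a <;> cases b <;> rfl

theorem tb_ip_zero (k : ℕ) (l : List Bool) : ip (bits k 0) l = false := by
  induction k generalizing l with
  | zero => cases l <;> rfl
  | succ k ih =>
    cases l with
    | nil => rfl
    | cons b l => rw [bits, ip, Nat.zero_div, ih]; simp

theorem tb_orth {k : ℕ} : ∀ (a a' : List Bool), a.length = k → a'.length = k →
    ∑ b : Fin k → Bool, tbs (ip a (List.ofFn b)) * tbs (ip a' (List.ofFn b))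
      = if a = a' then 2 ^ k else 0 := by
  induction k with
  | zero =>
    intro a a' h h'
    rw [List.length_eq_zero_iff] at h h'
    subst h; subst h'
    simp [ip, tbs]
  | succ k ih =>
    intro a a' h h'
    cases a with
    | nil => simp at h
    | cons s a =>
      cases a' with
      | nil => simp at h'
      | cons s' a' =>
        rw [tb_sum_cons (fun l => tbs (ip (s :: a) l) * tbs (ip (s' :: a') l))]
        simp only [ip, tbs_xor]
        have e : ∀ x : Bool, ∑ v : Fin k → Bool,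
            tbs (s && x) * tbs (ip a (List.ofFn v)) * (tbs (s' && x) * tbs (ip a' (List.ofFn v)))
            = tbs (s && x) * tbs (s' && x) * if a = a' then 2 ^ k else 0 := by
          intro x
          rw [← ih a a' (by simpa using h) (by simpa using h'), Finset.mul_sum]
          apply Finset.sum_congr rfl
          intro v _
          ring
        rw [Fintype.sum_bool, e, e]
        by_cases hs : s = s'
        · subst hs
          by_cases ha : a = a'
          · subst ha
            cases s <;> simp [tbs, pow_succ] <;> ring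
          · simp [ha]
        · have : ¬ (s :: a = s' :: a') := by
            intro h; exact hs (List.cons.inj h).1
          rw [if_neg this]
          by_cases ha : a = a' <;> cases s <;> cases s' <;> simp_all [tbs]

/-- the character of a symbol -/
def chr (κ s : ℕ) (b : Fin (κ + 1) → Bool) : ℤ := tbs (ip (bits (κ + 1) s) (List.ofFn b))

theorem chr_zero (κ : ℕ) (b : Fin (κ + 1) → Bool) : chr κ 0 b = 1 := by
  unfold chr; rw [tb_ip_zero]; rfl

theorem chr_sum_mul {κ s s' : ℕ} (h : s < 2 ^ (κ + 1)) (h' : s' < 2 ^ (κ + 1)) :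
    ∑ b : Fin (κ + 1) → Bool, chr κ s b * chr κ s' b = if s = s' then 2 ^ (κ + 1) else 0 := by
  unfold chr
  rw [tb_orth _ _ (tb_bits_length _ _) (tb_bits_length _ _)]
  by_cases hs : s = s'
  · subst hs; simp
  · rw [if_neg hs, if_neg]
    intro hb
    apply hs
    rw [← tb_num_bits _ _ h, ← tb_num_bits _ _ h', hb]

theorem chr_sum {κ s : ℕ} (h : s < 2 ^ (κ + 1)) :
    ∑ b : Fin (κ + 1) → Bool, chr κ s b = if s = 0 then 2 ^ (κ + 1) else 0 := by
  have := chr_sum_mul h (Nat.two_pow_pos (κ + 1))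
  simp only [chr_zero, mul_one] at this
  exact this

/-! ### polynomials -/

/-- the polynomial of a list of coefficients -/
noncomputable def tbp (p : ℕ) : List ℕ → (ZMod p)[X]
  | [] => 0
  | c :: l => C (c : ZMod p) + X * tbp p l

theorem tbp_eval (p : ℕ) (l : List ℕ) (z : ℕ) :
    ((pev p l z : ℕ) : ZMod p) = (tbp p l).eval (z : ZMod p) := by
  induction l with
  | nil => simp [pev, tbp]
  | cons c l ih => simp [pev, tbp, ih]

theorem tbp_natDegree (p : ℕ) (l : List ℕ) : (tbp p l).natDegree ≤ l.length := by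
  induction l with
  | nil => simp [tbp]
  | cons c l ih =>
    rw [tbp, List.length_cons]
    refine (natDegree_add_le _ _).trans ?_
    rw [natDegree_C]
    refine max_le (Nat.zero_le _) ?_
    refine natDegree_mul_le.trans ?_
    have := natDegree_X_le (R := ZMod p)
    omega

theorem tbp_inj {p : ℕ} [Fact p.Prime] : ∀ (l l' : List Bool), l.length = l'.length →
    tbp p (l.map Bool.toNat) = tbp p (l'.map Bool.toNat) → l = l' := by
  intro l
  induction l with
  | nil => intro l' h _; exact (List.eq_nil_of_length_eq_zero h.symm).symm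
  | cons b l ih =>
    intro l' h h'
    cases l' with
    | nil => simp at h
    | cons b' l' =>
      simp only [List.map_cons, tbp] at h'
      have h0 := congrArg (fun P => coeff P 0) h'
      simp only [coeff_add, coeff_C_zero, coeff_X_mul_zero, add_zero] at h0
      have hb : b = b' := by cases b <;> cases b' <;> simp_all
      subst hb
      have h1 : X * tbp p (l.map Bool.toNat) = X * tbp p (l'.map Bool.toNat) :=
        add_left_cancel h'
      rw [ih l' (by simpa using h) (mul_left_cancel₀ X_ne_zero h1)]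

theorem tb_pev_lt {p : ℕ} (hp : 0 < p) (l : List ℕ) (z : ℕ) : pev p l z < p := by
  cases l with
  | nil => exact hp
  | cons c l => rw [pev]; exact Nat.mod_lt _ hp

/-- few zeros -/
theorem tb_roots {p κ n : ℕ} [Fact p.Prime] (h1 : 2 ^ κ < p) (P : (ZMod p)[X]) (hP : P ≠ 0)
    (hn : P.natDegree ≤ n) :
    #{v : Fin κ → Bool | P.eval ((num (List.ofFn v) : ℕ) : ZMod p) = 0} ≤ n := by
  have hinj : Set.InjOn (fun v : Fin κ → Bool => ((num (List.ofFn v) : ℕ) : ZMod p))
      (({v : Fin κ → Bool | P.eval ((num (List.ofFn v) : ℕ) : ZMod p) = 0} : Finset _) : Set _) := by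
    intro v _ v' _ h
    have hlt : ∀ v : Fin κ → Bool, num (List.ofFn v) < p := by
      intro v
      have := tb_num_lt (List.ofFn v)
      rw [List.length_ofFn] at this
      omega
    have h2 := (ZMod.natCast_eq_natCast_iff' _ _ _).mp h
    rw [Nat.mod_eq_of_lt (hlt v), Nat.mod_eq_of_lt (hlt v')] at h2
    exact List.ofFn_injective (tb_num_inj _ _ (by simp) h2)
  rw [← Finset.card_image_of_injOn hinj]
  refine le_trans (Finset.card_le_card (t := P.roots.toFinset) ?_)
    ((Multiset.toFinset_card_le _).trans ((card_roots' P).trans hn))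
  intro y hy
  rw [Finset.mem_image] at hy
  obtain ⟨v, hv, rfl⟩ := hy
  rw [Finset.mem_filter] at hv
  rw [Multiset.mem_toFinset, mem_roots hP]
  exact hv.2

/-- the symbol of the codeword of `x` -/
def sym (p : ℕ) (x : List Bool) {κ : ℕ} (v : Fin κ → Bool) : ℕ :=
  pev p (x.map Bool.toNat) (num (List.ofFn v))

theorem sym_lt {p : ℕ} (hp : 0 < p) (x : List Bool) {κ : ℕ} (v : Fin κ → Bool) :
    sym p x v < p := tb_pev_lt hp _ _

theorem sym_agree {p κ n : ℕ} [Fact p.Prime] (h1 : 2 ^ κ < p) {x x' : List Bool}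
    (hx : x.length = n) (hx' : x'.length = n) (hne : x ≠ x') :
    #{v : Fin κ → Bool | sym p x v = sym p x' v} ≤ n := by
  have key := tb_roots (κ := κ) (n := n) h1 (tbp p (x.map Bool.toNat) - tbp p (x'.map Bool.toNat))
    (fun h => hne (tbp_inj x x' (hx.trans hx'.symm) (sub_eq_zero.mp h)))
    ((natDegree_sub_le _ _).trans (max_le
      ((tbp_natDegree _ _).trans (by simp [hx])) ((tbp_natDegree _ _).trans (by simp [hx']))))
  refine le_trans (Finset.card_le_card ?_) key
  intro v hv
  rw [Finset.mem_filter] at hv ⊢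
  refine ⟨Finset.mem_univ _, ?_⟩
  rw [eval_sub, ← tbp_eval, ← tbp_eval]
  unfold sym at hv
  rw [hv.2, sub_self]

theorem sym_zero {p κ n : ℕ} [Fact p.Prime] (h1 : 2 ^ κ < p) {e : List Bool}
    (he : e.length = n) :
    #{v : Fin κ → Bool | sym p (true :: e) v = 0} ≤ n + 1 := by
  have key := tb_roots (κ := κ) (n := n + 1) h1 (tbp p ((true :: e).map Bool.toNat))
    (fun h => by
      have h0 := congrArg (fun P => coeff P 0) h
      simp only [List.map_cons, tbp, coeff_add, coeff_C_zero, coeff_X_mul_zero, add_zero] at h0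
      simp at h0)
    ((tbp_natDegree _ _).trans (by simp [he]))
  refine le_trans (Finset.card_le_card ?_) key
  intro v hv
  rw [Finset.mem_filter] at hv ⊢
  refine ⟨Finset.mem_univ _, ?_⟩
  rw [← tbp_eval]
  unfold sym at hv
  rw [hv.2]
  simp

theorem cbit_append {p κ : ℕ} (h1 : 2 ^ κ < p) (x : List Bool) (a : Fin κ → Bool)
    (b : Fin (κ + 1) → Bool) :
    tbs (cbit p κ x (List.ofFn a ++ List.ofFn b)) = chr κ (sym p x a) b := by
  unfold cbit chr sym
  have e1 : (List.ofFn a ++ List.ofFn b).take κ = List.ofFn a := by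
    rw [List.take_append_of_le_length (by simp), List.take_of_length_le (by simp)]
  have e2 : (List.ofFn a ++ List.ofFn b).drop κ = List.ofFn b := by
    rw [List.drop_append]
    simp
  rw [e1, e2, tb_numc_eq]
  have := tb_num_lt (List.ofFn a)
  rw [List.length_ofFn] at this
  rw [min_eq_right (by omega)]

theorem tb_agree_card {α : Type} [Fintype α] (F G : α → Bool) :
    ∑ v : α, tbs (F v) * tbs (G v) = 2 * (#{v : α | F v = G v} : ℤ) - Fintype.card α := by
  have e : ∀ v : α, tbs (F v) * tbs (G v) = 2 * (if F v = G v then 1 else 0) - 1 := by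
    intro v
    cases F v <;> cases G v <;> simp [tbs]
  rw [Finset.sum_congr rfl (fun v _ => e v), Finset.sum_sub_distrib, ← Finset.mul_sum,
    Finset.sum_boole]
  simp

/-- inner products of codewords -/
theorem cbit_inner {n p κ : ℕ} [Fact p.Prime] (h1 : 2 ^ κ < p) (h2 : p ≤ 2 ^ (κ + 1))
    {x x' : List Bool} (hx : x.length = n) (hx' : x'.length = n) (hne : x ≠ x') :
    ∑ v : Fin (2 * κ + 1) → Bool, tbs (cbit p κ x (List.ofFn v)) * tbs (cbit p κ x' (List.ofFn v))
      ≤ n * 2 ^ (κ + 1) := by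
  have hp : 0 < p := by omega
  rw [tb_sum_append (k := κ) (l := κ + 1) (by omega)
    (fun l => tbs (cbit p κ x l) * tbs (cbit p κ x' l))]
  simp only [cbit_append h1]
  have e : ∀ a : Fin κ → Bool, ∑ b : Fin (κ + 1) → Bool,
      chr κ (sym p x a) b * chr κ (sym p x' a) b
        = (if sym p x a = sym p x' a then 1 else 0) * 2 ^ (κ + 1) := by
    intro a
    rw [chr_sum_mul ((sym_lt hp x a).trans_le h2) ((sym_lt hp x' a).trans_le h2)]
    split_ifs <;> simp
  rw [Finset.sum_congr rfl (fun a _ => e a), ← Finset.sum_mul, Finset.sum_boole]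
  have := sym_agree (κ := κ) h1 hx hx' hne
  have h3 : ((#{v : Fin κ → Bool | sym p x v = sym p x' v} : ℕ) : ℤ) ≤ n := by exact_mod_cast this
  exact mul_le_mul_of_nonneg_right h3 (by positivity)

theorem cbit_list {n m p κ : ℕ} (hp : p.Prime) (h1 : 2 ^ κ < p) (h2 : p ≤ 2 ^ (κ + 1))
    (hm : 0 < m) (h3 : 64 * m ^ 2 * n ≤ 2 ^ κ)
    (g : (Fin (2 * κ + 1) → Bool) → Bool) (Q : Finset (List Bool))
    (hQ : ∀ x ∈ Q, x.length = n ∧ 2 ^ (2 * κ + 1) * (4 * m + 1) ≤
      8 * m * #{v : Fin (2 * κ + 1) → Bool | cbit p κ x (List.ofFn v) = g v}) :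
    #Q ≤ 32 * m ^ 2 := by
  have : Fact p.Prime := ⟨hp⟩
  have hcard : Fintype.card (Fin (2 * κ + 1) → Bool) = 2 ^ (2 * κ + 1) := by simp
  set M : ℤ := 2 ^ (2 * κ + 1) with hM
  have hM0 : 0 < M := by positivity
  set L : ℤ := (#Q : ℤ) with hL
  have hL0 : 0 ≤ L := by positivity
  set u : List Bool → (Fin (2 * κ + 1) → Bool) → ℤ :=
    fun x v => tbs (cbit p κ x (List.ofFn v)) with hu
  have hsq : ∀ b : Bool, tbs b * tbs b = 1 := by intro b; cases b <;> rfl
  -- correlation with `g`
  have hg : ∀ x ∈ Q, M ≤ 4 * m * ∑ v, u x v * tbs (g v) := by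
    intro x hx
    obtain ⟨-, h4⟩ := hQ x hx
    rw [tb_agree_card, hcard]
    have h5 : M * (4 * m + 1)
        ≤ 8 * m * (#{v : Fin (2 * κ + 1) → Bool | cbit p κ x (List.ofFn v) = g v} : ℤ) := by
      rw [hM]; exact_mod_cast h4
    push_cast
    rw [← hM]
    linarith
  -- sum over the list
  have hS : L * M ≤ 4 * m * ∑ v, (∑ x ∈ Q, u x v) * tbs (g v) := by
    have e : ∑ v, (∑ x ∈ Q, u x v) * tbs (g v) = ∑ x ∈ Q, ∑ v, u x v * tbs (g v) := by
      rw [Finset.sum_comm]
      simp only [Finset.sum_mul]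
    rw [e, Finset.mul_sum]
    calc L * M = ∑ x ∈ Q, M := by rw [Finset.sum_const, nsmul_eq_mul]
      _ ≤ _ := Finset.sum_le_sum hg
  have hCS := Finset.sum_mul_sq_le_sq_mul_sq Finset.univ (fun v => ∑ x ∈ Q, u x v)
    (fun v => tbs (g v))
  have e1 : ∑ v : Fin (2 * κ + 1) → Bool, tbs (g v) ^ 2 = M := by
    simp only [pow_two, hsq]
    simp [hM]
  rw [e1] at hCS
  -- the norm of the sum
  have hN : ∑ v, (∑ x ∈ Q, u x v) ^ 2 ≤ L * M + L * L * (n * 2 ^ (κ + 1)) := by
    have e : ∑ v, (∑ x ∈ Q, u x v) ^ 2 = ∑ x ∈ Q, ∑ y ∈ Q, ∑ v, u x v * u y v := by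
      simp only [pow_two, Finset.sum_mul_sum]
      rw [Finset.sum_comm]
      apply Finset.sum_congr rfl
      intro x _
      rw [Finset.sum_comm]
    rw [e]
    have hxy : ∀ x ∈ Q, ∀ y ∈ Q, ∑ v, u x v * u y v
        ≤ (if x = y then M else 0) + n * 2 ^ (κ + 1) := by
      intro x hx y hy
      by_cases h : x = y
      · subst h
        rw [if_pos rfl]
        simp only [hu, hsq]
        have : (0 : ℤ) ≤ n * 2 ^ (κ + 1) := by positivity
        simp only [Finset.sum_const, Finset.card_univ, hcard, nsmul_eq_mul]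
        push_cast
        rw [hM]
        linarith
      · rw [if_neg h, zero_add]
        exact cbit_inner h1 h2 (hQ x hx).1 (hQ y hy).1 h
    calc _ ≤ ∑ x ∈ Q, ∑ y ∈ Q, ((if x = y then M else 0) + n * 2 ^ (κ + 1)) :=
          Finset.sum_le_sum fun x hx => Finset.sum_le_sum fun y hy => hxy x hx y hy
      _ = L * M + L * L * (n * 2 ^ (κ + 1)) := by
          simp only [Finset.sum_add_distrib, Finset.sum_ite_eq, Finset.sum_const, nsmul_eq_mul]
          rw [Finset.sum_congr rfl (fun x hx => if_pos hx)]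
          simp only [Finset.sum_const, nsmul_eq_mul]
          ring
  have h6 : 64 * (m : ℤ) ^ 2 * (n * 2 ^ (κ + 1)) ≤ M := by
    have h7 : (64 * m ^ 2 * n) * 2 ^ (κ + 1) ≤ 2 ^ κ * 2 ^ (κ + 1) := Nat.mul_le_mul_right _ h3
    have e : (2 : ℕ) ^ κ * 2 ^ (κ + 1) = 2 ^ (2 * κ + 1) := by rw [← pow_add]; congr 1; omega
    rw [e] at h7
    rw [hM]
    have h8 : ((64 * m ^ 2 * n * 2 ^ (κ + 1) : ℕ) : ℤ) ≤ ((2 ^ (2 * κ + 1) : ℕ) : ℤ) := by
      exact_mod_cast h7
    push_cast at h8
    linarith
  set T : ℤ := ∑ v, (∑ x ∈ Q, u x v) * tbs (g v) with hT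
  set N : ℤ := ∑ v, (∑ x ∈ Q, u x v) ^ 2 with hNN
  have hm' : (0 : ℤ) < m := by exact_mod_cast hm
  by_contra hcon
  push Not at hcon
  have hcon' : 32 * (m : ℤ) ^ 2 + 1 ≤ L := by rw [hL]; exact_mod_cast hcon
  have hLM : 0 ≤ L * M := by positivity
  have k1 : (L * M) ^ 2 ≤ (4 * m * T) ^ 2 := by gcongr
  have k2 : (L * M) ^ 2 ≤ 16 * m ^ 2 * (N * M) := by
    calc (L * M) ^ 2 ≤ (4 * m * T) ^ 2 := k1
      _ = 16 * m ^ 2 * T ^ 2 := by ring
      _ ≤ 16 * m ^ 2 * (N * M) := by gcongr
  have k3 : (L * M) ^ 2 ≤ 16 * m ^ 2 * ((L * M + L * L * (n * 2 ^ (κ + 1))) * M) :=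
    k2.trans (by gcongr)
  have k4 : 4 * (L * M) ^ 2 ≤ 64 * m ^ 2 * L * M ^ 2 + L ^ 2 * M * M := by
    have : 64 * (m : ℤ) ^ 2 * (n * 2 ^ (κ + 1)) * (L * L * M) ≤ M * (L * L * M) := by gcongr
    nlinarith
  have k5 : 3 * L * (L * M ^ 2) ≤ 64 * m ^ 2 * (L * M ^ 2) := by nlinarith
  have k6 : 0 < L * M ^ 2 := by
    have : 0 < L := by nlinarith
    positivity
  have k7 : 3 * L ≤ 64 * m ^ 2 := le_of_mul_le_mul_right k5 k6
  nlinarith

theorem tb_true_card {α : Type} [Fintype α] (F : α → Bool) :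
    2 * (#{v : α | F v = true} : ℤ) = ∑ v : α, (1 - tbs (F v)) := by
  have e : ∀ v : α, 1 - tbs (F v) = 2 * (if F v = true then 1 else 0) := by
    intro v
    cases F v <;> simp [tbs]
  rw [Finset.sum_congr rfl (fun v _ => e v), ← Finset.mul_sum, Finset.sum_boole]

theorem tb_true_false_card {α : Type} [Fintype α] (F G : α → Bool) :
    4 * (#{v : α | F v = true ∧ G v = false} : ℤ)
      = ∑ v : α, (1 - tbs (F v)) * (1 + tbs (G v)) := by
  have e : ∀ v : α, (1 - tbs (F v)) * (1 + tbs (G v))
      = 4 * (if F v = true ∧ G v = false then 1 else 0) := by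
    intro v
    cases F v <;> cases G v <;> simp [tbs]
  rw [Finset.sum_congr rfl (fun v _ => e v), ← Finset.mul_sum, Finset.sum_boole]

theorem name_code {N p κ : ℕ} (hp : p.Prime) (h1 : 2 ^ κ < p) (h2 : p ≤ 2 ^ (κ + 1))
    (h3 : 4 * (N + 1) ≤ 2 ^ κ) {e e' : List Bool} (he : e.length = N) (he' : e'.length = N)
    (hne : e ≠ e') :
    2 ^ (2 * κ + 1) ≤ 8 * #{v : Fin (2 * κ + 1) → Bool |
      cbit p κ (true :: e) (List.ofFn v) = true ∧ cbit p κ (true :: e') (List.ofFn v) = false} ∧
    3 * 2 ^ (2 * κ + 1) ≤ 8 * #{v : Fin (2 * κ + 1) → Bool |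
      cbit p κ (true :: e) (List.ofFn v) = true} ∧
    2 * #{v : Fin (2 * κ + 1) → Bool | cbit p κ (true :: e) (List.ofFn v) = true} ≤
      2 ^ (2 * κ + 1) := by
  have : Fact p.Prime := ⟨hp⟩
  have hp0 : 0 < p := hp.pos
  have hM : (2 : ℤ) ^ (2 * κ + 1) = 2 ^ κ * 2 ^ (κ + 1) := by rw [← pow_add]; congr 1; omega
  have hlt : ∀ (x : List Bool) (a : Fin κ → Bool), sym p x a < 2 ^ (κ + 1) :=
    fun x a => (sym_lt hp0 x a).trans_le h2
  have hagree := sym_agree (κ := κ) (n := N + 1) h1 (x := true :: e) (x' := true :: e')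
    (by simp [he]) (by simp [he']) (by simpa using hne)
  have hzero := sym_zero (κ := κ) (n := N) h1 he
  have hcard : (Finset.univ : Finset (Fin κ → Bool)).card = 2 ^ κ := by simp
  have hA : (#{v : Fin κ → Bool | sym p (true :: e) v = sym p (true :: e') v} : ℤ) ≤ N + 1 := by
    exact_mod_cast hagree
  have hZ : (#{v : Fin κ → Bool | sym p (true :: e) v = 0} : ℤ) ≤ N + 1 := by
    exact_mod_cast hzero
  have hK : 4 * ((N : ℤ) + 1) ≤ 2 ^ κ := by exact_mod_cast h3
  have hpow : (0 : ℤ) < 2 ^ (κ + 1) := by positivity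
  -- the first count
  have f1 : (2 ^ κ - 2 * ((N : ℤ) + 1)) * 2 ^ (κ + 1) ≤ 4 * (#{v : Fin (2 * κ + 1) → Bool |
      cbit p κ (true :: e) (List.ofFn v) = true ∧
        cbit p κ (true :: e') (List.ofFn v) = false} : ℤ) := by
    rw [tb_true_false_card, tb_sum_append (k := κ) (l := κ + 1) (by omega)
      (fun l => (1 - tbs (cbit p κ (true :: e) l)) * (1 + tbs (cbit p κ (true :: e') l)))]
    simp only [cbit_append h1]
    have E : ∀ a : Fin κ → Bool,
        (1 - (if sym p (true :: e) a = 0 then 1 else 0)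
          - (if sym p (true :: e) a = sym p (true :: e') a then 1 else 0)) * 2 ^ (κ + 1)
        ≤ ∑ b : Fin (κ + 1) → Bool, (1 - chr κ (sym p (true :: e) a) b) *
          (1 + chr κ (sym p (true :: e') a) b) := by
      intro a
      have e1 : ∀ b : Fin (κ + 1) → Bool, (1 - chr κ (sym p (true :: e) a) b) *
          (1 + chr κ (sym p (true :: e') a) b) = 1 - chr κ (sym p (true :: e) a) b
          + chr κ (sym p (true :: e') a) b
          - chr κ (sym p (true :: e) a) b * chr κ (sym p (true :: e') a) b := by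
        intro b; ring
      rw [Finset.sum_congr rfl (fun b _ => e1 b), Finset.sum_sub_distrib, Finset.sum_add_distrib,
        Finset.sum_sub_distrib, chr_sum (hlt _ a), chr_sum (hlt _ a), chr_sum_mul (hlt _ a) (hlt _ a)]
      have e2 : ∑ _b : Fin (κ + 1) → Bool, (1 : ℤ) = 2 ^ (κ + 1) := by simp
      rw [e2]
      split_ifs <;> linarith
    refine le_trans ?_ (Finset.sum_le_sum fun a _ => E a)
    rw [← Finset.sum_mul, Finset.sum_sub_distrib, Finset.sum_sub_distrib, Finset.sum_boole,
      Finset.sum_boole, Finset.sum_const, hcard]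
    apply mul_le_mul_of_nonneg_right _ hpow.le
    simp only [nsmul_eq_mul, mul_one]
    push_cast
    linarith
  -- the second count
  have f2 : 2 * (#{v : Fin (2 * κ + 1) → Bool | cbit p κ (true :: e) (List.ofFn v) = true} : ℤ)
      = (2 ^ κ - (#{v : Fin κ → Bool | sym p (true :: e) v = 0} : ℤ)) * 2 ^ (κ + 1) := by
    rw [tb_true_card, tb_sum_append (k := κ) (l := κ + 1) (by omega)
      (fun l => 1 - tbs (cbit p κ (true :: e) l))]
    simp only [cbit_append h1]
    have E : ∀ a : Fin κ → Bool, ∑ b : Fin (κ + 1) → Bool, (1 - chr κ (sym p (true :: e) a) b)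
        = (1 - (if sym p (true :: e) a = 0 then 1 else 0)) * 2 ^ (κ + 1) := by
      intro a
      rw [Finset.sum_sub_distrib, chr_sum (hlt _ a)]
      have e2 : ∑ _b : Fin (κ + 1) → Bool, (1 : ℤ) = 2 ^ (κ + 1) := by simp
      rw [e2]
      split_ifs <;> ring
    rw [Finset.sum_congr rfl (fun a _ => E a), ← Finset.sum_mul, Finset.sum_sub_distrib,
      Finset.sum_boole, Finset.sum_const, hcard]
    simp
  have hZ0 : (0 : ℤ) ≤ (#{v : Fin κ → Bool | sym p (true :: e) v = 0} : ℤ) := by positivity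
  refine ⟨?_, ?_, ?_⟩
  · zify
    rw [hM]
    nlinarith
  · zify
    rw [hM]
    nlinarith
  · zify
    rw [hM, f2]
    nlinarith

end Pool.Agent.LibPtt90
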