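import Pool.Agent.LibPtt90.Defs

/-!
Task C: the block design. `design_bound` and `blk_length`.
-/

open Finset Function Polynomial

namespace Pool.Agent.LibPtt90

namespace TaskC

/-- the polynomial of the digits of `v` -/
noncomputable def dpoly (w t v : ℕ) : (ZMod w)[X] :=
  ∑ i ∈ range t, C ((v / w ^ i : ℕ) : ZMod w) * X ^ i

theorem dpoly_zero (w v : ℕ) : dpoly w 0 v = 0 := by simp [dpoly]

theorem dpoly_succ (w t v : ℕ) :
    dpoly w (t + 1) v = C ((v : ℕ) : ZMod w) + X * dpoly w t (v / w) := by
  unfold dpoly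
  rw [Finset.sum_range_succ', Finset.mul_sum, add_comm]
  congr 1
  · simp
  · refine Finset.sum_congr rfl fun i _ => ?_
    rw [Nat.div_div_eq_div_mul, pow_succ', pow_succ']
    ring

theorem pev_cast (w t v a : ℕ) :
    ((pev w (digs w t v) a : ℕ) : ZMod w) = (dpoly w t v).eval (a : ZMod w) := by
  induction t generalizing v with
  | zero => simp [digs, pev, dpoly_zero]
  | succ t ih =>
    rw [digs, pev, dpoly_succ, ZMod.natCast_mod]
    push_cast
    rw [ih, ZMod.natCast_mod]
    simp

theorem dpoly_coeff (w t v i : ℕ) :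
    (dpoly w t v).coeff i = if i < t then ((v / w ^ i : ℕ) : ZMod w) else 0 := by
  unfold dpoly
  rw [Polynomial.finsetSum_coeff]
  simp only [Polynomial.coeff_C_mul, Polynomial.coeff_X_pow, mul_ite, mul_one, mul_zero]
  rw [Finset.sum_ite_eq]
  simp

theorem digits_inj {w : ℕ} (hw : 0 < w) : ∀ {t v v' : ℕ}, v < w ^ t → v' < w ^ t →
    (∀ i < t, ((v / w ^ i : ℕ) : ZMod w) = ((v' / w ^ i : ℕ) : ZMod w)) → v = v'
  | 0, v, v', h, h', _ => by
    simp at h h'
    omega
  | t + 1, v, v', h, h', he => by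
    have h0 := he 0 (Nat.succ_pos _)
    simp only [pow_zero, Nat.div_one] at h0
    rw [ZMod.natCast_eq_natCast_iff'] at h0
    have h1 : v / w = v' / w := by
      refine digits_inj hw (t := t) ?_ ?_ fun i hi => ?_
      · rw [Nat.div_lt_iff_lt_mul hw]
        rwa [pow_succ] at h
      · rw [Nat.div_lt_iff_lt_mul hw]
        rwa [pow_succ] at h'
      · have := he (i + 1) (Nat.succ_lt_succ hi)
        rwa [Nat.div_div_eq_div_mul, Nat.div_div_eq_div_mul, ← pow_succ']
    rw [← Nat.div_add_mod v w, ← Nat.div_add_mod v' w, h0, h1]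

theorem agree_eq {w l t s v v' : ℕ} (hw : w.Prime) (hl : l ≤ w) (_ : s ≤ t)
    (hv : v < w ^ t) (hv' : v' < w ^ t) (hd : v / w ^ s = v' / w ^ s) (S : Finset ℕ)
    (hS : S ⊆ range l) (hc : s ≤ #S)
    (ha : ∀ a ∈ S, pev w (digs w t v) a = pev w (digs w t v') a) : v = v' := by
  have : Fact w.Prime := ⟨hw⟩
  have hz : dpoly w t v - dpoly w t v' = 0 := by
    refine Polynomial.eq_zero_of_degree_lt_of_eval_finset_eq_zero
      (S.image fun a => ((a : ℕ) : ZMod w)) ?_ ?_
    · rw [Finset.card_image_of_injOn]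
      · refine lt_of_lt_of_le ?_ (Nat.cast_le.mpr hc)
        rw [Polynomial.degree_lt_iff_coeff_zero]
        intro i hi
        rw [Polynomial.coeff_sub, dpoly_coeff, dpoly_coeff]
        have : v / w ^ i = v' / w ^ i := by
          obtain ⟨d, rfl⟩ := Nat.exists_eq_add_of_le hi
          rw [pow_add, ← Nat.div_div_eq_div_mul, ← Nat.div_div_eq_div_mul, hd]
        rw [this, sub_self]
      · intro a ha' b hb' hab
        have ha2 := Finset.mem_range.mp (hS ha')
        have hb2 := Finset.mem_range.mp (hS hb')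
        simp only [ZMod.natCast_eq_natCast_iff'] at hab
        rwa [Nat.mod_eq_of_lt (by omega), Nat.mod_eq_of_lt (by omega)] at hab
    · intro x hx
      obtain ⟨a, ha', rfl⟩ := Finset.mem_image.mp hx
      rw [Polynomial.eval_sub, ← pev_cast, ← pev_cast, ha a ha', sub_self]
  refine digits_inj hw.pos hv hv' fun i hi => ?_
  have := congrArg (fun p => Polynomial.coeff p i) hz
  simp only [Polynomial.coeff_sub, dpoly_coeff, hi, if_true, Polynomial.coeff_zero] at this
  exact sub_eq_zero.mp this

/-- the number of polynomials different from a given one which agree with it on `S` -/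
theorem card_agree {w l t v : ℕ} (hw : w.Prime) (hl : l ≤ w) (hv : v < w ^ t) (S : Finset ℕ)
    (hS : S ⊆ range l) :
    #{v' ∈ (range (w ^ t)).erase v | ∀ a ∈ S,
      pev w (digs w t v') a = pev w (digs w t v) a} ≤ if #S < t then w ^ (t - #S) else 0 := by
  split_ifs with h
  · have : w ^ (t - #S) = #(range (w ^ (t - #S))) := by simp
    rw [this]
    refine Finset.card_le_card_of_injOn (fun v' => v' / w ^ #S) ?_ ?_
    · intro v' hv'
      simp only [coe_filter, Set.mem_ofPred_eq, mem_erase, mem_range] at hv'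
      simp only [coe_range, Set.mem_Iio]
      rw [Nat.div_lt_iff_lt_mul (pow_pos hw.pos _), ← pow_add, Nat.sub_add_cancel h.le]
      exact hv'.1.2
    · intro a ha b hb hab
      simp only [coe_filter, Set.mem_ofPred_eq, mem_erase, mem_range] at ha hb
      exact agree_eq hw hl h.le ha.1.2 hb.1.2 hab S hS le_rfl fun x hx =>
        (ha.2 x hx).trans (hb.2 x hx).symm
  · rw [Nat.le_zero, Finset.card_eq_zero, Finset.filter_eq_empty_iff]
    intro v' hv' hh
    simp only [mem_erase, mem_range] at hv'
    refine hv'.1 (agree_eq hw hl le_rfl hv'.2 hv ?_ S hS (not_lt.mp h) hh)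
    rw [Nat.div_eq_of_lt hv'.2, Nat.div_eq_of_lt hv]

theorem sum_binom {w l t : ℕ} (hl : 2 * l ≤ w) :
    ∑ s ∈ range (l + 1), l.choose s * (if s < t then w ^ (t - s) else 0) ≤ 2 * w ^ t := by
  have h1 : ∀ s ∈ range (l + 1), ((l.choose s * (if s < t then w ^ (t - s) else 0) : ℕ) : ℝ) ≤
      (1 / 2) ^ s * (w ^ t : ℝ) := by
    intro s _
    split_ifs with h
    · have h2 : l.choose s * w ^ (t - s) * 2 ^ s ≤ w ^ t := by
        calc l.choose s * w ^ (t - s) * 2 ^ s ≤ l ^ s * w ^ (t - s) * 2 ^ s := by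
              gcongr
              exact Nat.choose_le_pow l s
          _ = (2 * l) ^ s * w ^ (t - s) := by rw [mul_pow]; ring
          _ ≤ w ^ s * w ^ (t - s) := by gcongr
          _ = w ^ t := by rw [← pow_add, Nat.add_sub_cancel' h.le]
      have h3 : ((l.choose s * w ^ (t - s) : ℕ) : ℝ) * 2 ^ s ≤ (w : ℝ) ^ t := by
        exact_mod_cast h2
      rw [one_div, inv_pow]
      rw [inv_mul_eq_div, le_div_iff₀ (by positivity)]
      exact h3
    · simp
  have h2 : ((∑ s ∈ range (l + 1), l.choose s * (if s < t then w ^ (t - s) else 0) : ℕ) : ℝ) ≤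
      2 * (w : ℝ) ^ t := by
    rw [Nat.cast_sum]
    refine (Finset.sum_le_sum h1).trans ?_
    rw [← Finset.sum_mul]
    gcongr
    exact sum_geometric_two_le _
  exact_mod_cast h2

theorem sum_agree {w l t v : ℕ} (hw : w.Prime) (hl : 2 * l ≤ w) (hv : v < w ^ t) :
    ∑ v' ∈ (range (w ^ t)).erase v, 2 ^ #{a ∈ range l |
      pev w (digs w t v') a = pev w (digs w t v) a} ≤ 2 * w ^ t := by
  have h1 : ∀ v' ∈ (range (w ^ t)).erase v, 2 ^ #{a ∈ range l |
      pev w (digs w t v') a = pev w (digs w t v) a} =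
      #{S ∈ (range l).powerset | ∀ a ∈ S, pev w (digs w t v') a = pev w (digs w t v) a} := by
    intro v' _
    rw [← Finset.card_powerset]
    congr 1
    ext S
    simp only [mem_powerset, mem_filter, subset_iff]
    constructor
    · exact fun h => ⟨fun a ha => (h ha).1, fun a ha => (h ha).2⟩
    · exact fun h a ha => ⟨h.1 ha, h.2 a ha⟩
  rw [Finset.sum_congr rfl h1]
  have h2 := Finset.sum_card_bipartiteAbove_eq_sum_card_bipartiteBelow
    (s := (range (w ^ t)).erase v) (t := (range l).powerset)
    (fun v' S => ∀ a ∈ S, pev w (digs w t v') a = pev w (digs w t v) a)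
  unfold bipartiteAbove bipartiteBelow at h2
  rw [h2]
  calc ∑ S ∈ (range l).powerset, #{v' ∈ (range (w ^ t)).erase v |
          ∀ a ∈ S, pev w (digs w t v') a = pev w (digs w t v) a}
      ≤ ∑ S ∈ (range l).powerset, (if #S < t then w ^ (t - #S) else 0) :=
        Finset.sum_le_sum fun S hS =>
          card_agree hw (by omega) hv S (mem_powerset.mp hS)
    _ = ∑ s ∈ range (l + 1), l.choose s * (if s < t then w ^ (t - s) else 0) := by
        rw [Finset.sum_powerset_apply_card (fun s => if s < t then w ^ (t - s) else 0)]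
        simp
    _ ≤ 2 * w ^ t := sum_binom hl

/-! ### the list of exponents -/

/-- every entry is bounded by `c` plus the sum over the later entries -/
def Good (w c : ℕ) : List ℕ → Prop
  | [] => True
  | t :: bs => w ^ t ≤ (bs.map fun s => w ^ s).sum + c ∧ Good w c bs

theorem Good.append {w c : ℕ} : ∀ {l₁ l₂ : List ℕ},
    Good w ((l₂.map fun s => w ^ s).sum + c) l₁ → Good w c l₂ → Good w c (l₁ ++ l₂)
  | [], _, _, h => h
  | t :: l₁, l₂, h, h' => by
    refine ⟨?_, Good.append h.2 h'⟩
    have := h.1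
    change w ^ t ≤ ((l₁ ++ l₂).map fun s => w ^ s).sum + c
    rw [List.map_append, List.sum_append]
    omega

theorem Good.mono {w c c' : ℕ} (hc : c ≤ c') : ∀ {l : List ℕ}, Good w c l → Good w c' l
  | [], _ => trivial
  | _ :: _, h => ⟨h.1.trans (by omega), Good.mono hc h.2⟩

theorem good_replicate (w t : ℕ) : ∀ k, Good w (w ^ t) (List.replicate k t)
  | 0 => trivial
  | k + 1 => ⟨Nat.le_add_left _ _, good_replicate w t k⟩

theorem good_blk (w : ℕ) : ∀ f k t, Good w (w ^ t) (blk w f k t)
  | 0, k, t => good_replicate w t k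
  | f + 1, k, t => by
    rw [blk]
    split_ifs with h
    · exact good_replicate w t k
    · refine Good.append (Good.mono ?_ (good_blk w f (k / w - 1) (t + 1))) (good_replicate w t _)
      rw [List.map_replicate, List.sum_replicate, smul_eq_mul, pow_succ, mul_comm (w ^ t) w]
      nlinarith [Nat.zero_le ((k % w) * w ^ t), Nat.zero_le (w ^ t)]

theorem sum_blk {w : ℕ} (hw : 0 < w) : ∀ f k t,
    ((blk w f k t).map fun s => w ^ s).sum = k * w ^ t
  | 0, k, t => by simp [blk]
  | f + 1, k, t => by
    rw [blk]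
    split_ifs with h
    · simp
    · rw [List.map_append, List.sum_append, sum_blk hw f, List.map_replicate, List.sum_replicate,
        smul_eq_mul, pow_succ]
      have h1 : 1 ≤ k / w := by
        rw [Nat.one_le_div_iff hw]
        omega
      obtain ⟨q, hq⟩ := Nat.exists_eq_add_of_le h1
      have h2 := Nat.div_add_mod k w
      rw [hq] at h2 ⊢
      have h3 : k = w * (1 + q) + k % w := h2.symm
      calc (1 + q - 1) * (w ^ t * w) + (w + k % w) * w ^ t
          = (w * (1 + q) + k % w) * w ^ t := by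
            rw [Nat.add_sub_cancel_left]
            ring
        _ = k * w ^ t := by rw [← h3]

/-! ### the list of sets -/

/-- one block of sets -/
def bk (B w : ℕ) (q : ℕ × ℕ) : List (ℕ × List ℕ) :=
  (List.range (min B (w ^ q.1))).map fun v => (q.2, digs w q.1 v)

/-- the sets, starting with the block number `m` -/
def dixm (B w : ℕ) (bs : List ℕ) (m : ℕ) : List (ℕ × List ℕ) :=
  (bs.zipIdx m).flatMap (bk B w)

theorem dixm_nil (B w m : ℕ) : dixm B w [] m = [] := rfl

theorem dixm_cons (B w t : ℕ) (bs : List ℕ) (m : ℕ) :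
    dixm B w (t :: bs) m = bk B w (t, m) ++ dixm B w bs (m + 1) := rfl

theorem dix_eq (B w : ℕ) (bs : List ℕ) : dix B w bs = dixm B w bs 0 := rfl

theorem length_bk {B w t m : ℕ} (h : w ^ t ≤ B) : (bk B w (t, m)).length = w ^ t := by
  simp [bk, h]

theorem length_dixm {B w : ℕ} : ∀ {bs : List ℕ} (m : ℕ), (bs.map fun s => w ^ s).sum ≤ B →
    (dixm B w bs m).length = (bs.map fun s => w ^ s).sum
  | [], _, _ => rfl
  | t :: bs, m, h => by
    simp only [List.map_cons, List.sum_cons] at h ⊢
    rw [dixm_cons, List.length_append, length_bk (by omega), length_dixm (m + 1) (by omega)]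

theorem mem_dixm {B w : ℕ} : ∀ {bs : List ℕ} {m : ℕ} {i : ℕ × List ℕ}, i ∈ dixm B w bs m →
    m ≤ i.1 ∧ i.1 < m + bs.length
  | [], _, _, h => by simp [dixm_nil] at h
  | t :: bs, m, i, h => by
    rw [dixm_cons, List.mem_append] at h
    rcases h with h | h
    · simp only [bk, List.mem_map] at h
      obtain ⟨v, _, rfl⟩ := h
      simp
    · have := mem_dixm h
      simp only [List.length_cons]
      omega

theorem pev_lt {w : ℕ} (hw : 0 < w) : ∀ (l : List ℕ) (z : ℕ), pev w l z < w
  | [], _ => hw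
  | _ :: _, _ => Nat.mod_lt _ hw

theorem dpos_div {l w a : ℕ} (hw : 0 < w) (i : ℕ × List ℕ) (ha : a < l) :
    dpos l w i a / (l * w) = i.1 ∧ dpos l w i a % (l * w) = a * w + pev w i.2 a := by
  have h1 := pev_lt hw i.2 a
  have h2 : a * w + pev w i.2 a < l * w := by nlinarith
  have h3 : dpos l w i a = (a * w + pev w i.2 a) + (l * w) * i.1 := by
    unfold dpos
    ring
  have h4 : 0 < l * w := by omega
  rw [h3, Nat.add_mul_div_left _ _ h4, Nat.div_eq_of_lt h2, Nat.add_mul_mod_self_left,
    Nat.mod_eq_of_lt h2]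
  exact ⟨zero_add _, rfl⟩

theorem dpos_inj {l w a b : ℕ} (hw : 0 < w) {i j : ℕ × List ℕ} (ha : a < l) (hb : b < l)
    (h : dpos l w i a = dpos l w j b) : i.1 = j.1 ∧ a = b ∧ pev w i.2 a = pev w j.2 b := by
  have h1 := dpos_div hw i ha
  have h2 := dpos_div hw j hb
  rw [h] at h1
  have h3 : a * w + pev w i.2 a = b * w + pev w j.2 b := h1.2.symm.trans h2.2
  have h4 := pev_lt hw i.2 a
  have h5 := pev_lt hw j.2 b
  have h6 : a = b := by
    have e1 : (a * w + pev w i.2 a) / w = a := by
      rw [add_comm, Nat.add_mul_div_right _ _ hw, Nat.div_eq_of_lt h4, zero_add]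
    have e2 : (b * w + pev w j.2 b) / w = b := by
      rw [add_comm, Nat.add_mul_div_right _ _ hw, Nat.div_eq_of_lt h5, zero_add]
    rw [← e1, ← e2, h3]
  refine ⟨h1.1.symm.trans h2.1, h6, ?_⟩
  subst h6
  omega

/-- the number of common elements -/
noncomputable def cmn (l w : ℕ) (i j : ℕ × List ℕ) : ℕ :=
  #{a ∈ range l | ∃ b < l, dpos l w i b = dpos l w j a}

theorem cmn_of_ne {l w : ℕ} (hw : 0 < w) {i j : ℕ × List ℕ} (h : i.1 ≠ j.1) :
    cmn l w i j = 0 := by
  unfold cmn
  rw [Finset.card_eq_zero, Finset.filter_eq_empty_iff]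
  rintro a ha ⟨b, hb, he⟩
  exact h (dpos_inj hw hb (mem_range.mp ha) he).1

theorem cmn_block {l w : ℕ} (hw : 0 < w) (m : ℕ) (p q : List ℕ) :
    cmn l w (m, p) (m, q) ≤ #{a ∈ range l | pev w p a = pev w q a} := by
  unfold cmn
  refine Finset.card_le_card fun a ha => ?_
  rw [mem_filter] at ha ⊢
  obtain ⟨ha, b, hb, he⟩ := ha
  have := dpos_inj hw hb (mem_range.mp ha) he
  refine ⟨ha, ?_⟩
  obtain ⟨_, h2, h3⟩ := this
  rw [h2] at h3
  exact h3

theorem getD_bk {B w t m j : ℕ} (h : w ^ t ≤ B) (hj : j < w ^ t) (L : List (ℕ × List ℕ)) :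
    (bk B w (t, m) ++ L).getD j (0, []) = (m, digs w t j) := by
  rw [List.getD_append _ _ _ _ (by rwa [length_bk h])]
  have hj' : j < (bk B w (t, m)).length := by rwa [length_bk h]
  rw [List.getD_eq_getElem _ _ hj']
  simp [bk]

theorem getD_bk_right {B w t m j : ℕ} (h : w ^ t ≤ B) (L : List (ℕ × List ℕ)) :
    (bk B w (t, m) ++ L).getD (w ^ t + j) (0, []) = L.getD j (0, []) := by
  rw [List.getD_append_right _ _ _ _ (by rw [length_bk h]; omega), length_bk h,
    Nat.add_sub_cancel_left]

theorem main {B w l c : ℕ} (hw : w.Prime) (hl : 2 * l ≤ w) : ∀ {bs : List ℕ} (m : ℕ),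
    Good w c bs → (bs.map fun s => w ^ s).sum ≤ B → ∀ n < (bs.map fun s => w ^ s).sum,
    ∑ j ∈ range n, 2 ^ cmn l w ((dixm B w bs m).getD j (0, [])) ((dixm B w bs m).getD n (0, [])) ≤
      (bs.map fun s => w ^ s).sum + c
  | [], _, _, _, n, hn => by simp at hn
  | t :: bs, m, hg, hB, n, hn => by
    simp only [List.map_cons, List.sum_cons] at hB hn ⊢
    have hwp := hw.pos
    have htB : w ^ t ≤ B := by omega
    rw [dixm_cons]
    by_cases h : n < w ^ t
    · have h1 : ∑ j ∈ range n, 2 ^ cmn l w ((bk B w (t, m) ++ dixm B w bs (m + 1)).getD j (0, []))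
          ((bk B w (t, m) ++ dixm B w bs (m + 1)).getD n (0, [])) ≤
          ∑ v' ∈ (range (w ^ t)).erase n, 2 ^ #{a ∈ range l |
            pev w (digs w t v') a = pev w (digs w t n) a} := by
        refine (Finset.sum_le_sum fun j hj => ?_).trans
          (Finset.sum_le_sum_of_subset (f := fun v' => 2 ^ #{a ∈ range l |
            pev w (digs w t v') a = pev w (digs w t n) a}) (s := range n) ?_)
        · rw [mem_range] at hj
          rw [getD_bk htB (by omega), getD_bk htB h]
          exact Nat.pow_le_pow_right (by norm_num) (cmn_block hwp m _ _)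
        · intro j hj
          rw [mem_range] at hj
          rw [mem_erase, mem_range]
          omega
      have h2 := sum_agree hw hl h
      have h3 := hg.1
      omega
    · obtain ⟨n', rfl⟩ := Nat.exists_eq_add_of_le (not_lt.mp h)
      have hn' : n' < (bs.map fun s => w ^ s).sum := by omega
      have hB' : (bs.map fun s => w ^ s).sum ≤ B := by omega
      have ih := main hw hl (m + 1) hg.2 hB' n' hn'
      rw [Finset.sum_range_add, getD_bk_right htB]
      have h1 : ∑ j ∈ range (w ^ t), 2 ^ cmn l w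
          ((bk B w (t, m) ++ dixm B w bs (m + 1)).getD j (0, []))
          ((dixm B w bs (m + 1)).getD n' (0, [])) = w ^ t := by
        rw [Finset.sum_congr rfl (g := fun _ => 1)]
        · simp
        · intro j hj
          rw [mem_range] at hj
          rw [getD_bk htB hj, cmn_of_ne hwp, pow_zero]
          have hlen : n' < (dixm B w bs (m + 1)).length := by rwa [length_dixm _ hB']
          rw [List.getD_eq_getElem _ _ hlen]
          have := (mem_dixm (List.getElem_mem hlen)).1
          simp only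
          omega
      rw [h1]
      have h2 : ∑ x ∈ range n', 2 ^ cmn l w
          ((bk B w (t, m) ++ dixm B w bs (m + 1)).getD (w ^ t + x) (0, []))
          ((dixm B w bs (m + 1)).getD n' (0, [])) =
          ∑ j ∈ range n', 2 ^ cmn l w ((dixm B w bs (m + 1)).getD j (0, []))
            ((dixm B w bs (m + 1)).getD n' (0, [])) :=
        Finset.sum_congr rfl fun j _ => by rw [getD_bk_right htB]
      rw [h2]
      omega

end TaskC

open TaskC in
theorem design_bound {B w l f k : ℕ} (hw : w.Prime) (hl : 2 * l ≤ w) (hB : w * k ≤ B) :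
    (dix B w (blk w f k 1)).length = w * k ∧
    (∀ i ∈ dix B w (blk w f k 1), ∀ a < l,
      dpos l w i a < (blk w f k 1).length * (l * w)) ∧
    (∀ i ∈ dix B w (blk w f k 1), ∀ a < l, ∀ b < l, dpos l w i a = dpos l w i b → a = b) ∧
    ∀ n < w * k, ∑ j ∈ range n, 2 ^ #{a ∈ range l | ∃ b < l,
      dpos l w ((dix B w (blk w f k 1)).getD j (0, [])) b =
        dpos l w ((dix B w (blk w f k 1)).getD n (0, [])) a} ≤ w * k + w := by
  have hs : ((blk w f k 1).map fun s => w ^ s).sum = w * k := by
    rw [sum_blk hw.pos, pow_one, mul_comm]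
  refine ⟨?_, ?_, ?_, ?_⟩
  · rw [dix_eq, length_dixm 0 (by rw [hs]; exact hB), hs]
  · intro i hi a ha
    rw [dix_eq] at hi
    have h1 := (mem_dixm hi).2
    have h2 := (dpos_div hw.pos i ha).1
    have h3 : 0 < l * w := Nat.mul_pos (by omega) hw.pos
    rw [zero_add] at h1
    rw [← Nat.div_lt_iff_lt_mul h3, h2]
    exact h1
  · intro i _ a ha b hb h
    exact (dpos_inj hw.pos ha hb h).2.1
  · intro n hn
    have hg := good_blk w f k 1
    rw [pow_one] at hg
    have := main (B := B) hw hl 0 hg (by rw [hs]; exact hB) n (by rw [hs]; exact hn)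
    rw [hs] at this
    exact this

theorem blk_length {w f k t : ℕ} (hw : 2 ≤ w) (hk : k ≤ 2 ^ f) :
    (blk w f k t).length ≤ 2 * w * (f + 1) := by
  induction f generalizing k t with
  | zero =>
    rw [blk, List.length_replicate]
    simp at hk
    omega
  | succ f ih =>
    rw [blk]
    split_ifs with h
    · rw [List.length_replicate]
      nlinarith
    · rw [List.length_append, List.length_replicate]
      have h1 : k / w - 1 ≤ 2 ^ f := by
        have : k / w ≤ k / 2 := Nat.div_le_div_left hw (by norm_num)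
        have : k / 2 ≤ 2 ^ f := by
          rw [pow_succ] at hk
          omega
        omega
      have h2 := ih (t := t + 1) h1
      have h3 : k % w < w := Nat.mod_lt _ (by omega)
      nlinarith

end Pool.Agent.LibPtt90
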