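import Pool.Agent.LibPtt90.TaskA
import Pool.Agent.LibPtt90.TaskB
import Pool.Agent.LibPtt90.TaskC
import Pool.Agent.LibPtt90.Params

/-!
The seeded function `trev`: for all but few inputs and any test set, the fraction of the seeds
whose output passes the test is not much larger than the density of the set.
-/

open Finset Function Polynomial

namespace Pool.Agent.LibPtt90

/-- all strings of length `n` -/
def strs (n : ℕ) : Finset (List Bool) := (univ : Finset (Fin n → Bool)).image List.ofFn

theorem mem_strs {n : ℕ} {x : List Bool} : x ∈ strs n ↔ x.length = n := by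
  unfold strs
  rw [mem_image]
  constructor
  · rintro ⟨v, -, rfl⟩
    simp
  · rintro rfl
    exact ⟨x.get, mem_univ _, List.ofFn_get x⟩

theorem card_strs (n : ℕ) : #(strs n) = 2 ^ n := by
  unfold strs
  rw [card_image_of_injective _ List.ofFn_injective]
  simp

theorem card_filter_strs (n : ℕ) (q : List Bool → Prop) [DecidablePred q] :
    #{y ∈ strs n | q y} = #{y : Fin n → Bool | q (List.ofFn y)} := by
  unfold strs
  rw [filter_image, card_image_of_injective _ List.ofFn_injective]

theorem trev_length {B p κ w : ℕ} {bs : List ℕ} {x y : List Bool} :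
    (trev B p κ w bs x y).length = (dix B w bs).length := by
  unfold trev
  rw [List.length_map]

theorem trev_spec {n κ p w l f k B m : ℕ} (hp : p.Prime) (h1 : 2 ^ κ < p) (h2 : p ≤ 2 ^ (κ + 1))
    (hl : l = 2 * κ + 1) (hw : w.Prime) (hlw : 2 * l ≤ w) (hk : 0 < k) (hm : m = w * k)
    (hB : m ≤ B) (h3 : 64 * m ^ 2 * n ≤ 2 ^ κ) {d : ℕ} (hd : (blk w f k 1).length * (l * w) ≤ d)
    (Z : Finset (List Bool × List Bool)) (P : Finset (List Bool))
    (hP : ∀ x ∈ P, x.length = n ∧ 2 ^ d * 2 ^ m + 4 * #Z ≤
      4 * 2 ^ m * #{y ∈ strs d | (y, trev B p κ w (blk w f k 1) x y) ∈ Z}) :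
    #P ≤ 4 * m * 2 ^ (m + w) * (32 * m ^ 2) := by
  classical
  obtain ⟨D1, D2, D3, D4⟩ := design_bound (B := B) (w := w) (l := l) (f := f) (k := k) hw hlw
    (hm ▸ hB)
  set I := dix B w (blk w f k 1) with hI
  have hm0 : 0 < m := by rw [hm]; exact Nat.mul_pos hw.pos hk
  have hIm : I.length = m := by rw [D1, hm]
  have hmem : ∀ i : Fin m, I.getD i (0, []) ∈ I := by
    intro i
    have hi : (i : ℕ) < I.length := by rw [hIm]; exact i.2
    rw [List.getD_eq_getElem?_getD, List.getElem?_eq_getElem hi]
    exact List.getElem_mem hi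
  have hlt : ∀ (i : Fin m) (a : Fin (2 * κ + 1)), dpos l w (I.getD i (0, [])) a < d := by
    intro i a
    exact (D2 _ (hmem i) a (by rw [hl]; exact a.2)).trans_le hd
  let σ : Fin m → Fin (2 * κ + 1) → Fin d := fun i a => ⟨dpos l w (I.getD i (0, [])) a, hlt i a⟩
  have key : ∀ (x : List Bool) (y : Fin d → Bool),
      trev B p κ w (blk w f k 1) x (List.ofFn y) =
        List.ofFn fun i : Fin m => cbit p κ x (List.ofFn fun a => y (σ i a)) := by
    intro x y
    unfold trev
    apply List.ext_getElem
    · rw [List.length_map, List.length_ofFn, ← hI, hIm]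
    · intro i hi hi'
      rw [List.getElem_map, List.getElem_ofFn]
      congr 1
      apply List.ext_getElem
      · simp
      · intro a ha ha'
        rw [List.getElem_map, List.getElem_ofFn, List.getElem_range]
        rw [List.length_map, List.length_range] at ha
        rw [List.length_map, ← hI] at hi
        have e1 : I.getD i (0, []) = I[i] := by
          rw [List.getD_eq_getElem?_getD, List.getElem?_eq_getElem hi]
          rfl
        have h4 := hlt ⟨i, by rw [← hIm]; exact hi⟩ ⟨a, ha⟩
        simp only [e1, hl] at h4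
        rw [List.getD_eq_getElem?_getD, List.getElem?_eq_getElem (by
          rw [List.length_ofFn]; exact h4)]
        simp only [Option.getD_some, List.getElem_ofFn]
        congr 1
        apply Fin.ext
        simp only [σ, e1, hl]
        rfl
  have hinj : Injective fun q : (Fin d → Bool) × (Fin m → Bool) =>
      (List.ofFn q.1, List.ofFn q.2) := by
    rintro ⟨a, b⟩ ⟨a', b'⟩ h
    simp only [Prod.mk.injEq] at h
    rw [List.ofFn_injective h.1, List.ofFn_injective h.2]
  let Z' : Finset ((Fin d → Bool) × (Fin m → Bool)) :=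
    univ.filter fun q => (List.ofFn q.1, List.ofFn q.2) ∈ Z
  have hZ' : #Z' ≤ #Z := by
    refine card_le_card_of_injOn (fun q => (List.ofFn q.1, List.ofFn q.2)) ?_ (hinj.injOn)
    intro q hq
    simp only [Z', coe_filter, mem_univ, true_and, Set.mem_ofPred_eq] at hq
    exact hq
  let P' : Finset {x : List Bool // x.length = n} := P.subtype _
  have hPP : #P' = #P := by
    rw [card_subtype, filter_true_of_mem]
    intro x hx
    exact (hP x hx).1
  rw [← hPP]
  refine trevisan_core (X := {x : List Bool // x.length = n}) (U := Fin d)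
    (Λ := Fin (2 * κ + 1)) (fun x v => cbit p κ x.1 (List.ofFn v)) hm0 σ ?_ (Lst := 32 * m ^ 2)
    (T := m + w) ?_ ?_ Z' P' ?_
  · intro i a b hab
    simp only [σ, Fin.mk.injEq] at hab
    exact Fin.ext (D3 _ (hmem i) a (by rw [hl]; exact a.2) b (by rw [hl]; exact b.2) hab)
  · intro g Q hQ
    have h4 : #(Q.map (Function.Embedding.subtype _)) = #Q := card_map _
    rw [← h4]
    refine cbit_list (n := n) hp h1 h2 hm0 h3 g _ ?_
    intro x hx
    obtain ⟨x', hx', rfl⟩ := mem_map.1 hx
    refine ⟨x'.2, ?_⟩
    have := hQ x' hx'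
    rwa [Fintype.card_fin] at this
  · intro i
    have h4 := D4 i (by rw [← hm]; exact i.2)
    refine le_trans (le_of_eq ?_) (h4.trans (by rw [hm]))
    have e1 : ∑ j ∈ range (i : ℕ), 2 ^ #{a ∈ range l | ∃ b < l,
        dpos l w (I.getD j (0, [])) b = dpos l w (I.getD i (0, [])) a} =
        ∑ j : Fin m with j < i, 2 ^ #{a ∈ range l | ∃ b < l,
        dpos l w (I.getD j (0, [])) b = dpos l w (I.getD i (0, [])) a} := by
      symm
      refine sum_bij (fun j _ => (j : ℕ)) ?_ ?_ ?_ ?_
      · intro j hj
        rw [mem_filter] at hj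
        rw [mem_range]
        exact hj.2
      · intro j _ j' _ h
        exact Fin.ext h
      · intro j hj
        rw [mem_range] at hj
        exact ⟨⟨j, by omega⟩, by rw [mem_filter]; exact ⟨mem_univ _, hj⟩, rfl⟩
      · intro j _
        rfl
    rw [e1]
    refine sum_congr rfl fun j _ => ?_
    congr 1
    refine card_bij (fun a _ => (a : ℕ)) ?_ ?_ ?_
    · intro a ha
      obtain ⟨-, b, hb⟩ := (@mem_filter _ _ (_) _ _).1 ha
      rw [mem_filter, mem_range]
      simp only [σ, Fin.mk.injEq] at hb
      exact ⟨by rw [hl]; exact a.2, b, by rw [hl]; exact b.2, hb⟩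
    · intro a _ a' _ h
      exact Fin.ext h
    · intro a ha
      rw [mem_filter, mem_range] at ha
      obtain ⟨ha, b, hb, hab⟩ := ha
      refine ⟨⟨a, by rw [← hl]; exact ha⟩, ?_, rfl⟩
      refine (@mem_filter _ _ (_) _ _).2 ⟨mem_univ _, ⟨b, by rw [← hl]; exact hb⟩, ?_⟩
      simp only [σ, Fin.mk.injEq]
      exact hab
  · intro x hx
    obtain ⟨hx1, hx2⟩ := hP x.1 (by simpa [P'] using hx)
    rw [card_filter_strs] at hx2
    rw [Fintype.card_fin]
    refine le_trans (Nat.add_le_add_left (Nat.mul_le_mul_left 4 hZ') _) (hx2.trans ?_)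
    apply Nat.mul_le_mul_left
    apply card_le_card
    intro y hy
    rw [mem_filter] at hy ⊢
    refine ⟨mem_univ _, ?_⟩
    simp only [Z', mem_filter, mem_univ, true_and]
    rw [← key]
    exact hy.2

end Pool.Agent.LibPtt90
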