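import Pool.Agent.LibPtt90.Params

/-!
The strategy: every name `e` of length `2 ^ L`, where `L` is a power of two, has a list of
candidate blocks (strings of the lengths `L * (2 * i + 1)`); every block has `2 ^ (10 * L)` cells
(block followed by an offset of length `10 * L`).
-/

namespace Pool.Agent.LibPtt90

/-- the neighbours (blocks of level `i`) of the name `e` -/
def nb (L i : ℕ) (e : List Bool) : List (List Bool) :=
  if L * (2 * i + 1) < 1536 * (L + 1) then allS (2 ^ (1536 * (L + 1))) (L * (2 * i + 1))
  else (disp 1442 (2 ^ 39) L (L * (2 * i + 1) - 1536 * (L + 1)) e).flatMap fun z =>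
    (allS (2 ^ (1536 * (L + 1))) (1536 * (L + 1))).map fun u => z ++ u

/-- the candidate blocks of the name `e`, from level `2 ^ L + 1` down to level `0` -/
def cand (L : ℕ) (e : List Bool) : List (List Bool) :=
  (List.range (2 ^ L + 2)).flatMap fun i => nb L (2 ^ L + 1 - i) e

/-- the offsets -/
def offs (L : ℕ) : List (List Bool) := allS (2 ^ (10 * L)) (10 * L)

/-- membership of the offset `o` in the codeword of `e` -/
def cw (L : ℕ) (e o : List Bool) : Bool :=
  cbit (nextP (2 ^ (L + 3))) (L + 3) (true :: e) (o.take (2 * L + 7))

/-- the scale of a name -/
def scale (e : List Bool) : ℕ := Nat.size e.length - 1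

/-- correct names: the length is `2 ^ 2 ^ j` for some `j` -/
def ok (e : List Bool) : Bool :=
  decide (e.length = 2 ^ scale e) && decide (scale e = 2 ^ (Nat.size (scale e) - 1))

/-- the candidates of a name -/
def cnd (e : List Bool) : List (List Bool) := if ok e = true then cand (scale e) e else []

/-- the offsets of a name -/
def ofs (e : List Bool) : List (List Bool) := if ok e = true then offs (scale e) else []

/-- the offsets in the codeword of a name -/
def cwl (e : List Bool) : List (List Bool) := (ofs e).filter fun o => cw (scale e) e o

/-- the block `β` (of the scale of `e`) is burned: at least one eighth of its cells is marked -/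
def burned (adv : List Bool → Bool) (e β : List Bool) : Bool :=
  decide ((ofs e).length ≤ 8 * ((ofs e).filter fun o => adv (β ++ o)).length)

/-- the name `e` has no written block that is not burned -/
def needs (adv : List Bool → Bool) (σ : List (List Bool × List Bool)) (e : List Bool) : Bool :=
  σ.all fun q => !(decide (q.1 = e)) || burned adv e q.2

/-- the block `β` is not burned and not written -/
def free (adv : List Bool → Bool) (σ : List (List Bool × List Bool)) (e β : List Bool) : Bool :=
  !(burned adv e β) && σ.all fun q => !(decide (q.2 = β))

/-- one move: the name `e` takes the first free candidate block if it needs one -/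
def move (adv : List Bool → Bool) (e : List Bool) (σ : List (List Bool × List Bool)) :
    List (List Bool × List Bool) :=
  if needs adv σ e = true then
    (((cnd e).filter (free adv σ e)).map fun β => (e, β)).take 1 ++ σ
  else σ

/-- the list of the pairs (name, block written by the name) at stage `s` -/
def state (inA adv : ℕ → List Bool → Bool) (nm : ℕ → List Bool) :
    ℕ → List (List Bool × List Bool)
  | 0 => []
  | s + 1 => if inA s (nm s) = true then move (adv s) (nm s) (state inA adv nm s)
      else state inA adv nm s

/-- the marks of the builder -/
def Wr (inA adv : ℕ → List Bool → Bool) (nm : ℕ → List Bool) (y : List Bool) : Prop :=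
  ∃ s e β o, β ∈ cnd e ∧ y = β ++ o ∧ ((burned (adv s) e β = true ∧ o ∈ ofs e) ∨
    ((e, β) ∈ state inA adv nm s ∧ o ∈ cwl e))

end Pool.Agent.LibPtt90
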