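import Pool.Agent.LibComplexity.Decode
import Pool.Agent.LibPtt90.Disp

/-!
Polynomial-time computability of the functions of `Defs.lean`.
-/

namespace Pool.Agent.LibPtt90

open Pool.Agent.LibComplexity Function Enc

variable {𝒜 : Set Orc} {α β γ : Type} [Enc α] [Enc β] [Enc γ]

theorem div_eq (a b : ℕ) :
    a / b = ((List.range a).filter fun k => decide (0 < b ∧ (k + 1) * b ≤ a)).length := by
  have h : (List.range a).filter (fun k => decide (0 < b ∧ (k + 1) * b ≤ a)) =
      (List.range a).filter (fun k => decide (k < a / b)) := by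
    apply List.filter_congr
    intro k _
    rw [decide_eq_decide]
    rcases Nat.eq_zero_or_pos b with rfl | hb
    · simp
    · rw [← Nat.le_div_iff_mul_le hb]
      constructor
      · rintro ⟨_, h⟩; exact h
      · intro h; exact ⟨hb, h⟩
  rw [h]
  have h2 : ∀ n m, ((List.range n).filter fun k => decide (k < m)).length = min n m := by
    intro n m
    induction n with
    | zero => simp
    | succ n ih =>
      rw [List.range_succ, List.filter_append, List.length_append, ih]
      by_cases hn : n < m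
      · simp [hn]; omega
      · simp [hn]; omega
  rw [h2, Nat.min_eq_right (Nat.div_le_self a b)]

theorem ptf_div {f g : Orc → α → ℕ} (hf : PTf 𝒜 f) (hg : PTf 𝒜 g) :
    PTf 𝒜 (fun A x => f A x / g A x) := by
  have h : PTf 𝒜 (fun A x => ((List.range (f A x)).filter
      fun k => decide (0 < g A x ∧ (k + 1) * g A x ≤ f A x)).length) := by
    have h1 : PTf 𝒜 (fun A (p : α × ℕ) => g A p.1) := hg.comp PTf.id.fst
    have h2 : PTf 𝒜 (fun A (p : α × ℕ) => f A p.1) := hf.comp PTf.id.fst
    with_reducible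
      apply PTf.length; apply PTf.filter; apply PTf.range; assumption; apply PTf.decide_and
      apply PTf.decide_lt; apply PTf.const; assumption; apply PTf.decide_le; apply PTf.mul
      apply PTf.add; apply PTf.snd; apply PTf.id; apply PTf.const; assumption; assumption
  exact h.congr fun A _ x => (div_eq _ _).symm

theorem ptf_mod {f g : Orc → α → ℕ} (hf : PTf 𝒜 f) (hg : PTf 𝒜 g) :
    PTf 𝒜 (fun A x => f A x % g A x) :=
  (hf.sub (hg.mul (ptf_div hf hg))).congr fun A _ x => by
    have := Nat.div_add_mod (f A x) (g A x)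
    omega

theorem cpow_key (B a k : ℕ) : (fun c => min B (a * c))^[k] (min B 1) = min B (a ^ k) := by
  induction k with
  | zero => rfl
  | succ k ih =>
    rw [iterate_succ_apply', ih]
    rcases le_total (a ^ k) B with h | h
    · rw [Nat.min_eq_right h, pow_succ, mul_comm]
    · rw [Nat.min_eq_left h]
      rcases Nat.eq_zero_or_pos a with rfl | ha
      · rcases Nat.eq_zero_or_pos k with rfl | hk
        · have : B ≤ 1 := h
          interval_cases B <;> simp
        · rw [zero_pow (by omega)] at h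
          have : B = 0 := by omega
          simp [this]
      · rw [Nat.min_eq_left (Nat.le_mul_of_pos_left B ha), Nat.min_eq_left]
        rw [pow_succ]
        exact h.trans (Nat.le_mul_of_pos_right _ ha)

/-- capped powers -/
theorem ptf_cpow {B f g : Orc → α → ℕ} (hB : PTf 𝒜 B) (hf : PTf 𝒜 f) (hg : PTf 𝒜 g) :
    PTf 𝒜 (fun A x => min (B A x) (f A x ^ g A x)) := by
  have key : ∀ (B a c k : ℕ), (fun q : ℕ × ℕ × ℕ => (q.1, q.2.1, min q.1 (q.2.1 * q.2.2)))^[k]
      (B, a, c) = (B, a, (fun c => min B (a * c))^[k] c) := by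
    intro B a c k
    induction k generalizing c with
    | zero => rfl
    | succ k ih => rw [iterate_succ_apply, ih, iterate_succ_apply]
  have hstep : PTf 𝒜 (fun _ (q : ℕ × ℕ × ℕ) => (q.1, q.2.1, min q.1 (q.2.1 * q.2.2))) := by
    with_reducible
      apply PTf.pair; apply PTf.fst; apply PTf.id; apply PTf.pair; apply PTf.fst; apply PTf.snd
      apply PTf.id; apply PTf.min; apply PTf.fst; apply PTf.id; apply PTf.mul; apply PTf.fst
      apply PTf.snd; apply PTf.id; apply PTf.snd; apply PTf.snd; apply PTf.id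
  have := PTf.iter' (g := fun _ (q : ℕ × ℕ × ℕ) => (q.1, q.2.1, min q.1 (q.2.1 * q.2.2))) hg
    (hB.pair (hf.pair (hB.min (PTf.const 1)))) hstep
    (b := fun A x => 2 * B A x + 1 + (2 * f A x + 1 + (2 * B A x + 1) + 1) + 1)
    (by
      have h1 : PB 𝒜 fun A x => B A x := PB.nat hB
      have h2 : PB 𝒜 fun A x => f A x := PB.nat hf
      exact ((((PB.const 2).mul h1).add (PB.const 1)).add (((((PB.const 2).mul h2).add
        (PB.const 1)).add (((PB.const 2).mul h1).add (PB.const 1))).add (PB.const 1))).add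
        (PB.const 1)) (by
      intro A _ x i _
      rw [key, cpow_key, sz_pair, sz_pair, sz_nat, sz_nat, sz_nat]
      have := min_le_left (B A x) (f A x ^ i)
      omega)
  exact this.snd.snd.congr fun A _ x => by rw [key, cpow_key]

/-- powers with a bound -/
theorem ptf_pow_le {B f g : Orc → α → ℕ} (hB : PTf 𝒜 B) (hf : PTf 𝒜 f) (hg : PTf 𝒜 g)
    (h : ∀ A ∈ 𝒜, ∀ x, f A x ^ g A x ≤ B A x) : PTf 𝒜 (fun A x => f A x ^ g A x) :=
  (ptf_cpow hB hf hg).congr fun A hA x => Nat.min_eq_right (h A hA x)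

theorem size_eq (n : ℕ) :
    Nat.size n = ((List.range (n + 1)).filter fun k => decide (min (n + 1) (2 ^ k) ≤ n)).length := by
  have h : (List.range (n + 1)).filter (fun k => decide (min (n + 1) (2 ^ k) ≤ n)) =
      (List.range (n + 1)).filter (fun k => decide (k < Nat.size n)) := by
    apply List.filter_congr
    intro k _
    rw [decide_eq_decide, Nat.lt_size]
    omega
  rw [h]
  have h2 : ∀ n m, ((List.range n).filter fun k => decide (k < m)).length = min n m := by
    intro n m
    induction n with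
    | zero => simp
    | succ n ih =>
      rw [List.range_succ, List.filter_append, List.length_append, ih]
      by_cases hn : n < m
      · simp [hn]; omega
      · simp [hn]; omega
  rw [h2, Nat.min_eq_right]
  exact (size_le_self n).trans (Nat.le_succ n)

theorem ptf_size {f : Orc → α → ℕ} (hf : PTf 𝒜 f) : PTf 𝒜 (fun A x => Nat.size (f A x)) := by
  have h : PTf 𝒜 (fun _ (n : ℕ) => ((List.range (n + 1)).filter
      fun k => decide (min (n + 1) (2 ^ k) ≤ n)).length) := by
    have h1 : PTf 𝒜 (fun _ (p : ℕ × ℕ) => min (p.1 + 1) (2 ^ p.2)) :=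
      ptf_cpow (PTf.id.fst.succ) (PTf.const 2) PTf.id.snd
    with_reducible
      apply PTf.length; apply PTf.filter; apply PTf.range; apply PTf.add; apply PTf.id
      apply PTf.const; apply PTf.decide_le; assumption; apply PTf.fst; apply PTf.id
  exact (h.comp hf).congr fun A _ x => (size_eq _).symm

theorem ptf_isPrime {f : Orc → α → ℕ} (hf : PTf 𝒜 f) : PTf 𝒜 (fun A x => isPrime (f A x)) := by
  have h : PTf 𝒜 (fun _ (a : ℕ) => decide (2 ≤ a) && (List.range a).all
      fun d => decide (d < 2) || decide (a % d ≠ 0)) := by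
    with_reducible
      apply PTf.band; apply PTf.decide_le; apply PTf.const; apply PTf.id; apply PTf.all
      apply PTf.range; apply PTf.id; apply PTf.bor; apply PTf.decide_lt; apply PTf.snd
      apply PTf.id; apply PTf.const; apply PTf.decide_not; apply PTf.decide_eq; apply ptf_mod
      apply PTf.fst; apply PTf.id; apply PTf.snd; apply PTf.id; apply PTf.const
  exact h.comp hf

theorem ptf_nextP {f : Orc → α → ℕ} (hf : PTf 𝒜 f) : PTf 𝒜 (fun A x => nextP (f A x)) := by
  have h : PTf 𝒜 (fun _ (B : ℕ) => (((List.range (B + 1)).map fun i => B + 1 + i).filter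
      fun a => isPrime a).headD 2) := by
    with_reducible
      apply PTf.headD; apply PTf.filter; apply PTf.map; apply PTf.range; apply PTf.add
      apply PTf.id; apply PTf.const; apply PTf.add; apply PTf.add; apply PTf.fst; apply PTf.id
      apply PTf.const; apply PTf.snd; apply PTf.id; apply ptf_isPrime; apply PTf.snd; apply PTf.id
      apply PTf.const
  exact h.comp hf

/-! ### words, polynomials, codewords -/

theorem numc_foldl (B : ℕ) (l : List Bool) :
    numc B l = l.reverse.foldl (fun acc b => min B (b.toNat + 2 * acc)) 0 := by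
  rw [List.foldl_reverse]
  induction l with
  | nil => rfl
  | cons b l ih => rw [numc, ih]; rfl

theorem ptf_toNat {f : Orc → α → Bool} (hf : PTf 𝒜 f) : PTf 𝒜 (fun A x => (f A x).toNat) :=
  PTf.ofFinite Bool.toNat hf

theorem foldl_le {β : Type} (l : List β) (B : ℕ) (g : ℕ → β → ℕ) (hg : ∀ s y, g s y ≤ B) (s : ℕ) :
    l.foldl g s ≤ max s B := by
  induction l generalizing s with
  | nil => simp
  | cons y l ih =>
    rw [List.foldl_cons]
    refine (ih _).trans ?_
    have := hg s y
    omega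

theorem ptf_numc {B : Orc → α → ℕ} {l : Orc → α → List Bool} (hB : PTf 𝒜 B) (hl : PTf 𝒜 l) :
    PTf 𝒜 (fun A x => numc (B A x) (l A x)) := by
  have hstep : PTf 𝒜 (fun A (p : α × ℕ × Bool) => min (B A p.1) (p.2.2.toNat + 2 * p.2.1)) := by
    have h1 : PTf 𝒜 (fun A (p : α × ℕ × Bool) => B A p.1) := hB.comp PTf.id.fst
    with_reducible
      apply PTf.min; assumption; apply PTf.add; apply ptf_toNat; apply PTf.snd; apply PTf.snd
      apply PTf.id; apply PTf.mul; apply PTf.const; apply PTf.fst; apply PTf.snd; apply PTf.id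
  have := PTf.foldl (g := fun A x (s : ℕ) (b : Bool) => min (B A x) (b.toNat + 2 * s)) hl.reverse
    (PTf.const 0) hstep (b := fun A x => 2 * B A x + 1)
    (by
      have h1 : PB 𝒜 fun A x => B A x := PB.nat hB
      exact ((PB.const 2).mul h1).add (PB.const 1)) (by
      intro A _ x k
      rw [sz_nat]
      have := foldl_le (((l A x).reverse).take k) (B A x)
        (fun s b => min (B A x) (b.toNat + 2 * s)) (fun s y => min_le_left _ _) 0
      omega)
  exact this.congr fun A _ x => (numc_foldl _ _).symm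

theorem pev_foldl (p z : ℕ) (l : List ℕ) :
    pev p l z = l.reverse.foldl (fun acc c => (c + z * acc) % p) 0 := by
  rw [List.foldl_reverse]
  induction l with
  | nil => rfl
  | cons b l ih => rw [pev, ih]; rfl

theorem ptf_pev {p z : Orc → α → ℕ} {l : Orc → α → List ℕ} (hp : PTf 𝒜 p) (hl : PTf 𝒜 l)
    (hz : PTf 𝒜 z) (h0 : ∀ A ∈ 𝒜, ∀ x, 0 < p A x) :
    PTf 𝒜 (fun A x => pev (p A x) (l A x) (z A x)) := by
  have hstep : PTf 𝒜 (fun A (q : α × ℕ × ℕ) => (q.2.2 + z A q.1 * q.2.1) % p A q.1) := by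
    have h1 : PTf 𝒜 (fun A (q : α × ℕ × ℕ) => z A q.1) := hz.comp PTf.id.fst
    have h2 : PTf 𝒜 (fun A (q : α × ℕ × ℕ) => p A q.1) := hp.comp PTf.id.fst
    with_reducible
      apply ptf_mod; apply PTf.add; apply PTf.snd; apply PTf.snd; apply PTf.id; apply PTf.mul
      assumption; apply PTf.fst; apply PTf.snd; apply PTf.id; assumption
  have := PTf.foldl (g := fun A x (s : ℕ) (c : ℕ) => (c + z A x * s) % p A x) hl.reverse
    (PTf.const 0) hstep (b := fun A x => 2 * p A x + 1)
    (by
      have h1 : PB 𝒜 fun A x => p A x := PB.nat hp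
      exact ((PB.const 2).mul h1).add (PB.const 1)) (by
      intro A hA x k
      rw [sz_nat]
      have := foldl_le (((l A x).reverse).take k) (p A x)
        (fun s c => (c + z A x * s) % p A x) (fun s y => (Nat.mod_lt _ (h0 A hA x)).le) 0
      omega)
  exact this.congr fun A _ x => (pev_foldl _ _ _).symm

theorem ip_eq (l l' : List Bool) :
    ip l l' = decide (((List.range l.length).filter
      fun i => l.getD i false && l'.getD i false).length % 2 = 1) := by
  induction l generalizing l' with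
  | nil => cases l' <;> rfl
  | cons a l ih =>
    cases l' with
    | nil =>
      rw [ip]
      · simp
      · simp
    | cons b l' =>
      rw [ip, ih, List.length_cons, List.range_succ_eq_map, List.filter_cons, List.filter_map]
      have e : ((fun i => (a :: l).getD i false && (b :: l').getD i false) ∘ Nat.succ) =
          fun i => l.getD i false && l'.getD i false := by
        funext i
        simp
      rw [e]
      generalize (List.range l.length).filter (fun i => l.getD i false && l'.getD i false) = L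
      cases a <;> cases b <;> simp <;> by_cases h : L.length % 2 = 1 <;> simp [h] <;> omega

theorem ptf_ip {l l' : Orc → α → List Bool} (hl : PTf 𝒜 l) (hl' : PTf 𝒜 l') :
    PTf 𝒜 (fun A x => ip (l A x) (l' A x)) := by
  have h : PTf 𝒜 (fun _ (q : List Bool × List Bool) => decide (((List.range q.1.length).filter
      fun i => q.1.getD i false && q.2.getD i false).length % 2 = 1)) := by
    with_reducible
      apply PTf.decide_eq; apply ptf_mod; apply PTf.length; apply PTf.filter; apply PTf.range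
      apply PTf.length; apply PTf.fst; apply PTf.id; apply PTf.band; apply PTf.listGetD
      apply PTf.fst; apply PTf.fst; apply PTf.id; apply PTf.snd; apply PTf.id; apply PTf.const
      apply PTf.listGetD; apply PTf.snd; apply PTf.fst; apply PTf.id; apply PTf.snd; apply PTf.id
      apply PTf.const; apply PTf.const; apply PTf.const
  exact (h.comp (hl.pair hl')).congr fun A _ x => (ip_eq _ _).symm

theorem bits_eq (k a : ℕ) :
    bits k a = (List.range k).map fun i => decide (a / min (a + 1) (2 ^ i) % 2 = 1) := by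
  have h : ∀ a i : ℕ, a / min (a + 1) (2 ^ i) = a / 2 ^ i := by
    intro a i
    rcases le_total (2 ^ i) (a + 1) with h | h
    · rw [Nat.min_eq_right h]
    · rw [Nat.min_eq_left h, Nat.div_eq_of_lt (by omega), Nat.div_eq_of_lt (by omega)]
  simp only [h]
  clear h
  induction k generalizing a with
  | zero => rfl
  | succ k ih =>
    rw [bits, ih, List.range_succ_eq_map, List.map_cons, List.map_map, pow_zero, Nat.div_one]
    congr 1
    apply List.map_congr_left
    intro i _
    simp only [comp_apply, Nat.succ_eq_add_one]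
    rw [Nat.div_div_eq_div_mul, pow_succ, mul_comm]

theorem ptf_bits {k a : Orc → α → ℕ} (hk : PTf 𝒜 k) (ha : PTf 𝒜 a) :
    PTf 𝒜 (fun A x => bits (k A x) (a A x)) := by
  have h : PTf 𝒜 (fun _ (q : ℕ × ℕ) => (List.range q.1).map
      fun i => decide (q.2 / min (q.2 + 1) (2 ^ i) % 2 = 1)) := by
    have h1 : PTf 𝒜 (fun _ (p : (ℕ × ℕ) × ℕ) => min (p.1.2 + 1) (2 ^ p.2)) :=
      ptf_cpow PTf.id.fst.snd.succ (PTf.const 2) PTf.id.snd
    with_reducible
      apply PTf.map; apply PTf.range; apply PTf.fst; apply PTf.id; apply PTf.decide_eq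
      apply ptf_mod; apply ptf_div; apply PTf.snd; apply PTf.fst; apply PTf.id; assumption
      apply PTf.const; apply PTf.const
  exact (h.comp (hk.pair ha)).congr fun A _ x => (bits_eq _ _).symm

theorem ptf_cbit {p κ : Orc → α → ℕ} {x v : Orc → α → List Bool} (hp : PTf 𝒜 p) (hκ : PTf 𝒜 κ)
    (hx : PTf 𝒜 x) (hv : PTf 𝒜 v) (h0 : ∀ A ∈ 𝒜, ∀ y, 0 < p A y) :
    PTf 𝒜 (fun A y => cbit (p A y) (κ A y) (x A y) (v A y)) := by
  unfold cbit
  refine ptf_ip (ptf_bits hκ.succ (ptf_pev hp (hx.map (ptf_toNat PTf.id.snd))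
    (ptf_numc hp (hv.take hκ)) h0)) (hv.drop hκ)

theorem digs_eq (w t v : ℕ) :
    digs w t v = (List.range t).map fun i => v / min (v + 1) (w ^ i) % w := by
  have h : ∀ v i : ℕ, v / min (v + 1) (w ^ i) = v / w ^ i := by
    intro a i
    rcases le_total (w ^ i) (a + 1) with h | h
    · rw [Nat.min_eq_right h]
    · rw [Nat.min_eq_left h, Nat.div_eq_of_lt (by omega), Nat.div_eq_of_lt (by omega)]
  simp only [h]
  clear h
  induction t generalizing v with
  | zero => rfl
  | succ k ih =>
    rw [digs, ih, List.range_succ_eq_map, List.map_cons, List.map_map, pow_zero, Nat.div_one]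
    congr 1
    apply List.map_congr_left
    intro i _
    simp only [comp_apply, Nat.succ_eq_add_one]
    rw [Nat.div_div_eq_div_mul, pow_succ, mul_comm]

theorem ptf_digs {w t v : Orc → α → ℕ} (hw : PTf 𝒜 w) (ht : PTf 𝒜 t) (hv : PTf 𝒜 v) :
    PTf 𝒜 (fun A x => digs (w A x) (t A x) (v A x)) := by
  have h : PTf 𝒜 (fun _ (q : ℕ × ℕ × ℕ) => (List.range q.2.1).map
      fun i => q.2.2 / min (q.2.2 + 1) (q.1 ^ i) % q.1) := by
    have h1 : PTf 𝒜 (fun _ (p : (ℕ × ℕ × ℕ) × ℕ) => min (p.1.2.2 + 1) (p.1.1 ^ p.2)) :=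
      ptf_cpow PTf.id.fst.snd.snd.succ PTf.id.fst.fst PTf.id.snd
    with_reducible
      apply PTf.map; apply PTf.range; apply PTf.fst; apply PTf.snd; apply PTf.id; apply ptf_mod
      apply ptf_div; apply PTf.snd; apply PTf.snd; apply PTf.fst; apply PTf.id; assumption
      apply PTf.fst; apply PTf.fst; apply PTf.id
  exact (h.comp (hw.pair (ht.pair hv))).congr fun A _ x => (digs_eq _ _ _).symm

/-! ### designs -/

/-- the step of the iteration that computes `blk` -/
def blkStep (q : ℕ × ℕ × ℕ × List ℕ) : ℕ × ℕ × ℕ × List ℕ :=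
  if q.2.1 < 2 * q.1 then q
  else (q.1, q.2.1 / q.1 - 1, q.2.2.1 + 1,
    List.replicate (q.1 + q.2.1 % q.1) q.2.2.1 ++ q.2.2.2)

/-- the result -/
def blkRes (q : ℕ × ℕ × ℕ × List ℕ) : List ℕ := List.replicate q.2.1 q.2.2.1 ++ q.2.2.2

theorem blk_iter (w f k t : ℕ) (acc : List ℕ) :
    blk w f k t ++ acc = blkRes (blkStep^[f] (w, k, t, acc)) := by
  induction f generalizing k t acc with
  | zero => rfl
  | succ f ih =>
    rw [iterate_succ_apply, blk]
    by_cases h : k < 2 * w
    · have e : blkStep (w, k, t, acc) = (w, k, t, acc) := by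
        unfold blkStep
        rw [if_pos h]
      have e2 : ∀ n, blkStep^[n] (w, k, t, acc) = (w, k, t, acc) := by
        intro n
        induction n with
        | zero => rfl
        | succ n ih => rw [iterate_succ_apply, e, ih]
      rw [if_pos h, e, e2]
      rfl
    · have e : blkStep (w, k, t, acc) =
          (w, k / w - 1, t + 1, List.replicate (w + k % w) t ++ acc) := by
        unfold blkStep
        rw [if_neg h]
      rw [if_neg h, e, ← ih, List.append_assoc]

theorem blk_inv (w f k t : ℕ) (n : ℕ) (hn : n ≤ f) :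
    (blkStep^[n] (w, k, t, [])).1 = w ∧ (blkStep^[n] (w, k, t, [])).2.1 ≤ k ∧
    (blkStep^[n] (w, k, t, [])).2.2.1 ≤ t + n ∧
    (blkStep^[n] (w, k, t, [])).2.2.2.length ≤ n * (w + k) ∧
    ∀ y ∈ (blkStep^[n] (w, k, t, [])).2.2.2, y ≤ t + n := by
  induction n with
  | zero => simp
  | succ n ih =>
    obtain ⟨i1, i2, i3, i4, i5⟩ := ih (by omega)
    rw [iterate_succ_apply']
    generalize blkStep^[n] (w, k, t, []) = q at i1 i2 i3 i4 i5
    obtain ⟨w', k', t', acc⟩ := q
    simp only at i1 i2 i3 i4 i5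
    subst i1
    unfold blkStep
    have e : (n + 1) * (w' + k) = n * (w' + k) + (w' + k) := by ring
    split_ifs with h
    · refine ⟨rfl, i2, by simp only; omega, by simp only; omega, ?_⟩
      intro y hy
      have := i5 y hy
      omega
    · have h1 : k' / w' ≤ k' := Nat.div_le_self _ _
      have h2 : k' % w' ≤ k' := Nat.mod_le _ _
      refine ⟨rfl, ?_, ?_, ?_, ?_⟩
      · simp only
        omega
      · simp only
        omega
      · simp only [List.length_append, List.length_replicate]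
        omega
      · simp only
        intro y hy
        rcases List.mem_append.1 hy with hy | hy
        · rw [List.mem_replicate] at hy
          omega
        · have := i5 y hy
          omega

theorem ptf_blk {w f k t : Orc → α → ℕ} (hw : PTf 𝒜 w) (hf : PTf 𝒜 f) (hk : PTf 𝒜 k)
    (ht : PTf 𝒜 t) : PTf 𝒜 (fun A x => blk (w A x) (f A x) (k A x) (t A x)) := by
  have hstep : PTf 𝒜 (fun _ (q : ℕ × ℕ × ℕ × List ℕ) => blkStep q) := by
    have h : PTf 𝒜 (fun _ (q : ℕ × ℕ × ℕ × List ℕ) => if q.2.1 < 2 * q.1 then q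
        else (q.1, q.2.1 / q.1 - 1, q.2.2.1 + 1,
        List.replicate (q.1 + q.2.1 % q.1) q.2.2.1 ++ q.2.2.2)) := by
      with_reducible
        apply PTf.ifP; apply PTf.decide_lt; apply PTf.fst; apply PTf.snd; apply PTf.id
        apply PTf.mul; apply PTf.const; apply PTf.fst; apply PTf.id; apply PTf.id; apply PTf.pair
        apply PTf.fst; apply PTf.id; apply PTf.pair; apply PTf.sub; apply ptf_div; apply PTf.fst
        apply PTf.snd; apply PTf.id; apply PTf.fst; apply PTf.id; apply PTf.const; apply PTf.pair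
        apply PTf.add; apply PTf.fst; apply PTf.snd; apply PTf.snd; apply PTf.id; apply PTf.const
        apply PTf.append; apply PTf.replicate; apply PTf.add; apply PTf.fst; apply PTf.id
        apply ptf_mod; apply PTf.fst; apply PTf.snd; apply PTf.id; apply PTf.fst; apply PTf.id
        apply PTf.fst; apply PTf.snd; apply PTf.snd; apply PTf.id; apply PTf.snd; apply PTf.snd
        apply PTf.snd; apply PTf.id
    exact h
  have h1 : PB 𝒜 fun A x => w A x := PB.nat hw
  have h2 : PB 𝒜 fun A x => f A x := PB.nat hf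
  have h3 : PB 𝒜 fun A x => k A x := PB.nat hk
  have h4 : PB 𝒜 fun A x => t A x := PB.nat ht
  have c2 : PB 𝒜 (fun _ (_ : α) => 2) := PB.const 2
  have c1 : PB 𝒜 (fun _ (_ : α) => 1) := PB.const 1
  have := PTf.iter' (g := fun _ (q : ℕ × ℕ × ℕ × List ℕ) => blkStep q) hf
    (hw.pair (hk.pair (ht.pair (PTf.const [])))) hstep
    (b := fun A x => (2 * w A x + 1) + ((2 * k A x + 1) + ((2 * (t A x + f A x) + 1) +
      (f A x * (w A x + k A x) * ((2 * (t A x + f A x) + 1) + 1) + 1) + 1) + 1) + 1)
    (((c2.mul h1).add c1).add ((((c2.mul h3).add c1).add ((((c2.mul (h4.add h2)).add c1).add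
      (((h2.mul (h1.add h3)).mul (((c2.mul (h4.add h2)).add c1).add c1)).add c1)).add c1)).add
      c1) |>.add c1) (by
      intro A _ x i hi
      obtain ⟨i1, i2, i3, i4, i5⟩ := blk_inv (w A x) (f A x) (k A x) (t A x) i hi
      generalize blkStep^[i] (w A x, k A x, t A x, []) = q at i1 i2 i3 i4 i5
      obtain ⟨w', k', t', acc⟩ := q
      simp only at i1 i2 i3 i4 i5
      rw [sz_pair, sz_pair, sz_pair, sz_nat, sz_nat, sz_nat]
      have h5 : sz acc ≤ acc.length * ((2 * (t A x + f A x) + 1) + 1) + 1 := by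
        apply sz_list_le
        intro y hy
        rw [sz_nat]
        have := i5 y hy
        omega
      have h6 : acc.length * ((2 * (t A x + f A x) + 1) + 1) ≤
          f A x * (w A x + k A x) * ((2 * (t A x + f A x) + 1) + 1) := by
        apply Nat.mul_le_mul_right
        exact i4.trans (Nat.mul_le_mul_right _ hi)
      omega)
  have hres : PTf 𝒜 (fun _ (q : ℕ × ℕ × ℕ × List ℕ) => blkRes q) := by
    have h : PTf 𝒜 (fun _ (q : ℕ × ℕ × ℕ × List ℕ) => List.replicate q.2.1 q.2.2.1 ++ q.2.2.2) := by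
      with_reducible
        apply PTf.append; apply PTf.replicate; apply PTf.fst; apply PTf.snd; apply PTf.id
        apply PTf.fst; apply PTf.snd; apply PTf.snd; apply PTf.id; apply PTf.snd; apply PTf.snd
        apply PTf.snd; apply PTf.id
    exact h
  refine (hres.comp this).congr fun A _ x => ?_
  have := blk_iter (w A x) (f A x) (k A x) (t A x) []
  rw [List.append_nil] at this
  exact this.symm

theorem zipIdx_eq (l : List ℕ) : l.zipIdx = (List.range l.length).map fun i => (l.getD i 0, i) := by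
  apply List.ext_getElem
  · simp
  · intro i h1 h2
    rw [List.getElem_zipIdx, List.getElem_map, List.getElem_range, Nat.zero_add,
      List.getD_eq_getElem?_getD, List.getElem?_eq_getElem]
    rfl

theorem ptf_dix {B w : Orc → α → ℕ} {bs : Orc → α → List ℕ} (hB : PTf 𝒜 B) (hw : PTf 𝒜 w)
    (hbs : PTf 𝒜 bs) : PTf 𝒜 (fun A x => dix (B A x) (w A x) (bs A x)) := by
  have h : PTf 𝒜 (fun _ (p : ℕ × ℕ × List ℕ) =>
      ((List.range p.2.2.length).map fun i => (p.2.2.getD i 0, i)).flatMap fun q =>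
        (List.range (min p.1 (p.2.1 ^ q.1))).map fun v => (q.2, digs p.2.1 q.1 v)) := by
    have h1 : PTf 𝒜 (fun _ (r : (ℕ × ℕ × List ℕ) × (ℕ × ℕ)) => min r.1.1 (r.1.2.1 ^ r.2.1)) :=
      ptf_cpow PTf.id.fst.fst PTf.id.fst.snd.fst PTf.id.snd.fst
    with_reducible
      apply PTf.flatMap; apply PTf.map; apply PTf.range; apply PTf.length; apply PTf.snd
      apply PTf.snd; apply PTf.id; apply PTf.pair; apply PTf.listGetD; apply PTf.snd
      apply PTf.snd; apply PTf.fst; apply PTf.id; apply PTf.snd; apply PTf.id; apply PTf.const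
      apply PTf.snd; apply PTf.id; apply PTf.map; apply PTf.range; assumption; apply PTf.pair
      apply PTf.snd; apply PTf.snd; apply PTf.fst; apply PTf.id; apply ptf_digs; apply PTf.fst
      apply PTf.snd; apply PTf.fst; apply PTf.fst; apply PTf.id; apply PTf.fst; apply PTf.snd
      apply PTf.fst; apply PTf.id; apply PTf.snd; apply PTf.id
  exact (h.comp (hB.pair (hw.pair hbs))).congr fun A _ x => by
    unfold dix
    rw [zipIdx_eq]

theorem ptf_dpos {l w a : Orc → α → ℕ} {i : Orc → α → ℕ × List ℕ} (hl : PTf 𝒜 l) (hw : PTf 𝒜 w)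
    (hi : PTf 𝒜 i) (ha : PTf 𝒜 a) (h0 : ∀ A ∈ 𝒜, ∀ y, 0 < w A y) :
    PTf 𝒜 (fun A x => dpos (l A x) (w A x) (i A x) (a A x)) := by
  unfold dpos
  have h1 : PTf 𝒜 (fun A x => pev (w A x) (i A x).2 (a A x)) := ptf_pev hw hi.snd ha h0
  with_reducible
    apply PTf.add; apply PTf.add; apply PTf.mul; apply PTf.fst; assumption; apply PTf.mul
    assumption; assumption; apply PTf.mul; assumption; assumption; assumption

theorem ptf_trev {B p κ w : Orc → α → ℕ} {bs : Orc → α → List ℕ} {x y : Orc → α → List Bool}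
    (hB : PTf 𝒜 B) (hp : PTf 𝒜 p) (hκ : PTf 𝒜 κ) (hw : PTf 𝒜 w) (hbs : PTf 𝒜 bs)
    (hx : PTf 𝒜 x) (hy : PTf 𝒜 y) (hp0 : ∀ A ∈ 𝒜, ∀ y, 0 < p A y)
    (hw0 : ∀ A ∈ 𝒜, ∀ y, 0 < w A y) :
    PTf 𝒜 (fun A z => trev (B A z) (p A z) (κ A z) (w A z) (bs A z) (x A z) (y A z)) := by
  unfold trev
  refine (ptf_dix hB hw hbs).map ?_
  refine ptf_cbit (hp.comp PTf.id.fst) (hκ.comp PTf.id.fst) (hx.comp PTf.id.fst) ?_
    (fun A hA y => hp0 A hA y.1)
  have hκ' : PTf 𝒜 (fun A (q : α × (ℕ × List ℕ)) => 2 * κ A q.1 + 1) :=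
    ((PTf.const 2).mul (hκ.comp PTf.id.fst)).succ
  refine hκ'.range.map ?_
  refine (hy.comp PTf.id.fst.fst).listGetD ?_ (PTf.const false)
  exact ptf_dpos (hκ'.comp PTf.id.fst) (hw.comp PTf.id.fst.fst) PTf.id.fst.snd PTf.id.snd
    (fun A hA y => hw0 A hA y.1.1)

/-! ### polynomials modulo a trinomial -/

theorem ptf_conv {p k : Orc → α → ℕ} {a b : Orc → α → List ℕ} (hp : PTf 𝒜 p) (ha : PTf 𝒜 a)
    (hb : PTf 𝒜 b) (hk : PTf 𝒜 k) : PTf 𝒜 (fun A x => conv (p A x) (a A x) (b A x) (k A x)) := by
  have h : PTf 𝒜 (fun _ (q : ℕ × List ℕ × List ℕ × ℕ) => ((List.range (q.2.2.2 + 1)).map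
      fun i => q.2.1.getD i 0 * q.2.2.1.getD (q.2.2.2 - i) 0).sum % q.1) := by
    with_reducible
      apply ptf_mod; apply PTf.sum; apply PTf.map; apply PTf.range; apply PTf.add; apply PTf.snd
      apply PTf.snd; apply PTf.snd; apply PTf.id; apply PTf.const; apply PTf.mul
      apply PTf.listGetD; apply PTf.fst; apply PTf.snd; apply PTf.fst; apply PTf.id; apply PTf.snd
      apply PTf.id; apply PTf.const; apply PTf.listGetD; apply PTf.fst; apply PTf.snd
      apply PTf.snd; apply PTf.fst; apply PTf.id; apply PTf.sub; apply PTf.snd; apply PTf.snd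
      apply PTf.snd; apply PTf.fst; apply PTf.id; apply PTf.snd; apply PTf.id; apply PTf.const
      apply PTf.fst; apply PTf.id
  exact h.comp (hp.pair (ha.pair (hb.pair hk)))

theorem ptf_mulm {p r τ ν : Orc → α → ℕ} {a b : Orc → α → List ℕ} (hp : PTf 𝒜 p) (hr : PTf 𝒜 r)
    (hτ : PTf 𝒜 τ) (hν : PTf 𝒜 ν) (ha : PTf 𝒜 a) (hb : PTf 𝒜 b) :
    PTf 𝒜 (fun A x => mulm (p A x) (r A x) (τ A x) (ν A x) (a A x) (b A x)) := by
  have h : PTf 𝒜 (fun _ (q : ℕ × ℕ × ℕ × ℕ × List ℕ × List ℕ) => 
      ((List.range q.2.1).map fun k => (conv q.1 q.2.2.2.2.1 q.2.2.2.2.2 k +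
        q.2.2.2.1 * conv q.1 q.2.2.2.2.1 q.2.2.2.2.2 (k + 2 * q.2.1) +
        q.2.2.1 * q.2.2.2.1 * conv q.1 q.2.2.2.2.1 q.2.2.2.2.2 (k + 3 * q.2.1)) % q.1) ++
      ((List.range q.2.1).map fun k => (conv q.1 q.2.2.2.2.1 q.2.2.2.2.2 (k + q.2.1) +
        q.2.2.1 * conv q.1 q.2.2.2.2.1 q.2.2.2.2.2 (k + 2 * q.2.1) +
        (q.2.2.1 * q.2.2.1 + q.2.2.2.1) * conv q.1 q.2.2.2.2.1 q.2.2.2.2.2 (k + 3 * q.2.1)) %
          q.1)) := by
    with_reducible
      apply PTf.append; apply PTf.map; apply PTf.range; apply PTf.fst; apply PTf.snd; apply PTf.id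
      apply ptf_mod; apply PTf.add; apply PTf.add; apply ptf_conv; apply PTf.fst; apply PTf.fst
      apply PTf.id; apply PTf.fst; apply PTf.snd; apply PTf.snd; apply PTf.snd; apply PTf.snd
      apply PTf.fst; apply PTf.id; apply PTf.snd; apply PTf.snd; apply PTf.snd; apply PTf.snd
      apply PTf.snd; apply PTf.fst; apply PTf.id; apply PTf.snd; apply PTf.id; apply PTf.mul
      apply PTf.fst; apply PTf.snd; apply PTf.snd; apply PTf.snd; apply PTf.fst; apply PTf.id
      apply ptf_conv; apply PTf.fst; apply PTf.fst; apply PTf.id; apply PTf.fst; apply PTf.snd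
      apply PTf.snd; apply PTf.snd; apply PTf.snd; apply PTf.fst; apply PTf.id; apply PTf.snd
      apply PTf.snd; apply PTf.snd; apply PTf.snd; apply PTf.snd; apply PTf.fst; apply PTf.id
      apply PTf.add; apply PTf.snd; apply PTf.id; apply PTf.mul; apply PTf.const; apply PTf.fst
      apply PTf.snd; apply PTf.fst; apply PTf.id; apply PTf.mul; apply PTf.mul; apply PTf.fst
      apply PTf.snd; apply PTf.snd; apply PTf.fst; apply PTf.id; apply PTf.fst; apply PTf.snd
      apply PTf.snd; apply PTf.snd; apply PTf.fst; apply PTf.id; apply ptf_conv; apply PTf.fst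
      apply PTf.fst; apply PTf.id; apply PTf.fst; apply PTf.snd; apply PTf.snd; apply PTf.snd
      apply PTf.snd; apply PTf.fst; apply PTf.id; apply PTf.snd; apply PTf.snd; apply PTf.snd
      apply PTf.snd; apply PTf.snd; apply PTf.fst; apply PTf.id; apply PTf.add; apply PTf.snd
      apply PTf.id; apply PTf.mul; apply PTf.const; apply PTf.fst; apply PTf.snd; apply PTf.fst
      apply PTf.id; apply PTf.fst; apply PTf.fst; apply PTf.id; apply PTf.map; apply PTf.range
      apply PTf.fst; apply PTf.snd; apply PTf.id; apply ptf_mod; apply PTf.add; apply PTf.add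
      apply ptf_conv; apply PTf.fst; apply PTf.fst; apply PTf.id; apply PTf.fst; apply PTf.snd
      apply PTf.snd; apply PTf.snd; apply PTf.snd; apply PTf.fst; apply PTf.id; apply PTf.snd
      apply PTf.snd; apply PTf.snd; apply PTf.snd; apply PTf.snd; apply PTf.fst; apply PTf.id
      apply PTf.add; apply PTf.snd; apply PTf.id; apply PTf.fst; apply PTf.snd; apply PTf.fst
      apply PTf.id; apply PTf.mul; apply PTf.fst; apply PTf.snd; apply PTf.snd; apply PTf.fst
      apply PTf.id; apply ptf_conv; apply PTf.fst; apply PTf.fst; apply PTf.id; apply PTf.fst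
      apply PTf.snd; apply PTf.snd; apply PTf.snd; apply PTf.snd; apply PTf.fst; apply PTf.id
      apply PTf.snd; apply PTf.snd; apply PTf.snd; apply PTf.snd; apply PTf.snd; apply PTf.fst
      apply PTf.id; apply PTf.add; apply PTf.snd; apply PTf.id; apply PTf.mul; apply PTf.const
      apply PTf.fst; apply PTf.snd; apply PTf.fst; apply PTf.id; apply PTf.mul; apply PTf.add
      apply PTf.mul; apply PTf.fst; apply PTf.snd; apply PTf.snd; apply PTf.fst; apply PTf.id
      apply PTf.fst; apply PTf.snd; apply PTf.snd; apply PTf.fst; apply PTf.id; apply PTf.fst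
      apply PTf.snd; apply PTf.snd; apply PTf.snd; apply PTf.fst; apply PTf.id; apply ptf_conv
      apply PTf.fst; apply PTf.fst; apply PTf.id; apply PTf.fst; apply PTf.snd; apply PTf.snd
      apply PTf.snd; apply PTf.snd; apply PTf.fst; apply PTf.id; apply PTf.snd; apply PTf.snd
      apply PTf.snd; apply PTf.snd; apply PTf.snd; apply PTf.fst; apply PTf.id; apply PTf.add
      apply PTf.snd; apply PTf.id; apply PTf.mul; apply PTf.const; apply PTf.fst; apply PTf.snd
      apply PTf.fst; apply PTf.id; apply PTf.fst; apply PTf.fst; apply PTf.id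
  refine (h.comp (hp.pair (hr.pair (hτ.pair (hν.pair (ha.pair hb)))))).congr fun A _ x => ?_
  unfold mulm
  rfl

theorem mulm_bound (p r τ ν : ℕ) (hp : 0 < p) (a b : List ℕ) :
    (mulm p r τ ν a b).length = 2 * r ∧ ∀ y ∈ mulm p r τ ν a b, y < p := by
  unfold mulm
  constructor
  · rw [List.length_append, List.length_map, List.length_map, List.length_range]
    ring
  · intro y hy
    rcases List.mem_append.1 hy with hy | hy <;>
    · obtain ⟨k, _, rfl⟩ := List.mem_map.1 hy
      exact Nat.mod_lt _ hp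

theorem ptf_powm {p r τ ν n : Orc → α → ℕ} {a : Orc → α → List ℕ} (hp : PTf 𝒜 p) (hr : PTf 𝒜 r)
    (hτ : PTf 𝒜 τ) (hν : PTf 𝒜 ν) (hn : PTf 𝒜 n) (ha : PTf 𝒜 a) (hp0 : ∀ A ∈ 𝒜, ∀ y, 0 < p A y) :
    PTf 𝒜 (fun A x => (fun c => mulm (p A x) (r A x) (τ A x) (ν A x) c c)^[n A x] (a A x)) := by
  have hstep : PTf 𝒜 (fun _ (q : ℕ × ℕ × ℕ × ℕ × List ℕ) => (q.1, q.2.1, q.2.2.1, q.2.2.2.1,
      mulm q.1 q.2.1 q.2.2.1 q.2.2.2.1 q.2.2.2.2 q.2.2.2.2)) := by
    with_reducible
      apply PTf.pair; apply PTf.fst; apply PTf.id; apply PTf.pair; apply PTf.fst; apply PTf.snd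
      apply PTf.id; apply PTf.pair; apply PTf.fst; apply PTf.snd; apply PTf.snd; apply PTf.id
      apply PTf.pair; apply PTf.fst; apply PTf.snd; apply PTf.snd; apply PTf.snd; apply PTf.id
      apply ptf_mulm; apply PTf.fst; apply PTf.id; apply PTf.fst; apply PTf.snd; apply PTf.id
      apply PTf.fst; apply PTf.snd; apply PTf.snd; apply PTf.id; apply PTf.fst; apply PTf.snd
      apply PTf.snd; apply PTf.snd; apply PTf.id; apply PTf.snd; apply PTf.snd; apply PTf.snd
      apply PTf.snd; apply PTf.id; apply PTf.snd; apply PTf.snd; apply PTf.snd; apply PTf.snd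
      apply PTf.id
  have key : ∀ (p r τ ν n : ℕ) (a : List ℕ), (fun (q : ℕ × ℕ × ℕ × ℕ × List ℕ) =>
      (q.1, q.2.1, q.2.2.1, q.2.2.2.1,
      mulm q.1 q.2.1 q.2.2.1 q.2.2.2.1 q.2.2.2.2 q.2.2.2.2))^[n] (p, r, τ, ν, a) =
      (p, r, τ, ν, (fun c => mulm p r τ ν c c)^[n] a) := by
    intro p r τ ν n a
    induction n generalizing a with
    | zero => rfl
    | succ n ih => rw [iterate_succ_apply, ih, iterate_succ_apply]
  have h1 : PB 𝒜 fun A x => p A x := PB.nat hp
  have h2 : PB 𝒜 fun A x => r A x := PB.nat hr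
  have h3 : PB 𝒜 fun A x => τ A x := PB.nat hτ
  have h4 : PB 𝒜 fun A x => ν A x := PB.nat hν
  have h5 : PB 𝒜 fun A x => sz (a A x) := PB.sz ha
  have c2 : PB 𝒜 (fun _ (_ : α) => 2) := PB.const 2
  have c1 : PB 𝒜 (fun _ (_ : α) => 1) := PB.const 1
  have := PTf.iter' (g := fun _ (q : ℕ × ℕ × ℕ × ℕ × List ℕ) => (q.1, q.2.1, q.2.2.1, q.2.2.2.1,
      mulm q.1 q.2.1 q.2.2.1 q.2.2.2.1 q.2.2.2.2 q.2.2.2.2)) hn
    (hp.pair (hr.pair (hτ.pair (hν.pair ha)))) hstep
    (b := fun A x => (2 * p A x + 1) + ((2 * r A x + 1) + ((2 * τ A x + 1) + ((2 * ν A x + 1) +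
      (sz (a A x) + (2 * r A x * ((2 * p A x + 1) + 1) + 1)) + 1) + 1) + 1) + 1)
    (((c2.mul h1).add c1).add ((((c2.mul h2).add c1).add ((((c2.mul h3).add c1).add
      ((((c2.mul h4).add c1).add (h5.add (((c2.mul h2).mul (((c2.mul h1).add c1).add c1)).add
      c1))).add c1)).add c1)).add c1) |>.add c1) (by
      intro A hA x i hi
      rw [key, sz_pair, sz_pair, sz_pair, sz_pair, sz_nat, sz_nat, sz_nat, sz_nat]
      have h6 : sz ((fun c => mulm (p A x) (r A x) (τ A x) (ν A x) c c)^[i] (a A x)) ≤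
          sz (a A x) + (2 * r A x * ((2 * p A x + 1) + 1) + 1) := by
        cases i with
        | zero => simp
        | succ i =>
          rw [iterate_succ_apply']
          obtain ⟨e1, e2⟩ := mulm_bound (p A x) (r A x) (τ A x) (ν A x) (hp0 A hA x)
            ((fun c => mulm (p A x) (r A x) (τ A x) (ν A x) c c)^[i] (a A x))
            ((fun c => mulm (p A x) (r A x) (τ A x) (ν A x) c c)^[i] (a A x))
          generalize mulm (p A x) (r A x) (τ A x) (ν A x)
            ((fun c => mulm (p A x) (r A x) (τ A x) (ν A x) c c)^[i] (a A x))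
            ((fun c => mulm (p A x) (r A x) (τ A x) (ν A x) c c)^[i] (a A x)) = c at e1 e2
          have h7 : sz c ≤ c.length * ((2 * p A x + 1) + 1) + 1 := by
            apply sz_list_le
            intro y hy
            rw [sz_nat]
            have := e2 y hy
            omega
          rw [e1] at h7
          omega
      omega)
  exact this.snd.snd.snd.snd.congr fun A _ x => by rw [key]

theorem ptf_guv {p r τ ν e β μ y : Orc → α → ℕ} {x : Orc → α → List Bool} (hp : PTf 𝒜 p)
    (hr : PTf 𝒜 r) (hτ : PTf 𝒜 τ) (hν : PTf 𝒜 ν) (he : PTf 𝒜 e) (hβ : PTf 𝒜 β) (hμ : PTf 𝒜 μ)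
    (hx : PTf 𝒜 x) (hy : PTf 𝒜 y) (hp0 : ∀ A ∈ 𝒜, ∀ y, 0 < p A y) :
    PTf 𝒜 (fun A z => guv (p A z) (r A z) (τ A z) (ν A z) (e A z) (β A z) (μ A z) (x A z)
      (y A z)) := by
  unfold guv
  refine hμ.range.flatMap ?_
  refine ptf_bits (hβ.comp PTf.id.fst) ?_
  refine ptf_pev (hp.comp PTf.id.fst) ?_ (hy.comp PTf.id.fst) (fun A hA y => hp0 A hA y.1)
  exact ptf_powm (hp.comp PTf.id.fst) (hr.comp PTf.id.fst) (hτ.comp PTf.id.fst)
    (hν.comp PTf.id.fst) ((he.comp PTf.id.fst).mul PTf.id.snd)
    ((hx.comp PTf.id.fst).map (ptf_toNat PTf.id.snd)) (fun A hA y => hp0 A hA y.1)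

end Pool.Agent.LibPtt90
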