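import Pool.Agent.LibPtt90.Disp
import Pool.Agent.LibPtt90.Game

/-!
Static facts about the candidate blocks and the codewords.
-/

open Finset Function

namespace Pool.Agent.LibPtt90

theorem ok_length {e : List Bool} (he : ok e = true) : e.length = 2 ^ scale e := by
  unfold ok at he
  rw [Bool.and_eq_true, decide_eq_true_eq, decide_eq_true_eq] at he
  exact he.1

theorem ok_scale {e : List Bool} (he : ok e = true) : ∃ j, scale e = 2 ^ j := by
  unfold ok at he
  rw [Bool.and_eq_true, decide_eq_true_eq, decide_eq_true_eq] at he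
  exact ⟨_, he.2⟩

theorem scale_pos {e : List Bool} (he : ok e = true) : 0 < scale e := by
  obtain ⟨j, hj⟩ := ok_scale he
  rw [hj]
  positivity

theorem mem_allS_iff {cap n : ℕ} (h : 2 ^ n ≤ cap) {s : List Bool} :
    s ∈ allS cap n ↔ s.length = n :=
  ⟨length_of_mem_allS, mem_allS h⟩

theorem bits_inj {n a b : ℕ} (ha : a < 2 ^ n) (hb : b < 2 ^ n) (h : bits n a = bits n b) :
    a = b := by
  induction n generalizing a b with
  | zero => omega
  | succ n ih =>
    rw [bits, bits, List.cons.injEq, decide_eq_decide] at h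
    have := ih (by omega) (by omega) h.2
    omega

theorem allS_nodup (cap n : ℕ) : (allS cap n).Nodup := by
  unfold allS
  apply List.Nodup.map_on _ List.nodup_range
  intro a ha b hb h
  rw [List.mem_range] at ha hb
  exact bits_inj (ha.trans_le (min_le_right _ _)) (hb.trans_le (min_le_right _ _)) h

theorem allS_length {cap n : ℕ} (h : 2 ^ n ≤ cap) : (allS cap n).length = 2 ^ n := by
  unfold allS
  rw [List.length_map, List.length_range, Nat.min_eq_right h]

theorem ofs_ok {e : List Bool} (he : ok e = true) : ofs e = allS (2 ^ (10 * scale e))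
    (10 * scale e) := by
  unfold ofs offs
  rw [if_pos he]

theorem mem_ofs {e o : List Bool} (he : ok e = true) : o ∈ ofs e ↔ o.length = 10 * scale e := by
  rw [ofs_ok he]
  exact mem_allS_iff le_rfl

theorem ofs_nodup (e : List Bool) : (ofs e).Nodup := by
  by_cases he : ok e = true
  · rw [ofs_ok he]
    exact allS_nodup _ _
  · unfold ofs
    rw [if_neg he]
    exact List.nodup_nil

theorem ofs_length {e : List Bool} (he : ok e = true) : (ofs e).length = 2 ^ (10 * scale e) := by
  rw [ofs_ok he]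
  exact allS_length le_rfl

/-- scales are powers of two, so the length of a block (of a cell) determines scale and level -/
theorem scale_inj {e e' : List Bool} (he : ok e = true) (he' : ok e' = true) {i i' : ℕ}
    (h : scale e * (2 * i + 1) = scale e' * (2 * i' + 1)) : scale e = scale e' ∧ i = i' := by
  obtain ⟨j, hj⟩ := ok_scale he
  obtain ⟨j', hj'⟩ := ok_scale he'
  have key : ∀ {j j' i i' : ℕ}, j ≤ j' → 2 ^ j * (2 * i + 1) = 2 ^ j' * (2 * i' + 1) → j = j' := by
    intro j j' i i' hjj h
    obtain ⟨d, rfl⟩ := Nat.exists_eq_add_of_le hjj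
    rw [pow_add, mul_assoc] at h
    have h1 := Nat.eq_of_mul_eq_mul_left (by positivity) h
    rcases Nat.eq_zero_or_pos d with rfl | hd
    · rfl
    · obtain ⟨d, rfl⟩ := Nat.exists_eq_add_of_lt hd
      rw [Nat.zero_add, pow_succ] at h1
      have h2 : 2 ^ d * 2 * (2 * i' + 1) = 2 * (2 ^ d * (2 * i' + 1)) := by ring
      omega
  have hjj : j = j' := by
    rw [hj, hj'] at h
    rcases le_total j j' with h1 | h1
    · exact key h1 h
    · exact (key h1 h.symm).symm
  have hs : scale e = scale e' := by rw [hj, hj', hjj]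
  refine ⟨hs, ?_⟩
  rw [hs] at h
  have := Nat.eq_of_mul_eq_mul_left (scale_pos he') h
  omega

theorem nb_length {L i : ℕ} {e β : List Bool} (h : β ∈ nb L i e) :
    β.length = L * (2 * i + 1) := by
  unfold nb at h
  split_ifs at h with h1
  · exact length_of_mem_allS h
  · obtain ⟨z, hz, h⟩ := List.mem_flatMap.1 h
    obtain ⟨u, hu, rfl⟩ := List.mem_map.1 h
    rw [List.length_append, disp_length hz, length_of_mem_allS hu]
    exact Nat.sub_add_cancel (not_lt.1 h1)

theorem mem_cnd {e β : List Bool} (he : ok e = true) :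
    β ∈ cnd e ↔ ∃ i ≤ 2 ^ scale e + 1, β ∈ nb (scale e) i e := by
  unfold cnd cand
  rw [if_pos he, List.mem_flatMap]
  constructor
  · rintro ⟨i, hi, h⟩
    exact ⟨_, Nat.sub_le _ _, h⟩
  · rintro ⟨i, hi, h⟩
    refine ⟨2 ^ scale e + 1 - i, List.mem_range.2 (by omega), ?_⟩
    rw [show 2 ^ scale e + 1 - (2 ^ scale e + 1 - i) = i by omega]
    exact h

theorem cnd_ok {e β : List Bool} (h : β ∈ cnd e) : ok e = true := by
  by_contra he
  unfold cnd at h
  rw [if_neg he] at h
  exact absurd h List.not_mem_nil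

theorem nb_low {L i : ℕ} (h : L * (2 * i + 1) < 1536 * (L + 1)) (e : List Bool) :
    (nb L i e).toFinset = strs (L * (2 * i + 1)) := by
  unfold nb
  rw [if_pos h]
  ext β
  rw [List.mem_toFinset, mem_strs]
  exact mem_allS_iff (Nat.pow_le_pow_right (by norm_num) h.le)

theorem biUnion_const_ne {α β : Type} [DecidableEq β] (S : Finset α) (hne : S.Nonempty)
    (T : Finset β) (f : α → Finset β) (h : ∀ x ∈ S, f x = T) : S.biUnion f = T := by
  ext y
  rw [mem_biUnion]
  constructor
  · rintro ⟨x, hx, hy⟩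
    rwa [h x hx] at hy
  · intro hy
    obtain ⟨x, hx⟩ := hne
    exact ⟨x, hx, by rwa [h x hx]⟩

theorem nb_expand_zero {L : ℕ} (_hL : 0 < L) (S : Finset (List Bool)) (_hS : S ⊆ strs (2 ^ L))
    (hne : S.Nonempty) :
    2 ^ (L * (2 * 0 + 1)) ≤ 2 * #(S.biUnion fun e => (nb L 0 e).toFinset) := by
  rw [biUnion_const_ne S hne (strs (L * (2 * 0 + 1))) _
    (fun e _ => nb_low (by omega) e), card_strs]
  omega

theorem nb_high {L b : ℕ} (S : Finset (List Bool)) (hS : S ⊆ strs (2 ^ L))
    (hb : 1536 * (L + 1) ≤ b) (h : 2 ^ b < 2 ^ (4 * L + 4) * #S) :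
    2 ^ b ≤ 2 * #(S.biUnion fun e => ((disp 1442 (2 ^ 39) L (b - 1536 * (L + 1)) e).flatMap
      fun z => (allS (2 ^ (1536 * (L + 1))) (1536 * (L + 1))).map fun u => z ++ u).toFinset) := by
  classical
  obtain ⟨m, rfl⟩ := Nat.exists_eq_add_of_le' hb
  rw [Nat.add_sub_cancel]
  have h1 : 2 ^ (m + (1442 + 90) * (L + 1)) ≤ #S := by
    have e : m + 1536 * (L + 1) = 4 * L + 4 + (m + (1442 + 90) * (L + 1)) := by omega
    rw [e, pow_add] at h
    exact (Nat.lt_of_mul_lt_mul_left h).le
  have h2 := disp_spec (A := 1442) (C := 2 ^ 39) (L := L) (m := m) le_rfl (by norm_num) le_rfl S hS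
    h1
  generalize 1536 * (L + 1) = t at *
  have h3 : #((S.biUnion fun e => (disp 1442 (2 ^ 39) L m e).toFinset) ×ˢ strs t) ≤
      #(S.biUnion fun e => ((disp 1442 (2 ^ 39) L m e).flatMap
      fun z => (allS (2 ^ t) t).map fun u => z ++ u).toFinset) := by
    apply card_le_card_of_injOn fun q => q.1 ++ q.2
    · rintro ⟨z, u⟩ hq
      rw [mem_coe, mem_product, mem_biUnion] at hq
      obtain ⟨⟨e, he, hz⟩, hu⟩ := hq
      rw [mem_coe, mem_biUnion]
      refine ⟨e, he, ?_⟩
      rw [List.mem_toFinset] at hz ⊢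
      rw [List.mem_flatMap]
      exact ⟨z, hz, List.mem_map.2 ⟨u, mem_allS le_rfl (mem_strs.1 hu), rfl⟩⟩
    · rintro ⟨z, u⟩ hq ⟨z', u'⟩ hq' h
      rw [mem_coe, mem_product, mem_biUnion] at hq hq'
      obtain ⟨⟨e, he, hz⟩, hu⟩ := hq
      obtain ⟨⟨e', he', hz'⟩, hu'⟩ := hq'
      rw [List.mem_toFinset] at hz hz'
      have := List.append_inj h ((disp_length hz).trans (disp_length hz').symm)
      rw [Prod.mk.injEq]
      exact this
  rw [card_product, card_strs] at h3
  calc 2 ^ (m + t) = 2 ^ m * 2 ^ t := pow_add _ _ _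
    _ ≤ 2 * #(S.biUnion fun e => (disp 1442 (2 ^ 39) L m e).toFinset) * 2 ^ t :=
      Nat.mul_le_mul_right _ h2
    _ = 2 * (#(S.biUnion fun e => (disp 1442 (2 ^ 39) L m e).toFinset) * 2 ^ t) := by ring
    _ ≤ _ := Nat.mul_le_mul_left _ h3

theorem nb_expand {L i : ℕ} (_hL : 0 < L) (S : Finset (List Bool)) (hS : S ⊆ strs (2 ^ L))
    (h : 2 ^ (L * (2 * i + 1)) < 16 * #S) :
    2 ^ (L * (2 * (i + 1) + 1)) ≤ 2 * #(S.biUnion fun e => (nb L (i + 1) e).toFinset) := by
  by_cases h1 : L * (2 * (i + 1) + 1) < 1536 * (L + 1)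
  · have hne : S.Nonempty := by
      rw [← card_pos]
      have : 0 < 2 ^ (L * (2 * i + 1)) := by positivity
      omega
    rw [biUnion_const_ne S hne _ _ (fun e _ => nb_low h1 e), card_strs]
    omega
  · have e : ∀ x, nb L (i + 1) x = (disp 1442 (2 ^ 39) L
        (L * (2 * (i + 1) + 1) - 1536 * (L + 1)) x).flatMap
        fun z => (allS (2 ^ (1536 * (L + 1))) (1536 * (L + 1))).map fun u => z ++ u := by
      intro x
      unfold nb
      rw [if_neg h1]
    simp only [e]
    apply nb_high S hS (not_lt.1 h1)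
    have e2 : L * (2 * (i + 1) + 1) = L * (2 * i + 1) + 2 * L := by ring
    rw [e2, pow_add]
    calc 2 ^ (L * (2 * i + 1)) * 2 ^ (2 * L) < 16 * #S * 2 ^ (2 * L) :=
          Nat.mul_lt_mul_of_pos_right h (by positivity)
      _ = 2 ^ (2 * L + 4) * #S := by rw [pow_add]; ring
      _ ≤ 2 ^ (4 * L + 4) * #S := by
        apply Nat.mul_le_mul_right
        exact Nat.pow_le_pow_right (by norm_num) (by omega)

theorem filter_length {e : List Bool} (he : ok e = true) (p : List Bool → Bool) :
    ((ofs e).filter p).length = #{o ∈ strs (10 * scale e) | p o = true} := by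
  rw [← List.toFinset_card_of_nodup ((ofs_nodup e).filter p)]
  congr 1
  ext o
  rw [List.mem_toFinset, List.mem_filter, mem_filter, mem_ofs he, mem_strs]

theorem card_take_ge {D M : ℕ} (h : D ≤ M) (Q : List Bool → Prop) [DecidablePred Q] :
    #{v ∈ strs D | Q v} * 2 ^ (M - D) ≤ #{o ∈ strs M | Q (o.take D)} := by
  rw [← card_strs (M - D), ← card_product]
  apply card_le_card_of_injOn fun q => q.1 ++ q.2
  · rintro ⟨v, u⟩ hq
    rw [mem_coe, mem_product, mem_filter] at hq
    obtain ⟨⟨h1, h2⟩, h3⟩ := hq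
    have h1' := mem_strs.1 h1
    have h3' := mem_strs.1 h3
    simp only at h1' h3' h2
    rw [mem_coe, mem_filter, mem_strs]
    have e : (v ++ u).take D = v := by rw [← h1']; exact List.take_left
    refine ⟨?_, ?_⟩
    · rw [List.length_append, h1', h3']
      omega
    · rw [e]
      exact h2
  · rintro ⟨v, u⟩ hq ⟨v', u'⟩ hq' h
    rw [mem_coe, mem_product, mem_filter] at hq hq'
    have h1 := mem_strs.1 hq.1.1
    have h1' := mem_strs.1 hq'.1.1
    simp only at h1 h1'
    have := List.append_inj h (h1.trans h1'.symm)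
    rw [Prod.mk.injEq]
    exact this

theorem flip_ne {e : List Bool} (he : e ≠ []) : ∃ e' : List Bool, e'.length = e.length ∧ e ≠ e' := by
  cases e with
  | nil => exact absurd rfl he
  | cons b l =>
    refine ⟨(!b) :: l, rfl, ?_⟩
    intro h
    rw [List.cons.injEq] at h
    cases b <;> simp at h

theorem transfer {e : List Bool} (he : ok e = true) (Q : List Bool → Bool)
    (h : 2 ^ (2 * (scale e + 3) + 1) ≤
      8 * #{v : Fin (2 * (scale e + 3) + 1) → Bool | Q (List.ofFn v) = true})
    (p : List Bool → Bool) (hp : ∀ o ∈ ofs e, Q (o.take (2 * (scale e + 3) + 1)) = true →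
      p o = true) :
    (ofs e).length ≤ 8 * ((ofs e).filter p).length := by
  have hL := scale_pos he
  have h1 : 2 * (scale e + 3) + 1 ≤ 10 * scale e := by omega
  rw [ofs_length he, filter_length he]
  have h2 := card_take_ge h1 (fun v => Q v = true)
  rw [card_filter_strs] at h2
  have h3 : #{o ∈ strs (10 * scale e) | Q (o.take (2 * (scale e + 3) + 1)) = true} ≤
      #{o ∈ strs (10 * scale e) | p o = true} := by
    apply card_le_card
    intro o ho
    rw [mem_filter] at ho ⊢
    exact ⟨ho.1, hp o ((mem_ofs he).2 (mem_strs.1 ho.1)) ho.2⟩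
  calc 2 ^ (10 * scale e) = 2 ^ (2 * (scale e + 3) + 1) *
        2 ^ (10 * scale e - (2 * (scale e + 3) + 1)) := by
        rw [← pow_add]
        congr 1
        omega
    _ ≤ 8 * #{v : Fin (2 * (scale e + 3) + 1) → Bool | Q (List.ofFn v) = true} *
        2 ^ (10 * scale e - (2 * (scale e + 3) + 1)) := Nat.mul_le_mul_right _ h
    _ = 8 * (#{v : Fin (2 * (scale e + 3) + 1) → Bool | Q (List.ofFn v) = true} *
        2 ^ (10 * scale e - (2 * (scale e + 3) + 1))) := by ring
    _ ≤ _ := Nat.mul_le_mul_left _ (h2.trans h3)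

theorem mem_cwl {e o : List Bool} : o ∈ cwl e ↔ o ∈ ofs e ∧ cw (scale e) e o = true := by
  unfold cwl
  rw [List.mem_filter]

theorem ok_congr {e e' : List Bool} (h : e.length = e'.length) : ok e = ok e' := by
  unfold ok scale
  rw [h]

theorem scale_congr {e e' : List Bool} (h : e.length = e'.length) : scale e = scale e' := by
  unfold scale
  rw [h]

theorem ofs_congr {e e' : List Bool} (h : e.length = e'.length) : ofs e = ofs e' := by
  unfold ofs
  rw [ok_congr h, scale_congr h]

theorem code_spec {e e' : List Bool} (he : ok e = true) (hl : e'.length = e.length) (hne : e ≠ e') :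
    2 ^ (2 * (scale e + 3) + 1) ≤ 8 * #{v : Fin (2 * (scale e + 3) + 1) → Bool |
      cbit (nextP (2 ^ (scale e + 3))) (scale e + 3) (true :: e) (List.ofFn v) = true ∧
      cbit (nextP (2 ^ (scale e + 3))) (scale e + 3) (true :: e') (List.ofFn v) = false} ∧
    3 * 2 ^ (2 * (scale e + 3) + 1) ≤ 8 * #{v : Fin (2 * (scale e + 3) + 1) → Bool |
      cbit (nextP (2 ^ (scale e + 3))) (scale e + 3) (true :: e) (List.ofFn v) = true} ∧
    2 * #{v : Fin (2 * (scale e + 3) + 1) → Bool |
      cbit (nextP (2 ^ (scale e + 3))) (scale e + 3) (true :: e) (List.ofFn v) = true} ≤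
      2 ^ (2 * (scale e + 3) + 1) := by
  obtain ⟨p1, p2, p3⟩ := nextP_spec (B := 2 ^ (scale e + 3)) (by positivity)
  refine name_code (N := 2 ^ scale e) p1 p2 (by rw [pow_succ 2 (scale e + 3)]; omega) ?_ (ok_length he)
    (hl.trans (ok_length he)) hne
  have : 0 < 2 ^ scale e := by positivity
  rw [pow_add]
  omega

theorem ne_nil {e : List Bool} (he : ok e = true) : e ≠ [] := by
  intro h
  have := ok_length he
  rw [h] at this
  have h2 : 0 < 2 ^ scale ([] : List Bool) := by positivity
  simp only [List.length_nil] at this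
  omega

theorem cw_sep {e e' : List Bool} (he : ok e = true) (hl : e'.length = e.length) (hne : e ≠ e') :
    (ofs e).length ≤ 8 * ((ofs e).filter fun o => decide (o ∈ cwl e ∧ o ∉ cwl e')).length := by
  obtain ⟨h1, -, -⟩ := code_spec he hl hne
  refine transfer he (fun v => cbit (nextP (2 ^ (scale e + 3))) (scale e + 3) (true :: e) v &&
    !(cbit (nextP (2 ^ (scale e + 3))) (scale e + 3) (true :: e') v)) ?_ _ ?_
  · refine h1.trans (le_of_eq ?_)
    congr 2
    ext v
    simp only [mem_filter, mem_univ, true_and, Bool.and_eq_true, Bool.not_eq_true']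
  · intro o ho h
    rw [Bool.and_eq_true, Bool.not_eq_true'] at h
    rw [decide_eq_true_eq, mem_cwl, mem_cwl]
    refine ⟨⟨ho, h.1⟩, ?_⟩
    rintro ⟨-, h2⟩
    unfold cw at h2
    rw [scale_congr hl] at h2
    have e7 : 2 * (scale e + 3) + 1 = 2 * scale e + 7 := by ring
    rw [e7, h2] at h
    exact absurd h.2 (by simp)

theorem cw_many {e : List Bool} (he : ok e = true) :
    (ofs e).length ≤ 8 * ((ofs e).filter fun o => decide (o ∈ cwl e)).length := by
  obtain ⟨e', hl, hne⟩ := flip_ne (ne_nil he)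
  obtain ⟨-, h1, -⟩ := code_spec he hl hne
  refine transfer he (fun v => cbit (nextP (2 ^ (scale e + 3))) (scale e + 3) (true :: e) v)
    (le_trans (by omega) h1) _ ?_
  intro o ho h
  rw [decide_eq_true_eq, mem_cwl]
  exact ⟨ho, h⟩

theorem cw_few {e : List Bool} (he : ok e = true) :
    (ofs e).length ≤ 8 * ((ofs e).filter fun o => decide (o ∉ cwl e)).length := by
  obtain ⟨e', hl, hne⟩ := flip_ne (ne_nil he)
  obtain ⟨-, -, h1⟩ := code_spec he hl hne
  refine transfer he (fun v => !(cbit (nextP (2 ^ (scale e + 3))) (scale e + 3) (true :: e) v))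
    ?_ _ ?_
  · have h2 := card_filter_add_card_filter_not (s := (univ :
      Finset (Fin (2 * (scale e + 3) + 1) → Bool))) (fun v =>
      cbit (nextP (2 ^ (scale e + 3))) (scale e + 3) (true :: e) (List.ofFn v) = true)
    rw [card_univ, Fintype.card_fun, Fintype.card_bool, Fintype.card_fin] at h2
    have h3 : #{v : Fin (2 * (scale e + 3) + 1) → Bool |
        (!(cbit (nextP (2 ^ (scale e + 3))) (scale e + 3) (true :: e) (List.ofFn v))) = true} =
        #{v : Fin (2 * (scale e + 3) + 1) → Bool |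
        ¬ cbit (nextP (2 ^ (scale e + 3))) (scale e + 3) (true :: e) (List.ofFn v) = true} := by
      congr 1
      ext v
      simp only [mem_filter, mem_univ, true_and, Bool.not_eq_true', Bool.not_eq_true]
    rw [h3]
    omega
  · intro o ho h
    rw [decide_eq_true_eq, mem_cwl]
    rintro ⟨-, h2⟩
    rw [Bool.not_eq_true'] at h
    unfold cw at h2
    have e7 : 2 * (scale e + 3) + 1 = 2 * scale e + 7 := by ring
    rw [e7, h2] at h
    exact absurd h (by simp)

end Pool.Agent.LibPtt90
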