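import Pool.Agent.LibPtt90.Ptf
import Pool.Agent.LibPtt90.Static
import Pool.Agent.LibPtt90.Red

/-!
Polynomial-time computability of the dispersers, of the candidates and of the codewords.
-/

namespace Pool.Agent.LibPtt90

open Pool.Agent.LibComplexity Function Enc

variable {𝒜 : Set Orc} {α β γ : Type} [Enc α] [Enc β] [Enc γ]

theorem ptf_goodB {p τ ν : Orc → α → ℕ} (hp : PTf 𝒜 p) (hτ : PTf 𝒜 τ) (hν : PTf 𝒜 ν) :
    PTf 𝒜 (fun A x => goodB (p A x) (τ A x) (ν A x)) := by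
  have h : PTf 𝒜 (fun _ (q : ℕ × ℕ × ℕ) =>
      ((List.range q.1).all fun y => decide ((y * y) % q.1 ≠ (q.2.1 * y + q.2.2) % q.1)) &&
      ((List.range q.1).all fun a => (List.range q.1).all fun b =>
        decide ((a ^ 3 + 3 * a * b ^ 2 * q.2.2 + b ^ 3 * q.2.1 * q.2.2) % q.1 ≠ 0) ||
        decide ((3 * a ^ 2 * b + 3 * a * b ^ 2 * q.2.1 + b ^ 3 * (q.2.1 ^ 2 + q.2.2)) % q.1 ≠
          1))) := by
    with_reducible
      apply PTf.band; apply PTf.all; apply PTf.range; apply PTf.fst; apply PTf.id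
      apply PTf.decide_not; apply PTf.decide_eq; apply ptf_mod; apply PTf.mul; apply PTf.snd
      apply PTf.id; apply PTf.snd; apply PTf.id; apply PTf.fst; apply PTf.fst; apply PTf.id
      apply ptf_mod; apply PTf.add; apply PTf.mul; apply PTf.fst; apply PTf.snd; apply PTf.fst
      apply PTf.id; apply PTf.snd; apply PTf.id; apply PTf.snd; apply PTf.snd; apply PTf.fst
      apply PTf.id; apply PTf.fst; apply PTf.fst; apply PTf.id; apply PTf.all; apply PTf.range
      apply PTf.fst; apply PTf.id; apply PTf.all; apply PTf.range; apply PTf.fst; apply PTf.fst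
      apply PTf.id; apply PTf.bor; apply PTf.decide_not; apply PTf.decide_eq; apply ptf_mod
      apply PTf.add; apply PTf.add; apply PTf.pow; apply PTf.snd; apply PTf.fst; apply PTf.id
      apply PTf.mul; apply PTf.mul; apply PTf.mul; apply PTf.const; apply PTf.snd; apply PTf.fst
      apply PTf.id; apply PTf.pow; apply PTf.snd; apply PTf.id; apply PTf.snd; apply PTf.snd
      apply PTf.fst; apply PTf.fst; apply PTf.id; apply PTf.mul; apply PTf.mul; apply PTf.pow
      apply PTf.snd; apply PTf.id; apply PTf.fst; apply PTf.snd; apply PTf.fst; apply PTf.fst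
      apply PTf.id; apply PTf.snd; apply PTf.snd; apply PTf.fst; apply PTf.fst; apply PTf.id
      apply PTf.fst; apply PTf.fst; apply PTf.fst; apply PTf.id; apply PTf.const
      apply PTf.decide_not; apply PTf.decide_eq; apply ptf_mod; apply PTf.add; apply PTf.add
      apply PTf.mul; apply PTf.mul; apply PTf.const; apply PTf.pow; apply PTf.snd; apply PTf.fst
      apply PTf.id; apply PTf.snd; apply PTf.id; apply PTf.mul; apply PTf.mul; apply PTf.mul
      apply PTf.const; apply PTf.snd; apply PTf.fst; apply PTf.id; apply PTf.pow; apply PTf.snd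
      apply PTf.id; apply PTf.fst; apply PTf.snd; apply PTf.fst; apply PTf.fst; apply PTf.id
      apply PTf.mul; apply PTf.pow; apply PTf.snd; apply PTf.id; apply PTf.add; apply PTf.pow
      apply PTf.fst; apply PTf.snd; apply PTf.fst; apply PTf.fst; apply PTf.id; apply PTf.snd
      apply PTf.snd; apply PTf.fst; apply PTf.fst; apply PTf.id; apply PTf.fst; apply PTf.fst
      apply PTf.fst; apply PTf.id; apply PTf.const
  refine (h.comp (hp.pair (hτ.pair hν))).congr fun A _ x => ?_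
  unfold goodB
  rfl

theorem ptf_pair {p : Orc → α → ℕ} (hp : PTf 𝒜 p) : PTf 𝒜 (fun A x => pair (p A x)) := by
  have h : PTf 𝒜 (fun _ (p : ℕ) => (((List.range p).flatMap fun τ =>
      (List.range p).map fun ν => (τ, ν)).filter
      fun q => goodB p q.1 q.2).headD (0, 0)) := by
    with_reducible
      apply PTf.headD; apply PTf.filter; apply PTf.flatMap; apply PTf.range; apply PTf.id
      apply PTf.map; apply PTf.range; apply PTf.fst; apply PTf.id; apply PTf.pair; apply PTf.snd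
      apply PTf.fst; apply PTf.id; apply PTf.snd; apply PTf.id; apply ptf_goodB; apply PTf.fst
      apply PTf.id; apply PTf.fst; apply PTf.snd; apply PTf.id; apply PTf.snd; apply PTf.snd
      apply PTf.id; apply PTf.const
  refine (h.comp hp).congr fun A _ x => ?_
  unfold pair
  rfl

theorem ptf_kap {n : Orc → α → ℕ} (hn : PTf 𝒜 n) : PTf 𝒜 (fun A x => kap (n A x)) := by
  unfold kap
  with_reducible
    apply PTf.add; apply PTf.mul; apply PTf.const; apply ptf_size; assumption; apply PTf.const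

theorem two_pow_size_le' (n : ℕ) : 2 ^ Nat.size n ≤ 2 * n + 1 := by
  rcases Nat.eq_zero_or_pos n with rfl | hn
  · simp
  · have := two_pow_size_le hn
    omega

theorem ptf_pt {n : Orc → α → ℕ} (hn : PTf 𝒜 n) : PTf 𝒜 (fun A x => pt (n A x)) := by
  have h1 : PTf 𝒜 (fun A x => 2 ^ Nat.size (n A x)) :=
    ptf_pow_le (B := fun A x => 2 * n A x + 1) (by with_reducible
                                                     apply PTf.add; apply PTf.mul; apply PTf.const
                                                     assumption; apply PTf.const) (PTf.const 2) (ptf_size hn)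
      (fun A _ x => two_pow_size_le' _)
  have h2 : PTf 𝒜 (fun A x => nextP (64 * (2 ^ Nat.size (n A x)) ^ 3)) := by
    with_reducible
      apply ptf_nextP; apply PTf.mul; apply PTf.const; apply PTf.pow; assumption
  refine h2.congr fun A _ x => ?_
  unfold LibPtt90.pt kap
  congr 1
  rw [← pow_mul, show (64 : ℕ) = 2 ^ 6 by norm_num, ← pow_add]
  congr 1
  ring

theorem ptf_lt {n : Orc → α → ℕ} (hn : PTf 𝒜 n) : PTf 𝒜 (fun A x => lt (n A x)) := by
  unfold lt
  with_reducible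
    apply PTf.add; apply PTf.mul; apply PTf.const; apply ptf_kap; assumption; apply PTf.const

theorem ptf_wt {n : Orc → α → ℕ} (hn : PTf 𝒜 n) : PTf 𝒜 (fun A x => wt (n A x)) := by
  unfold wt
  with_reducible
    apply ptf_nextP; apply PTf.sub; apply PTf.mul; apply PTf.const; apply ptf_lt; assumption
    apply PTf.const

theorem ptf_bt {n k : Orc → α → ℕ} (hn : PTf 𝒜 n) (hk : PTf 𝒜 k) :
    PTf 𝒜 (fun A x => bt (n A x) (k A x)) := by
  unfold bt
  exact ptf_blk (ptf_wt hn) (ptf_size hk) hk (PTf.const 1)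

theorem ptf_sd {n k : Orc → α → ℕ} (hn : PTf 𝒜 n) (hk : PTf 𝒜 k) :
    PTf 𝒜 (fun A x => sd (n A x) (k A x)) := by
  unfold sd
  exact (ptf_bt hn hk).length.mul ((ptf_lt hn).mul (ptf_wt hn))

theorem pt_pos (n : ℕ) : 0 < LibPtt90.pt n := (pt_spec n).1.pos

theorem wt_pos (n : ℕ) : 0 < wt n := (wt_spec n).1.pos

theorem ptf_ext {n k : Orc → α → ℕ} {x y : Orc → α → List Bool} (hn : PTf 𝒜 n) (hk : PTf 𝒜 k)
    (hx : PTf 𝒜 x) (hy : PTf 𝒜 y) :
    PTf 𝒜 (fun A z => ext (n A z) (k A z) (x A z) (y A z)) := by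
  unfold ext
  exact ptf_trev ((ptf_wt hn).mul hk) (ptf_pt hn) (ptf_kap hn) (ptf_wt hn) (ptf_bt hn hk) hx hy
    (fun A _ z => pt_pos _) (fun A _ z => wt_pos _)

theorem ptf_padr {n : Orc → α → ℕ} {z : Orc → α → List Bool} (hn : PTf 𝒜 n) (hz : PTf 𝒜 z) :
    PTf 𝒜 (fun A x => padr (n A x) (z A x)) := by
  unfold padr
  with_reducible
    apply PTf.append; assumption; apply PTf.replicate; apply PTf.sub; assumption; apply PTf.length
    assumption; apply PTf.const

/-- all strings of length `n` when `2 ^ n ≤ cap` -/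
theorem ptf_allS {cap n : Orc → α → ℕ} (hc : PTf 𝒜 cap) (hn : PTf 𝒜 n) :
    PTf 𝒜 (fun A x => allS (cap A x) (n A x)) := by
  unfold allS
  have h : PTf 𝒜 (fun A x => min (cap A x) (2 ^ n A x)) := ptf_cpow hc (PTf.const 2) hn
  refine h.range.map ?_
  exact ptf_bits (hn.comp PTf.id.fst) PTf.id.snd

/-! ### functions of a number `L`, computed from `2 ^ L` and `L` -/

section

variable {N L : Orc → α → ℕ}

theorem three_pow_le (L : ℕ) : 3 ^ L ≤ 2 ^ L * 2 ^ L := by
  rw [← mul_pow]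
  exact Nat.pow_le_pow_left (by norm_num) L

theorem ptf_three (hN : PTf 𝒜 N) (hL : PTf 𝒜 L) (h : ∀ A ∈ 𝒜, ∀ x, N A x = 2 ^ L A x) :
    PTf 𝒜 (fun A x => 3 ^ L A x) :=
  ptf_pow_le (hN.mul hN) (PTf.const 3) hL fun A hA x => by
    rw [h A hA x]
    exact three_pow_le _

theorem ptf_gp (hN : PTf 𝒜 N) (hL : PTf 𝒜 L) (h : ∀ A ∈ 𝒜, ∀ x, N A x = 2 ^ L A x) :
    PTf 𝒜 (fun A x => gp (L A x)) := by
  have h3 := ptf_three hN hL h
  have h1 : PTf 𝒜 (fun A x => nextP (4 * N A x * 3 ^ L A x * N A x)) :=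
    ptf_nextP ((((PTf.const 4).mul hN).mul h3).mul hN)
  refine h1.congr fun A hA x => ?_
  unfold gp
  rw [h A hA x]

theorem ptf_gb (hN : PTf 𝒜 N) (hL : PTf 𝒜 L) (h : ∀ A ∈ 𝒜, ∀ x, N A x = 2 ^ L A x) :
    PTf 𝒜 (fun A x => gb (L A x)) := by
  unfold gb
  exact ptf_size (ptf_gp hN hL h)

theorem ptf_gm (A₀ : ℕ) {m : Orc → α → ℕ} (hL : PTf 𝒜 L) (hm : PTf 𝒜 m) :
    PTf 𝒜 (fun A x => gm A₀ (L A x) (m A x)) := by
  unfold gm
  exact ptf_div (hm.add ((PTf.const A₀).mul hL.succ)) hL.succ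

theorem gp_pos (L : ℕ) : 0 < gp L := (gp_spec L).1.pos

theorem ptf_cond (A₀ : ℕ) {m y : Orc → α → ℕ} {x : Orc → α → List Bool} (hN : PTf 𝒜 N)
    (hL : PTf 𝒜 L) (h : ∀ A ∈ 𝒜, ∀ x, N A x = 2 ^ L A x) (hm : PTf 𝒜 m) (hx : PTf 𝒜 x)
    (hy : PTf 𝒜 y) : PTf 𝒜 (fun A z => LibPtt90.cond A₀ (L A z) (m A z) (x A z) (y A z)) := by
  unfold LibPtt90.cond
  have hg := ptf_gp hN hL h
  exact ptf_guv hg (ptf_three hN hL h) (ptf_pair hg).fst (ptf_pair hg).snd hL.succ
    (ptf_gb hN hL h) (ptf_gm A₀ hL hm) hx hy (fun A _ z => gp_pos _)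

theorem cap_eq (L C : ℕ) : (2 * 2 ^ L) ^ C = 2 ^ ((L + 1) * C) := by
  rw [pow_mul, pow_succ]
  congr 1
  ring

theorem ptf_capped (C : ℕ) {n : Orc → α → ℕ} (hN : PTf 𝒜 N)
    (h : ∀ A ∈ 𝒜, ∀ x, N A x = 2 ^ L A x) (hn : PTf 𝒜 n) :
    PTf 𝒜 (fun A x => allS (2 ^ ((L A x + 1) * C)) (n A x)) := by
  have h1 : PTf 𝒜 (fun A x => allS ((2 * N A x) ^ C) (n A x)) :=
    ptf_allS (((PTf.const 2).mul hN).pow C) hn
  exact h1.congr fun A hA x => by rw [h A hA x, cap_eq]

theorem ptf_small (A₀ C : ℕ) {m : Orc → α → ℕ} {x : Orc → α → List Bool} (hN : PTf 𝒜 N)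
    (hL : PTf 𝒜 L) (h : ∀ A ∈ 𝒜, ∀ x, N A x = 2 ^ L A x) (hm : PTf 𝒜 m) (hx : PTf 𝒜 x) :
    PTf 𝒜 (fun A z => small A₀ C (L A z) (m A z) (x A z)) := by
  unfold small
  have h1 : PTf 𝒜 (fun A x => gm A₀ (L A x) (m A x) * gb (L A x)) :=
    (ptf_gm A₀ hL hm).mul (ptf_gb hN hL h)
  have h2 : PTf 𝒜 (fun A x => m A x / wt (gm A₀ (L A x) (m A x) * gb (L A x)) + 1) :=
    (ptf_div hm (ptf_wt h1)).succ
  refine (ptf_gp hN hL h).range.flatMap ?_
  refine (ptf_capped (N := fun A (p : α × ℕ) => N A p.1) (L := fun A (p : α × ℕ) => L A p.1) C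
    (hN.comp PTf.id.fst) (fun A hA p => h A hA p.1) ((ptf_sd h1 h2).comp PTf.id.fst)).map ?_
  refine (ptf_ext (h1.comp PTf.id.fst.fst) (h2.comp PTf.id.fst.fst) ?_ PTf.id.snd).take
    (hm.comp PTf.id.fst.fst)
  exact ptf_cond (N := fun A (p : (α × ℕ) × List Bool) => N A p.1.1) A₀ (hN.comp PTf.id.fst.fst)
    (hL.comp PTf.id.fst.fst) (fun A hA p => h A hA p.1.1) (hm.comp PTf.id.fst.fst)
    (hx.comp PTf.id.fst.fst) PTf.id.fst.snd

theorem ptf_D1 {n : Orc → α → ℕ} (hn : PTf 𝒜 n) : PTf 𝒜 (fun A x => D1 (n A x)) := by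
  unfold D1
  with_reducible
    apply PTf.mul; apply PTf.mul; apply PTf.mul; apply PTf.const; apply ptf_wt; assumption
    apply PTf.add; apply ptf_size; assumption; apply PTf.const; apply PTf.mul; apply ptf_lt
    assumption; apply ptf_wt; assumption

theorem ptf_big (A₀ C : ℕ) {m : Orc → α → ℕ} {x : Orc → α → List Bool} (hN : PTf 𝒜 N)
    (hL : PTf 𝒜 L) (h : ∀ A ∈ 𝒜, ∀ x, N A x = 2 ^ L A x) (hm : PTf 𝒜 m) (hx : PTf 𝒜 x) :
    PTf 𝒜 (fun A z => big A₀ C (L A z) (m A z) (x A z)) := by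
  have hq : PTf 𝒜 (fun A z => (m A z - D1 (N A z)) / wt (N A z)) :=
    ptf_div (hm.sub (ptf_D1 hN)) (ptf_wt hN)
  have hr : PTf 𝒜 (fun A z => (m A z - D1 (N A z)) % wt (N A z)) :=
    ptf_mod (hm.sub (ptf_D1 hN)) (ptf_wt hN)
  have key : PTf 𝒜 (fun A z => (List.range (N A z + 1)).flatMap fun i =>
      (small A₀ C (L A z) (D1 (N A z)) (padr (N A z) ((x A z).drop i))).flatMap fun y =>
        (allS (2 ^ ((L A z + 1) * C)) ((m A z - D1 (N A z)) % wt (N A z))).map fun u =>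
          y ++ (ext (N A z) ((m A z - D1 (N A z)) / wt (N A z))
            (padr (N A z) ((x A z).take i)) y ++ u)) := by
    refine hN.succ.range.flatMap ?_
    refine PTf.flatMap ?_ ?_
    · exact ptf_small (N := fun A (p : α × ℕ) => N A p.1) (L := fun A (p : α × ℕ) => L A p.1)
        A₀ C (hN.comp PTf.id.fst) (hL.comp PTf.id.fst) (fun A hA p => h A hA p.1)
        ((ptf_D1 hN).comp PTf.id.fst)
        (ptf_padr (hN.comp PTf.id.fst) ((hx.comp PTf.id.fst).drop PTf.id.snd))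
    · refine PTf.map ?_ ?_
      · exact ptf_capped (N := fun A (p : (α × ℕ) × List Bool) => N A p.1.1)
          (L := fun A (p : (α × ℕ) × List Bool) => L A p.1.1) C (hN.comp PTf.id.fst.fst)
          (fun A hA p => h A hA p.1.1) (hr.comp PTf.id.fst.fst)
      · refine PTf.id.fst.snd.append (PTf.append ?_ PTf.id.snd)
        exact ptf_ext (hN.comp PTf.id.fst.fst.fst) (hq.comp PTf.id.fst.fst.fst)
          (ptf_padr (hN.comp PTf.id.fst.fst.fst)
            ((hx.comp PTf.id.fst.fst.fst).take PTf.id.fst.fst.snd)) PTf.id.fst.snd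
  exact key.congr fun A hA z => by
    unfold big
    rw [h A hA z]

theorem ptf_disp (A₀ C : ℕ) {m : Orc → α → ℕ} {x : Orc → α → List Bool} (hN : PTf 𝒜 N)
    (hL : PTf 𝒜 L) (h : ∀ A ∈ 𝒜, ∀ x, N A x = 2 ^ L A x) (hm : PTf 𝒜 m) (hx : PTf 𝒜 x) :
    PTf 𝒜 (fun A z => disp A₀ C (L A z) (m A z) (x A z)) := by
  have h1 : PTf 𝒜 (fun A z => if m A z < D1 (N A z) + wt (N A z) then
      small A₀ C (L A z) (m A z) (x A z) else big A₀ C (L A z) (m A z) (x A z)) :=
    PTf.ifP (PTf.decide_lt hm ((ptf_D1 hN).add (ptf_wt hN))) (ptf_small A₀ C hN hL h hm hx)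
      (ptf_big A₀ C hN hL h hm hx)
  exact h1.congr fun A hA z => by
    unfold disp
    rw [h A hA z]

end

end Pool.Agent.LibPtt90
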