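import Pool.Agent.LibPtt90.Defs

open Finset Function Polynomial

namespace Pool.Agent.LibPtt90

namespace TaskA

set_option linter.unusedSectionVars false

variable {X U Λ : Type} [Fintype U] [DecidableEq U] [Fintype Λ] [DecidableEq Λ]

/-- the bits of the output -/
def bb (C : X → (Λ → Bool) → Bool) {m : ℕ} (σ : Fin m → Λ → U) (x : X) (y : U → Bool)
    (i : Fin m) : Bool := C x (fun a => y (σ i a))

/-- the hybrid words -/
def hy (C : X → (Λ → Bool) → Bool) {m : ℕ} (σ : Fin m → Λ → U) (k : ℕ) (x : X) (y : U → Bool)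
    (r : Fin m → Bool) : Fin m → Bool := fun i => if (i : ℕ) < k then bb C σ x y i else r i

/-- the predictor -/
def pr (C : X → (Λ → Bool) → Bool) {m : ℕ} (σ : Fin m → Λ → U)
    (Z : Finset ((U → Bool) × (Fin m → Bool))) (i : Fin m) (x : X) (y : U → Bool)
    (r : Fin m → Bool) : Bool := if (y, hy C σ i x y r) ∈ Z then r i else !(r i)

/-- flipping one coordinate -/
def flip {m : ℕ} (i : Fin m) :
    ((U → Bool) × (Fin m → Bool)) ≃ ((U → Bool) × (Fin m → Bool)) where
  toFun q := (q.1, Function.update q.2 i (!(q.2 i)))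
  invFun q := (q.1, Function.update q.2 i (!(q.2 i)))
  left_inv q := by simp
  right_inv q := by simp

omit [Fintype U] [DecidableEq U] [Fintype Λ] [DecidableEq Λ] in
theorem hy_succ_flip (C : X → (Λ → Bool) → Bool) {m : ℕ} (σ : Fin m → Λ → U) (i : Fin m)
    (x : X) (y : U → Bool) (r : Fin m → Bool) (b : Bool) :
    hy C σ (i + 1) x y (Function.update r i b) = hy C σ (i + 1) x y r := by
  funext j
  unfold hy
  by_cases h : (j : ℕ) < i + 1
  · rw [if_pos h, if_pos h]
  · rw [if_neg h, if_neg h, Function.update_of_ne]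
    intro hj; rw [hj] at h; omega

omit [Fintype U] [DecidableEq U] [Fintype Λ] [DecidableEq Λ] in
theorem hy_eq (C : X → (Λ → Bool) → Bool) {m : ℕ} (σ : Fin m → Λ → U) (i : Fin m)
    (x : X) (y : U → Bool) (r : Fin m → Bool) (h : r i = bb C σ x y i) :
    hy C σ i x y r = hy C σ (i + 1) x y r := by
  funext j
  unfold hy
  by_cases h1 : (j : ℕ) < i
  · rw [if_pos h1, if_pos (by omega)]
  · rw [if_neg h1]
    by_cases h2 : (j : ℕ) < i + 1
    · have : j = i := Fin.ext (by omega)
      rw [if_pos h2, this, h]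
    · rw [if_neg h2]

omit [DecidableEq U] [Fintype Λ] [DecidableEq Λ] in
theorem pointwise (C : X → (Λ → Bool) → Bool) {m : ℕ} (σ : Fin m → Λ → U)
    (Z : Finset ((U → Bool) × (Fin m → Bool))) (i : Fin m) (x : X) (y : U → Bool)
    (r : Fin m → Bool) :
    (if pr C σ Z i x y r = bb C σ x y i then 1 else 0) +
    (if pr C σ Z i x y (Function.update r i (!(r i))) = bb C σ x y i then 1 else 0) +
    ((if (y, hy C σ i x y r) ∈ Z then 1 else 0) +
     (if (y, hy C σ i x y (Function.update r i (!(r i)))) ∈ Z then 1 else 0)) =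
    1 + ((if (y, hy C σ (i + 1) x y r) ∈ Z then 1 else 0) +
     (if (y, hy C σ (i + 1) x y (Function.update r i (!(r i)))) ∈ Z then 1 else 0) : ℕ) := by
  have e1 : hy C σ (i + 1) x y (Function.update r i (!(r i))) = hy C σ (i + 1) x y r :=
    hy_succ_flip C σ i x y r _
  have e2 : (Function.update r i (!(r i))) i = !(r i) := by simp
  generalize Function.update r i (!(r i)) = r' at *
  rw [e1]
  unfold pr
  by_cases hr : r i = bb C σ x y i
  · have h1 := hy_eq C σ i x y r hr
    rw [← h1, e2, hr]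
    by_cases h2 : (y, hy C σ i x y r) ∈ Z <;> by_cases h3 : (y, hy C σ i x y r') ∈ Z <;>
      simp [h2, h3]
  · have hr' : r' i = bb C σ x y i := by
      rw [e2]
      cases h1 : r i <;> cases h2 : bb C σ x y i <;> simp_all
    have hr2 : r i = !(bb C σ x y i) := by
      rw [← hr', e2, Bool.not_not]
    have h1 := hy_eq C σ i x y r' hr'
    rw [e1] at h1
    rw [← h1, hr', hr2]
    by_cases h2 : (y, hy C σ i x y r) ∈ Z <;> by_cases h3 : (y, hy C σ i x y r') ∈ Z <;>
      simp [h2, h3]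

/-- the number of hybrid words in `Z` -/
def NN (C : X → (Λ → Bool) → Bool) {m : ℕ} (σ : Fin m → Λ → U)
    (Z : Finset ((U → Bool) × (Fin m → Bool))) (x : X) (k : ℕ) : ℕ :=
  #{q : (U → Bool) × (Fin m → Bool) | (q.1, hy C σ k x q.1 q.2) ∈ Z}

/-- the number of successful predictions -/
def AA (C : X → (Λ → Bool) → Bool) {m : ℕ} (σ : Fin m → Λ → U)
    (Z : Finset ((U → Bool) × (Fin m → Bool))) (x : X) (i : Fin m) : ℕ :=
  #{q : (U → Bool) × (Fin m → Bool) | pr C σ Z i x q.1 q.2 = bb C σ x q.1 i}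

theorem step (C : X → (Λ → Bool) → Bool) {m : ℕ} (σ : Fin m → Λ → U)
    (Z : Finset ((U → Bool) × (Fin m → Bool))) (x : X) (i : Fin m) :
    2 * AA C σ Z x i + 2 * NN C σ Z x i =
      2 ^ Fintype.card U * 2 ^ m + 2 * NN C σ Z x (i + 1) := by
  have hsum : ∀ F : (U → Bool) × (Fin m → Bool) → ℕ,
      2 * ∑ q, F q = ∑ q, (F q + F (flip i q)) := by
    intro F
    rw [sum_add_distrib, Equiv.sum_comp (flip i) F]
    ring
  unfold AA NN
  rw [card_filter, card_filter, card_filter, hsum, hsum, hsum, ← sum_add_distrib]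
  have hc : 2 ^ Fintype.card U * 2 ^ m = ∑ _q : (U → Bool) × (Fin m → Bool), 1 := by
    simp
  rw [hc, ← sum_add_distrib]
  apply sum_congr rfl
  intro q _
  exact pointwise C σ Z i x q.1 q.2

theorem telescoped (C : X → (Λ → Bool) → Bool) {m : ℕ} (σ : Fin m → Λ → U)
    (Z : Finset ((U → Bool) × (Fin m → Bool))) (x : X) :
    2 * ∑ i, AA C σ Z x i + 2 * NN C σ Z x 0 =
      m * (2 ^ Fintype.card U * 2 ^ m) + 2 * NN C σ Z x m := by
  have h1 : ∑ i : Fin m, (2 * AA C σ Z x i + 2 * NN C σ Z x i) =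
      ∑ i : Fin m, (2 ^ Fintype.card U * 2 ^ m + 2 * NN C σ Z x (i + 1)) :=
    sum_congr rfl fun i _ => step C σ Z x i
  rw [sum_add_distrib, sum_add_distrib, ← mul_sum, ← mul_sum,
    ← mul_sum (f := fun i : Fin m => NN C σ Z x (i + 1)),
    Fin.sum_univ_eq_sum_range (fun i => NN C σ Z x i),
    Fin.sum_univ_eq_sum_range (fun i => NN C σ Z x (i + 1)), sum_const, card_univ,
    Fintype.card_fin, smul_eq_mul] at h1
  have h2 := sum_range_succ (fun i => NN C σ Z x i) m
  have h3 := sum_range_succ' (fun i => NN C σ Z x i) m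
  rw [h2] at h3
  omega

theorem NN_zero (C : X → (Λ → Bool) → Bool) {m : ℕ} (σ : Fin m → Λ → U)
    (Z : Finset ((U → Bool) × (Fin m → Bool))) (x : X) : NN C σ Z x 0 = #Z := by
  have h : ∀ (y : U → Bool) (r : Fin m → Bool), hy C σ 0 x y r = r := by
    intro y r; funext j; simp [hy]
  unfold NN
  congr 1
  ext q
  simp [h]

theorem NN_top (C : X → (Λ → Bool) → Bool) {m : ℕ} (σ : Fin m → Λ → U)
    (Z : Finset ((U → Bool) × (Fin m → Bool))) (x : X) : NN C σ Z x m =
    2 ^ m * #{y : U → Bool | (y, fun i => C x (fun a => y (σ i a))) ∈ Z} := by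
  have h : ∀ (y : U → Bool) (r : Fin m → Bool),
      hy C σ m x y r = fun i => C x (fun a => y (σ i a)) := by
    intro y r; funext j; simp [hy, bb]
  unfold NN
  have h1 : ({q : (U → Bool) × (Fin m → Bool) | (q.1, hy C σ m x q.1 q.2) ∈ Z} : Finset _) =
      ({y : U → Bool | (y, fun i => C x (fun a => y (σ i a))) ∈ Z} : Finset _) ×ˢ univ := by
    ext q
    simp [h]
  rw [h1, card_product, card_univ, Fintype.card_fun]
  simp [mul_comm]

/-- override on the range of an injective function -/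
noncomputable def swap {s : Λ → U} (hs : Injective s) :
    ((U → Bool) × (Λ → Bool)) ≃ ((U → Bool) × (Λ → Bool)) where
  toFun q := (extend s q.2 q.1, q.1 ∘ s)
  invFun q := (extend s q.2 q.1, q.1 ∘ s)
  left_inv q := by
    apply Prod.ext
    · funext u
      by_cases h : ∃ a, s a = u
      · obtain ⟨a, rfl⟩ := h
        simp [hs.extend_apply]
      · simp only
        rw [extend_apply' _ _ _ h, extend_apply' _ _ _ h]
    · funext a
      simp [hs.extend_apply]
  right_inv q := by
    apply Prod.ext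
    · funext u
      by_cases h : ∃ a, s a = u
      · obtain ⟨a, rfl⟩ := h
        simp [hs.extend_apply]
      · simp only
        rw [extend_apply' _ _ _ h, extend_apply' _ _ _ h]
    · funext a
      simp [hs.extend_apply]

theorem sum_override {s : Λ → U} (hs : Injective s) (F : (U → Bool) → ℕ) :
    ∑ y₀, ∑ v, F (extend s v y₀) = 2 ^ Fintype.card Λ * ∑ y, F y := by
  have h1 : ∑ q : (U → Bool) × (Λ → Bool), F (swap hs q).1 =
      ∑ q : (U → Bool) × (Λ → Bool), F q.1 := Equiv.sum_comp (swap hs) (fun q => F q.1)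
  rw [Fintype.sum_prod_type, Fintype.sum_prod_type] at h1
  have h2 : ∑ y₀, ∑ v, F (extend s v y₀) =
      ∑ y₀ : U → Bool, ∑ v : Λ → Bool, F (swap hs (y₀, v)).1 := rfl
  rw [h2, h1, mul_sum]
  apply sum_congr rfl
  intro y _
  simp

/-- the number of arguments at which the predictor is correct -/
noncomputable def agrm (C : X → (Λ → Bool) → Bool) {m : ℕ} (σ : Fin m → Λ → U)
    (Z : Finset ((U → Bool) × (Fin m → Bool))) (x : X) (i : Fin m) (y₀ : U → Bool)
    (r : Fin m → Bool) : ℕ :=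
  #{v : Λ → Bool | C x v = pr C σ Z i x (extend (σ i) v y₀) r}

theorem sum_agrm (C : X → (Λ → Bool) → Bool) {m : ℕ} (σ : Fin m → Λ → U)
    (hσ : ∀ i, Injective (σ i))
    (Z : Finset ((U → Bool) × (Fin m → Bool))) (x : X) (i : Fin m) :
    ∑ q : (U → Bool) × (Fin m → Bool), agrm C σ Z x i q.1 q.2 =
      2 ^ Fintype.card Λ * AA C σ Z x i := by
  unfold AA agrm
  rw [card_filter, Fintype.sum_prod_type_right, Fintype.sum_prod_type_right, mul_sum]
  apply sum_congr rfl
  intro r _
  rw [← sum_override (hσ i)]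
  apply sum_congr rfl
  intro y₀ _
  rw [card_filter]
  apply sum_congr rfl
  intro v _
  have : bb C σ x (extend (σ i) v y₀) i = C x v := by
    unfold bb
    congr 1
    funext a
    exact (hσ i).extend_apply _ _ _
  simp only [this]
  simp only [eq_comm]

end TaskA

open TaskA in
theorem trevisan_core {X U Λ : Type} [Fintype U] [DecidableEq U] [Fintype Λ] [DecidableEq Λ]
    [DecidableEq X] (C : X → (Λ → Bool) → Bool) {m : ℕ} (hm : 0 < m) (σ : Fin m → Λ → U)
    (hσ : ∀ i, Injective (σ i)) {Lst T : ℕ}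
    (hC : ∀ (g : (Λ → Bool) → Bool) (Q : Finset X), (∀ x ∈ Q,
      2 ^ Fintype.card Λ * (4 * m + 1) ≤ 8 * m * #{v : Λ → Bool | C x v = g v}) → #Q ≤ Lst)
    (hT : ∀ i, ∑ j with j < i, 2 ^ #{a : Λ | ∃ b, σ j b = σ i a} ≤ T)
    (Z : Finset ((U → Bool) × (Fin m → Bool))) (P : Finset X)
    (hP : ∀ x ∈ P, 2 ^ Fintype.card U * 2 ^ m + 4 * #Z ≤
      4 * 2 ^ m * #{y : U → Bool | (y, fun i => C x (fun a => y (σ i a))) ∈ Z}) :
    #P ≤ 4 * m * 2 ^ T * Lst := by
  classical
  set M : ℕ := 2 ^ Fintype.card U * 2 ^ m with hM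
  set N : ℕ := 2 ^ Fintype.card Λ with hN
  have hN0 : 0 < N := by positivity
  -- total success
  have h1 : ∀ x ∈ P, M * (2 * m + 1) ≤ 4 * ∑ i, AA C σ Z x i := by
    intro x hx
    have h2 := telescoped C σ Z x
    have h3 := hP x hx
    rw [NN_zero, NN_top] at h2
    rw [mul_assoc] at h3
    rw [← hM] at h2
    nlinarith
  -- a good choice
  obtain ⟨⟨i, y₀, r⟩, -, hi⟩ : ∃ q ∈ (univ : Finset (Fin m × (U → Bool) × (Fin m → Bool))),
      #P * N * (2 * m + 1) ≤ m * ∑ x ∈ P, 4 * agrm C σ Z x q.1 q.2.1 q.2.2 := by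
    have hne : (univ : Finset (Fin m × (U → Bool) × (Fin m → Bool))).Nonempty :=
      ⟨(⟨0, hm⟩, fun _ => false, fun _ => false), mem_univ _⟩
    apply exists_le_of_sum_le hne
    rw [sum_const, card_univ, Fintype.card_prod, Fintype.card_prod, Fintype.card_fun,
      Fintype.card_fun, Fintype.card_bool, Fintype.card_fin, smul_eq_mul, ← mul_sum, sum_comm]
    have h2 : ∀ x ∈ P, N * (M * (2 * m + 1)) ≤
        ∑ q : Fin m × (U → Bool) × (Fin m → Bool), 4 * agrm C σ Z x q.1 q.2.1 q.2.2 := by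
      intro x hx
      rw [← mul_sum, Fintype.sum_prod_type]
      have h3 : ∀ i : Fin m, ∑ q : (U → Bool) × (Fin m → Bool), agrm C σ Z x i q.1 q.2 =
          N * AA C σ Z x i := fun i => sum_agrm C σ hσ Z x i
      simp only [h3]
      rw [← mul_sum]
      have := Nat.mul_le_mul_left N (h1 x hx)
      nlinarith
    have h4 := sum_le_sum h2
    rw [sum_const, smul_eq_mul] at h4
    calc m * M * (#P * N * (2 * m + 1)) = m * (#P * (N * (M * (2 * m + 1)))) := by ring
      _ ≤ _ := Nat.mul_le_mul_left m h4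
  simp only at hi
  -- the successful inputs
  set Q : Finset X := {x ∈ P | N * (4 * m + 1) ≤ 8 * m * agrm C σ Z x i y₀ r} with hQ
  have hcardQ : #P ≤ 4 * m * #Q := by
    have hle : ∀ x ∈ P, 8 * m * agrm C σ Z x i y₀ r ≤
        (if x ∈ Q then 8 * m * N else N * (4 * m + 1)) := by
      intro x hx
      by_cases hxQ : x ∈ Q
      · rw [if_pos hxQ]
        apply Nat.mul_le_mul_left
        unfold agrm
        refine (card_filter_le _ _).trans ?_
        simp [hN]
      · rw [if_neg hxQ]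
        by_contra hc
        apply hxQ
        rw [hQ, mem_filter]
        exact ⟨hx, by omega⟩
    have h5 := sum_le_sum hle
    have hQP : Q ⊆ P := filter_subset _ _
    rw [sum_ite, sum_const, sum_const, smul_eq_mul, smul_eq_mul] at h5
    have h6 : P.filter (fun x => x ∈ Q) = Q := by
      ext x; rw [mem_filter]; exact ⟨fun h => h.2, fun h => ⟨hQP h, h⟩⟩
    have h7 : #(P.filter (fun x => x ∉ Q)) + #Q = #P := by
      have := card_filter_add_card_filter_not (s := P) (fun x => x ∈ Q)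
      rw [h6] at this; omega
    rw [h6] at h5
    have h8 : 2 * (m * ∑ x ∈ P, 4 * agrm C σ Z x i y₀ r) =
        ∑ x ∈ P, 8 * m * agrm C σ Z x i y₀ r := by
      rw [mul_sum, mul_sum]
      apply sum_congr rfl
      intro x _
      ring
    have h9 : 2 * (#P * N * (2 * m + 1)) ≤
        #Q * (8 * m * N) + #(P.filter (fun x => x ∉ Q)) * (N * (4 * m + 1)) := by
      refine le_trans (Nat.mul_le_mul_left 2 hi) ?_
      rw [h8]; exact h5
    set R := #(P.filter (fun x => x ∉ Q)) with hR
    have h10 : 2 * (#P * (2 * m + 1)) ≤ #Q * (8 * m) + R * (4 * m + 1) := by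
      have : N * (2 * (#P * (2 * m + 1))) ≤ N * (#Q * (8 * m) + R * (4 * m + 1)) := by
        calc N * (2 * (#P * (2 * m + 1))) = 2 * (#P * N * (2 * m + 1)) := by ring
          _ ≤ _ := h9
          _ = _ := by ring
      exact Nat.le_of_mul_le_mul_left this hN0
    rw [← h7] at h10 ⊢
    nlinarith
  -- tables
  let J := {j : Fin m // j < i}
  let tab : X → (∀ j : J, ({a : Λ // ∃ b, σ j.1 b = σ i a} → Bool) → Bool) := fun x j w =>
    bb C σ x (extend (σ i) (fun a => if h : ∃ b, σ j.1 b = σ i a then w ⟨a, h⟩ else y₀ (σ i a)) y₀)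
      j.1
  have htab : ∀ x (v : Λ → Bool) (j : J),
      bb C σ x (extend (σ i) v y₀) j.1 = tab x j (fun a => v a.1) := by
    intro x v j
    show bb C σ x _ j.1 = bb C σ x _ j.1
    unfold bb
    congr 1
    funext b
    by_cases h : ∃ a, σ i a = σ j.1 b
    · obtain ⟨a, ha⟩ := h
      rw [← ha, (hσ i).extend_apply, (hσ i).extend_apply, dif_pos ⟨b, ha.symm⟩]
    · rw [extend_apply' _ _ _ h, extend_apply' _ _ _ h]
  have hsame : ∀ x x', tab x = tab x' → ∀ v,
      pr C σ Z i x (extend (σ i) v y₀) r = pr C σ Z i x' (extend (σ i) v y₀) r := by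
    intro x x' h v
    have h2 : hy C σ i x (extend (σ i) v y₀) r = hy C σ i x' (extend (σ i) v y₀) r := by
      funext j
      unfold hy
      by_cases hj : (j : ℕ) < i
      · rw [if_pos hj, if_pos hj]
        have e1 := htab x v ⟨j, hj⟩
        have e2 := htab x' v ⟨j, hj⟩
        rw [h] at e1
        exact e1.trans e2.symm
      · rw [if_neg hj, if_neg hj]
    unfold pr
    rw [h2]
  have hQcard : #Q ≤ Lst * #(Q.image tab) := by
    apply card_le_mul_card_image
    intro t ht
    obtain ⟨x₀, hx₀, rfl⟩ := mem_image.1 ht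
    apply hC (fun v => pr C σ Z i x₀ (extend (σ i) v y₀) r)
    intro x hx
    rw [mem_filter] at hx
    have h2 := (mem_filter.1 hx.1).2
    refine h2.trans (le_of_eq ?_)
    unfold agrm
    congr 2
    ext v
    rw [mem_filter, mem_filter, hsame x x₀ hx.2 v]
  have hImg : #(Q.image tab) ≤ 2 ^ T := by
    refine (card_le_univ _).trans ?_
    rw [Fintype.card_pi]
    have h2 : ∀ j : J, Fintype.card (({a : Λ // ∃ b, σ j.1 b = σ i a} → Bool) → Bool) =
        2 ^ 2 ^ #{a : Λ | ∃ b, σ j.1 b = σ i a} := by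
      intro j
      rw [Fintype.card_fun, Fintype.card_fun, Fintype.card_bool, Fintype.card_subtype]
    simp only [h2]
    rw [prod_pow_eq_pow_sum]
    apply Nat.pow_le_pow_right (by norm_num)
    refine le_trans (le_of_eq ?_) (hT i)
    rw [sum_subtype (p := fun j => j < i) (s := univ.filter (fun j => j < i)) (by simp)
      (fun j => 2 ^ #{a : Λ | ∃ b, σ j b = σ i a})]
  calc #P ≤ 4 * m * #Q := hcardQ
    _ ≤ 4 * m * (Lst * #(Q.image tab)) := Nat.mul_le_mul_left _ hQcard
    _ ≤ 4 * m * (Lst * 2 ^ T) := Nat.mul_le_mul_left _ (Nat.mul_le_mul_left _ hImg)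
    _ = 4 * m * 2 ^ T * Lst := by ring

end Pool.Agent.LibPtt90
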