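import Pool.Agent.LibPtt90.Defs

open Finset Function Polynomial

namespace Pool.Agent.LibPtt90

section
variable {K : Type} [Field K] [Fintype K] [DecidableEq K]

omit [DecidableEq K] in
/-- interpolation: a nonzero coefficient vector whose polynomial vanishes on a small set -/
theorem exists_coeffs (h μ : ℕ) (G : Finset (Fin μ → K)) (hG : #G < h ^ μ) :
    ∃ c : (Fin μ → Fin h) → K, c ≠ 0 ∧
      ∀ g ∈ G, ∑ j : Fin μ → Fin h, c j * ∏ i, g i ^ (j i : ℕ) = 0 := by
  classical
  let T : ((Fin μ → Fin h) → K) →ₗ[K] (G → K) :=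
    { toFun := fun c g => ∑ j : Fin μ → Fin h, c j * ∏ i, g.1 i ^ (j i : ℕ)
      map_add' := by
        intro a b
        funext g
        simp [add_mul, Finset.sum_add_distrib]
      map_smul' := by
        intro a b
        funext g
        simp [Finset.mul_sum, mul_assoc] }
  have hker : LinearMap.ker T ≠ ⊥ := by
    apply LinearMap.ker_ne_bot_of_finrank_lt
    simpa using hG
  obtain ⟨c, hc, hne⟩ := (Submodule.ne_bot_iff _).1 hker
  refine ⟨c, hne, ?_⟩
  intro g hg
  have := congrFun (LinearMap.mem_ker.1 hc) ⟨g, hg⟩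
  simpa [T] using this

theorem card_F_lt (E : K[X]) (hE : Irreducible E) (h μ : ℕ) (hh : 2 ≤ h)
    (hq : (h - 1) * (E.natDegree - 1) * μ < Fintype.card K) (F : Finset K[X])
    (hF : ∀ f ∈ F, f.degree < E.degree) (G : Finset (Fin μ → K))
    (hG : ∀ f ∈ F, ∀ y : K, (fun i : Fin μ => ((f ^ h ^ (i : ℕ)) % E).eval y) ∈ G)
    (hcard : #G < h ^ μ) : #F < h ^ μ := by
  classical
  obtain ⟨c, hc0, hc⟩ := exists_coeffs h μ G hcard
  have hE0 : E ≠ 0 := hE.ne_zero
  have hEd : 0 < E.natDegree := hE.natDegree_pos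
  have : Fact (Irreducible E) := ⟨hE⟩
  -- the univariate polynomials vanish
  have hzero : ∀ f ∈ F, (∑ j : Fin μ → Fin h, C (c j) *
      ∏ i : Fin μ, ((f ^ h ^ (i : ℕ)) % E) ^ (j i : ℕ)) = 0 := by
    intro f hf
    by_contra hne
    have hdeg : (∑ j : Fin μ → Fin h, C (c j) *
      ∏ i : Fin μ, ((f ^ h ^ (i : ℕ)) % E) ^ (j i : ℕ)).natDegree < Fintype.card K := by
      refine lt_of_le_of_lt ?_ hq
      apply Polynomial.natDegree_sum_le_of_forall_le
      intro j _
      refine (Polynomial.natDegree_C_mul_le _ _).trans ?_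
      refine (Polynomial.natDegree_prod_le _ _).trans ?_
      calc ∑ i : Fin μ, (((f ^ h ^ (i : ℕ)) % E) ^ (j i : ℕ)).natDegree
          ≤ ∑ i : Fin μ, (h - 1) * (E.natDegree - 1) := by
            apply Finset.sum_le_sum
            intro i _
            refine (Polynomial.natDegree_pow_le).trans ?_
            apply Nat.mul_le_mul
            · have := (j i).2; omega
            · have h1 : ((f ^ h ^ (i : ℕ)) % E).degree < E.degree := EuclideanDomain.mod_lt _ hE0
              have h2 : ((f ^ h ^ (i : ℕ)) % E).natDegree < E.natDegree := by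
                by_cases hz : (f ^ h ^ (i : ℕ)) % E = 0
                · rw [hz]; simpa using hEd
                · exact Polynomial.natDegree_lt_natDegree hz h1
              omega
        _ = (h - 1) * (E.natDegree - 1) * μ := by simp [mul_comm]
    apply hne
    apply Polynomial.eq_zero_of_natDegree_lt_card_of_eval_eq_zero _ (f := fun y : K => y)
      Function.injective_id _ hdeg
    intro y
    have := hc _ (hG f hf y)
    simpa [Polynomial.eval_finsetSum, Polynomial.eval_prod] using this
  -- the polynomial over the field K[X]/E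
  let L := AdjoinRoot E
  let Q : L[X] := ∑ n : Fin (h ^ μ), C (AdjoinRoot.of E (c (finFunctionFinEquiv.symm n))) * X ^ (n : ℕ)
  have hcoef : ∀ n : Fin (h ^ μ), Q.coeff n = AdjoinRoot.of E (c (finFunctionFinEquiv.symm n)) := by
    intro n
    simp only [Q, Polynomial.finsetSum_coeff, Polynomial.coeff_C_mul, Polynomial.coeff_X_pow]
    rw [Finset.sum_eq_single n]
    · simp
    · intro b _ hb
      have : ((n : ℕ)) ≠ (b : ℕ) := fun hh => hb (Fin.ext hh.symm)
      simp [this]
    · simp
  have hQ0 : Q ≠ 0 := by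
    intro hQ
    apply hc0
    funext j
    have h1 := hcoef (finFunctionFinEquiv j)
    rw [hQ] at h1
    simp only [Polynomial.coeff_zero, Equiv.symm_apply_apply] at h1
    have h2 := (map_eq_zero (AdjoinRoot.of E)).1 h1.symm
    simpa using h2
  have hQd : Q.natDegree < h ^ μ := by
    have hpos : 0 < h ^ μ := by positivity
    have : Q.natDegree ≤ h ^ μ - 1 := by
      apply Polynomial.natDegree_sum_le_of_forall_le
      intro n _
      refine (Polynomial.natDegree_C_mul_X_pow_le _ _).trans ?_
      have := n.2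
      omega
    omega
  have hroot : ∀ f ∈ F, AdjoinRoot.mk E f ∈ Q.roots.toFinset := by
    intro f hf
    rw [Multiset.mem_toFinset, Polynomial.mem_roots hQ0, Polynomial.IsRoot.def]
    have h1 := congrArg (AdjoinRoot.mk E) (hzero f hf)
    rw [map_sum, map_zero] at h1
    simp only [Q, Polynomial.eval_finsetSum, Polynomial.eval_mul, Polynomial.eval_C,
      Polynomial.eval_pow, Polynomial.eval_X]
    rw [← h1, ← Equiv.sum_comp finFunctionFinEquiv]
    apply Finset.sum_congr rfl
    intro j _
    rw [Equiv.symm_apply_apply, map_mul, map_prod, finFunctionFinEquiv_apply]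
    congr 1
    rw [← Finset.prod_pow_eq_pow_sum]
    apply Finset.prod_congr rfl
    intro i _
    rw [map_pow]
    have h2 : AdjoinRoot.mk E (f ^ h ^ (i : ℕ) % E) = AdjoinRoot.mk E (f ^ h ^ (i : ℕ)) := by
      rw [AdjoinRoot.mk_eq_mk]
      exact ⟨-(f ^ h ^ (i : ℕ) / E), by
        have := EuclideanDomain.div_add_mod (f ^ h ^ (i : ℕ)) E
        linear_combination this⟩
    rw [h2, map_pow, ← pow_mul, mul_comm]
  have hinj : Set.InjOn (AdjoinRoot.mk E) (F : Set K[X]) := by
    intro f hf g hg hfg
    rw [AdjoinRoot.mk_eq_mk] at hfg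
    by_contra hne
    have h1 : f - g ≠ 0 := sub_ne_zero.2 hne
    have h2 := Polynomial.degree_le_of_dvd hfg h1
    have h3 : (f - g).degree < E.degree :=
      lt_of_le_of_lt (Polynomial.degree_sub_le f g) (max_lt (hF f hf) (hF g hg))
    exact absurd h2 (not_le.2 h3)
  calc #F ≤ #Q.roots.toFinset := Finset.card_le_card_of_injOn _ (fun f hf => hroot f hf) hinj
    _ ≤ Multiset.card Q.roots := Multiset.toFinset_card_le _
    _ ≤ Q.natDegree := Polynomial.card_roots' Q
    _ < h ^ μ := hQd

end

theorem guv_lite {K : Type} [Field K] [Fintype K] [DecidableEq K] (E : K[X])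
    (hE : Irreducible E) (h μ : ℕ) (hh : 2 ≤ h)
    (hq : (h - 1) * (E.natDegree - 1) * μ < Fintype.card K) (F : Finset K[X])
    (hF : ∀ f ∈ F, f.degree < E.degree) (hc : h ^ μ ≤ #F) :
    ∃ y : K, h ^ μ ≤ Fintype.card K *
      #(F.image fun f => fun i : Fin μ => ((f ^ h ^ (i : ℕ)) % E).eval y) := by
  classical
  by_contra hcon
  push Not at hcon
  let G : Finset (Fin μ → K) := (Finset.univ : Finset K).biUnion fun y =>
    F.image fun f => fun i : Fin μ => ((f ^ h ^ (i : ℕ)) % E).eval y
  have hG1 : h ^ μ ≤ #G := by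
    by_contra hlt
    push Not at hlt
    have := card_F_lt E hE h μ hh hq F hF G (fun f hf y => by
      simp only [G, Finset.mem_biUnion, Finset.mem_image, Finset.mem_univ, true_and]
      exact ⟨y, f, hf, rfl⟩) hlt
    omega
  have hG2 : #G ≤ ∑ y : K, #(F.image fun f => fun i : Fin μ =>
      ((f ^ h ^ (i : ℕ)) % E).eval y) := Finset.card_biUnion_le
  have hq0 : 0 < Fintype.card K := Fintype.card_pos
  have h3 : ∑ y : K, Fintype.card K * #(F.image fun f => fun i : Fin μ =>
      ((f ^ h ^ (i : ℕ)) % E).eval y) < ∑ _y : K, h ^ μ :=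
    Finset.sum_lt_sum_of_nonempty Finset.univ_nonempty (fun y _ => hcon y)
  rw [← Finset.mul_sum, Finset.sum_const, Finset.card_univ, smul_eq_mul] at h3
  have h4 := Nat.lt_of_mul_lt_mul_left h3
  omega

end Pool.Agent.LibPtt90
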