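import Pool.Agent.LibComplexity.Sim
import Pool.Agent.LibComplexity.Encode

/-!
# Polynomial-time functions are primitive recursive (MP_8427ed_lc, task G)
-/

open Function

namespace Pool.Agent.LibPtt90
namespace TaskG

open Pool.Agent.LibComplexity Enc

/-- contents of register `k` -/
def getR (k : ℕ) (s : List (List Bool)) : List Bool := s.getD k []

/-- change register `k` -/
def setR : ℕ → List (List Bool) → List Bool → List (List Bool)
  | 0, s, v => v :: s.tail
  | k + 1, s, v => s.headD [] :: setR k s.tail v

theorem getD_tail (s : List (List Bool)) (k : ℕ) : s.tail.getD k [] = s.getD (k + 1) [] := by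
  cases s <;> simp

theorem getR_setR (k : ℕ) : ∀ (s : List (List Bool)) (v : List Bool) (j : ℕ),
    getR j (setR k s v) = if j = k then v else getR j s := by
  induction k with
  | zero =>
    intro s v j
    cases j with
    | zero => simp [getR, setR]
    | succ j =>
      have := getD_tail s j
      simp only [getR, setR, List.getD_cons_succ, this]
      simp
  | succ k ih =>
    intro s v j
    cases j with
    | zero =>
      cases s <;> simp [getR, setR]
    | succ j =>
      have h1 := ih s.tail v j
      have := getD_tail s j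
      simp only [getR, setR, List.getD_cons_succ, this] at h1 ⊢
      rw [h1]
      simp only [Nat.succ_inj]

theorem primrec_getR (k : ℕ) : Primrec (getR k) := by
  unfold getR
  exact (Primrec.list_getD []).comp Primrec.id (Primrec.const k)

theorem primrec_headD : Primrec (fun s : List (List Bool) => s.headD []) := by
  have h := (Primrec.list_getD (α := List Bool) []).comp Primrec.id (Primrec.const 0)
  refine h.of_eq fun s => ?_
  cases s <;> simp

theorem primrec_setR (k : ℕ) : Primrec₂ (setR k) := by
  induction k with
  | zero =>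
    exact Primrec.list_cons.comp Primrec.snd (Primrec.list_tail.comp Primrec.fst)
  | succ k ih =>
    exact Primrec.list_cons.comp (primrec_headD.comp Primrec.fst)
      (ih.comp (Primrec.list_tail.comp Primrec.fst) Primrec.snd)

/-- one pass through a case distinction -/
def br (k : ℕ) (fe ff ft : ℕ → List (List Bool) → List (List Bool)) (n : ℕ)
    (s : List (List Bool)) : List (List Bool) :=
  List.casesOn (motive := fun _ => List (List Bool)) (getR k s) (fe n s)
    (fun b r => bif b then ft n (setR k s r) else ff n (setR k s r))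

theorem primrec_br (k : ℕ) {fe ff ft : ℕ → List (List Bool) → List (List Bool)}
    (he : Primrec₂ fe) (hf : Primrec₂ ff) (ht : Primrec₂ ft) : Primrec₂ (br k fe ff ft) := by
  unfold br
  have hs : Primrec fun p : (ℕ × List (List Bool)) × (Bool × List Bool) =>
      setR k p.1.2 p.2.2 :=
    (primrec_setR k).comp (Primrec.snd.comp Primrec.fst) (Primrec.snd.comp Primrec.snd)
  have h1 : Primrec₂ fun (p : ℕ × List (List Bool)) (q : Bool × List Bool) =>
      bif q.1 then ft p.1 (setR k p.2 q.2) else ff p.1 (setR k p.2 q.2) :=
    Primrec.cond (Primrec.fst.comp Primrec.snd)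
      (ht.comp (Primrec.fst.comp Primrec.fst) hs) (hf.comp (Primrec.fst.comp Primrec.fst) hs)
  exact Primrec.list_casesOn ((primrec_getR k).comp Primrec.snd) he h1

/-- Interpreter; every loop is run `n` times. -/
def ev : Com → ℕ → List (List Bool) → List (List Bool)
  | .skip, _, s => s
  | .push k b, _, s => setR k s (b :: getR k s)
  | .seq c d, n, s => ev d n (ev c n s)
  | .cas k ce cf ct, n, s => br k (ev ce) (ev cf) (ev ct) n s
  | .loop k cf ct, n, s => (br k (fun _ s => s) (ev cf) (ev ct) n)^[n] s
  | .choose _ _, _, s => s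
  | .ask _ d, n, s => ev d n s

theorem primrec_ev (c : Com) : Primrec₂ (ev c) := by
  induction c with
  | skip => exact Primrec.snd
  | push k b =>
    exact (primrec_setR k).comp Primrec.snd
      (Primrec.list_cons.comp (Primrec.const b) ((primrec_getR k).comp Primrec.snd))
  | seq c d ihc ihd => exact ihd.comp Primrec.fst (ihc.comp Primrec.fst Primrec.snd)
  | cas k ce cf ct ihe ihf iht => exact primrec_br k ihe ihf iht
  | loop k cf ct ihf iht =>
    have h := primrec_br k (fe := fun _ s => s) Primrec.snd ihf iht
    exact Primrec.nat_iterate (f := fun p : ℕ × List (List Bool) => p.1) (g := fun p => p.2)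
      (h := fun p s => br k (fun _ s => s) (ev cf) (ev ct) p.1 s)
      Primrec.fst Primrec.snd
      (h.comp (Primrec.fst.comp Primrec.fst) Primrec.snd)
  | choose c d _ _ => exact Primrec.snd
  | ask c d _ ihd => exact ihd

/-- the list `s` represents the registers `σ` -/
def Rep (s : List (List Bool)) (σ : Regs) : Prop := ∀ k, getR k s = σ k

theorem Rep.update {s : List (List Bool)} {σ : Regs} (h : Rep s σ) (k : ℕ) (v : List Bool) :
    Rep (setR k s v) (update σ k v) := by
  intro j
  rw [getR_setR]
  by_cases hj : j = k
  · subst hj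
    simp
  · rw [if_neg hj, update_of_ne hj]
    exact h j

theorem br_nil {k : ℕ} {fe ff ft : ℕ → List (List Bool) → List (List Bool)} {n : ℕ}
    {s : List (List Bool)} {σ : Regs} (h : Rep s σ) (hk : σ k = []) :
    br k fe ff ft n s = fe n s := by
  unfold br
  rw [h k, hk]

theorem br_false {k : ℕ} {fe ff ft : ℕ → List (List Bool) → List (List Bool)} {n : ℕ}
    {s : List (List Bool)} {σ : Regs} {r : List Bool} (h : Rep s σ) (hk : σ k = false :: r) :
    br k fe ff ft n s = ff n (setR k s r) := by
  unfold br
  rw [h k, hk]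
  rfl

theorem br_true {k : ℕ} {fe ff ft : ℕ → List (List Bool) → List (List Bool)} {n : ℕ}
    {s : List (List Bool)} {σ : Regs} {r : List Bool} (h : Rep s σ) (hk : σ k = true :: r) :
    br k fe ff ft n s = ft n (setR k s r) := by
  unfold br
  rw [h k, hk]
  rfl

theorem ev_correct {c : Com} {σ β σ' β' t} (h : Exec ∅ c σ β σ' β' t) (hc : c.Det) :
    (∀ n ≥ t, ∀ s, Rep s σ → Rep (ev c n s) σ') ∧
    (∀ k cf ct, c = .loop k cf ct → ∀ n ≥ t, ∀ m ≥ t, ∀ s, Rep s σ →
      Rep ((br k (fun _ s => s) (ev cf) (ev ct) n)^[m] s) σ') := by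
  induction h with
  | skip => exact ⟨fun n _ s hs => hs, fun _ _ _ h => by cases h⟩
  | @push k b σ β =>
    refine ⟨fun n _ s hs => ?_, fun _ _ _ h => by cases h⟩
    show Rep (setR k s (b :: getR k s)) _
    rw [hs k]
    exact hs.update k _
  | @seq c d σ β σ' β' σ'' β'' t t' _ _ ih1 ih2 =>
    refine ⟨fun n hn s hs => ?_, fun _ _ _ h => by cases h⟩
    exact (ih2 hc.2).1 n (by omega) _ ((ih1 hc.1).1 n (by omega) s hs)
  | casE hk _ ih =>
    refine ⟨fun n hn s hs => ?_, fun _ _ _ h => by cases h⟩
    show Rep (br _ _ _ _ n s) _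
    rw [br_nil hs hk]
    exact (ih hc.1).1 n (by omega) s hs
  | casF hk _ ih =>
    refine ⟨fun n hn s hs => ?_, fun _ _ _ h => by cases h⟩
    show Rep (br _ _ _ _ n s) _
    rw [br_false hs hk]
    exact (ih hc.2.1).1 n (by omega) _ (hs.update _ _)
  | casT hk _ ih =>
    refine ⟨fun n hn s hs => ?_, fun _ _ _ h => by cases h⟩
    show Rep (br _ _ _ _ n s) _
    rw [br_true hs hk]
    exact (ih hc.2.2).1 n (by omega) _ (hs.update _ _)
  | @loopE k cf ct σ β hk =>
    have key : ∀ n m s, Rep s σ → Rep ((br k (fun _ s => s) (ev cf) (ev ct) n)^[m] s) σ := by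
      intro n m
      induction m with
      | zero => intro s hs; exact hs
      | succ m ih =>
        intro s hs
        rw [iterate_succ_apply, br_nil hs hk]
        exact ih s hs
    refine ⟨fun n _ s hs => key n n s hs, fun k' cf' ct' h n _ m _ s hs => ?_⟩
    cases h
    exact key n m s hs
  | @loopF k cf ct σ β σ' β' σ'' β'' t t' r hk _ _ ih1 ih2 =>
    have key : ∀ n ≥ t + t' + 2, ∀ m ≥ t + t' + 2, ∀ s, Rep s σ →
        Rep ((br k (fun _ s => s) (ev cf) (ev ct) n)^[m] s) σ'' := by
      intro n hn m hm s hs
      obtain ⟨m, rfl⟩ : ∃ m', m = m' + 1 := ⟨m - 1, by omega⟩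
      rw [iterate_succ_apply, br_false hs hk]
      exact (ih2 hc).2 k cf ct rfl n (by omega) m (by omega) _
        ((ih1 hc.1).1 n (by omega) _ (hs.update _ _))
    refine ⟨fun n hn s hs => key n hn n hn s hs, fun k' cf' ct' h n hn m hm s hs => ?_⟩
    cases h
    exact key n hn m hm s hs
  | @loopT k cf ct σ β σ' β' σ'' β'' t t' r hk _ _ ih1 ih2 =>
    have key : ∀ n ≥ t + t' + 2, ∀ m ≥ t + t' + 2, ∀ s, Rep s σ →
        Rep ((br k (fun _ s => s) (ev cf) (ev ct) n)^[m] s) σ'' := by
      intro n hn m hm s hs
      obtain ⟨m, rfl⟩ : ∃ m', m = m' + 1 := ⟨m - 1, by omega⟩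
      rw [iterate_succ_apply, br_true hs hk]
      exact (ih2 hc).2 k cf ct rfl n (by omega) m (by omega) _
        ((ih1 hc.2).1 n (by omega) _ (hs.update _ _))
    refine ⟨fun n hn s hs => key n hn n hn s hs, fun k' cf' ct' h n hn m hm s hs => ?_⟩
    cases h
    exact key n hn m hm s hs
  | chooseF => exact absurd hc (by simp [Com.Det])
  | chooseT => exact absurd hc (by simp [Com.Det])
  | askY hq _ _ => exact absurd hq (Set.notMem_empty _)
  | askN hq _ ih =>
    refine ⟨fun n hn s hs => ?_, fun _ _ _ h => by cases h⟩
    exact (ih hc.2).1 n (by omega) s hs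

theorem primrec_pow (k : ℕ) : Primrec (fun n : ℕ => n ^ k) := by
  induction k with
  | zero => exact (Primrec.const 1).of_eq fun n => by simp
  | succ k ih =>
    refine (Primrec.nat_mul.comp ih Primrec.id).of_eq fun n => ?_
    rw [pow_succ]
    rfl

theorem primrec_eval (P : Polynomial ℕ) : Primrec (fun n : ℕ => P.eval n) := by
  induction P using Polynomial.induction_on' with
  | add p q hp hq => exact (Primrec.nat_add.comp hp hq).of_eq fun n => by simp
  | monomial k a =>
    exact (Primrec.nat_mul.comp (Primrec.const a) (primrec_pow k)).of_eq fun n => by simp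

theorem Rep_init (w : List Bool) : Rep [w] (R [w]) := fun _ => rfl

/-- functions computed by deterministic programs in polynomial time are primitive recursive -/
theorem primrec_of_runs {f : List Bool → List Bool} (c : Com) (hc : c.Det) (T : Polynomial ℕ)
    (h : ∀ w, Runs ∅ c (R [w]) (R [f w]) (T.eval w.length)) : Primrec f := by
  have h1 : Primrec (fun w : List Bool => getR 0 (ev c (T.eval w.length) [w])) :=
    (primrec_getR 0).comp ((primrec_ev c).comp ((primrec_eval T).comp Primrec.list_length)
      (Primrec.list_cons.comp Primrec.id (Primrec.const [])))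
  refine h1.of_eq fun w => ?_
  obtain ⟨t, ht, hx⟩ := h w (fun _ => false)
  have := (ev_correct hx hc).1 _ ht [w] (Rep_init w) 0
  rw [this]
  rfl

/-! ### decoding lists of words -/

/-- the automaton that reads the encoding of a list of words -/
def pst (s : ℕ × List Bool × List (List Bool)) (b : Bool) : ℕ × List Bool × List (List Bool) :=
  if s.1 = 0 then bif b then (1, [], s.2.2) else (5, [], s.2.2)
  else if s.1 = 1 then bif b then (2, s.2.1, s.2.2) else (0, [], s.2.1.reverse :: s.2.2)
  else if s.1 = 2 then bif b then (3, s.2.1, s.2.2) else (1, false :: s.2.1, s.2.2)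
  else if s.1 = 3 then (4, s.2.1, s.2.2)
  else if s.1 = 4 then (1, true :: s.2.1, s.2.2)
  else s

theorem pst_word (w : List Bool) : ∀ (cur : List Bool) (acc : List (List Bool)),
    (e w).enc.foldl pst (1, cur, acc) = (0, [], (cur.reverse ++ w) :: acc) := by
  induction w with
  | nil =>
    intro cur acc
    simp [e_nil, Tr.enc, pst]
  | cons b w ih =>
    intro cur acc
    cases b with
    | false =>
      have h1 : (e (false :: w)).enc = true :: false :: (e w).enc := by
        rw [e_cons, e_false]; rfl
      rw [h1]
      simp only [List.foldl_cons]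
      have h2 : pst (pst (1, cur, acc) true) false = (1, false :: cur, acc) := by
        simp [pst]
      rw [h2, ih]
      simp
    | true =>
      have h1 : (e (true :: w)).enc = true :: true :: false :: false :: (e w).enc := by
        rw [e_cons, e_true]; rfl
      rw [h1]
      simp only [List.foldl_cons]
      have h2 : pst (pst (pst (pst (1, cur, acc) true) true) false) false =
          (1, true :: cur, acc) := by
        simp [pst]
      rw [h2, ih]
      simp

theorem pst_list (l : List (List Bool)) : ∀ acc : List (List Bool),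
    (e l).enc.foldl pst (0, [], acc) = (5, [], l.reverse ++ acc) := by
  induction l with
  | nil =>
    intro acc
    simp [e_nil, Tr.enc, pst]
  | cons w l ih =>
    intro acc
    have h1 : (e (w :: l)).enc = true :: ((e w).enc ++ (e l).enc) := by
      rw [e_cons]; rfl
    rw [h1]
    simp only [List.foldl_cons, List.foldl_append]
    have h2 : pst (0, [], acc) true = (1, [], acc) := by simp [pst]
    rw [h2, pst_word, ih]
    simp

/-- decoder -/
def dec (w : List Bool) : List (List Bool) := (w.foldl pst (0, [], [])).2.2.reverse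

theorem dec_word (l : List (List Bool)) : dec (word l) = l := by
  unfold dec word
  rw [pst_list]
  simp

theorem primrec_pst : Primrec₂ pst := by
  unfold pst
  have hs : Primrec fun p : (ℕ × List Bool × List (List Bool)) × Bool => p.1.1 :=
    Primrec.fst.comp Primrec.fst
  have hb : Primrec fun p : (ℕ × List Bool × List (List Bool)) × Bool => p.2 := Primrec.snd
  have hc : Primrec fun p : (ℕ × List Bool × List (List Bool)) × Bool => p.1.2.1 :=
    Primrec.fst.comp (Primrec.snd.comp Primrec.fst)
  have ha : Primrec fun p : (ℕ × List Bool × List (List Bool)) × Bool => p.1.2.2 :=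
    Primrec.snd.comp (Primrec.snd.comp Primrec.fst)
  have he : ∀ k : ℕ, PrimrecPred fun p : (ℕ × List Bool × List (List Bool)) × Bool =>
      p.1.1 = k := fun k => Primrec.eq.comp hs (Primrec.const k)
  have hk : ∀ k : ℕ, Primrec fun _ : (ℕ × List Bool × List (List Bool)) × Bool => k :=
    fun k => Primrec.const k
  have hn : Primrec fun _ : (ℕ × List Bool × List (List Bool)) × Bool => ([] : List Bool) :=
    Primrec.const []
  refine Primrec.ite (he 0) (Primrec.cond hb ((hk 1).pair (hn.pair ha))
    ((hk 5).pair (hn.pair ha))) ?_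
  refine Primrec.ite (he 1) (Primrec.cond hb ((hk 2).pair (hc.pair ha))
    ((hk 0).pair (hn.pair (Primrec.list_cons.comp (Primrec.list_reverse.comp hc) ha)))) ?_
  refine Primrec.ite (he 2) (Primrec.cond hb ((hk 3).pair (hc.pair ha))
    ((hk 1).pair ((Primrec.list_cons.comp (Primrec.const false) hc).pair ha))) ?_
  refine Primrec.ite (he 3) ((hk 4).pair (hc.pair ha)) ?_
  refine Primrec.ite (he 4)
    ((hk 1).pair ((Primrec.list_cons.comp (Primrec.const true) hc).pair ha)) ?_
  exact Primrec.fst

theorem primrec_dec : Primrec dec := by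
  unfold dec
  refine Primrec.list_reverse.comp (Primrec.snd.comp (Primrec.snd.comp ?_))
  exact Primrec.list_foldl (f := fun w : List Bool => w)
    (g := fun _ => ((0 : ℕ), ([] : List Bool), ([] : List (List Bool))))
    (h := fun _ q => pst q.1 q.2) Primrec.id (Primrec.const _)
    (primrec_pst.comp (Primrec.fst.comp Primrec.snd) (Primrec.snd.comp Primrec.snd))

end TaskG

open Pool.Agent.LibComplexity in
theorem primrec_of_inFP {f : List Bool → List Bool} (h : InFP ∅ f) : Primrec f := by
  obtain ⟨Q, hQ⟩ := (inFP_iff.1 h).size_le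
  obtain ⟨c, hc, P, hP⟩ := inFP_iff.1 h
  refine TaskG.primrec_of_runs (.seq tolist (.seq c fromlist)) ⟨det_tolist, hc, det_fromlist⟩
    (9 * Polynomial.X + 3 + P.comp (4 * Polynomial.X + 1) +
    (14 * Q.comp (4 * Polynomial.X + 1) + 4)) fun w => ?_
  have h1 := runs_tolist (A := ∅) w
  have h2 := hP ∅ rfl w
  have h3 := runs_fromlist (A := ∅) (f w)
  refine (h1.seq (h2.seq h3)).mono ?_
  simp only [Polynomial.eval_add, Polynomial.eval_mul, Polynomial.eval_X, Polynomial.eval_ofNat,
    Polynomial.eval_comp, Polynomial.eval_one]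
  have h4 := peval_mono P (sz_word_le w)
  have h5 := hQ ∅ rfl w
  have h6 := peval_mono Q (sz_word_le w)
  have h7 := length_le_sz (f w)
  omega

open Pool.Agent.LibComplexity in
theorem primrec_of_PTf_lists {f : List Bool → List (List Bool)}
    (h : PTf {∅} (fun _ w => f w)) : Primrec f := by
  have h1 : InFP ∅ (fun w => word (f w)) := inFP_iff.2 h.word
  have h2 := TaskG.primrec_dec.comp (primrec_of_inFP h1)
  exact h2.of_eq fun w => TaskG.dec_word (f w)

end Pool.Agent.LibPtt90
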