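import Pool.Agent.LibPtt90.Static

/-!
Invariants of the strategy (task I).
-/

namespace Pool.Agent.LibPtt90

namespace TaskI

theorem take_one_filter {α : Type*} (l : List α) (p : α → Bool) :
    ((l.filter p).take 1 = [] ∧ ∀ x ∈ l, p x = false) ∨
    ∃ l₁ b l₂, l = l₁ ++ b :: l₂ ∧ (∀ x ∈ l₁, p x = false) ∧ p b = true ∧
      (l.filter p).take 1 = [b] := by
  induction l with
  | nil => left; simp
  | cons a l ih =>
    rcases hp : p a with _ | _
    · rcases ih with ⟨h1, h2⟩ | ⟨l₁, b, l₂, h1, h2, h3, h4⟩
      · left
        refine ⟨by rw [List.filter_cons_of_neg (by simp [hp])]; exact h1, ?_⟩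
        intro x hx
        rcases List.mem_cons.1 hx with rfl | hx
        · exact hp
        · exact h2 x hx
      · right
        refine ⟨a :: l₁, b, l₂, by rw [h1, List.cons_append], ?_, h3, ?_⟩
        · intro x hx
          rcases List.mem_cons.1 hx with rfl | hx
          · exact hp
          · exact h2 x hx
        · rw [List.filter_cons_of_neg (by simp [hp])]; exact h4
    · right
      refine ⟨[], a, l, rfl, by simp, hp, ?_⟩
      rw [List.filter_cons_of_pos hp]
      simp

theorem move_cases (a : List Bool → Bool) (e : List Bool) (σ : List (List Bool × List Bool)) :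
    (move a e σ = σ ∧ (needs a σ e = false ∨ ∀ x ∈ cnd e, free a σ e x = false)) ∨
    (needs a σ e = true ∧ ∃ l₁ b l₂, cnd e = l₁ ++ b :: l₂ ∧ (∀ x ∈ l₁, free a σ e x = false) ∧
      free a σ e b = true ∧ move a e σ = (e, b) :: σ) := by
  unfold move
  rcases hn : needs a σ e with _ | _
  · left
    simp
  · rcases take_one_filter (cnd e) (free a σ e) with ⟨h1, h2⟩ | ⟨l₁, b, l₂, h1, h2, h3, h4⟩
    · left
      refine ⟨?_, Or.inr h2⟩
      rw [if_pos rfl, ← List.map_take, h1]
      rfl
    · right
      refine ⟨rfl, l₁, b, l₂, h1, h2, h3, ?_⟩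
      rw [if_pos rfl, ← List.map_take, h4]
      rfl

theorem free_true {a : List Bool → Bool} {σ : List (List Bool × List Bool)} {e β : List Bool}
    (h : free a σ e β = true) : burned a e β = false ∧ ∀ q ∈ σ, q.2 ≠ β := by
  unfold free at h
  rw [Bool.and_eq_true, List.all_eq_true] at h
  refine ⟨by simpa using h.1, fun q hq => ?_⟩
  simpa using h.2 q hq

theorem free_false {a : List Bool → Bool} {σ : List (List Bool × List Bool)} {e β : List Bool}
    (h : free a σ e β = false) : burned a e β = true ∨ ∃ e', (e', β) ∈ σ := by
  unfold free at h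
  rw [Bool.and_eq_false_iff] at h
  rcases h with h | h
  · left; simpa using h
  · right
    rw [List.all_eq_false] at h
    obtain ⟨q, hq, h⟩ := h
    refine ⟨q.1, ?_⟩
    have : q.2 = β := by simpa using h
    rw [← this]
    exact hq

theorem needs_true {a : List Bool → Bool} {σ : List (List Bool × List Bool)} {e β : List Bool}
    (h : needs a σ e = true) (hq : (e, β) ∈ σ) : burned a e β = true := by
  unfold needs at h
  rw [List.all_eq_true] at h
  simpa using h _ hq

theorem needs_false {a : List Bool → Bool} {σ : List (List Bool × List Bool)} {e : List Bool}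
    (h : needs a σ e = false) : ∃ β, (e, β) ∈ σ ∧ burned a e β = false := by
  unfold needs at h
  rw [List.all_eq_false] at h
  obtain ⟨q, hq, h⟩ := h
  rw [Bool.or_eq_true, not_or] at h
  have h1 : q.1 = e := by simpa using h.1
  refine ⟨q.2, ?_, by simpa using h.2⟩
  rw [← h1]
  exact hq

end TaskI

open TaskI

section
variable {inA adv : ℕ → List Bool → Bool} {nm : ℕ → List Bool}

/-- the block `β` is burned or written at stage `s` -/
def used (inA adv : ℕ → List Bool → Bool) (nm : ℕ → List Bool) (s : ℕ) (e β : List Bool) : Prop :=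
  burned (adv s) e β = true ∨ ∃ e', (e', β) ∈ state inA adv nm s

theorem burned_congr {a : List Bool → Bool} {e e' : List Bool} (h : e.length = e'.length)
    (β : List Bool) : burned a e β = burned a e' β := by
  unfold burned ofs ok scale
  rw [h]

theorem burned_mono (hadv : ∀ s y, adv s y = true → adv (s + 1) y = true) {s s' : ℕ} (h : s ≤ s')
    {e β : List Bool} (hb : burned (adv s) e β = true) : burned (adv s') e β = true := by
  induction s', h using Nat.le_induction with
  | base => exact hb
  | succ n hn ih =>
    unfold burned at ih ⊢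
    rw [decide_eq_true_eq] at ih ⊢
    refine ih.trans (Nat.mul_le_mul_left 8 ?_)
    exact (List.monotone_filter_right _ fun x hx => hadv n _ hx).length_le

theorem state_mono {s s' : ℕ} (h : s ≤ s') {q : List Bool × List Bool}
    (hq : q ∈ state inA adv nm s) : q ∈ state inA adv nm s' := by
  induction s', h using Nat.le_induction with
  | base => exact hq
  | succ n hn ih =>
    unfold state
    split_ifs with hA
    · rcases move_cases (adv n) (nm n) (state inA adv nm n) with h1 | ⟨-, l₁, b, l₂, -, -, -, h1⟩
      · rw [h1.1]; exact ih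
      · rw [h1]; exact List.mem_cons_of_mem _ ih
    · exact ih

namespace TaskI

/-- the two kinds of entries of the next state -/
theorem state_succ {s : ℕ} {e β : List Bool} (h : (e, β) ∈ state inA adv nm (s + 1)) :
    (e, β) ∈ state inA adv nm s ∨
    (state inA adv nm (s + 1) = (e, β) :: state inA adv nm s ∧
      needs (adv s) (state inA adv nm s) e = true ∧
      ∃ l₁ l₂, cnd e = l₁ ++ β :: l₂ ∧
        (∀ x ∈ l₁, free (adv s) (state inA adv nm s) e x = false) ∧
        free (adv s) (state inA adv nm s) e β = true) := by
  rw [state] at h ⊢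
  split_ifs at h ⊢ with hA
  · rcases move_cases (adv s) (nm s) (state inA adv nm s) with h1 | ⟨hn, l₁, b, l₂, h1, h2, h3, h4⟩
    · rw [h1.1] at h; exact Or.inl h
    · rw [h4] at h ⊢
      rcases List.mem_cons.1 h with h | h
      · right
        obtain ⟨rfl, rfl⟩ := Prod.mk.inj h
        exact ⟨rfl, hn, l₁, l₂, h1, h2, h3⟩
      · exact Or.inl h
  · exact Or.inl h

end TaskI

theorem state_cnd {s : ℕ} {e β : List Bool} (h : (e, β) ∈ state inA adv nm s) : β ∈ cnd e := by
  induction s with
  | zero => simp [state] at h
  | succ s ih =>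
    rcases state_succ h with h | ⟨-, -, l₁, l₂, h1, -⟩
    · exact ih h
    · rw [h1]; simp

theorem state_unique {s : ℕ} {e e' β : List Bool} (h : (e, β) ∈ state inA adv nm s)
    (h' : (e', β) ∈ state inA adv nm s) : e = e' := by
  induction s with
  | zero => simp [state] at h
  | succ s ih =>
    rcases state_succ h with h1 | ⟨hs, -, l₁, l₂, -, -, hf⟩
    · rcases state_succ h' with h2 | ⟨-, -, l₁, l₂, -, -, hf⟩
      · exact ih h1 h2
      · exact absurd rfl ((free_true hf).2 _ h1)
    · rw [hs] at h'
      rcases List.mem_cons.1 h' with h2 | h2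
      · exact ((Prod.mk.inj h2).1).symm
      · exact absurd rfl ((free_true hf).2 _ h2)

theorem state_alive (hadv : ∀ s y, adv s y = true → adv (s + 1) y = true) {s : ℕ}
    {e β β' : List Bool} (h : (e, β) ∈ state inA adv nm s) (h' : (e, β') ∈ state inA adv nm s)
    (hb : burned (adv s) e β = false) (hb' : burned (adv s) e β' = false) : β = β' := by
  induction s with
  | zero => simp [state] at h
  | succ s ih =>
    have key : ∀ γ, burned (adv (s + 1)) e γ = false → burned (adv s) e γ = false := by
      intro γ hγ
      by_contra hc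
      rw [Bool.not_eq_false] at hc
      rw [burned_mono hadv (Nat.le_succ s) hc] at hγ
      exact Bool.noConfusion hγ
    have hb1 := key _ hb
    have hb2 := key _ hb'
    rcases state_succ h with h1 | ⟨hs, hn, -⟩
    · rcases state_succ h' with h2 | ⟨-, hn, -⟩
      · exact ih h1 h2 hb1 hb2
      · rw [needs_true hn h1] at hb1
        exact Bool.noConfusion hb1
    · rw [hs] at h'
      rcases List.mem_cons.1 h' with h2 | h2
      · exact ((Prod.mk.inj h2).2).symm
      · rw [needs_true hn h2] at hb2
        exact Bool.noConfusion hb2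

namespace TaskI

theorem used_mono (hadv : ∀ s y, adv s y = true → adv (s + 1) y = true) {s s' : ℕ} (h : s ≤ s')
    {e β : List Bool} (hu : used inA adv nm s e β) : used inA adv nm s' e β := by
  rcases hu with hu | ⟨e', hu⟩
  · exact Or.inl (burned_mono hadv h hu)
  · exact Or.inr ⟨e', state_mono h hu⟩

theorem cnd_sorted (e : List Bool) :
    (cnd e).Pairwise fun x y => y.length ≤ x.length := by
  unfold cnd
  split_ifs with he
  · unfold cand
    rw [List.pairwise_flatMap]
    constructor
    · intro i _
      rw [List.pairwise_iff_forall_sublist]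
      intro a b hab
      have h1 := nb_length (hab.subset (show a ∈ [a, b] by simp))
      have h2 := nb_length (hab.subset (show b ∈ [a, b] by simp))
      rw [h1, h2]
    · refine List.pairwise_lt_range.imp ?_
      intro i j hij x hx y hy
      rw [nb_length hx, nb_length hy]
      apply Nat.mul_le_mul_left
      omega
  · exact List.Pairwise.nil

end TaskI

theorem state_above (hadv : ∀ s y, adv s y = true → adv (s + 1) y = true) {s : ℕ}
    {e β β' : List Bool} {i i' : ℕ} (h : (e, β) ∈ state inA adv nm s)
    (hi : β ∈ nb (scale e) i e) (hii : i < i') (hi' : i' ≤ 2 ^ scale e + 1)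
    (hβ' : β' ∈ nb (scale e) i' e) : used inA adv nm s e β' := by
  induction s with
  | zero => simp [state] at h
  | succ s ih =>
    rcases state_succ h with h1 | ⟨hs, hn, l₁, l₂, h1, h2, -⟩
    · exact used_mono hadv (Nat.le_succ s) (ih h1)
    · have hc := cnd_sorted e
      have he : ok e = true := by
        by_contra hok
        have : cnd e = [] := by unfold cnd; rw [if_neg hok]
        rw [this] at h1
        simp at h1
      have hL := scale_pos he
      have hlen : β.length < β'.length := by
        rw [nb_length hi, nb_length hβ']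
        exact Nat.mul_lt_mul_of_pos_left (by omega) hL
      have hm : β' ∈ cnd e := (mem_cnd he).2 ⟨i', hi', hβ'⟩
      rw [h1] at hc hm
      have hc2 := (List.pairwise_append.1 hc).2.1
      rw [List.pairwise_cons] at hc2
      rcases List.mem_append.1 hm with hm | hm
      · rcases free_false (h2 _ hm) with h3 | ⟨e', h3⟩
        · exact used_mono hadv (Nat.le_succ s) (Or.inl h3)
        · exact used_mono hadv (Nat.le_succ s) (Or.inr ⟨e', h3⟩)
      · exfalso
        rcases List.mem_cons.1 hm with hm | hm
        · rw [hm] at hlen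
          exact lt_irrefl _ hlen
        · exact absurd hlen (not_lt.2 (hc2.1 _ hm))

theorem state_act (hadv : ∀ s y, adv s y = true → adv (s + 1) y = true) {s : ℕ} {e : List Bool}
    (hnm : nm s = e) (hA : inA s e = true) (hfree : ∃ β ∈ cnd e, ¬ used inA adv nm s e β) :
    ∃ β, (e, β) ∈ state inA adv nm (s + 1) ∧ burned (adv s) e β = false := by
  subst hnm
  have hst : state inA adv nm (s + 1) = move (adv s) (nm s) (state inA adv nm s) := by
    rw [state, if_pos hA]
  rcases move_cases (adv s) (nm s) (state inA adv nm s) with ⟨h1, h2⟩ | ⟨hn, l₁, b, l₂, h1, h2, h3, h4⟩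
  · rcases h2 with h2 | h2
    · obtain ⟨β, hβ, hb⟩ := needs_false h2
      exact ⟨β, state_mono (Nat.le_succ s) hβ, hb⟩
    · exfalso
      obtain ⟨β, hβ, hu⟩ := hfree
      exact hu (free_false (h2 β hβ))
  · refine ⟨b, ?_, (free_true h3).1⟩
    rw [hst, h4]
    exact List.mem_cons_self

end

end Pool.Agent.LibPtt90
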